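import Mathlib
import Pool.Agent.H378R2.Defs
import Pool.Agent.H555R4.LW.Stmts

set_option autoImplicit false

/-!
# The Lenstra-Pomerance-Wagstaff law for almost every odd 2-adic integer

Target (MP_9b2bac_nt): for almost every sequence of binary digits (least significant digit first,
first digit one) the number of primes `p ≤ n` such that the `p`-rough part of the integer formed by
the first `p` digits is prime is asymptotic to `(e ^ γ / log 2) log n`.  All digits one: Mersenne.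
-/

open Finset Filter Topology

namespace Pool.Agent.H555R4.DY

open Pool.Agent.H378R2 (psiPhi)
open Pool.Agent.H555R4.LW (rp sp StA StB1 StCh)
/-! ### L-functions -/

/-- Z1: zero-free region (Landau), complex characters -/
def StZ1 : Prop := ∃ c l₀ : ℝ, 0 < c ∧ c ≤ 1 / 4 ∧ 4 ≤ l₀ ∧ ∀ l : ℝ, l₀ ≤ l →
  ∀ (q : ℕ) [NeZero q] (χ : DirichletCharacter ℂ q), χ ^ 2 ≠ 1 → Real.log q ≤ l →
    ∀ s : ℂ, |s.re - 1| ≤ c / (l * Real.log l) → Real.log (2 * |s.im| + 3) ≤ l →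
      DirichletCharacter.LFunction χ s ≠ 0 ∧
        ‖deriv (DirichletCharacter.LFunction χ) s / DirichletCharacter.LFunction χ s‖ ≤ l ^ 3

/-- Q: primitive characters modulo `2 ^ a`, `a ≥ 4`, are not quadratic -/
def StQ : Prop := ∀ a : ℕ, 4 ≤ a → ∀ χ : DirichletCharacter ℂ (2 ^ a), χ.IsPrimitive → χ ^ 2 ≠ 1

/-- Z2: pointwise bound -/
def StZ2 : Prop := ∀ A : ℕ, ∃ X₀ : ℝ, ∀ X : ℝ, X₀ ≤ X → ∀ a : ℕ, 2 ≤ a →
  (a : ℝ) * (Real.log (Real.log X)) ^ 3 ≤ Real.log X →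
    ∀ χ : DirichletCharacter ℂ (2 ^ a), χ.IsPrimitive → ‖psiPhi χ X‖ ≤ X / (Real.log X) ^ A

open Classical in
/-- Z3: mean square over the characters modulo `2 ^ p` -/
def StZ3 : Prop := ∀ A : ℕ, ∃ X₀ : ℝ, ∀ X : ℝ, X₀ ≤ X → ∀ p : ℕ, 1 ≤ p →
  (p : ℝ) * (Real.log (Real.log X)) ^ 3 ≤ Real.log X →
    ∑ χ ∈ (univ : Finset (DirichletCharacter ℂ (2 ^ p))).filter (fun χ => χ ≠ 1),
      ‖psiPhi χ X‖ ^ 2 ≤ X ^ 2 / (Real.log X) ^ A

/-- logarithmically weighted sum -/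
noncomputable def psi1 {f : ℕ} (χ : DirichletCharacter ℂ f) (x : ℝ) : ℂ :=
  ∑ n ∈ Icc 1 ⌊x⌋₊, ((Real.log (x / n) * ArithmeticFunction.vonMangoldt n : ℝ) : ℂ) *
    χ (n : ZMod f)

open Classical in
/-- Z4a: mean square of `psi1` -/
def StZ4a : Prop := ∀ A : ℕ, ∃ X₀ : ℝ, ∀ X : ℝ, X₀ ≤ X → ∀ p : ℕ, 1 ≤ p →
  (p : ℝ) * (Real.log (Real.log X)) ^ 4 ≤ Real.log X →
    ∑ χ ∈ (univ : Finset (DirichletCharacter ℂ (2 ^ p))).filter (fun χ => χ ≠ 1),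
      ‖psi1 χ X‖ ^ 2 ≤ X ^ 2 / (Real.log X) ^ A

/-- Z4b: variance of `Λ` in the classes modulo `2 ^ p` -/
def StZ4 : Prop := ∀ A : ℕ, ∃ X₀ : ℝ, ∀ x : ℕ, X₀ ≤ (x : ℝ) → ∀ p : ℕ, 1 ≤ p →
  (p : ℝ) * (Real.log (Real.log x)) ^ 4 ≤ Real.log x →
    ∑ a ∈ (range (2 ^ p)).filter (fun a => Odd a),
      (∑ n ∈ (Icc 1 x).filter (fun n => n % 2 ^ p = a), ArithmeticFunction.vonMangoldt n -
        (1 / 2 ^ (p - 1)) * ∑ n ∈ (Icc 1 x).filter (fun n => Odd n),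
          ArithmeticFunction.vonMangoldt n) ^ 2 ≤
      (x : ℝ) ^ 2 / (2 ^ p * (Real.log x) ^ A)

/-- Z5: variance of the primes in the classes modulo `2 ^ p` -/
def StZ5 : Prop := ∀ A : ℕ, ∃ X₀ : ℝ, ∀ x : ℕ, X₀ ≤ (x : ℝ) → ∀ p : ℕ, 1 ≤ p →
  (p : ℝ) * (Real.log (Real.log x)) ^ 5 ≤ Real.log x →
    ∑ a ∈ (range (2 ^ p)).filter (fun a => Odd a),
      ((((Icc 1 x).filter (fun n => n.Prime ∧ n % 2 ^ p = a)).card : ℝ) -
        (1 / 2 ^ (p - 1)) * (((Icc 1 x).filter (fun n => n.Prime ∧ Odd n)).card : ℝ)) ^ 2 ≤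
      (x : ℝ) ^ 2 / (2 ^ p * (Real.log x) ^ A)

/-! ### rough parts -/

/-- number of odd `n < 2 ^ p` whose `p`-rough part is prime -/
noncomputable def cB (p : ℕ) : ℕ :=
  ((range (2 ^ p)).filter (fun n => Odd n ∧ (rp p n).Prime)).card

/-- Z6: variance of the integers with prime rough part -/
def StV : Prop := ∀ A : ℕ, ∃ q₀ : ℕ, ∀ q : ℕ, q₀ ≤ q → ∀ p : ℕ, 1 ≤ p →
  (p : ℝ) * (Real.log q) ^ 6 ≤ q →
    ∑ m ∈ (range (2 ^ p)).filter (fun m => Odd m),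
      ((((range (2 ^ q)).filter (fun n => n % 2 ^ p = m ∧ (rp q n).Prime)).card : ℝ) -
        (1 / 2 ^ (p - 1)) * (cB q : ℝ)) ^ 2 ≤ ((2 : ℝ) ^ q) ^ 2 / (2 ^ p * (q : ℝ) ^ A)

/-- number of odd `n < 2 ^ q` with prime `q`-rough part, whose last `p` digits have prime
`p`-rough part -/
noncomputable def cBB (p q : ℕ) : ℕ :=
  ((range (2 ^ q)).filter (fun n => Odd n ∧ (rp q n).Prime ∧ (rp p (n % 2 ^ p)).Prime)).card

/-- Cov: covariance of two distant exponents -/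
def StCov : Prop := ∀ A : ℕ, ∃ q₀ : ℕ, ∀ q : ℕ, q₀ ≤ q → ∀ p : ℕ, 1 ≤ p →
  (p : ℝ) * (Real.log q) ^ 6 ≤ q →
    |(cBB p q : ℝ) / 2 ^ (q - 1) - ((cB p : ℝ) / 2 ^ (p - 1)) * ((cB q : ℝ) / 2 ^ (q - 1))| ≤
      1 / (q : ℝ) ^ A

open Classical in
/-- two-dimensional sieve -/
def StB2 : Prop := ∃ C : ℝ, 0 < C ∧ ∃ q₀ : ℕ, ∀ q : ℕ, q₀ ≤ q → ∀ A T p r : ℕ, 2 ^ (q / 4) ≤ T →
  0 < r → r < 2 ^ q →
  (((Ico A (A + T)).filter
    (fun m => ∀ l : ℕ, l.Prime → q < l → l ≤ 2 ^ (q / 64) →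
      ¬ l ∣ m ∧ ¬ l ∣ m + 2 ^ p * r)).card : ℝ) ≤ C * T * (Real.log q / q) ^ 2

/-- U1: upper bound for one exponent -/
def StU1 : Prop := ∃ C : ℝ, 0 < C ∧ ∃ p₀ : ℕ, ∀ p : ℕ, p₀ ≤ p →
  (((range (2 ^ p)).filter (fun n => (rp p n).Prime)).card : ℝ) ≤ C * 2 ^ p * (Real.log p / p)

/-- U2: upper bound for two exponents -/
def StU2 : Prop := ∃ C : ℝ, 0 < C ∧ ∃ p₀ : ℕ, ∀ p : ℕ, p₀ ≤ p → ∀ k : ℕ, 1 ≤ k → k ≤ p →
  (cBB p (p + k) : ℝ) ≤ C * 2 ^ (p + k) * ((Real.log p / p) ^ 2 + Real.log p / p / 2 ^ k)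

/-- number of successful primes in the block `(2 ^ i, 2 ^ (i + 1)]` -/
def Zb (i n : ℕ) : ℕ := ((Ioc (2 ^ i) (2 ^ (i + 1))).filter
  (fun p => p.Prime ∧ (rp p (n % 2 ^ p)).Prime)).card

/-- SM: second moment of a block -/
def StSM : Prop := ∃ C : ℝ, 0 < C ∧ ∀ i : ℕ,
  ∑ n ∈ (range (2 ^ (2 ^ (i + 1)))).filter (fun n => Odd n), (Zb i n : ℝ) ^ 2 ≤
    C * 2 ^ (2 ^ (i + 1))

/-- Mean: the mean for one exponent -/
def StMean : Prop := Tendsto (fun p : ℕ => (cB p : ℝ) / 2 ^ (p - 1) * (p / Real.log p)) atTop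
  (𝓝 (Real.exp Real.eulerMascheroniConstant / Real.log 2))

/-- number of successful primes in `(1, 2 ^ I]` -/
def Sb (I n : ℕ) : ℕ := ∑ i ∈ range I, Zb i n

/-- its mean -/
noncomputable def aS (I : ℕ) : ℝ :=
  (∑ n ∈ (range (2 ^ (2 ^ I))).filter (fun n => Odd n), (Sb I n : ℝ)) / 2 ^ (2 ^ I - 1)

/-- MeanS: asymptotics of the mean -/
def StMeanS : Prop := Tendsto (fun I : ℕ => aS I / I) atTop
  (𝓝 (Real.exp Real.eulerMascheroniConstant))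

/-- Var: variance of the number of successful primes -/
def StVar : Prop := ∃ C : ℝ, 0 < C ∧ ∀ I : ℕ, 2 ≤ I →
  ∑ n ∈ (range (2 ^ (2 ^ I))).filter (fun n => Odd n), ((Sb I n : ℝ) - aS I) ^ 2 ≤
    C * (I * Real.log I) * 2 ^ (2 ^ I)

/-! ### the random digits -/

/-- the integer with binary digits `ε 0, …, ε (p - 1)`, least significant first -/
def num (ε : ℕ → Bool) (p : ℕ) : ℕ := ∑ i ∈ range p, if ε i then 2 ^ i else 0

/-- fair coin tossing -/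
noncomputable def coin : MeasureTheory.Measure (ℕ → Bool) :=
  MeasureTheory.Measure.infinitePi (fun _ : ℕ => (PMF.uniformOfFintype Bool).toMeasure)

/-- Meas: law of the first digits -/
def StMeas : Prop := ∀ p n : ℕ, coin {ε | num ε p = n} ≤ ENNReal.ofReal (1 / 2 ^ p)

/-- the counting function -/
def cntB (ε : ℕ → Bool) (n : ℕ) : ℕ :=
  ((range (n + 1)).filter (fun p => p.Prime ∧ (rp p (num ε p)).Prime)).card

/-- the law -/
def StLLN : Prop := ∀ᵐ ε ∂coin, ε 0 = true →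
  Tendsto (fun n : ℕ => (cntB ε n : ℝ) / Real.log n) atTop
    (𝓝 (Real.exp Real.eulerMascheroniConstant / Real.log 2))

/-! ### The tasks -/

def TaskZ1 : Prop := StZ1
def TaskQ : Prop := StQ
def TaskZ2 : Prop := StZ1 → StQ → StZ2
def TaskZ3 : Prop := StZ2 → StZ3
def TaskZ4a : Prop := StZ3 → StZ4a
def TaskZ4 : Prop := StZ4a → StZ4
def TaskZ5 : Prop := StZ4 → StZ5
def TaskV : Prop := StZ5 → StA → StV
def TaskCov : Prop := StV → StCov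
def TaskB2 : Prop := StB2
def TaskU1 : Prop := StA → StB1 → StU1
def TaskU2 : Prop := StA → StB1 → StB2 → StU1 → StU2
def TaskSM : Prop := StCh → StU1 → StU2 → StSM
def TaskMean : Prop := StMean
def TaskMeanS : Prop := StMean → StMeanS
def TaskVar : Prop := StSM → StCov → StVar
def TaskMeas : Prop := StMeas
def TaskLLN : Prop := StVar → StMeanS → StMeas → StLLN

theorem final (z1 : TaskZ1) (q : TaskQ) (z2 : TaskZ2) (z3 : TaskZ3) (z4a : TaskZ4a) (z4 : TaskZ4)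
    (z5 : TaskZ5) (v : TaskV) (cov : TaskCov) (b2 : TaskB2) (u1 : TaskU1) (u2 : TaskU2)
    (sm : TaskSM) (mean : TaskMean) (means : TaskMeanS) (var : TaskVar) (meas : TaskMeas)
    (lln : TaskLLN) (hA : StA) (hB1 : StB1) (hCh : StCh) : StLLN :=
  lln (var (sm hCh (u1 hA hB1) (u2 hA hB1 b2 (u1 hA hB1))) (cov (v (z5 (z4 (z4a (z3 (z2 z1 q))))) hA)))
    (means mean) meas

end Pool.Agent.H555R4.DY
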