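import Pool.Agent.H555R4.DY.Stmts
import Pool.Agent.Helper403.Sieve
import Pool.Agent.H532R3.LW.P2

set_option autoImplicit false

namespace Pool.Agent.H555R4.DY.B2

open Finset Pool.Agent.H532R3.LW
open Pool.Agent.Helper403 (nu Hw SieveData sieve_bound)

/-- the local conditions -/
def bd (A p r : ℕ) (l t : ℕ) : Prop := l ∣ A + t ∨ l ∣ A + t + 2 ^ p * r

lemma exists_root (l A : ℕ) (hl : 0 < l) : ∃ t, t < l ∧ l ∣ A + t := by
  refine ⟨(l - A % l) % l, Nat.mod_lt _ hl, ?_⟩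
  have h1 : A % l < l := Nat.mod_lt _ hl
  rw [Nat.dvd_iff_mod_eq_zero, Nat.add_mod, Nat.mod_mod]
  rcases Nat.eq_zero_or_pos (A % l) with h | h
  · rw [h]
    simp
  · have h2 : (l - A % l) % l = l - A % l := Nat.mod_eq_of_lt (by omega)
    rw [h2]
    have h3 : A % l + (l - A % l) = l := by omega
    rw [h3, Nat.mod_self]

lemma exists_root2 (l A p r : ℕ) (hl : 0 < l) :
    ∃ t, t < l ∧ l ∣ A + t + 2 ^ p * r := by
  obtain ⟨t, ht, htd⟩ := exists_root l (A + 2 ^ p * r) hl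
  refine ⟨t, ht, ?_⟩
  have e : A + t + 2 ^ p * r = A + 2 ^ p * r + t := by ring
  rw [e]
  exact htd

lemma card_one (l A : ℕ) : ((range l).filter (fun t => l ∣ A + t)).card ≤ 1 := by
  rw [Finset.card_le_one]
  intro t ht t' ht'
  rw [mem_filter, mem_range] at ht ht'
  have h1 : A + t ≡ A + t' [MOD l] :=
    ((Nat.modEq_zero_iff_dvd).mpr ht.2).trans ((Nat.modEq_zero_iff_dvd).mpr ht'.2).symm
  exact (Nat.ModEq.add_left_cancel' A h1).eq_of_lt_of_lt ht.1 ht'.1

lemma card_two (l A p r : ℕ) :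
    ((range l).filter (fun t => l ∣ A + t + 2 ^ p * r)).card ≤ 1 := by
  have h := card_one l (A + 2 ^ p * r)
  have e : ∀ t, A + t + 2 ^ p * r = A + 2 ^ p * r + t := fun t => by ring
  simp only [e]
  exact h

lemma nu_le (A p r l : ℕ) : nu (bd A p r) l ≤ 2 := by
  classical
  unfold nu
  have h : (range l).filter (fun t => bd A p r l t) ⊆ (range l).filter (fun t => l ∣ A + t) ∪
      (range l).filter (fun t => l ∣ A + t + 2 ^ p * r) := by
    intro t ht
    rw [mem_filter] at ht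
    rw [mem_union, mem_filter, mem_filter]
    rcases ht.2 with h | h
    · exact Or.inl ⟨ht.1, h⟩
    · exact Or.inr ⟨ht.1, h⟩
  refine (Finset.card_le_card h).trans ((Finset.card_union_le _ _).trans ?_)
  have := card_one l A
  have := card_two l A p r
  omega

lemma not_dvd_pow_mul (l p r : ℕ) (hl : l.Prime) (hl2 : 2 < l) (hr : ¬ l ∣ r) :
    ¬ l ∣ 2 ^ p * r := by
  intro h
  rcases hl.dvd_mul.mp h with h | h
  · have h1 := hl.dvd_of_dvd_pow h
    have h2 := Nat.le_of_dvd (by norm_num) h1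
    omega
  · exact hr h

lemma le_nu (A p r l : ℕ) (hl : l.Prime) (hl2 : 2 < l) (hr : ¬ l ∣ r) :
    2 ≤ nu (bd A p r) l := by
  classical
  unfold nu
  obtain ⟨t, ht, htd⟩ := exists_root l A hl.pos
  obtain ⟨t', ht', htd'⟩ := exists_root2 l A p r hl.pos
  apply Finset.one_lt_card.mpr
  refine ⟨t, ?_, t', ?_, ?_⟩
  · rw [mem_filter, mem_range]; exact ⟨ht, Or.inl htd⟩
  · rw [mem_filter, mem_range]; exact ⟨ht', Or.inr htd'⟩
  · rintro rfl
    exact not_dvd_pow_mul l p r hl hl2 hr ((Nat.dvd_add_right htd).mp htd')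

lemma per (A p r l t : ℕ) : bd A p r l (t + l) ↔ bd A p r l t := by
  unfold bd
  have e1 : A + (t + l) = A + t + l := by ring
  have e2 : A + t + l + 2 ^ p * r = A + t + 2 ^ p * r + l := by ring
  rw [e1, e2, Nat.dvd_add_self_right, Nat.dvd_add_self_right]

lemma data (A p r q z : ℕ) (hq : 2 ≤ q) : SieveData (bd A p r) (GG q r z) z := by
  constructor
  · intro e he; rw [mem_GG] at he; exact he.2.1
  · intro e he; rw [mem_GG] at he; exact he.1.2
  · intro e he l hl t; exact per A p r l t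
  · intro e he l hl
    rw [mem_GG] at he
    have hp := Nat.prime_of_mem_primeFactors hl
    obtain ⟨h1, h2⟩ := he.2.2 l hp (Nat.dvd_of_mem_primeFactors hl)
    have := le_nu A p r l hp (by omega) h2
    omega
  · intro e he l hl
    rw [mem_GG] at he
    have hp := Nat.prime_of_mem_primeFactors hl
    obtain ⟨h1, h2⟩ := he.2.2 l hp (Nat.dvd_of_mem_primeFactors hl)
    have := nu_le A p r l
    omega

lemma Hw_ge (A p r q z e : ℕ) (hq : 2 ≤ q) (he : e ∈ GG q r z) :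
    (2 : ℝ) ^ e.primeFactors.card / e ≤ Hw (bd A p r) e := by
  rw [mem_GG] at he
  have h1 : (2 : ℝ) ^ e.primeFactors.card / e = ∏ l ∈ e.primeFactors, (2 : ℝ) / l := by
    rw [Finset.prod_div_distrib, Finset.prod_const]
    congr 1
    rw [← Nat.cast_prod, Nat.prod_primeFactors_of_squarefree he.2.1]
  rw [h1]
  unfold Hw
  apply Finset.prod_le_prod
  · intro l _; positivity
  · intro l hl
    have hp := Nat.prime_of_mem_primeFactors hl
    obtain ⟨h3, h4⟩ := he.2.2 l hp (Nat.dvd_of_mem_primeFactors hl)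
    have h5 : (2 : ℝ) ≤ nu (bd A p r) l := by exact_mod_cast le_nu A p r l hp (by omega) h4
    have h6 : (nu (bd A p r) l : ℝ) ≤ 2 := by exact_mod_cast nu_le A p r l
    have h7 : (nu (bd A p r) l : ℝ) = 2 := le_antisymm h6 h5
    have hl0 : (2 : ℝ) < l := by
      have : 2 < l := by omega
      exact_mod_cast this
    rw [h7, div_le_div_iff₀ (by linarith) (by linarith)]
    linarith

lemma pow_bound (q : ℕ) (hq : 128 ≤ q) : 2 * (2 ^ (q / 64)) ^ 4 * q ^ 2 ≤ 2 ^ (q / 4) := by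
  set s := q / 64 with hs
  have h1 : q ≤ 64 * (s + 1) := by omega
  have h2 : s + 1 ≤ 2 ^ s := Nat.lt_two_pow_self
  have h3 : q ≤ 2 ^ (6 + s) := by
    calc q ≤ 64 * (s + 1) := h1
      _ ≤ 64 * 2 ^ s := Nat.mul_le_mul_left _ h2
      _ = 2 ^ (6 + s) := by rw [pow_add]; norm_num
  calc 2 * (2 ^ s) ^ 4 * q ^ 2 ≤ 2 * (2 ^ s) ^ 4 * (2 ^ (6 + s)) ^ 2 := by gcongr
    _ = 2 ^ (13 + 6 * s) := by
        rw [← pow_mul, ← pow_mul, ← pow_succ', ← pow_add]
        congr 1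
        ring
    _ ≤ 2 ^ (q / 4) := by
        apply Nat.pow_le_pow_right (by norm_num)
        omega

open Classical in
theorem core : ∃ C : ℝ, 0 < C ∧ ∃ q₀ : ℕ, ∀ q : ℕ, q₀ ≤ q → ∀ A T k r p : ℕ, 2 ^ (q / 4) ≤ T →
    k ≤ q → 0 < r → r < 2 ^ k →
    (((Ico A (A + T)).filter
      (fun m => ∀ l : ℕ, l.Prime → q < l → l ≤ 2 ^ (q / 64) →
        ¬ l ∣ m ∧ ¬ l ∣ m + 2 ^ p * r)).card : ℝ) ≤ C * T * (Real.log q / q) ^ 2 := by
  classical
  obtain ⟨c, hc, q₀, hS⟩ := S_lower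
  refine ⟨2 / c ^ 2 + 1, by positivity, max q₀ 256, ?_⟩
  intro q hq A T k r p hT hk hr hrk
  have hq1 : q₀ ≤ q := le_trans (le_max_left _ _) hq
  have hq2 : 256 ≤ q := le_trans (le_max_right _ _) hq
  have hq0 : (256 : ℝ) ≤ q := by exact_mod_cast hq2
  have hlog : 1 ≤ Real.log q := by
    rw [Real.le_log_iff_exp_le (by linarith)]
    have := Real.exp_one_lt_d9
    linarith
  set z := 2 ^ (q / 64) with hz
  set y := 2 ^ (q / 128) with hy
  have hyz : y * y ≤ z := by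
    rw [hy, hz, ← pow_add]
    apply Nat.pow_le_pow_right (by norm_num)
    omega
  have hD := data A p r q z (by omega)
  set S := (range T).filter (fun t => ∀ l : ℕ, l.Prime → q < l → l ≤ 2 ^ (q / 64) →
      ¬ l ∣ A + t ∧ ¬ l ∣ A + t + 2 ^ p * r) with hSdef
  have hcard : ((Ico A (A + T)).filter
    (fun m => ∀ l : ℕ, l.Prime → q < l → l ≤ 2 ^ (q / 64) →
      ¬ l ∣ m ∧ ¬ l ∣ m + 2 ^ p * r)).card ≤ S.card := by
    apply Finset.card_le_card_of_injOn (fun m => m - A)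
    · intro m hm
      simp only [coe_filter, Set.mem_ofPred_eq, mem_Ico] at hm
      simp only [hSdef, coe_filter, Set.mem_ofPred_eq, mem_range]
      have e : A + (m - A) = m := by omega
      rw [e]
      exact ⟨by omega, hm.2⟩
    · intro m hm m' hm' h
      simp only [coe_filter, Set.mem_ofPred_eq, mem_Ico] at hm hm'
      simp only at h
      omega
  have hgood : ∀ t ∈ S, ∀ e ∈ GG q r z, ∀ l ∈ e.primeFactors, ¬ bd A p r l t := by
    intro t ht e he l hl
    rw [hSdef, mem_filter] at ht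
    rw [mem_GG] at he
    have hp := Nat.prime_of_mem_primeFactors hl
    have hle : l ≤ z := (Nat.le_of_dvd (by omega) (Nat.dvd_of_mem_primeFactors hl)).trans he.1.2
    obtain ⟨h1, h2⟩ := ht.2 l hp (he.2.2 l hp (Nat.dvd_of_mem_primeFactors hl)).1 hle
    rintro (h | h)
    · exact h1 h
    · exact h2 h
  have hne : (GG q r z).Nonempty := by
    refine ⟨1, ?_⟩
    rw [mem_GG]
    refine ⟨⟨le_refl _, Nat.one_le_two_pow⟩, squarefree_one, ?_⟩
    intro l hl h1
    exact absurd (Nat.dvd_one.mp h1) hl.one_lt.ne'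
  have hsb := sieve_bound hD T S (Finset.filter_subset _ _) hgood hne
  have hW : (1 / 2) * (c * (q / Real.log q)) ^ 2 ≤ ∑ e ∈ GG q r z, Hw (bd A p r) e := by
    have h1 := hS q hq1 k r hk hr hrk
    have h2 := W_lower q r y z (by omega) hyz
    have h3 : ∑ e ∈ GG q r z, (2 : ℝ) ^ e.primeFactors.card / e ≤
        ∑ e ∈ GG q r z, Hw (bd A p r) e :=
      Finset.sum_le_sum fun e he => Hw_ge A p r q z e (by omega) he
    have h4 : (c * (q / Real.log q)) ^ 2 ≤ (∑ g ∈ GG q r y, (1 : ℝ) / g) ^ 2 := by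
      apply pow_le_pow_left₀ (by positivity) h1
    linarith
  have hT0 : (0 : ℝ) ≤ T := Nat.cast_nonneg T
  have hterm1 : (T : ℝ) / ∑ e ∈ GG q r z, Hw (bd A p r) e ≤
      2 / c ^ 2 * T * (Real.log q / q) ^ 2 := by
    have hpos : 0 < (1 / 2) * (c * ((q : ℝ) / Real.log q)) ^ 2 := by
      have : 0 < Real.log q := by linarith
      positivity
    calc (T : ℝ) / ∑ e ∈ GG q r z, Hw (bd A p r) e
        ≤ T / ((1 / 2) * (c * ((q : ℝ) / Real.log q)) ^ 2) :=
          div_le_div_of_nonneg_left hT0 hpos hW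
      _ = 2 / c ^ 2 * T * (Real.log q / q) ^ 2 := by
          have : 0 < Real.log q := by linarith
          field_simp
  have hterm2 : 2 * (z : ℝ) ^ 4 ≤ T * (Real.log q / q) ^ 2 := by
    have h1 := (pow_bound q (by omega)).trans hT
    have h2 : 2 * (z : ℝ) ^ 4 * (q : ℝ) ^ 2 ≤ T := by exact_mod_cast h1
    have h3 : 2 * (z : ℝ) ^ 4 ≤ T / (q : ℝ) ^ 2 := by
      rw [le_div_iff₀ (by positivity)]
      exact h2
    refine h3.trans ?_
    rw [div_pow, ← mul_div_assoc]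
    apply div_le_div_of_nonneg_right _ (by positivity)
    have h4 : (1 : ℝ) ≤ Real.log q ^ 2 := one_le_pow₀ hlog
    nlinarith
  have hcard' : (((Ico A (A + T)).filter
    (fun m => ∀ l : ℕ, l.Prime → q < l → l ≤ 2 ^ (q / 64) →
      ¬ l ∣ m ∧ ¬ l ∣ m + 2 ^ p * r)).card : ℝ) ≤ S.card := by exact_mod_cast hcard
  calc (((Ico A (A + T)).filter
    (fun m => ∀ l : ℕ, l.Prime → q < l → l ≤ 2 ^ (q / 64) →
      ¬ l ∣ m ∧ ¬ l ∣ m + 2 ^ p * r)).card : ℝ) ≤ S.card := hcard'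
    _ ≤ T / (∑ e ∈ GG q r z, Hw (bd A p r) e) + 2 * (z : ℝ) ^ 4 := hsb
    _ ≤ 2 / c ^ 2 * T * (Real.log q / q) ^ 2 + T * (Real.log q / q) ^ 2 :=
        add_le_add hterm1 hterm2
    _ = (2 / c ^ 2 + 1) * T * (Real.log q / q) ^ 2 := by ring

theorem taskB2 : Pool.Agent.H555R4.DY.TaskB2 := by
  obtain ⟨C, hC, q₀, h⟩ := core
  refine ⟨C, hC, q₀, fun q hq A T p r hT hr hrq => ?_⟩
  exact h q hq A T q r p hT le_rfl hr hrq

end Pool.Agent.H555R4.DY.B2
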