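import Pool.Agent.H555R4.DY.Stmts

set_option autoImplicit false

/-! Project H555-LW, task DY-Cov (helper714): covariance of two distant exponents. -/

open Finset

namespace Pool.Agent.H555R4.DY.Cov

open Pool.Agent.H555R4.DY
open Pool.Agent.H555R4.LW (rp)

/-- decomposition of `cBB` along the residue classes modulo `2 ^ p` -/
theorem cBB_eq (p q : ℕ) (hp : 1 ≤ p) :
    (cBB p q : ℝ) = ∑ m ∈ ((range (2 ^ p)).filter (fun m => Odd m)).filter
      (fun m => (rp p m).Prime),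
      (((range (2 ^ q)).filter (fun n => n % 2 ^ p = m ∧ (rp q n).Prime)).card : ℝ) := by
  have hodd : ∀ n : ℕ, Odd (n % 2 ^ p) ↔ Odd n := by
    intro n
    rw [Nat.odd_iff, Nat.odd_iff, Nat.mod_mod_of_dvd n (dvd_pow_self 2 (by omega : p ≠ 0))]
  have h1 : cBB p q = ∑ m ∈ ((range (2 ^ p)).filter (fun m => Odd m)).filter
      (fun m => (rp p m).Prime),
      ((range (2 ^ q)).filter (fun n => n % 2 ^ p = m ∧ (rp q n).Prime)).card := by
    unfold cBB
    rw [card_eq_sum_card_fiberwise (f := fun n => n % 2 ^ p)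
      (t := ((range (2 ^ p)).filter (fun m => Odd m)).filter (fun m => (rp p m).Prime))]
    · refine sum_congr rfl fun m hm => ?_
      rw [filter_filter]
      congr 1
      refine filter_congr fun n _ => ?_
      have hm' := mem_filter.1 hm
      have hm2 := mem_filter.1 hm'.1
      constructor
      · rintro ⟨⟨_, h2, _⟩, h4⟩
        exact ⟨h4, h2⟩
      · rintro ⟨h4, h2⟩
        refine ⟨⟨?_, h2, ?_⟩, h4⟩
        · rw [← hodd, h4]
          exact hm2.2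
        · rw [h4]
          exact hm'.2
    · intro n hn
      have hn' := mem_filter.1 (mem_coe.1 hn)
      refine mem_coe.2 (mem_filter.2 ⟨mem_filter.2 ⟨mem_range.2 (Nat.mod_lt _ (by positivity)), ?_⟩, ?_⟩)
      · exact (hodd n).2 hn'.2.1
      · exact hn'.2.2.2
  rw [h1]
  push_cast
  rfl

theorem taskCov : Pool.Agent.H555R4.DY.TaskCov := by
  intro hV A
  obtain ⟨q₀, h⟩ := hV (2 * A + 4)
  refine ⟨max q₀ 2, fun q hq p hp hpq => ?_⟩
  have hq0 : q₀ ≤ q := le_trans (le_max_left _ _) hq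
  have hq2 : 2 ≤ q := le_trans (le_max_right _ _) hq
  have hv := h q hq0 p hp hpq
  have hqr : (2 : ℝ) ≤ q := by exact_mod_cast hq2
  have hBB := cBB_eq p q hp
  have hM : ((((range (2 ^ p)).filter (fun m => Odd m)).filter
      (fun m => (rp p m).Prime)).card : ℝ) = cB p := by
    unfold cB
    rw [filter_filter]
  set f : ℕ → ℝ := fun m =>
    (((range (2 ^ q)).filter (fun n => n % 2 ^ p = m ∧ (rp q n).Prime)).card : ℝ) with hf
  set c : ℝ := (1 / 2 ^ (p - 1)) * (cB q : ℝ) with hc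
  set S := (range (2 ^ p)).filter (fun m => Odd m) with hS
  set M := S.filter (fun m => (rp p m).Prime) with hMdef
  have hdiff : (cBB p q : ℝ) - cB p * c = ∑ m ∈ M, (f m - c) := by
    rw [sum_sub_distrib, sum_const, nsmul_eq_mul, hM, hBB]
  have hcs : (∑ m ∈ M, (f m - c)) ^ 2 ≤ (M.card : ℝ) * ∑ m ∈ M, (f m - c) ^ 2 :=
    sq_sum_le_card_mul_sum_sq
  have hMc : (M.card : ℝ) ≤ 2 ^ p := by
    have h1 : M.card ≤ 2 ^ p := by
      calc M.card ≤ S.card := card_filter_le _ _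
        _ ≤ (range (2 ^ p)).card := card_filter_le _ _
        _ = 2 ^ p := card_range _
    exact_mod_cast h1
  have hMS : ∑ m ∈ M, (f m - c) ^ 2 ≤ ∑ m ∈ S, (f m - c) ^ 2 :=
    sum_le_sum_of_subset_of_nonneg (filter_subset _ _) fun _ _ _ => sq_nonneg _
  have hv' : ∑ m ∈ S, (f m - c) ^ 2 ≤ ((2 : ℝ) ^ q) ^ 2 / (2 ^ p * (q : ℝ) ^ (2 * A + 4)) := hv
  have hD : ((cBB p q : ℝ) - cB p * c) ^ 2 ≤ (2 ^ q / (q : ℝ) ^ (A + 2)) ^ 2 := by
    rw [hdiff]
    calc (∑ m ∈ M, (f m - c)) ^ 2 ≤ (M.card : ℝ) * ∑ m ∈ M, (f m - c) ^ 2 := hcs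
      _ ≤ 2 ^ p * ∑ m ∈ M, (f m - c) ^ 2 :=
          mul_le_mul_of_nonneg_right hMc (sum_nonneg fun _ _ => sq_nonneg _)
      _ ≤ 2 ^ p * (((2 : ℝ) ^ q) ^ 2 / (2 ^ p * (q : ℝ) ^ (2 * A + 4))) :=
          mul_le_mul_of_nonneg_left (hMS.trans hv') (by positivity)
      _ = (2 ^ q / (q : ℝ) ^ (A + 2)) ^ 2 := by
          have : (q : ℝ) ≠ 0 := by positivity
          rw [div_pow, ← pow_mul (q : ℝ), show (A + 2) * 2 = 2 * A + 4 by ring]
          field_simp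
  have hD2 : |(cBB p q : ℝ) - cB p * c| ≤ 2 ^ q / (q : ℝ) ^ (A + 2) :=
    abs_le_of_sq_le_sq hD (by positivity)
  have hEq : (cBB p q : ℝ) / 2 ^ (q - 1) - ((cB p : ℝ) / 2 ^ (p - 1)) * ((cB q : ℝ) / 2 ^ (q - 1)) =
      ((cBB p q : ℝ) - cB p * c) / 2 ^ (q - 1) := by
    rw [hc]
    ring
  rw [hEq, abs_div, abs_of_pos (by positivity : (0 : ℝ) < 2 ^ (q - 1)),
    div_le_iff₀ (by positivity)]
  refine hD2.trans ?_
  have h2q : (2 : ℝ) ^ q = 2 * 2 ^ (q - 1) := by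
    rw [← pow_succ']
    congr 1
    omega
  rw [h2q, div_le_iff₀ (by positivity), pow_add]
  have h4 : (2 : ℝ) ≤ (q : ℝ) ^ 2 := by nlinarith
  have hqA : (q : ℝ) ^ A ≠ 0 := by positivity
  have h5 : 1 / (q : ℝ) ^ A * 2 ^ (q - 1) * ((q : ℝ) ^ A * (q : ℝ) ^ 2) =
      2 ^ (q - 1) * (q : ℝ) ^ 2 := by
    field_simp
  rw [h5, mul_comm]
  exact mul_le_mul_of_nonneg_left h4 (by positivity)

end Pool.Agent.H555R4.DY.Cov
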