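import Pool.Agent.H555R4.DY.Stmts

set_option autoImplicit false

open Finset MeasureTheory Filter Topology

namespace Pool.Agent.H555R4.DY.LLN

open Pool.Agent.H555R4.LW (rp)

lemma num_succ (ε : ℕ → Bool) (p : ℕ) : num ε (p + 1) = num ε p + if ε p then 2 ^ p else 0 := by
  unfold num; rw [sum_range_succ]

lemma num_lt (ε : ℕ → Bool) (p : ℕ) : num ε p < 2 ^ p := by
  induction p with
  | zero => simp [num]
  | succ p ih =>
    rw [num_succ, pow_succ]
    split_ifs <;> omega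

lemma num_mod (ε : ℕ → Bool) {p P : ℕ} (h : p ≤ P) : num ε P % 2 ^ p = num ε p := by
  obtain ⟨d, rfl⟩ := Nat.exists_eq_add_of_le h
  clear h
  induction d with
  | zero => rw [Nat.add_zero]; exact Nat.mod_eq_of_lt (num_lt ε p)
  | succ d ih =>
    rw [← Nat.add_assoc, num_succ]
    split_ifs
    · rw [pow_add, Nat.add_mul_mod_self_left]; exact ih
    · exact ih

lemma num_odd {ε : ℕ → Bool} (h : ε 0 = true) {p : ℕ} (hp : 1 ≤ p) : Odd (num ε p) := by
  rw [Nat.odd_iff]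
  have := num_mod ε hp
  rw [pow_one] at this
  rw [this]
  simp [num, h]

/-- the block count of a sequence -/
def blk (ε : ℕ → Bool) (i : ℕ) : ℕ := ((Ioc (2 ^ i) (2 ^ (i + 1))).filter
  (fun p => p.Prime ∧ (rp p (num ε p)).Prime)).card

lemma Zb_num (ε : ℕ → Bool) {i I : ℕ} (h : i + 1 ≤ I) : Zb i (num ε (2 ^ I)) = blk ε i := by
  unfold Zb blk
  congr 1
  apply filter_congr
  intro p hp
  rw [num_mod]
  exact (mem_Ioc.1 hp).2.trans (Nat.pow_le_pow_right (by norm_num) h)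

lemma cntB_succ (ε : ℕ → Bool) (i : ℕ) : cntB ε (2 ^ (i + 1)) = cntB ε (2 ^ i) + blk ε i := by
  unfold cntB blk
  rw [← card_union_of_disjoint]
  · congr 1
    rw [← filter_union]
    congr 1
    ext p
    have : 2 ^ i ≤ 2 ^ (i + 1) := Nat.pow_le_pow_right (by norm_num) (Nat.le_succ i)
    simp only [mem_union, mem_range, mem_Ioc]
    omega
  · apply disjoint_filter_filter
    rw [disjoint_left]
    intro p hp hp'
    rw [mem_range] at hp
    rw [mem_Ioc] at hp'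
    omega

lemma cntB_one (ε : ℕ → Bool) : cntB ε 1 = 0 := by
  unfold cntB
  rw [card_eq_zero, filter_eq_empty_iff]
  intro p hp h
  have h1 := h.1.two_le
  rw [mem_range] at hp
  omega

lemma cntB_eq (ε : ℕ → Bool) (I : ℕ) : cntB ε (2 ^ I) = Sb I (num ε (2 ^ I)) := by
  have h : ∀ J, cntB ε (2 ^ J) = ∑ i ∈ range J, blk ε i := by
    intro J
    induction J with
    | zero => simpa using cntB_one ε
    | succ J ih => rw [cntB_succ, ih, sum_range_succ]
  rw [h I]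
  unfold Sb
  apply sum_congr rfl
  intro i hi
  rw [Zb_num ε (mem_range.1 hi)]

lemma cntB_mono (ε : ℕ → Bool) {m n : ℕ} (h : m ≤ n) : cntB ε m ≤ cntB ε n := by
  unfold cntB
  apply card_le_card
  apply filter_subset_filter
  exact range_subset_range.2 (by omega)

/-- Chebyshev -/
lemma cheb (hm : StMeas) {C : ℝ} (hC : 0 < C) (hv : ∀ I : ℕ, 2 ≤ I →
    ∑ n ∈ (range (2 ^ (2 ^ I))).filter (fun n => Odd n), ((Sb I n : ℝ) - aS I) ^ 2 ≤
    C * (I * Real.log I) * 2 ^ (2 ^ I)) {δ : ℝ} (hδ : 0 < δ) {I : ℕ} (hI : 2 ≤ I) :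
    coin {ε | ε 0 = true ∧ δ * I < |(Sb I (num ε (2 ^ I)) : ℝ) - aS I|} ≤
      ENNReal.ofReal (C / δ ^ 2 * (Real.log I / I)) := by
  classical
  set S := (range (2 ^ (2 ^ I))).filter
    (fun n => Odd n ∧ δ * I < |(Sb I n : ℝ) - aS I|) with hS
  have hsub : {ε : ℕ → Bool | ε 0 = true ∧ δ * I < |(Sb I (num ε (2 ^ I)) : ℝ) - aS I|} ⊆
      ⋃ n ∈ S, {ε | num ε (2 ^ I) = n} := by
    rintro ε ⟨h1, h2⟩
    simp only [Set.mem_iUnion]
    refine ⟨num ε (2 ^ I), ?_, rfl⟩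
    rw [hS, mem_filter, mem_range]
    exact ⟨num_lt _ _, num_odd h1 Nat.one_le_two_pow, h2⟩
  refine (measure_mono hsub).trans ((measure_biUnion_finset_le _ _).trans ?_)
  have hI0 : (0 : ℝ) < I := by exact_mod_cast (by omega : 0 < I)
  calc ∑ n ∈ S, coin {ε | num ε (2 ^ I) = n} ≤ ∑ n ∈ S, ENNReal.ofReal (1 / 2 ^ (2 ^ I)) :=
        sum_le_sum fun n _ => hm _ _
    _ = ENNReal.ofReal ((S.card : ℝ) * (1 / 2 ^ (2 ^ I))) := by
        rw [sum_const, nsmul_eq_mul, ENNReal.ofReal_mul (Nat.cast_nonneg _),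
          ENNReal.ofReal_natCast]
    _ ≤ _ := by
        apply ENNReal.ofReal_le_ofReal
        have h1 : (S.card : ℝ) * (δ * I) ^ 2 ≤ C * (I * Real.log I) * 2 ^ (2 ^ I) := by
          calc (S.card : ℝ) * (δ * I) ^ 2 = ∑ n ∈ S, (δ * I) ^ 2 := by
                rw [sum_const, nsmul_eq_mul]
            _ ≤ ∑ n ∈ S, ((Sb I n : ℝ) - aS I) ^ 2 := by
                apply sum_le_sum
                intro n hn
                rw [hS, mem_filter] at hn
                rw [← sq_abs ((Sb I n : ℝ) - aS I)]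
                exact pow_le_pow_left₀ (by positivity) hn.2.2.le 2
            _ ≤ ∑ n ∈ (range (2 ^ (2 ^ I))).filter (fun n => Odd n), ((Sb I n : ℝ) - aS I) ^ 2 := by
                apply sum_le_sum_of_subset_of_nonneg
                · intro n hn
                  rw [hS, mem_filter] at hn
                  exact mem_filter.2 ⟨hn.1, hn.2.1⟩
                · intro n _ _; positivity
            _ ≤ _ := hv I hI
        have h2 : (0 : ℝ) < 2 ^ (2 ^ I) := by positivity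
        rw [mul_one_div, div_le_iff₀ h2]
        have h3 : C / δ ^ 2 * (Real.log I / I) * 2 ^ (2 ^ I) =
            (C * (I * Real.log I) * 2 ^ (2 ^ I)) / (δ * I) ^ 2 := by
          field_simp
        rw [h3, le_div_iff₀ (by positivity)]
        exact h1

lemma summ {K : ℝ} (hK : 0 ≤ K) :
    Summable (fun k : ℕ => K * (Real.log ((((k + 2) ^ 2 : ℕ)) : ℝ) / (((k + 2) ^ 2 : ℕ) : ℝ))) := by
  have h1 : Summable (fun k : ℕ => 1 / ((k : ℝ)) ^ (3 / 2 : ℝ)) :=
    Real.summable_one_div_nat_rpow.2 (by norm_num)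
  have h2 := ((summable_nat_add_iff 2).2 h1).mul_left (4 * K)
  refine Summable.of_nonneg_of_le (fun k => ?_) (fun k => ?_) h2
  · apply mul_nonneg hK
    apply div_nonneg (Real.log_natCast_nonneg _) (Nat.cast_nonneg _)
  · have hx : (0 : ℝ) < (k : ℝ) + 2 := by positivity
    push_cast
    have h3 : Real.log ((k : ℝ) + 2) ≤ ((k : ℝ) + 2) ^ (1 / 2 : ℝ) / (1 / 2) :=
      Real.log_le_rpow_div hx.le (by norm_num)
    rw [Real.log_pow]
    have h4 : ((k : ℝ) + 2) ^ (3 / 2 : ℝ) * ((k : ℝ) + 2) ^ (1 / 2 : ℝ) = ((k : ℝ) + 2) ^ 2 := by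
      rw [← Real.rpow_add hx, ← Real.rpow_natCast]; norm_num
    have h5 : 0 < ((k : ℝ) + 2) ^ (3 / 2 : ℝ) := Real.rpow_pos_of_pos hx _
    rw [mul_one_div, ← mul_div_assoc, div_le_div_iff₀ (by positivity) h5]
    push_cast
    calc K * (2 * Real.log ((k : ℝ) + 2)) * ((k : ℝ) + 2) ^ (3 / 2 : ℝ)
        ≤ K * (2 * (((k : ℝ) + 2) ^ (1 / 2 : ℝ) / (1 / 2))) * ((k : ℝ) + 2) ^ (3 / 2 : ℝ) := by
          gcongr
      _ = 4 * K * (((k : ℝ) + 2) ^ (3 / 2 : ℝ) * ((k : ℝ) + 2) ^ (1 / 2 : ℝ)) := by ring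
      _ = 4 * K * ((k : ℝ) + 2) ^ 2 := by rw [h4]

lemma tsum_ne_top_of_summable {u : ℕ → ℝ} (h0 : ∀ J, 0 ≤ u J) (hs : Summable u)
    {f : ℕ → ENNReal} (hf : ∀ J, f J ≤ ENNReal.ofReal (u J)) : ∑' J, f J ≠ ⊤ := by
  apply ne_top_of_le_ne_top _ (ENNReal.tsum_le_tsum hf)
  rw [← ENNReal.ofReal_tsum_of_nonneg h0 hs]
  exact ENNReal.ofReal_ne_top

/-- along squares -/
lemma squares (hV : StVar) (hM : StMeanS) (hm : StMeas) : ∀ᵐ ε ∂coin, ε 0 = true →
    Tendsto (fun k : ℕ => (cntB ε (2 ^ (k ^ 2)) : ℝ) / ((k : ℝ) ^ 2)) atTop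
      (𝓝 (Real.exp Real.eulerMascheroniConstant)) := by
  obtain ⟨C, hC, hv⟩ := hV
  have key : ∀ᵐ ε ∂coin, ∀ m : ℕ, ∀ᶠ k : ℕ in atTop, ε ∉ {ε : ℕ → Bool | ε 0 = true ∧
      1 / ((m : ℝ) + 1) * (((k + 2) ^ 2 : ℕ) : ℝ) < |(Sb ((k + 2) ^ 2)
        (num ε (2 ^ ((k + 2) ^ 2))) : ℝ) - aS ((k + 2) ^ 2)|} := by
    rw [ae_all_iff]
    intro m
    apply ae_eventually_notMem
    have hδ : (0 : ℝ) < 1 / ((m : ℝ) + 1) := by positivity
    refine tsum_ne_top_of_summable (u := fun k : ℕ => C / (1 / ((m : ℝ) + 1)) ^ 2 *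
      (Real.log ((((k + 2) ^ 2 : ℕ)) : ℝ) / (((k + 2) ^ 2 : ℕ) : ℝ))) (fun k => ?_)
      (summ (by positivity)) (fun k => ?_)
    · apply mul_nonneg (by positivity)
      apply div_nonneg (Real.log_natCast_nonneg _) (Nat.cast_nonneg _)
    · have h22 : 2 ^ 2 ≤ (k + 2) ^ 2 := Nat.pow_le_pow_left (by omega) 2
      exact cheb hm hC hv hδ (by omega)
  filter_upwards [key] with ε hε h0
  -- deviation tends to zero
  have hdev : Tendsto (fun k : ℕ => ((cntB ε (2 ^ ((k + 2) ^ 2)) : ℝ) - aS ((k + 2) ^ 2)) /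
      (((k + 2) ^ 2 : ℕ) : ℝ)) atTop (𝓝 0) := by
    rw [Metric.tendsto_atTop]
    intro e he
    obtain ⟨m, hm⟩ := exists_nat_one_div_lt he
    obtain ⟨N, hN⟩ := eventually_atTop.1 (hε m)
    refine ⟨N, fun k hk => ?_⟩
    have h1 := hN k hk
    simp only [Set.mem_ofPred_eq, not_and, not_lt] at h1
    have h2 := h1 h0
    have hk0 : (0 : ℝ) < (((k + 2) ^ 2 : ℕ) : ℝ) := by positivity
    rw [Real.dist_eq, sub_zero, abs_div, abs_of_pos hk0, div_lt_iff₀ hk0, cntB_eq]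
    exact h2.trans_lt (mul_lt_mul_of_pos_right hm hk0)
  have hsq : Tendsto (fun k : ℕ => (k + 2) ^ 2) atTop atTop := by
    apply tendsto_atTop_mono (f := fun k : ℕ => k) _ tendsto_id
    intro k
    nlinarith
  have h1 := hdev.add (hM.comp hsq)
  rw [zero_add] at h1
  have h2 : Tendsto (fun k : ℕ => (cntB ε (2 ^ ((k + 2) ^ 2)) : ℝ) / (((k + 2 : ℕ) : ℝ) ^ 2)) atTop
      (𝓝 (Real.exp Real.eulerMascheroniConstant)) := by
    refine h1.congr fun k => ?_
    simp only [Function.comp]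
    push_cast
    ring
  exact (tendsto_add_atTop_iff_nat (f := fun k : ℕ =>
    (cntB ε (2 ^ (k ^ 2)) : ℝ) / ((k : ℝ) ^ 2)) 2).1 h2

theorem taskLLN : TaskLLN := by
  intro hV hM hm
  filter_upwards [squares hV hM hm] with ε hε h0
  have hr := hε h0
  set r : ℕ → ℝ := fun k => (cntB ε (2 ^ (k ^ 2)) : ℝ) / ((k : ℝ) ^ 2) with hrdef
  set G := Real.exp Real.eulerMascheroniConstant with hG
  have hl2 : 0 < Real.log 2 := Real.log_pos (by norm_num)
  -- the ratio of consecutive squares tends to one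
  have hq : Tendsto (fun k : ℕ => (k : ℝ) / ((k : ℝ) + 1)) atTop (𝓝 1) :=
    tendsto_natCast_div_add_atTop (1 : ℝ)
  have hq2 : Tendsto (fun k : ℕ => ((k : ℝ) / ((k : ℝ) + 1)) ^ 2) atTop (𝓝 1) := by
    simpa using hq.pow 2
  have hlow : Tendsto (fun k : ℕ => r k * ((k : ℝ) / ((k : ℝ) + 1)) ^ 2 / Real.log 2) atTop
      (𝓝 (G / Real.log 2)) := by
    have := (hr.mul hq2).div_const (Real.log 2)
    simpa using this
  have hupp : Tendsto (fun k : ℕ => r (k + 1) * (((k : ℝ) / ((k : ℝ) + 1)) ^ 2)⁻¹ / Real.log 2)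
      atTop (𝓝 (G / Real.log 2)) := by
    have h1 : Tendsto (fun k : ℕ => r (k + 1)) atTop (𝓝 G) :=
      (tendsto_add_atTop_iff_nat (f := r) 1).2 hr
    have := (h1.mul (hq2.inv₀ one_ne_zero)).div_const (Real.log 2)
    simpa using this
  have hnlog : Tendsto (fun n : ℕ => Nat.log 2 n) atTop atTop := by
    rw [tendsto_atTop]
    intro c
    filter_upwards [eventually_ge_atTop (2 ^ c)] with n hn
    exact Nat.le_log_of_pow_le (by norm_num) hn
  have hsqrt : Tendsto (fun n : ℕ => Nat.sqrt (Nat.log 2 n)) atTop atTop := by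
    rw [tendsto_atTop]
    intro c
    filter_upwards [hnlog.eventually (eventually_ge_atTop (c * c))] with n hn
    exact Nat.le_sqrt.2 hn
  refine tendsto_of_tendsto_of_tendsto_of_le_of_le' (hlow.comp hsqrt) (hupp.comp hsqrt) ?_ ?_
  · filter_upwards [hsqrt.eventually (eventually_ge_atTop 1), eventually_ge_atTop 2] with n hk hn
    simp only [Function.comp]
    set k := Nat.sqrt (Nat.log 2 n) with hkdef
    have hk0 : (0 : ℝ) < k := by exact_mod_cast hk
    have h1 : k ^ 2 ≤ Nat.log 2 n := Nat.sqrt_le' _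
    have h2 : Nat.log 2 n + 1 ≤ (k + 1) ^ 2 := Nat.lt_succ_sqrt' _
    have h3 : cntB ε (2 ^ (k ^ 2)) ≤ cntB ε n := by
      apply cntB_mono
      exact (Nat.pow_le_pow_right (by norm_num) h1).trans (Nat.pow_log_le_self 2 (by omega))
    have h4 : n < 2 ^ ((k + 1) ^ 2) :=
      (Nat.lt_pow_succ_log_self (by norm_num) n).trans_le (Nat.pow_le_pow_right (by norm_num) h2)
    have h5 : (n : ℝ) ≤ (2 : ℝ) ^ ((k + 1) ^ 2) := by exact_mod_cast h4.le
    have hn0 : (0 : ℝ) < n := by exact_mod_cast (by omega : 0 < n)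
    have h6 := Real.log_le_log hn0 h5
    rw [Real.log_pow] at h6
    push_cast at h6
    have hln : 0 < Real.log n := Real.log_pos (by exact_mod_cast (by omega : 1 < n))
    have h7 : r k * ((k : ℝ) / ((k : ℝ) + 1)) ^ 2 / Real.log 2 =
        (cntB ε (2 ^ (k ^ 2)) : ℝ) / (((k : ℝ) + 1) ^ 2 * Real.log 2) := by
      simp only [hrdef]
      field_simp
    rw [h7]
    calc (cntB ε (2 ^ (k ^ 2)) : ℝ) / (((k : ℝ) + 1) ^ 2 * Real.log 2)
        ≤ (cntB ε (2 ^ (k ^ 2)) : ℝ) / Real.log n :=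
          div_le_div_of_nonneg_left (Nat.cast_nonneg _) hln h6
      _ ≤ (cntB ε n : ℝ) / Real.log n := by
          apply div_le_div_of_nonneg_right _ hln.le
          exact_mod_cast h3
  · filter_upwards [hsqrt.eventually (eventually_ge_atTop 1), eventually_ge_atTop 2] with n hk hn
    simp only [Function.comp]
    set k := Nat.sqrt (Nat.log 2 n) with hkdef
    have hk0 : (0 : ℝ) < k := by exact_mod_cast hk
    have h1 : k ^ 2 ≤ Nat.log 2 n := Nat.sqrt_le' _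
    have h2 : Nat.log 2 n + 1 ≤ (k + 1) ^ 2 := Nat.lt_succ_sqrt' _
    have h4 : n < 2 ^ ((k + 1) ^ 2) :=
      (Nat.lt_pow_succ_log_self (by norm_num) n).trans_le (Nat.pow_le_pow_right (by norm_num) h2)
    have h3 : cntB ε n ≤ cntB ε (2 ^ ((k + 1) ^ 2)) := cntB_mono ε h4.le
    have h5 : (2 : ℝ) ^ (k ^ 2) ≤ (n : ℝ) := by
      exact_mod_cast (Nat.pow_le_pow_right (by norm_num) h1).trans
        (Nat.pow_log_le_self 2 (by omega))
    have hn0 : (0 : ℝ) < n := by exact_mod_cast (by omega : 0 < n)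
    have h6 := Real.log_le_log (by positivity) h5
    rw [Real.log_pow] at h6
    push_cast at h6
    have hln : 0 < Real.log n := Real.log_pos (by exact_mod_cast (by omega : 1 < n))
    have h7 : r (k + 1) * (((k : ℝ) / ((k : ℝ) + 1)) ^ 2)⁻¹ / Real.log 2 =
        (cntB ε (2 ^ ((k + 1) ^ 2)) : ℝ) / ((k : ℝ) ^ 2 * Real.log 2) := by
      simp only [hrdef]
      push_cast
      field_simp
    rw [h7]
    calc (cntB ε n : ℝ) / Real.log n ≤ (cntB ε (2 ^ ((k + 1) ^ 2)) : ℝ) / Real.log n := by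
          apply div_le_div_of_nonneg_right _ hln.le
          exact_mod_cast h3
      _ ≤ (cntB ε (2 ^ ((k + 1) ^ 2)) : ℝ) / ((k : ℝ) ^ 2 * Real.log 2) :=
          div_le_div_of_nonneg_left (Nat.cast_nonneg _) (by positivity) h6

end Pool.Agent.H555R4.DY.LLN
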