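import Pool.Agent.H305R2.W1b
import Pool.Agent.H555R4.DY.Stmts

/-! Task Mean of the project H555-LW (DY), by helper872: the number of odd integers below a power
of two with prime rough part.  Adapted from Pool.Agent.H305R2.W1b (reciprocal sums). -/

set_option autoImplicit false

namespace Pool.Agent.H555R4.DY.Mean

open Finset Filter Topology
open Pool.Agent.H305R2 (roughPart SM SMz mem_SMz SM_pos sum_le_VV tail_le VV_le VV ZZ ZZ_nonneg
  VV_tendsto ZZ_le_exp PI sum_pr pr pr_nonneg sum_rough_eq error_tendsto)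

/-- density of the primes up to `x` -/
noncomputable def PP (x : ℝ) : ℝ := PI x / x

lemma PP_nonneg {x : ℝ} (hx : 0 < x) : 0 ≤ PP x := by
  unfold PP PI
  positivity

lemma pi_le (n : ℕ) : Nat.primeCounting n ≤ n := by
  rw [Nat.primeCounting, Nat.primeCounting', Nat.count_eq_card_filter_range]
  have h : (Finset.range (n + 1)).filter Nat.Prime ⊆ Finset.Icc 1 n := by
    intro x hx
    rw [Finset.mem_filter, Finset.mem_range] at hx
    have := hx.2.one_lt
    rw [Finset.mem_Icc]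
    omega
  have := Finset.card_le_card h
  rwa [Nat.card_Icc, Nat.add_sub_cancel] at this

lemma PP_le_three {x : ℝ} (hx : 0 < x) : PP x ≤ 3 := by
  unfold PP PI
  rw [div_le_iff₀ hx]
  have h1 : (Nat.primeCounting ⌊x⌋₊ : ℝ) ≤ (⌊x⌋₊ : ℝ) := by exact_mod_cast pi_le _
  have h2 := Nat.floor_le hx.le
  linarith

lemma PP_tendsto : Tendsto (fun z : ℝ => PP z * Real.log z) atTop (𝓝 1) := by
  have hpnt : Tendsto (fun x : ℝ => PI x * Real.log x / x) atTop (𝓝 1) :=
    Pool.Agent.Helper601.PNT.pi_tendsto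
  refine hpnt.congr fun x => ?_
  unfold PP
  ring

/-- number of `m ≤ N` with prime `p`-rough part -/
noncomputable def FN (p N : ℕ) : ℕ := ((Finset.Ioc 0 N).filter (fun m => (roughPart p m).Prime)).card

/-- normalised count -/
noncomputable def CT (p : ℕ) (y : ℝ) : ℝ := (FN p ⌊Real.exp y⌋₊ : ℝ) / Real.exp y

/-- the inner count -/
noncomputable def inn (p n : ℕ) : ℕ := ((Finset.Ioc 0 n).filter (fun q => q.Prime ∧ p < q)).card

lemma inn_le (p n : ℕ) : inn p n ≤ Nat.primeCounting n := by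
  rw [Nat.primeCounting, Nat.primeCounting', Nat.count_eq_card_filter_range]
  unfold inn
  refine Finset.card_le_card fun x hx => ?_
  rw [Finset.mem_filter, Finset.mem_Ioc] at hx
  rw [Finset.mem_filter, Finset.mem_range]
  exact ⟨by omega, hx.2.1⟩

lemma le_inn (p n : ℕ) : Nat.primeCounting n ≤ inn p n + p := by
  rw [Nat.primeCounting, Nat.primeCounting', Nat.count_eq_card_filter_range]
  unfold inn
  have h : (Finset.range (n + 1)).filter Nat.Prime ⊆
      (Finset.Ioc 0 n).filter (fun q => q.Prime ∧ p < q) ∪ Finset.Icc 1 p := by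
    intro x hx
    rw [Finset.mem_filter, Finset.mem_range] at hx
    have := hx.2.one_lt
    rw [Finset.mem_union, Finset.mem_filter, Finset.mem_Ioc, Finset.mem_Icc]
    by_cases h1 : p < x
    · exact Or.inl ⟨⟨by omega, by omega⟩, hx.2, h1⟩
    · exact Or.inr ⟨by omega, by omega⟩
  have h2 := (Finset.card_le_card h).trans (Finset.card_union_le _ _)
  rwa [Nat.card_Icc, Nat.add_sub_cancel] at h2

lemma FN_eq (p N : ℕ) : (FN p N : ℝ) = ∑ s ∈ SMz p N, (inn p (N / s) : ℝ) := by
  have h := sum_rough_eq p 0 N (fun _ => (1 : ℝ))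
  have h1 : (FN p N : ℝ) =
      ∑ m ∈ (Finset.Ioc 0 N).filter (fun m => (roughPart p m).Prime), (1 : ℝ) := by
    unfold FN
    rw [Finset.sum_const, nsmul_eq_mul, mul_one]
  rw [h1, h]
  refine Finset.sum_congr rfl fun s _ => ?_
  rw [Nat.zero_div, Finset.sum_const, nsmul_eq_mul, mul_one]
  rfl

lemma PI_scaled (y : ℝ) (s : ℕ) :
    PI (Real.exp y / s) = (Nat.primeCounting (⌊Real.exp y⌋₊ / s) : ℝ) := by
  unfold PI
  rw [Nat.floor_div_natCast]

lemma scaled_eq (y : ℝ) {s : ℕ} (hs : 0 < s) :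
    (Nat.primeCounting (⌊Real.exp y⌋₊ / s) : ℝ) / Real.exp y =
      (s : ℝ)⁻¹ * PP (Real.exp y / s) := by
  have hs0 : (0 : ℝ) < s := by exact_mod_cast hs
  have he := Real.exp_pos y
  unfold PP
  rw [PI_scaled]
  field_simp

lemma CT_le (p : ℕ) (y : ℝ) : CT p y ≤
    ∑ s ∈ SMz p (⌊Real.exp y⌋₊ : ℝ), (s : ℝ)⁻¹ * PP (Real.exp y / s) := by
  unfold CT
  rw [FN_eq, Finset.sum_div]
  refine Finset.sum_le_sum fun s hs => ?_
  rw [mem_SMz (by positivity)] at hs
  rw [← scaled_eq y (SM_pos hs.1)]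
  refine div_le_div_of_nonneg_right ?_ (Real.exp_pos _).le
  exact_mod_cast inn_le _ _

lemma le_CT {p : ℕ} {y z : ℝ} (hz : 0 < z) (hzy : z ≤ Real.exp y) :
    ∑ s ∈ SMz p z, (s : ℝ)⁻¹ * PP (Real.exp y / s) - z * p / Real.exp y ≤ CT p y := by
  have he := Real.exp_pos y
  have hsub : SMz p z ⊆ SMz p (⌊Real.exp y⌋₊ : ℝ) := by
    intro s hs
    rw [mem_SMz hz.le] at hs
    rw [mem_SMz (by positivity)]
    refine ⟨hs.1, ?_⟩
    have : s ≤ ⌊Real.exp y⌋₊ := (Nat.le_floor_iff he.le).2 (hs.2.trans hzy)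
    exact_mod_cast this
  have h1 : ∑ s ∈ SMz p z, ((s : ℝ)⁻¹ * PP (Real.exp y / s) - p / Real.exp y) ≤ CT p y := by
    unfold CT
    rw [FN_eq, Finset.sum_div]
    refine le_trans ?_ (Finset.sum_le_sum_of_subset_of_nonneg hsub fun s _ _ => by positivity)
    refine Finset.sum_le_sum fun s hs => ?_
    rw [mem_SMz hz.le] at hs
    rw [← scaled_eq y (SM_pos hs.1), ← sub_div]
    refine div_le_div_of_nonneg_right ?_ he.le
    have := le_inn p (⌊Real.exp y⌋₊ / s)
    have h2 : (Nat.primeCounting (⌊Real.exp y⌋₊ / s) : ℝ) ≤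
        (inn p (⌊Real.exp y⌋₊ / s) : ℝ) + p := by exact_mod_cast this
    linarith
  rw [Finset.sum_sub_distrib, Finset.sum_const, nsmul_eq_mul] at h1
  have h2 : ((SMz p z).card : ℝ) ≤ z := by
    have h3 : SMz p z ⊆ Finset.Icc 1 ⌊z⌋₊ := by
      intro x hx
      rw [mem_SMz hz.le] at hx
      rw [Finset.mem_Icc]
      exact ⟨SM_pos hx.1, (Nat.le_floor_iff hz.le).2 hx.2⟩
    have h4 := Finset.card_le_card h3
    rw [Nat.card_Icc, Nat.add_sub_cancel] at h4
    have h5 : ((SMz p z).card : ℝ) ≤ (⌊z⌋₊ : ℝ) := by exact_mod_cast h4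
    exact h5.trans (Nat.floor_le hz.le)
  have h3 : ((SMz p z).card : ℝ) * (p / Real.exp y) ≤ z * (p / Real.exp y) :=
    mul_le_mul_of_nonneg_right h2 (by positivity)
  have h4 : z * (p / Real.exp y) = z * p / Real.exp y := by ring
  linarith

lemma CT_upper {p : ℕ} {y δ X : ℝ} (hδ : 0 < δ) (hδ1 : δ < 1)
    (hRR : ∀ x, X ≤ x → PP x * Real.log x ≤ 1 + δ) (hy : X ≤ Real.exp ((1 - δ) * y)) (hy0 : 0 < y) :
    CT p y ≤ (1 + δ) / ((1 - δ) * y) * VV p + 3 * (Real.exp (-(δ * y / 2)) * ZZ p) := by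
  refine (CT_le p y).trans ?_
  set z := Real.exp (δ * y) with hz
  have hz0 : 0 < z := Real.exp_pos _
  rw [← Finset.sum_filter_add_sum_filter_not _ (fun s : ℕ => (s : ℝ) ≤ z)]
  refine add_le_add ?_ ?_
  · calc ∑ s ∈ (SMz p (⌊Real.exp y⌋₊ : ℝ)).filter (fun s : ℕ => (s : ℝ) ≤ z),
          (s : ℝ)⁻¹ * PP (Real.exp y / s) ≤
        ∑ s ∈ (SMz p (⌊Real.exp y⌋₊ : ℝ)).filter (fun s : ℕ => (s : ℝ) ≤ z),
          (s : ℝ)⁻¹ * ((1 + δ) / ((1 - δ) * y)) := by
          refine Finset.sum_le_sum fun s hs => mul_le_mul_of_nonneg_left ?_ (by positivity)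
          rw [Finset.mem_filter, mem_SMz (by positivity)] at hs
          have hs0 : (0 : ℝ) < s := by exact_mod_cast SM_pos hs.1.1
          have h1 : Real.exp ((1 - δ) * y) ≤ Real.exp y / s := by
            rw [le_div_iff₀ hs0]
            calc Real.exp ((1 - δ) * y) * s ≤ Real.exp ((1 - δ) * y) * z :=
                  mul_le_mul_of_nonneg_left hs.2 (Real.exp_pos _).le
              _ = Real.exp y := by rw [hz, ← Real.exp_add]; congr 1; ring
          have h2 := hRR _ (hy.trans h1)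
          have h3 : (1 - δ) * y ≤ Real.log (Real.exp y / s) := by
            rw [← Real.log_exp ((1 - δ) * y)]
            exact Real.log_le_log (Real.exp_pos _) h1
          have h4 : 0 < (1 - δ) * y := mul_pos (by linarith) hy0
          rw [le_div_iff₀ h4]
          exact (mul_le_mul_of_nonneg_left h3 (PP_nonneg (by positivity))).trans h2
      _ = (1 + δ) / ((1 - δ) * y) *
          ∑ s ∈ (SMz p (⌊Real.exp y⌋₊ : ℝ)).filter (fun s : ℕ => (s : ℝ) ≤ z), (s : ℝ)⁻¹ := by
          rw [Finset.mul_sum]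
          exact Finset.sum_congr rfl fun s _ => by ring
      _ ≤ _ := by
          have h4 : 0 < (1 - δ) * y := mul_pos (by linarith) hy0
          refine mul_le_mul_of_nonneg_left (sum_le_VV p _ fun s hs => ?_) (by positivity)
          rw [Finset.mem_filter, mem_SMz (by positivity)] at hs
          exact hs.1.1
  · calc ∑ s ∈ (SMz p (⌊Real.exp y⌋₊ : ℝ)).filter (fun s : ℕ => ¬ (s : ℝ) ≤ z),
          (s : ℝ)⁻¹ * PP (Real.exp y / s) ≤
        ∑ s ∈ (SMz p (⌊Real.exp y⌋₊ : ℝ)).filter (fun s : ℕ => ¬ (s : ℝ) ≤ z), (s : ℝ)⁻¹ * 3 := by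
          refine Finset.sum_le_sum fun s hs => mul_le_mul_of_nonneg_left ?_ (by positivity)
          rw [Finset.mem_filter, mem_SMz (by positivity)] at hs
          have hs0 : (0 : ℝ) < s := by exact_mod_cast SM_pos hs.1.1
          exact PP_le_three (by positivity)
      _ = 3 * ∑ s ∈ (SMz p (⌊Real.exp y⌋₊ : ℝ)).filter (fun s : ℕ => ¬ (s : ℝ) ≤ z), (s : ℝ)⁻¹ := by
          rw [Finset.mul_sum]
          exact Finset.sum_congr rfl fun s _ => by ring
      _ ≤ 3 * (z ^ (-(1 / 2) : ℝ) * ZZ p) := by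
          refine mul_le_mul_of_nonneg_left (tail_le p hz0 _ fun s hs => ?_) (by norm_num)
          rw [Finset.mem_filter, mem_SMz (by positivity)] at hs
          exact ⟨hs.1.1, (not_le.1 hs.2).le⟩
      _ = _ := by
          rw [hz, ← Real.exp_mul]
          congr 3
          ring_nf

lemma CT_lower {p : ℕ} {y δ X : ℝ} (hδ : 0 < δ) (hδ1 : δ < 1)
    (hRR : ∀ x, X ≤ x → 1 - δ ≤ PP x * Real.log x) (hy : X ≤ Real.exp ((1 - δ) * y))
    (hy0 : 0 < y) :
    (1 - δ) / y * VV p - 1 / y * (Real.exp (-(δ * y / 2)) * ZZ p) -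
      Real.exp (δ * y) * p / Real.exp y ≤ CT p y := by
  have hzy : Real.exp (δ * y) ≤ Real.exp y := Real.exp_le_exp.2 (by nlinarith)
  refine le_trans ?_ (le_CT (p := p) (Real.exp_pos (δ * y)) hzy)
  set z := Real.exp (δ * y) with hz
  have hz0 : 0 < z := Real.exp_pos _
  have h1 : (1 - δ) / y * ∑ s ∈ SMz p z, (s : ℝ)⁻¹ ≤ ∑ s ∈ SMz p z, (s : ℝ)⁻¹ * PP (Real.exp y / s) := by
    rw [Finset.mul_sum]
    refine Finset.sum_le_sum fun s hs => ?_
    rw [mem_SMz hz0.le] at hs
    have hs0 : (0 : ℝ) < s := by exact_mod_cast SM_pos hs.1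
    have hs1 : (1 : ℝ) ≤ s := by exact_mod_cast SM_pos hs.1
    rw [mul_comm]
    refine mul_le_mul_of_nonneg_left ?_ (by positivity)
    have h1 : Real.exp ((1 - δ) * y) ≤ Real.exp y / s := by
      rw [le_div_iff₀ hs0]
      calc Real.exp ((1 - δ) * y) * s ≤ Real.exp ((1 - δ) * y) * z :=
            mul_le_mul_of_nonneg_left hs.2 (Real.exp_pos _).le
        _ = Real.exp y := by rw [hz, ← Real.exp_add]; congr 1; ring
    have h2 := hRR _ (hy.trans h1)
    have h3 : Real.log (Real.exp y / s) ≤ y := by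
      rw [Real.log_div (Real.exp_pos _).ne' hs0.ne', Real.log_exp]
      have := Real.log_nonneg hs1
      linarith
    rw [div_le_iff₀ hy0]
    exact h2.trans (mul_le_mul_of_nonneg_left h3 (PP_nonneg (by positivity)))
  have h2 := VV_le p hz0
  have h3 : z ^ (-(1 / 2) : ℝ) = Real.exp (-(δ * y / 2)) := by
    rw [hz, ← Real.exp_mul]
    congr 1
    ring
  rw [h3] at h2
  have h4 : (1 - δ) / y * VV p ≤ (1 - δ) / y * (∑ n ∈ SMz p z, (n : ℝ)⁻¹ + Real.exp (-(δ * y / 2)) * ZZ p) :=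
    mul_le_mul_of_nonneg_left h2 (by have : 0 < 1 - δ := by linarith
                                     positivity)
  have h5 : (1 - δ) / y * (Real.exp (-(δ * y / 2)) * ZZ p) ≤ 1 / y * (Real.exp (-(δ * y / 2)) * ZZ p) := by
    refine mul_le_mul_of_nonneg_right ?_ (mul_nonneg (Real.exp_pos _).le (ZZ_nonneg p))
    exact div_le_div_of_nonneg_right (by linarith) hy0.le
  rw [mul_add] at h4
  linarith

/-- the third error term -/
lemma err3 {a : ℝ} (ha : 0 < a) {y : ℕ → ℝ} (hy : Tendsto (fun p : ℕ => y p / p) atTop (𝓝 a))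
    {δ : ℝ} (hδ1 : δ < 1) :
    Tendsto (fun p : ℕ => (p : ℝ) * (Real.exp (δ * y p) * p / Real.exp (y p))) atTop (𝓝 0) := by
  have hyge : ∀ᶠ p : ℕ in atTop, a / 2 * p ≤ y p := by
    have h1 := hy.eventually_const_lt (show a / 2 < a by linarith)
    filter_upwards [h1, eventually_ge_atTop 1] with p hp hp1
    have hp0 : (0 : ℝ) < p := by exact_mod_cast hp1
    rw [lt_div_iff₀ hp0] at hp
    exact hp.le
  set c := (1 - δ) * (a / 2) with hc
  have hc0 : 0 < c := mul_pos (by linarith) (by linarith)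
  have h2 : Tendsto (fun x : ℝ => x ^ (2 : ℕ) * Real.exp (-(c * x))) atTop (𝓝 0) := by
    have := Real.tendsto_pow_mul_exp_neg_atTop_nhds_zero 2
    have h2 := (this.comp (tendsto_id.const_mul_atTop hc0)).const_mul ((c⁻¹) ^ 2)
    rw [mul_zero] at h2
    refine h2.congr fun x => ?_
    simp only [Function.comp, id]
    field_simp
  have h3 := h2.comp (tendsto_natCast_atTop_atTop (R := ℝ))
  refine squeeze_zero' (Eventually.of_forall fun p => by positivity) ?_ h3
  filter_upwards [hyge] with p hp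
  simp only [Function.comp]
  have e1 : (p : ℝ) * (Real.exp (δ * y p) * p / Real.exp (y p)) =
      (p : ℝ) ^ 2 * Real.exp (δ * y p - y p) := by
    rw [Real.exp_sub]; ring
  rw [e1]
  refine mul_le_mul_of_nonneg_left (Real.exp_le_exp.2 ?_) (by positivity)
  have := mul_le_mul_of_nonneg_left hp (by linarith : 0 ≤ 1 - δ)
  rw [hc]
  nlinarith

/-- asymptotic count -/
theorem count_asymp {a : ℝ} (ha : 0 < a) {y : ℕ → ℝ}
    (hy : Tendsto (fun p : ℕ => y p / p) atTop (𝓝 a)) :
    Tendsto (fun p : ℕ => CT p (y p) * (p / Real.log p)) atTop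
      (𝓝 (Real.exp Real.eulerMascheroniConstant / a)) := by
  set G := Real.exp Real.eulerMascheroniConstant with hG
  have hytop : Tendsto y atTop atTop := by
    have h1 : Tendsto (fun p : ℕ => y p / p * p) atTop atTop :=
      hy.pos_mul_atTop ha (tendsto_natCast_atTop_atTop (R := ℝ))
    refine h1.congr' ?_
    filter_upwards [eventually_ge_atTop 1] with p hp
    have hp0 : (0 : ℝ) < p := by exact_mod_cast hp
    field_simp
  rw [Metric.tendsto_atTop]
  intro ε hε
  have hδ : ∃ δ : ℝ, 0 < δ ∧ δ < 1 ∧ G * ((1 + δ) / (1 - δ)) / a < G / a + ε / 2 ∧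
      G / a - ε / 2 < G * (1 - δ) / a := by
    have h1 : Tendsto (fun δ : ℝ => G * ((1 + δ) / (1 - δ)) / a) (𝓝[>] 0) (𝓝 (G / a)) := by
      have : ContinuousAt (fun δ : ℝ => G * ((1 + δ) / (1 - δ)) / a) 0 := by
        refine ContinuousAt.div_const (ContinuousAt.mul continuousAt_const
          (ContinuousAt.div (by fun_prop) (by fun_prop) (by norm_num))) _
      have h2 := this.tendsto.mono_left (nhdsWithin_le_nhds (s := Set.Ioi 0))
      simpa using h2
    have h2 : Tendsto (fun δ : ℝ => G * (1 - δ) / a) (𝓝[>] 0) (𝓝 (G / a)) := by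
      have : ContinuousAt (fun δ : ℝ => G * (1 - δ) / a) 0 := by fun_prop
      have h2 := this.tendsto.mono_left (nhdsWithin_le_nhds (s := Set.Ioi 0))
      simpa using h2
    have h3 := h1.eventually_lt_const (show G / a < G / a + ε / 2 by linarith)
    have h4 := h2.eventually_const_lt (show G / a - ε / 2 < G / a by linarith)
    have h5 : ∀ᶠ δ : ℝ in 𝓝[>] 0, δ < 1 :=
      (eventually_lt_nhds (show (0 : ℝ) < 1 by norm_num)).filter_mono nhdsWithin_le_nhds
    obtain ⟨δ, hδ⟩ := ((self_mem_nhdsWithin (a := (0 : ℝ)) (s := Set.Ioi 0)) |>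
      fun h => (h3.and (h4.and (h5.and h))).exists)
    exact ⟨δ, hδ.2.2.2, hδ.2.2.1, hδ.1, hδ.2.1⟩
  obtain ⟨δ, hδ0, hδ1, hup, hlow⟩ := hδ
  obtain ⟨X, hX⟩ : ∃ X : ℝ, ∀ x, X ≤ x → |PP x * Real.log x - 1| < δ := by
    have := (Metric.tendsto_nhds.1 PP_tendsto) δ hδ0
    simp only [Real.dist_eq] at this
    exact this.exists_forall_of_atTop
  have hRRu : ∀ x, X ≤ x → PP x * Real.log x ≤ 1 + δ := fun x hx => by
    have := abs_lt.1 (hX x hx); linarith [this.2]
  have hRRl : ∀ x, X ≤ x → 1 - δ ≤ PP x * Real.log x := fun x hx => by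
    have := abs_lt.1 (hX x hx); linarith [this.1]
  have hVy : Tendsto (fun p : ℕ => VV p / Real.log p * (p / y p)) atTop (𝓝 (G * a⁻¹)) := by
    refine VV_tendsto.mul ?_
    refine (hy.inv₀ ha.ne').congr fun p => ?_
    rw [inv_div]
  have herr := (error_tendsto ha hy hδ0).add (err3 ha hy hδ1)
  rw [add_zero] at herr
  have hU := (hVy.const_mul ((1 + δ) / (1 - δ))).add herr
  have hL := (hVy.const_mul (1 - δ)).sub herr
  have hU' := hU.eventually_lt_const (show (1 + δ) / (1 - δ) * (G * a⁻¹) + 0 < G / a + ε / 2 by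
    have : (1 + δ) / (1 - δ) * (G * a⁻¹) + 0 = G * ((1 + δ) / (1 - δ)) / a := by ring
    rw [this]; exact hup)
  have hL' := hL.eventually_const_lt (show G / a - ε / 2 < (1 - δ) * (G * a⁻¹) - 0 by
    have : (1 - δ) * (G * a⁻¹) - 0 = G * (1 - δ) / a := by ring
    rw [this]; exact hlow)
  have hcond1 : ∀ᶠ p : ℕ in atTop, X ≤ Real.exp ((1 - δ) * y p) :=
    (Real.tendsto_exp_atTop.comp (hytop.const_mul_atTop (by linarith : 0 < 1 - δ))).eventually_ge_atTop X
  have hcond2 : ∀ᶠ p : ℕ in atTop, (1 : ℝ) < y p := hytop.eventually_gt_atTop 1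
  obtain ⟨P, hP⟩ := (hU'.and (hL'.and (hcond1.and (hcond2.and
    (eventually_ge_atTop 3))))).exists_forall_of_atTop
  refine ⟨P, fun p hp => ?_⟩
  obtain ⟨h1, h2, h3, h4, h6⟩ := hP p hp
  have hp3 : (3 : ℝ) ≤ p := by exact_mod_cast h6
  have hp0 : (0 : ℝ) < p := by linarith
  have hy0 : 0 < y p := by linarith
  have hlog : 1 ≤ Real.log p := by
    rw [Real.le_log_iff_exp_le hp0]
    have := Real.exp_one_lt_d9
    linarith
  have hlog0 : 0 < Real.log p := by linarith
  have hpl : (p : ℝ) / Real.log p ≤ p := div_le_self hp0.le hlog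
  have hpl0 : 0 < (p : ℝ) / Real.log p := by positivity
  have hTu := CT_upper (p := p) hδ0 hδ1 hRRu h3 hy0
  have hTl := CT_lower (p := p) hδ0 hδ1 hRRl h3 hy0
  have hZ := ZZ_nonneg p
  have hE1 : 0 ≤ Real.exp (-(δ * y p / 2)) * ZZ p := by positivity
  have hE2 : 0 ≤ Real.exp (-(y p)) := (Real.exp_pos _).le
  have hE3 : 0 ≤ Real.exp (δ * y p) * p / Real.exp (y p) := by positivity
  set E1 := Real.exp (-(δ * y p / 2)) * ZZ p with hE1d
  set E2 := Real.exp (-(y p)) with hE2d
  set E3 := Real.exp (δ * y p) * p / Real.exp (y p) with hE3d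
  have e3 : ((3 * E1 + 4 * E2) + E3) * (p / Real.log p) ≤
      (p : ℝ) * (3 * E1 + 4 * E2) + (p : ℝ) * E3 := by
    rw [mul_comm, ← mul_add]
    exact mul_le_mul_of_nonneg_right hpl (by positivity)
  rw [Real.dist_eq, abs_lt]
  constructor
  · have e : CT p (y p) ≥ (1 - δ) / y p * VV p - ((3 * E1 + 4 * E2) + E3) := by
      have : 1 / y p * E1 ≤ 3 * E1 := by
        refine mul_le_mul_of_nonneg_right ?_ hE1
        rw [div_le_iff₀ hy0]; linarith
      linarith
    have e2 := mul_le_mul_of_nonneg_right e hpl0.le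
    have e4 : (1 - δ) / y p * VV p * (p / Real.log p) = (1 - δ) * (VV p / Real.log p * (p / y p)) := by
      field_simp
    rw [sub_mul, e4] at e2
    linarith
  · have e : CT p (y p) ≤ (1 + δ) / ((1 - δ) * y p) * VV p + ((3 * E1 + 4 * E2) + E3) := by
      linarith
    have e2 := mul_le_mul_of_nonneg_right e hpl0.le
    have h1δ : (0 : ℝ) < 1 - δ := by linarith
    have e4 : (1 + δ) / ((1 - δ) * y p) * VV p * (p / Real.log p) =
        (1 + δ) / (1 - δ) * (VV p / Real.log p * (p / y p)) := by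
      field_simp
    rw [add_mul, e4] at e2
    linarith

lemma rough_two_mul {p m : ℕ} (hp : 2 ≤ p) (hm : m ≠ 0) : roughPart p (2 * m) = roughPart p m := by
  unfold roughPart
  have h1 := (Nat.perm_primeFactorsList_mul (two_ne_zero) hm).filter (fun r => decide (p < r))
  rw [h1.prod_eq, List.filter_append, List.prod_append, Nat.primeFactorsList_prime Nat.prime_two]
  have h2 : ([2] : List ℕ).filter (fun r => decide (p < r)) = [] := by
    rw [List.filter_eq_nil_iff]
    intro a ha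
    rw [List.mem_singleton] at ha
    subst ha
    simp only [decide_eq_true_eq, not_lt]
    exact hp
  rw [h2, List.prod_nil, one_mul]

/-- odd integers below `2 ^ p` with prime `p`-rough part -/
def cO (p : ℕ) : ℕ := ((Finset.range (2 ^ p)).filter
  (fun n => n % 2 = 1 ∧ (roughPart p n).Prime)).card

lemma FN_split {p : ℕ} (hp : 2 ≤ p) : FN p (2 ^ p) = cO p + FN p (2 ^ (p - 1)) := by
  have h2p : 2 ^ p = 2 * 2 ^ (p - 1) := by
    rw [← pow_succ']
    congr 1
    omega
  unfold FN cO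
  rw [← Finset.card_filter_add_card_filter_not (s := (Finset.Ioc 0 (2 ^ p)).filter
    (fun m => (roughPart p m).Prime)) (fun m => m % 2 = 1)]
  congr 1
  · congr 1
    ext m
    simp only [Finset.mem_filter, Finset.mem_Ioc, Finset.mem_range]
    constructor
    · rintro ⟨⟨⟨h1, h2⟩, h3⟩, h4⟩
      refine ⟨?_, h4, h3⟩
      rcases h2.lt_or_eq with h | h
      · exact h
      · omega
    · rintro ⟨h1, h2, h3⟩
      exact ⟨⟨⟨by omega, h1.le⟩, h3⟩, h2⟩
  · have h3 : (((Finset.Ioc 0 (2 ^ p)).filter (fun m => (roughPart p m).Prime)).filter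
        (fun m => ¬ m % 2 = 1)) = ((Finset.Ioc 0 (2 ^ (p - 1))).filter
        (fun m => (roughPart p m).Prime)).image (fun m => 2 * m) := by
      ext m
      simp only [Finset.mem_filter, Finset.mem_Ioc, Finset.mem_image]
      constructor
      · rintro ⟨⟨⟨h1, h2⟩, h3⟩, h4⟩
        have h5 : 2 * (m / 2) = m := by omega
        refine ⟨m / 2, ⟨⟨by omega, by omega⟩, ?_⟩, h5⟩
        rw [← rough_two_mul hp (by omega), h5]
        exact h3
      · rintro ⟨k, ⟨⟨h1, h2⟩, h3⟩, rfl⟩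
        refine ⟨⟨⟨by omega, by omega⟩, ?_⟩, by omega⟩
        rw [rough_two_mul hp (by omega)]
        exact h3
    rw [h3, Finset.card_image_of_injective]
    intro a b hab
    simpa using hab

lemma exp_mul_log_two (k : ℕ) : Real.exp ((k : ℝ) * Real.log 2) = 2 ^ k := by
  rw [Real.exp_nat_mul, Real.exp_log two_pos]

lemma CT_pow (p k : ℕ) : CT p ((k : ℝ) * Real.log 2) = (FN p (2 ^ k) : ℝ) / 2 ^ k := by
  unfold CT
  rw [exp_mul_log_two]
  have h : ⌊((2 : ℝ) ^ k)⌋₊ = 2 ^ k := by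
    rw [show ((2 : ℝ) ^ k) = ((2 ^ k : ℕ) : ℝ) by push_cast; rfl, Nat.floor_natCast]
  rw [h]

/-- the asymptotic count of the odd integers below `2 ^ p` with prime `p`-rough part -/
theorem mean_odd : Tendsto (fun p : ℕ => (cO p : ℝ) / 2 ^ (p - 1) * (p / Real.log p)) atTop
    (𝓝 (Real.exp Real.eulerMascheroniConstant / Real.log 2)) := by
  have hl2 : 0 < Real.log 2 := Real.log_pos (by norm_num)
  have hy1 : Tendsto (fun p : ℕ => ((p : ℝ) * Real.log 2) / p) atTop (𝓝 (Real.log 2)) := by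
    refine tendsto_const_nhds.congr' ?_
    filter_upwards [eventually_ge_atTop 1] with p hp
    have hp0 : (0 : ℝ) < p := by exact_mod_cast hp
    field_simp
  have hy2 : Tendsto (fun p : ℕ => (((p - 1 : ℕ) : ℝ) * Real.log 2) / p) atTop
      (𝓝 (Real.log 2)) := by
    have h1 : Tendsto (fun p : ℕ => (1 - (p : ℝ)⁻¹) * Real.log 2) atTop (𝓝 ((1 - 0) * Real.log 2)) :=
      (tendsto_const_nhds.sub tendsto_inv_atTop_nhds_zero_nat).mul_const _
    rw [sub_zero, one_mul] at h1
    refine h1.congr' ?_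
    filter_upwards [eventually_ge_atTop 1] with p hp
    have hp0 : (0 : ℝ) < p := by exact_mod_cast hp
    rw [Nat.cast_sub hp]
    push_cast
    field_simp
  have h1 := count_asymp hl2 hy1
  have h2 := count_asymp hl2 hy2
  have h3 := (h1.const_mul 2).sub h2
  have e : 2 * (Real.exp Real.eulerMascheroniConstant / Real.log 2) -
      Real.exp Real.eulerMascheroniConstant / Real.log 2 =
      Real.exp Real.eulerMascheroniConstant / Real.log 2 := by ring
  rw [e] at h3
  refine h3.congr' ?_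
  filter_upwards [eventually_ge_atTop 2] with p hp
  rw [CT_pow, CT_pow, FN_split hp]
  push_cast
  have h2p : (2 : ℝ) ^ p = 2 * 2 ^ (p - 1) := by
    rw [← pow_succ']
    congr 1
    omega
  rw [h2p]
  have : (2 : ℝ) ^ (p - 1) ≠ 0 := by positivity
  field_simp
  ring

theorem cB_eq (p : ℕ) : Pool.Agent.H555R4.DY.cB p = cO p := by
  unfold Pool.Agent.H555R4.DY.cB cO
  congr 1
  ext n
  simp only [Finset.mem_filter, Nat.odd_iff]
  rfl

/-- Task Mean -/
theorem taskMean : Pool.Agent.H555R4.DY.TaskMean := by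
  unfold Pool.Agent.H555R4.DY.TaskMean Pool.Agent.H555R4.DY.StMean
  simp only [cB_eq]
  exact mean_odd

end Pool.Agent.H555R4.DY.Mean
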