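import Pool.Agent.H555R4.DY.Stmts
import Pool.Agent.Erdos456.Mertens

set_option autoImplicit false

open Finset Filter Topology

namespace Pool.Agent.Helper60.DY

open Pool.Agent.H555R4.DY
open Pool.Agent.H555R4.LW (rp)

theorem sum_mod (a : ℕ) (_ha : 0 < a) (g : ℕ → ℝ) (b : ℕ) :
    ∑ n ∈ range (a * b), g (n % a) = b * ∑ n ∈ range a, g n := by
  induction b with
  | zero => simp
  | succ b ih =>
    rw [Nat.mul_succ, Finset.sum_range_add, ih]
    have h : ∑ x ∈ range a, g ((a * b + x) % a) = ∑ x ∈ range a, g x := by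
      refine Finset.sum_congr rfl fun x hx => ?_
      rw [Nat.mul_add_mod, Nat.mod_eq_of_lt (Finset.mem_range.1 hx)]
    rw [h]
    push_cast
    ring

theorem odd_mod (p n : ℕ) (hp : 1 ≤ p) : Odd (n % 2 ^ p) ↔ Odd n := by
  have h2 : 2 ∣ 2 ^ p := dvd_pow_self 2 (by omega)
  rw [Nat.odd_iff, Nat.odd_iff, Nat.mod_mod_of_dvd n h2]

/-- summand -/
noncomputable def F (p : ℕ) : ℝ := (cB p : ℝ) / 2 ^ (p - 1)

open Classical in
theorem cnt (p N : ℕ) (hp : 1 ≤ p) (hpN : p ≤ N) :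
    (∑ n ∈ (range (2 ^ N)).filter (fun n => Odd n), (if (rp p (n % 2 ^ p)).Prime then (1 : ℝ)
      else 0)) / 2 ^ (N - 1) = F p := by
  have h1 : ∑ n ∈ (range (2 ^ N)).filter (fun n => Odd n),
      (if (rp p (n % 2 ^ p)).Prime then (1 : ℝ) else 0) =
      ∑ n ∈ range (2 ^ p * 2 ^ (N - p)), (fun m => if Odd m ∧ (rp p m).Prime then (1 : ℝ) else 0)
        (n % 2 ^ p) := by
    rw [Finset.sum_filter, ← pow_add, Nat.add_sub_cancel' hpN]
    refine Finset.sum_congr rfl fun n _ => ?_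
    simp only [odd_mod p n hp]
    by_cases h : Odd n
    · simp [h]
    · simp [h]
  rw [h1, sum_mod (2 ^ p) (by positivity)
    (fun m => if Odd m ∧ (rp p m).Prime then (1 : ℝ) else 0) (2 ^ (N - p))]
  have h2 : ∑ n ∈ range (2 ^ p), (fun m => if Odd m ∧ (rp p m).Prime then (1 : ℝ) else 0) n =
      cB p := by
    unfold cB
    rw [Finset.card_filter]
    push_cast
    exact Finset.sum_congr rfl fun n _ => by congr
  rw [h2, F]
  push_cast
  have h3 : (2 : ℝ) ^ (N - 1) = 2 ^ (N - p) * 2 ^ (p - 1) := by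
    rw [← pow_add]
    congr 1
    omega
  rw [h3]
  field_simp

theorem Zb_eq (i n : ℕ) : (Zb i n : ℝ) = ∑ p ∈ (Ioc (2 ^ i) (2 ^ (i + 1))).filter Nat.Prime,
    (if (rp p (n % 2 ^ p)).Prime then (1 : ℝ) else 0) := by
  unfold Zb
  rw [← Finset.filter_filter, Finset.card_filter]
  push_cast
  rfl

theorem aS_eq (I : ℕ) : aS I = ∑ i ∈ range I,
    ∑ p ∈ (Ioc (2 ^ i) (2 ^ (i + 1))).filter Nat.Prime, F p := by
  unfold aS Sb
  have h1 : ∑ n ∈ (range (2 ^ (2 ^ I))).filter (fun n => Odd n),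
      ((∑ i ∈ range I, Zb i n : ℕ) : ℝ) = ∑ i ∈ range I,
        ∑ p ∈ (Ioc (2 ^ i) (2 ^ (i + 1))).filter Nat.Prime,
          ∑ n ∈ (range (2 ^ (2 ^ I))).filter (fun n => Odd n),
            (if (rp p (n % 2 ^ p)).Prime then (1 : ℝ) else 0) := by
    push_cast
    rw [Finset.sum_comm]
    refine Finset.sum_congr rfl fun i _ => ?_
    rw [Finset.sum_comm]
    exact Finset.sum_congr rfl fun n _ => Zb_eq i n
  rw [h1, Finset.sum_div]
  refine Finset.sum_congr rfl fun i hi => ?_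
  rw [Finset.sum_div]
  refine Finset.sum_congr rfl fun p hp => ?_
  rw [Finset.mem_filter, Finset.mem_Ioc] at hp
  refine cnt p (2 ^ I) (by omega) (hp.1.2.trans ?_)
  exact Nat.pow_le_pow_right (by norm_num) (Finset.mem_range.1 hi)

theorem blocks (G : ℕ → ℝ) (I : ℕ) : ∑ i ∈ range I,
    ∑ p ∈ (Ioc (2 ^ i) (2 ^ (i + 1))).filter Nat.Prime, G p =
      ∑ p ∈ range (2 ^ I + 1), if p.Prime then G p else 0 := by
  induction I with
  | zero =>
    simp [Finset.sum_range_succ, Nat.not_prime_zero, Nat.not_prime_one]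
  | succ I ih =>
    rw [Finset.sum_range_succ, ih, Finset.sum_filter]
    have h1 : 2 ^ I + 1 ≤ 2 ^ (I + 1) + 1 := by
      have := Nat.pow_le_pow_right (n := 2) (by norm_num) (Nat.le_succ I)
      simpa using this
    rw [← Finset.sum_range_add_sum_Ico _ h1]
    have h2 : Ioc (2 ^ I) (2 ^ (I + 1)) = Ico (2 ^ I + 1) (2 ^ (I + 1) + 1) := by
      ext x
      rw [Finset.mem_Ioc, Finset.mem_Ico]
      omega
    rw [h2]

/-- weights -/
noncomputable def w (p : ℕ) : ℝ := if p.Prime then Real.log p / p else 0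

theorem w_nonneg (p : ℕ) : 0 ≤ w p := by
  unfold w
  split_ifs with h
  · exact div_nonneg (Real.log_nonneg (by exact_mod_cast h.one_lt.le)) (Nat.cast_nonneg _)
  · exact le_rfl

theorem W_bound : ∃ C : ℝ, ∀ N : ℕ, 1 ≤ N → |∑ p ∈ range (N + 1), w p - Real.log N| ≤ C := by
  obtain ⟨C, hC⟩ := Pool.Agent.Erdos456.Mert.mertens_log
  refine ⟨C, fun N hN => ?_⟩
  have h1 : ∑ p ∈ range (N + 1), w p = ∑ p ∈ (Finset.Icc 1 N).filter Nat.Prime, Real.log p / p := by
    unfold w
    rw [← Finset.sum_filter]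
    refine Finset.sum_congr ?_ fun _ _ => rfl
    ext x
    rw [Finset.mem_filter, Finset.mem_filter, Finset.mem_range, Finset.mem_Icc]
    constructor
    · rintro ⟨h, h'⟩
      exact ⟨⟨h'.one_lt.le, by omega⟩, h'⟩
    · rintro ⟨h, h'⟩
      exact ⟨by omega, h'⟩
  rw [h1]
  exact hC N hN

theorem W_tendsto : Tendsto (fun N => ∑ p ∈ range N, w p) atTop atTop := by
  obtain ⟨C, hC⟩ := W_bound
  rw [← tendsto_add_atTop_iff_nat 1]
  have h1 : Tendsto (fun N : ℕ => Real.log N - C) atTop atTop :=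
    tendsto_atTop_add_const_right _ _ (Real.tendsto_log_atTop.comp tendsto_natCast_atTop_atTop)
  refine tendsto_atTop_mono' _ ?_ h1
  filter_upwards [eventually_ge_atTop 1] with N hN
  have := (abs_le.1 (hC N hN)).1
  linarith

theorem W_two : Tendsto (fun I : ℕ => (∑ p ∈ range (2 ^ I + 1), w p) / I) atTop
    (𝓝 (Real.log 2)) := by
  obtain ⟨C, hC⟩ := W_bound
  have h1 : Tendsto (fun I : ℕ => (∑ p ∈ range (2 ^ I + 1), w p) / I - Real.log 2) atTop
      (𝓝 0) := by
    have h2 : Tendsto (fun I : ℕ => C / (I : ℝ)) atTop (𝓝 0) :=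
      tendsto_const_div_atTop_nhds_zero_nat C
    refine squeeze_zero_norm' ?_ h2
    filter_upwards [eventually_ge_atTop 1] with I hI
    have hI' : (0 : ℝ) < I := by exact_mod_cast hI
    have h3 := hC (2 ^ I) Nat.one_le_two_pow
    have h4 : (∑ p ∈ range (2 ^ I + 1), w p) / I - Real.log 2 =
        (∑ p ∈ range (2 ^ I + 1), w p - Real.log ((2 ^ I : ℕ) : ℝ)) / I := by
      push_cast
      rw [Real.log_pow]
      field_simp
    rw [h4, Real.norm_eq_abs, abs_div, abs_of_pos hI']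
    gcongr
  have h5 := h1.add_const (Real.log 2)
  simpa using h5

theorem taskMeanS : TaskMeanS := by
  unfold TaskMeanS
  intro hM
  unfold StMean at hM
  unfold StMeanS
  set c : ℝ := Real.exp Real.eulerMascheroniConstant / Real.log 2 with hc
  have hl2 : Real.log 2 ≠ 0 := (Real.log_pos (by norm_num)).ne'
  -- the error
  have hf : (fun p : ℕ => w p * ((cB p : ℝ) / 2 ^ (p - 1) * (p / Real.log p) - c))
      =o[atTop] fun p => w p := by
    have h1 : (fun p : ℕ => (cB p : ℝ) / 2 ^ (p - 1) * (p / Real.log p) - c)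
        =o[atTop] fun _ => (1 : ℝ) := by
      rw [Asymptotics.isLittleO_one_iff]
      have := hM.sub_const c
      simpa using this
    have h2 := (Asymptotics.isBigO_refl w atTop).mul_isLittleO h1
    simpa using h2
  have hs := hf.sum_range w_nonneg W_tendsto
  have haS : ∀ I : ℕ, aS I = c * ∑ p ∈ range (2 ^ I + 1), w p +
      ∑ p ∈ range (2 ^ I + 1), w p * ((cB p : ℝ) / 2 ^ (p - 1) * (p / Real.log p) - c) := by
    intro I
    rw [aS_eq, blocks F, Finset.mul_sum, ← Finset.sum_add_distrib]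
    refine Finset.sum_congr rfl fun p _ => ?_
    unfold w
    split_ifs with hp
    · have hp0 : (p : ℝ) ≠ 0 := by exact_mod_cast hp.ne_zero
      have hlp : Real.log p ≠ 0 := (Real.log_pos (by exact_mod_cast hp.one_lt)).ne'
      unfold F
      field_simp
      ring
    · simp
  have hN0 : Tendsto (fun I : ℕ => (2 : ℕ) ^ I) atTop atTop :=
    tendsto_atTop_mono (fun I => (Nat.lt_pow_self (by norm_num : 1 < 2)).le) tendsto_id
  have hN : Tendsto (fun I : ℕ => (2 : ℕ) ^ I + 1) atTop atTop :=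
    tendsto_atTop_mono (fun I => Nat.le_succ (2 ^ I)) hN0
  have hs2 : (fun I : ℕ => ∑ p ∈ range (2 ^ I + 1),
      w p * ((cB p : ℝ) / 2 ^ (p - 1) * (p / Real.log p) - c)) =o[atTop]
        fun I : ℕ => ∑ p ∈ range (2 ^ I + 1), w p := hs.comp_tendsto hN
  have hW0 : ∀ᶠ I : ℕ in atTop, ∑ p ∈ range (2 ^ I + 1), w p ≠ 0 := by
    filter_upwards [(W_tendsto.comp hN).eventually_gt_atTop 0] with I hI
    exact hI.ne'
  have hs3 := hs2.tendsto_div_nhds_zero
  have h6 : Tendsto (fun I : ℕ => c * ((∑ p ∈ range (2 ^ I + 1), w p) / I) +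
      ((∑ p ∈ range (2 ^ I + 1),
      w p * ((cB p : ℝ) / 2 ^ (p - 1) * (p / Real.log p) - c)) / ∑ p ∈ range (2 ^ I + 1), w p) *
        ((∑ p ∈ range (2 ^ I + 1), w p) / I)) atTop (𝓝 (c * Real.log 2 + 0 * Real.log 2)) :=
    (W_two.const_mul c).add (hs3.mul W_two)
  have h7 : c * Real.log 2 + 0 * Real.log 2 = Real.exp Real.eulerMascheroniConstant := by
    rw [hc]
    field_simp
    ring
  rw [h7] at h6
  refine h6.congr' ?_
  filter_upwards [hW0] with I hI
  rw [haS I]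
  field_simp

end Pool.Agent.Helper60.DY
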