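import Pool.Agent.H555R4.DY.Stmts

set_option autoImplicit false

/-! Law of the first digits (task DY-Meas). -/

open Finset

namespace Pool.Agent.H555R4.DY.Meas170

open Pool.Agent.H555R4.DY

lemma num_lt (ε : ℕ → Bool) (p : ℕ) : num ε p < 2 ^ p := by
  induction p with
  | zero => simp [num]
  | succ p ih =>
    unfold num at *
    rw [sum_range_succ, pow_succ]
    split_ifs <;> omega

lemma num_inj (ε ε' : ℕ → Bool) (p : ℕ) (h : num ε p = num ε' p) : ∀ i < p, ε i = ε' i := by
  induction p with
  | zero => intro i hi; omega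
  | succ p ih =>
    have h1 := num_lt ε p
    have h2 := num_lt ε' p
    have e1 : num ε (p + 1) = num ε p + if ε p then 2 ^ p else 0 := sum_range_succ _ _
    have e2 : num ε' (p + 1) = num ε' p + if ε' p then 2 ^ p else 0 := sum_range_succ _ _
    rw [e1, e2] at h
    have h3 : ε p = ε' p ∧ num ε p = num ε' p := by
      cases hp : ε p <;> cases hp' : ε' p <;> simp [hp, hp'] at h ⊢ <;> omega
    intro i hi
    rcases Nat.lt_succ_iff_lt_or_eq.1 hi with hi | rfl
    · exact ih h3.2 i hi
    · exact h3.1

theorem t : TaskMeas := by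
  intro p n
  by_cases hne : ∃ ε0, num ε0 p = n
  · obtain ⟨ε0, h0⟩ := hne
    have hsub : {ε | num ε p = n} ⊆ Set.pi (range p : Finset ℕ) (fun i => {ε0 i}) := by
      intro ε hε i hi
      rw [Set.mem_ofPred_eq, ← h0] at hε
      exact num_inj ε ε0 p hε i (by simpa using hi)
    refine (MeasureTheory.measure_mono hsub).trans ?_
    unfold coin
    rw [MeasureTheory.Measure.infinitePi_pi]
    · have h1 : ∀ i ∈ range p, (PMF.uniformOfFintype Bool).toMeasure {ε0 i} = ENNReal.ofReal (1 / 2) := by
        intro i _
        rw [PMF.toMeasure_apply_singleton _ _ (measurableSet_singleton _)]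
        simp
      rw [prod_congr rfl h1, prod_const, card_range, ← ENNReal.ofReal_pow (by norm_num)]
      apply le_of_eq
      congr 1
      simp
    · intro i _
      exact measurableSet_singleton _
  · have : {ε | num ε p = n} = ∅ := by
      ext ε
      simp only [Set.mem_ofPred_eq, Set.mem_empty_iff_false, iff_false]
      intro h
      exact hne ⟨ε, h⟩
    rw [this]
    simp

end Pool.Agent.H555R4.DY.Meas170
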