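import Pool.Agent.H555R4.DY.Stmts

/-! Proof of `TaskQ`. -/

set_option autoImplicit false

namespace Pool.Agent.H555R4.DY.Q

theorem exists_sqrt (a : ℕ) (ha : 4 ≤ a) (u : (ZMod (2 ^ a))ˣ)
    (hu : u ∈ (ZMod.unitsMap (show 2 ^ (a - 1) ∣ 2 ^ a from pow_dvd_pow 2 (by omega))).ker) :
    ∃ v : (ZMod (2 ^ a))ˣ, v ^ 2 = u := by
  have hdvd : 2 ^ (a - 1) ∣ 2 ^ a := pow_dvd_pow 2 (by omega)
  rw [MonoidHom.mem_ker, ZMod.unitsMap_def] at hu
  have h1 := congrArg Units.val hu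
  rw [Units.coe_map, Units.val_one] at h1
  have h2 : ZMod.castHom hdvd (ZMod (2 ^ (a - 1))) (u : ZMod (2 ^ a)) = 1 := h1
  have h3 : ((((u : ZMod (2 ^ a)).val : ℕ) : ℤ) : ZMod (2 ^ a)) = (u : ZMod (2 ^ a)) := by
    push_cast
    exact ZMod.natCast_zmod_val _
  rw [← h3, map_intCast] at h2
  have h4 : (((((u : ZMod (2 ^ a)).val : ℕ) : ℤ) - 1 : ℤ) : ZMod (2 ^ (a - 1))) = 0 := by
    rw [Int.cast_sub, h2, Int.cast_one, sub_self]
  rw [ZMod.intCast_zmod_eq_zero_iff_dvd] at h4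
  obtain ⟨t, ht⟩ := h4
  have h5 : (u : ZMod (2 ^ a)) = 1 + 2 ^ (a - 1) * (t : ZMod (2 ^ a)) := by
    have h6 := congrArg (fun z : ℤ => (z : ZMod (2 ^ a))) ht
    rw [Int.cast_sub, h3] at h6
    push_cast at h6
    linear_combination h6
  have h7 : (2 : ZMod (2 ^ a)) ^ (2 * (a - 2)) = 0 := by
    have h8 : (2 : ZMod (2 ^ a)) ^ a = 0 := by
      have := ZMod.natCast_self (2 ^ a)
      push_cast at this
      exact this
    have h9 : 2 * (a - 2) = a + (a - 4) := by omega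
    rw [h9, pow_add, h8, zero_mul]
  have h10 : (1 + 2 ^ (a - 2) * (t : ZMod (2 ^ a))) ^ 2 = (u : ZMod (2 ^ a)) := by
    have h11 : (2 : ZMod (2 ^ a)) ^ (a - 1) = 2 * 2 ^ (a - 2) := by
      rw [← pow_succ']
      congr 1
      omega
    rw [h5, h11]
    have h12 : ((2 : ZMod (2 ^ a)) ^ (a - 2)) ^ 2 = 0 := by
      rw [← pow_mul, mul_comm]; exact h7
    linear_combination (t : ZMod (2 ^ a)) ^ 2 * h12
  have h13 : IsUnit (1 + 2 ^ (a - 2) * (t : ZMod (2 ^ a))) := by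
    rw [← isUnit_pow_iff (two_ne_zero), h10]
    exact u.isUnit
  obtain ⟨v, hv⟩ := h13
  refine ⟨v, ?_⟩
  apply Units.ext
  rw [Units.val_pow_eq_pow_val, hv, h10]

theorem taskQ : Pool.Agent.H555R4.DY.TaskQ := by
  intro a ha χ hprim hsq
  have hdvd : 2 ^ (a - 1) ∣ 2 ^ a := pow_dvd_pow 2 (by omega)
  have hfac : χ.FactorsThrough (2 ^ (a - 1)) := by
    rw [DirichletCharacter.factorsThrough_iff_ker_unitsMap hdvd]
    intro u hu
    obtain ⟨v, rfl⟩ := exists_sqrt a ha u hu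
    rw [MonoidHom.mem_ker]
    apply Units.ext
    rw [MulChar.coe_toUnitHom, Units.val_pow_eq_pow_val, map_pow, Units.val_one,
      ← MulChar.pow_apply' _ two_ne_zero, hsq]
    exact MulChar.one_apply_coe v
  have h1 : χ.conductor ≤ 2 ^ (a - 1) := Nat.sInf_le hfac
  rw [(DirichletCharacter.isPrimitive_def χ).1 hprim] at h1
  have h2 : 2 ^ (a - 1) < 2 ^ a := Nat.pow_lt_pow_right (by norm_num) (by omega)
  omega

end Pool.Agent.H555R4.DY.Q
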