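import Pool.Agent.H555R4.DY.Stmts
import Pool.Agent.H555R4.LW.U1

set_option autoImplicit false

/-! Task U1 of the project DY: upper bound for one exponent. -/

open Finset

namespace Pool.Agent.H555R4.DY.U1

open Pool.Agent.H555R4.LW (rp sp StA StB1)
open Pool.Agent.H555R4.LW.U1 (incl aux_pow)

theorem taskU1 : Pool.Agent.H555R4.DY.TaskU1 := by
  classical
  rintro ⟨p₁, hA⟩ ⟨C, hC, q₀, hB⟩
  refine ⟨C + 2, by linarith, max (max p₁ q₀) 128, ?_⟩
  intro p hp
  have hp1 : p₁ ≤ p := le_trans (le_trans (le_max_left _ _) (le_max_left _ _)) hp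
  have hp2 : q₀ ≤ p := le_trans (le_trans (le_max_right _ _) (le_max_left _ _)) hp
  have hp3 : 128 ≤ p := le_trans (le_max_right _ _) hp
  set T := 2 ^ p with hTdef
  have hTpos : 0 < T := by positivity
  have h2 : 2 ^ (p / 2) ≤ T := Nat.pow_le_pow_right (by norm_num) (by omega)
  have h4 : 2 ^ (p / 4) ≤ T := Nat.pow_le_pow_right (by norm_num) (by omega)
  have h5 : 2 ^ (p / 4 + p / 64 + 1) ≤ 2 ^ (p / 2) :=
    Nat.pow_le_pow_right (by norm_num) (by omega)
  have hS1 := hA p hp1 0 T h2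
  have hS2 := hB p hp2 0 T h4
  rw [zero_add] at hS1 hS2
  have hsub : (range T).filter (fun n => (rp p n).Prime) ⊆
      range (2 ^ (p / 2)) ∪ ((Ico 0 T).filter (fun n => 0 < n ∧ 2 ^ (p / 4) < sp p n) ∪
      (Ico 0 T).filter
        (fun m => ∀ l : ℕ, l.Prime → p < l → l ≤ 2 ^ (p / 64) → ¬ l ∣ m)) := by
    intro n hn
    rw [mem_filter, mem_range] at hn
    obtain ⟨hn2, hn3⟩ := hn
    rw [mem_union, mem_union, mem_filter, mem_filter, mem_Ico, mem_range]
    by_cases hTn : 2 ^ (p / 2) ≤ n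
    · right
      by_cases hs : 2 ^ (p / 4) < sp p n
      · left
        have h6 : 0 < 2 ^ (p / 2) := by positivity
        exact ⟨⟨Nat.zero_le _, hn2⟩, by omega, hs⟩
      · right
        exact ⟨⟨Nat.zero_le _, hn2⟩, incl p n (2 ^ (p / 2)) (by omega) h5 hTn (by omega) hn3⟩
    · left
      omega
  have hcard : (((range T).filter (fun n => (rp p n).Prime)).card : ℝ) ≤
      2 ^ (p / 2) + ((T : ℝ) / 2 ^ (p / 16) + C * T * (Real.log p / p)) := by
    have h6 := (card_le_card hsub).trans ((card_union_le _ _).trans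
      (Nat.add_le_add_left (card_union_le _ _) _))
    rw [card_range] at h6
    have h7 : (((range T).filter (fun n => (rp p n).Prime)).card : ℝ) ≤
        (2 : ℝ) ^ (p / 2) +
        ((((Ico 0 T).filter (fun n => 0 < n ∧ 2 ^ (p / 4) < sp p n)).card : ℝ) +
        (((Ico 0 T).filter
          (fun m => ∀ l : ℕ, l.Prime → p < l → l ≤ 2 ^ (p / 64) → ¬ l ∣ m)).card : ℝ)) := by
      exact_mod_cast h6
    refine h7.trans (add_le_add le_rfl (add_le_add ?_ ?_))
    · convert hS1 using 3
    · convert hS2 using 3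
  have hlog : (1 : ℝ) / 2 ^ (p / 16) ≤ Real.log p / p := by
    have h8 := aux_pow (p / 16) (by omega)
    have h9 : p ≤ 2 ^ (p / 16) := by omega
    have h10 : (p : ℝ) ≤ 2 ^ (p / 16) := by exact_mod_cast h9
    have hp0 : (0 : ℝ) < p := by
      have : 0 < p := by omega
      exact_mod_cast this
    have hlog1 : 1 ≤ Real.log p := by
      rw [Real.le_log_iff_exp_le hp0]
      have h11 : Real.exp 1 < 3 := by
        have := Real.exp_one_lt_d9; linarith
      have h12 : (128 : ℝ) ≤ p := by exact_mod_cast hp3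
      linarith
    calc (1 : ℝ) / 2 ^ (p / 16) ≤ 1 / p := one_div_le_one_div_of_le hp0 h10
      _ ≤ Real.log p / p := div_le_div_of_nonneg_right hlog1 hp0.le
  have hTr : (T : ℝ) = 2 ^ p := by rw [hTdef]; push_cast; rfl
  have hTr0 : (0 : ℝ) ≤ T := by positivity
  have hhalf : (2 : ℝ) ^ (p / 2) ≤ T * (1 / 2 ^ (p / 16)) := by
    rw [mul_one_div, le_div_iff₀ (by positivity), ← pow_add, hTr]
    exact pow_le_pow_right₀ (by norm_num) (by omega)
  calc (((range T).filter (fun n => (rp p n).Prime)).card : ℝ)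
      ≤ 2 ^ (p / 2) + ((T : ℝ) / 2 ^ (p / 16) + C * T * (Real.log p / p)) := hcard
    _ ≤ T * (1 / 2 ^ (p / 16)) + (T * (1 / 2 ^ (p / 16)) + C * T * (Real.log p / p)) := by
        have e : (T : ℝ) / 2 ^ (p / 16) = T * (1 / 2 ^ (p / 16)) := by ring
        rw [e]
        linarith
    _ ≤ T * (Real.log p / p) + (T * (Real.log p / p) + C * T * (Real.log p / p)) := by
        have := mul_le_mul_of_nonneg_left hlog hTr0
        linarith
    _ = (C + 2) * 2 ^ p * (Real.log p / p) := by rw [← hTr]; ring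

end Pool.Agent.H555R4.DY.U1
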