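import Pool.Agent.H555R4.DY.Stmts
import Pool.Agent.H555R4.LW.U2

set_option autoImplicit false

/-! Task U2 of stage 2 (helper861): upper bound for two exponents. Adapted from helper580's
proof of the corresponding statement of stage 1. -/

open Finset

namespace Pool.Agent.H555R4.DY.U2

open Pool.Agent.H555R4.LW (rp sp StA StB1)
open Pool.Agent.H555R4.LW.U2 (no_small small_pow log_mono)

theorem cnt' {K : ℕ} (S R : Finset ℕ) (M : ℕ → Finset ℕ)
    (h : ∀ n ∈ S, n / K ∈ R ∧ n % K ∈ M (n / K)) : S.card ≤ ∑ r ∈ R, (M r).card := by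
  rw [← Finset.card_sigma]
  refine Finset.card_le_card_of_injOn (fun n => (⟨n / K, n % K⟩ : Σ _ : ℕ, ℕ)) ?_ ?_
  · intro n hn
    have := h n hn
    simp only [Finset.coe_sigma, Set.mem_sigma_iff, Finset.mem_coe]
    exact this
  · intro a _ b _ hab
    simp only [Sigma.mk.injEq, heq_eq_eq] at hab
    rw [← Nat.div_add_mod a K, ← Nat.div_add_mod b K, hab.1, hab.2]

open Classical in
theorem taskU2 : TaskU2 := by
  rintro ⟨pA, hA⟩ - ⟨C2, hC2, q2, hB2⟩ ⟨C1, hC1, q1, hU1⟩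
  refine ⟨C1 + C2 + 3, by positivity, max (max pA q1) (max q2 272), ?_⟩
  intro p hp k hk hkp
  have hpA : pA ≤ p := le_trans (le_trans (le_max_left _ _) (le_max_left _ _)) hp
  have hp1 : q1 ≤ p := le_trans (le_trans (le_max_right _ _) (le_max_left _ _)) hp
  have hp2 : q2 ≤ p := le_trans (le_trans (le_max_left _ _) (le_max_right _ _)) hp
  have h272 : 272 ≤ p := le_trans (le_trans (le_max_right _ _) (le_max_right _ _)) hp
  obtain ⟨q, hq⟩ : ∃ q, q = p + k := ⟨_, rfl⟩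
  rw [← hq]
  have hK : 0 < 2 ^ p := by positivity
  have hqpk : 2 ^ q = 2 ^ p * 2 ^ k := by rw [hq, pow_add]
  let S0 : Finset ℕ := (range (2 ^ p)).filter (fun n => (rp p n).Prime)
  let S1 : Finset ℕ := (Ico 0 (0 + 2 ^ q)).filter (fun n => 0 < n ∧ 2 ^ (q / 4) < sp q n)
  let M2 : Finset ℕ := (Ico 0 (0 + 2 ^ p)).filter (fun n => 0 < n ∧ 2 ^ (p / 4) < sp p n)
  let S2 : Finset ℕ := (range (2 ^ q)).filter (fun n => n % 2 ^ p ∈ M2)
  let S5 : Finset ℕ := (range (2 ^ q)).filter (fun n => n % 2 ^ p ∈ range (2 ^ (p / 2)))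
  let M3 : ℕ → Finset ℕ := fun r => (Ico 0 (0 + 2 ^ p)).filter
    (fun m => ∀ l : ℕ, l.Prime → q < l → l ≤ 2 ^ (q / 64) → ¬ l ∣ m ∧ ¬ l ∣ m + 2 ^ p * r)
  let S3 : Finset ℕ := (range (2 ^ q)).filter (fun n => n / 2 ^ p ≠ 0 ∧ n % 2 ^ p ∈ M3 (n / 2 ^ p))
  have hsub : (range (2 ^ q)).filter (fun n => Odd n ∧ (rp q n).Prime ∧ (rp p (n % 2 ^ p)).Prime) ⊆
      S0 ∪ (S1 ∪ (S2 ∪ (S5 ∪ S3))) := by
    intro n hn
    rw [Finset.mem_filter, Finset.mem_range] at hn
    obtain ⟨hnq, hodd, hrq, hrp⟩ := hn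
    by_cases h0 : n / 2 ^ p = 0
    · refine Finset.mem_union_left _ ?_
      have hlt : n < 2 ^ p := by
        rcases Nat.div_eq_zero_iff.1 h0 with h | h
        · omega
        · exact h
      rw [Nat.mod_eq_of_lt hlt] at hrp
      exact Finset.mem_filter.2 ⟨Finset.mem_range.2 hlt, hrp⟩
    refine Finset.mem_union_right _ ?_
    have hnp : 2 ^ p ≤ n := by
      by_contra hcon
      exact h0 (Nat.div_eq_of_lt (not_le.1 hcon))
    have hnpos : 0 < n := lt_of_lt_of_le hK hnp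
    have hmlt : n % 2 ^ p < 2 ^ p := Nat.mod_lt _ hK
    by_cases h1 : 2 ^ (q / 4) < sp q n
    · refine Finset.mem_union_left _ ?_
      refine Finset.mem_filter.2 ⟨Finset.mem_Ico.2 ⟨Nat.zero_le _, by omega⟩, hnpos, h1⟩
    refine Finset.mem_union_right _ ?_
    by_cases hm0 : n % 2 ^ p < 2 ^ (p / 2)
    · refine Finset.mem_union_right _ (Finset.mem_union_left _ ?_)
      exact Finset.mem_filter.2 ⟨Finset.mem_range.2 hnq, Finset.mem_range.2 hm0⟩
    rw [not_lt] at hm0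
    have hmpos : 0 < n % 2 ^ p := lt_of_lt_of_le (by positivity) hm0
    by_cases h2 : 2 ^ (p / 4) < sp p (n % 2 ^ p)
    · refine Finset.mem_union_left _ ?_
      exact Finset.mem_filter.2 ⟨Finset.mem_range.2 hnq,
        Finset.mem_filter.2 ⟨Finset.mem_Ico.2 ⟨Nat.zero_le _, by omega⟩, hmpos, h2⟩⟩
    rw [not_lt] at h1 h2
    refine Finset.mem_union_right _ (Finset.mem_union_right _ ?_)
    refine Finset.mem_filter.2 ⟨Finset.mem_range.2 hnq, h0,
      Finset.mem_filter.2 ⟨Finset.mem_Ico.2 ⟨Nat.zero_le _, by omega⟩, ?_⟩⟩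
    intro l hl hql hlb
    constructor
    · refine no_small (a := p / 4) (b := q / 64) hmpos.ne' hrp h2 ?_ hl (by omega) hlb
      refine lt_of_lt_of_le ?_ hm0
      exact Nat.pow_lt_pow_right (by norm_num) (by omega)
    · rw [Nat.mod_add_div]
      refine no_small (a := q / 4) (b := q / 64) hnpos.ne' hrq h1 ?_ hl hql hlb
      refine lt_of_lt_of_le ?_ hnp
      exact Nat.pow_lt_pow_right (by norm_num) (by omega)
  have hcard1 : (cBB p q : ℝ) ≤ (S0.card : ℝ) + S1.card + S2.card + S5.card + S3.card := by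
    have h1 := Finset.card_le_card hsub
    have h2 := Finset.card_union_le S0 (S1 ∪ (S2 ∪ (S5 ∪ S3)))
    have h3 := Finset.card_union_le S1 (S2 ∪ (S5 ∪ S3))
    have h4 := Finset.card_union_le S2 (S5 ∪ S3)
    have h5 := Finset.card_union_le S5 S3
    have h6 : cBB p q = ((range (2 ^ q)).filter
        (fun n => Odd n ∧ (rp q n).Prime ∧ (rp p (n % 2 ^ p)).Prime)).card := by
      unfold cBB
      congr!
    have h7 : cBB p q ≤ S0.card + S1.card + S2.card + S5.card + S3.card := by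
      rw [h6]; omega
    exact_mod_cast h7
  -- real quantities
  obtain ⟨x, hx⟩ : ∃ x : ℝ, x = Real.log p / p := ⟨_, rfl⟩
  obtain ⟨y, hy⟩ : ∃ y : ℝ, y = Real.log q / q := ⟨_, rfl⟩
  have hyx : y ≤ x := by rw [hx, hy]; exact log_mono (by omega) (by omega)
  have hy0 : 0 ≤ y := by
    rw [hy]
    exact div_nonneg (Real.log_natCast_nonneg q) (Nat.cast_nonneg q)
  have hx0 : 0 ≤ x := hy0.trans hyx
  have hw : (1 : ℝ) / 2 ^ (p / 16) ≤ x ^ 2 := by rw [hx]; exact small_pow p h272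
  obtain ⟨Tm, hTm⟩ : ∃ T : ℝ, T = 2 ^ p := ⟨_, rfl⟩
  obtain ⟨K, hKr⟩ : ∃ T : ℝ, T = 2 ^ k := ⟨_, rfl⟩
  have hTm0 : 0 < Tm := by rw [hTm]; positivity
  have hK0 : 0 < K := by rw [hKr]; positivity
  have hTn : (2 : ℝ) ^ q = K * Tm := by
    rw [hKr, hTm, hq, pow_add, mul_comm]
  have e0 : (S0.card : ℝ) ≤ C1 * Tm * x := by
    have h1 := hU1 p hp1
    have h2 : (S0.card : ℝ) ≤ C1 * 2 ^ p * (Real.log p / p) := by
      convert h1 using 2
    rw [hTm, hx]
    exact h2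
  have e1 : (S1.card : ℝ) ≤ K * Tm * x ^ 2 := by
    have h1 := hA q (by omega) 0 (2 ^ q) (Nat.pow_le_pow_right (by norm_num) (by omega))
    have h2 : (S1.card : ℝ) ≤ ((2 ^ q : ℕ) : ℝ) / 2 ^ (q / 16) := by
      convert h1 using 2
    refine h2.trans ?_
    push_cast
    rw [hTn, div_eq_mul_one_div]
    refine mul_le_mul_of_nonneg_left ?_ (by positivity)
    refine le_trans ?_ hw
    refine one_div_le_one_div_of_le (by positivity) ?_
    exact pow_le_pow_right₀ (by norm_num) (by omega)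
  have hdiv : ∀ n ∈ range (2 ^ q), n / 2 ^ p ∈ range (2 ^ k) := by
    intro n hn
    rw [Finset.mem_range] at hn ⊢
    rw [Nat.div_lt_iff_lt_mul hK, mul_comm, ← hqpk]
    exact hn
  have e2 : (S2.card : ℝ) ≤ K * Tm * x ^ 2 := by
    have h1 := hA p hpA 0 (2 ^ p) (Nat.pow_le_pow_right (by norm_num) (by omega))
    have h2 : (M2.card : ℝ) ≤ ((2 ^ p : ℕ) : ℝ) / 2 ^ (p / 16) := by
      convert h1 using 2
    have h3 : S2.card ≤ ∑ r ∈ range (2 ^ k), M2.card := by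
      refine cnt' (K := 2 ^ p) S2 (range (2 ^ k)) (fun _ => M2) ?_
      intro n hn
      exact ⟨hdiv n (Finset.mem_filter.1 hn).1, (Finset.mem_filter.1 hn).2⟩
    rw [Finset.sum_const, Finset.card_range, smul_eq_mul] at h3
    have h4 : (S2.card : ℝ) ≤ K * M2.card := by
      rw [hKr]; exact_mod_cast h3
    refine h4.trans ?_
    rw [mul_assoc]
    refine mul_le_mul_of_nonneg_left ?_ hK0.le
    refine h2.trans ?_
    push_cast
    rw [← hTm, div_eq_mul_one_div]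
    exact mul_le_mul_of_nonneg_left hw hTm0.le
  have e5 : (S5.card : ℝ) ≤ K * Tm * x ^ 2 := by
    have h3 : S5.card ≤ ∑ r ∈ range (2 ^ k), (range (2 ^ (p / 2))).card := by
      refine cnt' (K := 2 ^ p) S5 (range (2 ^ k)) (fun _ => range (2 ^ (p / 2))) ?_
      intro n hn
      exact ⟨hdiv n (Finset.mem_filter.1 hn).1, (Finset.mem_filter.1 hn).2⟩
    rw [Finset.sum_const, Finset.card_range, Finset.card_range, smul_eq_mul] at h3
    have h4 : (S5.card : ℝ) ≤ K * 2 ^ (p / 2) := by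
      rw [hKr]; exact_mod_cast h3
    refine h4.trans ?_
    rw [mul_assoc]
    refine mul_le_mul_of_nonneg_left ?_ hK0.le
    have h5 : (2 : ℝ) ^ (p / 2) ≤ Tm * (1 / 2 ^ (p / 16)) := by
      rw [mul_one_div, le_div_iff₀ (by positivity), hTm, ← pow_add]
      exact pow_le_pow_right₀ (by norm_num) (by omega)
    exact h5.trans (mul_le_mul_of_nonneg_left hw hTm0.le)
  have e3 : (S3.card : ℝ) ≤ C2 * (K * Tm) * x ^ 2 := by
    have h3 : S3.card ≤ ∑ r ∈ Ico 1 (2 ^ k), (M3 r).card := by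
      refine cnt' (K := 2 ^ p) S3 (Ico 1 (2 ^ k)) M3 ?_
      intro n hn
      have h := (Finset.mem_filter.1 hn).2
      exact ⟨Finset.mem_Ico.2 ⟨Nat.one_le_iff_ne_zero.2 h.1,
        Finset.mem_range.1 (hdiv n (Finset.mem_filter.1 hn).1)⟩, h.2⟩
    have h4 : ∀ r ∈ Ico 1 (2 ^ k), ((M3 r).card : ℝ) ≤ C2 * Tm * x ^ 2 := by
      intro r hr
      rw [Finset.mem_Ico] at hr
      have hrq : r < 2 ^ q := lt_of_lt_of_le hr.2 (Nat.pow_le_pow_right (by norm_num) (by omega))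
      have h1 := hB2 q (by omega) 0 (2 ^ p) p r
        (Nat.pow_le_pow_right (by norm_num) (by omega)) (by omega) hrq
      have h2 : ((M3 r).card : ℝ) ≤ C2 * ((2 ^ p : ℕ) : ℝ) * (Real.log q / q) ^ 2 := by
        convert h1 using 2
      refine h2.trans ?_
      push_cast
      rw [← hTm, ← hy]
      exact mul_le_mul_of_nonneg_left (pow_le_pow_left₀ hy0 hyx 2) (by positivity)
    have h5 : (S3.card : ℝ) ≤ ∑ r ∈ Ico 1 (2 ^ k), ((M3 r).card : ℝ) := by exact_mod_cast h3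
    refine h5.trans ((Finset.sum_le_sum h4).trans ?_)
    rw [Finset.sum_const, Nat.card_Ico, nsmul_eq_mul]
    have h6 : ((2 ^ k - 1 : ℕ) : ℝ) ≤ K := by
      rw [hKr]
      have : 2 ^ k - 1 ≤ 2 ^ k := Nat.sub_le _ _
      exact_mod_cast this
    calc ((2 ^ k - 1 : ℕ) : ℝ) * (C2 * Tm * x ^ 2) ≤ K * (C2 * Tm * x ^ 2) :=
          mul_le_mul_of_nonneg_right h6 (by positivity)
      _ = _ := by ring
  rw [hTn, ← hx, ← hKr]
  refine hcard1.trans ?_
  have e6 : C1 * Tm * x = C1 * (K * Tm) * (x / K) := by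
    field_simp
  have h7 : 0 ≤ x / K := div_nonneg hx0 hK0.le
  have h8 : 0 ≤ K * Tm := by positivity
  have h9 : 0 ≤ C1 * (K * Tm) * x ^ 2 := by positivity
  have h10 : 0 ≤ (C2 + 3) * (K * Tm) * (x / K) := by positivity
  have e7 : (C1 + C2 + 3) * (K * Tm) * (x ^ 2 + x / K) =
      K * Tm * x ^ 2 + K * Tm * x ^ 2 + K * Tm * x ^ 2 + C2 * (K * Tm) * x ^ 2 +
      C1 * (K * Tm) * (x / K) + C1 * (K * Tm) * x ^ 2 + (C2 + 3) * (K * Tm) * (x / K) := by ring
  rw [e7, ← e6]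
  linarith

end Pool.Agent.H555R4.DY.U2
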