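import Mathlib
import Pool.Agent.H370R2.Local

set_option autoImplicit false

/-! Local expansion of the logarithmic derivative (for Z1). -/

open Complex Filter Topology Set Metric

namespace Pool.Agent.H555R4.DY.Z1

open H370.Loc (Pf Pf_zero Pf_cons Pf_diff Pf_ne_zero Pf_norm_ge Pf_norm_le Pf_logDeriv extract
  logDeriv_zero_free)

lemma Pf_re_nonneg {s : Multiset ℂ} {z : ℂ} (h : ∀ ρ ∈ s, ρ.re < z.re) :
    0 ≤ (logDeriv (Pf s) z).re := by
  induction s using Multiset.induction_on with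
  | empty =>
    have : Pf 0 = fun _ => (1 : ℂ) := funext Pf_zero
    rw [this]
    simp [logDeriv]
  | cons ρ s ih =>
    have : Pf (ρ ::ₘ s) = fun z => (z - ρ) * Pf s z := funext (Pf_cons ρ s)
    have hne : ∀ ρ' ∈ ρ ::ₘ s, z ≠ ρ' := fun ρ' h' he => by
      have := h ρ' h'
      rw [he] at this
      exact lt_irrefl _ this
    have hz : z - ρ ≠ 0 := sub_ne_zero.2 (hne ρ (Multiset.mem_cons_self ρ s))
    have hP : Pf s z ≠ 0 := Pf_ne_zero fun ρ' h' => hne ρ' (Multiset.mem_cons_of_mem h')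
    have e1 : logDeriv (fun z => (z - ρ) * Pf s z) z =
        logDeriv (fun z => z - ρ) z + logDeriv (Pf s) z :=
      logDeriv_mul z hz hP (differentiableAt_id.sub_const ρ) (Pf_diff s z)
    have e2 : logDeriv (fun z => z - ρ) z = 1 / (z - ρ) := by
      rw [logDeriv_apply]
      congr 1
      simp
    rw [this, e1, e2, Complex.add_re]
    have h3 := ih fun ρ' h' => h ρ' (Multiset.mem_cons_of_mem h')
    have h4 : 0 ≤ (1 / (z - ρ)).re := by
      rw [one_div, Complex.inv_re]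
      have := h ρ (Multiset.mem_cons_self ρ s)
      apply div_nonneg _ (Complex.normSq_nonneg _)
      rw [Complex.sub_re]
      linarith
    linarith

lemma Pf_re_ge {s : Multiset ℂ} {z ρ : ℂ} (h : ∀ ρ ∈ s, ρ.re < z.re) (hρ : ρ ∈ s) :
    (1 / (z - ρ)).re ≤ (logDeriv (Pf s) z).re := by
  obtain ⟨t, rfl⟩ := Multiset.exists_cons_of_mem hρ
  have : Pf (ρ ::ₘ t) = fun z => (z - ρ) * Pf t z := funext (Pf_cons ρ t)
  have hne : ∀ ρ' ∈ ρ ::ₘ t, z ≠ ρ' := fun ρ' h' he => by
    have := h ρ' h'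
    rw [he] at this
    exact lt_irrefl _ this
  have hz : z - ρ ≠ 0 := sub_ne_zero.2 (hne ρ (Multiset.mem_cons_self ρ t))
  have hP : Pf t z ≠ 0 := Pf_ne_zero fun ρ' h' => hne ρ' (Multiset.mem_cons_of_mem h')
  have e1 : logDeriv (fun z => (z - ρ) * Pf t z) z =
      logDeriv (fun z => z - ρ) z + logDeriv (Pf t) z :=
    logDeriv_mul z hz hP (differentiableAt_id.sub_const ρ) (Pf_diff t z)
  have e2 : logDeriv (fun z => z - ρ) z = 1 / (z - ρ) := by
    rw [logDeriv_apply]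
    congr 1
    simp
  rw [this, e1, e2, Complex.add_re]
  have h3 := Pf_re_nonneg (s := t) (z := z) fun ρ' h' => h ρ' (Multiset.mem_cons_of_mem h')
  linarith

lemma loc_gen {f : ℂ → ℂ} {c : ℂ} {r r1 r2 R M : ℝ} (hr2 : 0 < r2) (h21 : r2 < r1)
    (h1r : r1 < r) (hrR : r < R) (hRr : R ≤ 2 * r) (hM : 1 ≤ M) (hMf : ‖f c‖ ≤ M)
    (hf : AnalyticOnNhd ℂ f (closedBall c R)) (hc : f c ≠ 0)
    (hb : ∀ z ∈ closedBall c R, ‖f z‖ ≤ M)
    (hre : ∀ ρ : ℂ, f ρ = 0 → ρ.re < c.re) :
    -(deriv f c / f c).re ≤ 2 * (Real.log (M / ‖f c‖) + Real.log (M / ‖f c‖) / Real.log (R / r) *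
          Real.log (r / (R - r)) + 1) * r1 / (r - r1) / (r1 - r2) ∧
    ∀ ρ ∈ closedBall c r, f ρ = 0 → -(deriv f c / f c).re ≤
        2 * (Real.log (M / ‖f c‖) + Real.log (M / ‖f c‖) / Real.log (R / r) *
          Real.log (r / (R - r)) + 1) * r1 / (r - r1) / (r1 - r2) - (1 / (c - ρ)).re := by
  have hr : 0 < r := by linarith
  have hR : 0 < R := by linarith
  obtain ⟨s, g, hs, hg, hfg, hg0, hcard⟩ := extract hr hrR hM hf hc hb
  have hcr : c ∈ closedBall c r := mem_closedBall_self hr.le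
  have hcR : c ∈ closedBall c R := mem_closedBall_self hR.le
  have hfc : 0 < ‖f c‖ := norm_pos_iff.2 hc
  set n := Multiset.card s with hn
  have hlogM : 0 ≤ Real.log (M / ‖f c‖) := Real.log_nonneg (by rw [le_div_iff₀ hfc]; linarith)
  have hRr0 : 0 < R - r := by linarith
  have hq : 1 ≤ r / (R - r) := by rw [le_div_iff₀ hRr0]; linarith
  have hlogq : 0 ≤ Real.log (r / (R - r)) := Real.log_nonneg hq
  -- bounds for g
  have hgsphere : ∀ w ∈ sphere c R, ‖g w‖ ≤ M / (R - r) ^ n := by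
    intro w hw
    have hwR := sphere_subset_closedBall hw
    have h1 : (R - r) ^ n ≤ ‖Pf s w‖ := Pf_norm_ge hRr0.le fun ρ hρ => by
      have h2 := (hs ρ hρ).1
      rw [mem_closedBall, dist_eq_norm] at h2
      rw [mem_sphere, dist_eq_norm] at hw
      have h3 : ‖w - c‖ ≤ ‖w - ρ‖ + ‖ρ - c‖ := by
        calc ‖w - c‖ = ‖(w - ρ) + (ρ - c)‖ := by congr 1; ring
          _ ≤ _ := norm_add_le _ _
      linarith
    rw [le_div_iff₀ (by positivity)]
    calc ‖g w‖ * (R - r) ^ n ≤ ‖g w‖ * ‖Pf s w‖ := mul_le_mul_of_nonneg_left h1 (norm_nonneg _)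
      _ = ‖f w‖ := by rw [hfg w, norm_mul, mul_comm]
      _ ≤ M := hb w hwR
  have hgball : ∀ w ∈ closedBall c R, ‖g w‖ ≤ M / (R - r) ^ n := by
    intro w hw
    refine Complex.norm_le_of_forall_mem_frontier_norm_le (U := ball c R) isBounded_ball ?_ ?_ ?_
    · apply DifferentiableOn.diffContOnCl
      rw [closure_ball c hR.ne']
      exact fun x hx => (hg x hx).differentiableAt.differentiableWithinAt
    · intro x hx
      rw [frontier_ball c hR.ne'] at hx
      exact hgsphere x hx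
    · rwa [closure_ball c hR.ne']
  have hgc : ‖f c‖ / r ^ n ≤ ‖g c‖ := by
    rw [div_le_iff₀ (by positivity)]
    have h1 : ‖Pf s c‖ ≤ r ^ n := Pf_norm_le fun ρ hρ => by
      have h2 := (hs ρ hρ).1
      rw [mem_closedBall, dist_eq_norm, norm_sub_rev] at h2
      exact h2
    calc ‖f c‖ = ‖g c‖ * ‖Pf s c‖ := by rw [hfg c, norm_mul, mul_comm]
      _ ≤ ‖g c‖ * r ^ n := mul_le_mul_of_nonneg_left h1 (norm_nonneg _)
  set B : ℝ := Real.log (M / ‖f c‖) + n * Real.log (r / (R - r)) with hB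
  have hB0 : 0 ≤ B := by positivity
  have hexpB : Real.exp B = M / ‖f c‖ * (r / (R - r)) ^ n := by
    rw [hB, Real.exp_add, Real.exp_log (by positivity), Real.exp_nat_mul,
      Real.exp_log (by positivity)]
  have hgb : ∀ w ∈ closedBall c r, ‖g w‖ ≤ Real.exp B * ‖g c‖ := by
    intro w hw
    refine (hgball w (closedBall_subset_closedBall hrR.le hw)).trans ?_
    rw [hexpB]
    calc M / (R - r) ^ n = M / ‖f c‖ * (r / (R - r)) ^ n * (‖f c‖ / r ^ n) := by
          rw [div_pow]; field_simp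
      _ ≤ _ := mul_le_mul_of_nonneg_left hgc (by positivity)
  have hlg := logDeriv_zero_free hr2 h21 h1r hB0
    (hg.mono (closedBall_subset_closedBall hrR.le)) hg0 hgb (mem_closedBall_self hr2.le)
  have hsre : ∀ ρ ∈ s, ρ.re < c.re := fun ρ hρ => hre ρ (hs ρ hρ).2
  have hPc : Pf s c ≠ 0 := Pf_ne_zero fun ρ hρ he => by
    have := hsre ρ hρ
    rw [he] at this
    exact lt_irrefl _ this
  have heq : deriv f c / f c = logDeriv (Pf s) c + logDeriv g c := by
    have h1 : f = fun w => Pf s w * g w := funext hfg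
    rw [← logDeriv_apply]
    conv_lhs => rw [h1]
    exact logDeriv_mul c hPc (hg0 c hcr) (Pf_diff s c) (hg c hcR).differentiableAt
  have hE : ‖logDeriv g c‖ ≤ 2 * (Real.log (M / ‖f c‖) + Real.log (M / ‖f c‖) / Real.log (R / r) *
          Real.log (r / (R - r)) + 1) * r1 / (r - r1) / (r1 - r2) := by
    refine hlg.trans ?_
    have h8 : B ≤ Real.log (M / ‖f c‖) + Real.log (M / ‖f c‖) / Real.log (R / r) *
          Real.log (r / (R - r)) := by
      rw [hB]
      have := mul_le_mul_of_nonneg_right hcard hlogq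
      linarith
    have h9 : 0 < r - r1 := by linarith
    have h10 : 0 < r1 - r2 := by linarith
    have h11 : 0 < r1 := by linarith
    gcongr
  have hE2 : -(logDeriv g c).re ≤ ‖logDeriv g c‖ := by
    have := Complex.abs_re_le_norm (logDeriv g c)
    have := neg_abs_le (logDeriv g c).re
    linarith
  constructor
  · rw [heq, Complex.add_re]
    have := Pf_re_nonneg hsre
    linarith
  · intro ρ hρ hρ0
    have hmem : ρ ∈ s := by
      by_contra hcon
      have h1 : Pf s ρ ≠ 0 := Pf_ne_zero fun ρ' h' he => hcon (he ▸ h')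
      exact mul_ne_zero h1 (hg0 ρ hρ) ((hfg ρ).symm.trans hρ0)
    rw [heq, Complex.add_re]
    have := Pf_re_ge hsre hmem
    linarith

/-- numerical simplification -/
lemma err_le {R Λ : ℝ} (hR : 0 < R) (hΛ : 0 ≤ Λ) :
    2 * (Λ + Λ / Real.log (R / (3 / 4 * R)) * Real.log ((3 / 4 * R) / (R - 3 / 4 * R)) + 1) *
      (R / 2) / (3 / 4 * R - R / 2) / (R / 2 - R / 4) ≤ 16 * (9 * Λ + 1) / R := by
  have e1 : R / (3 / 4 * R) = 4 / 3 := by field_simp
  have e2 : (3 / 4 * R) / (R - 3 / 4 * R) = 3 := by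
    have : R - 3 / 4 * R = R / 4 := by ring
    rw [this]; field_simp
  rw [e1, e2]
  have h1 : (1:ℝ) / 4 ≤ Real.log (4 / 3) := by
    have := Real.one_sub_inv_le_log_of_pos (show (0:ℝ) < 4 / 3 by norm_num)
    norm_num at this
    linarith
  have h2 : Real.log 3 ≤ 2 := by
    have := Real.log_le_sub_one_of_pos (show (0:ℝ) < 3 by norm_num)
    linarith
  have h20 : 0 ≤ Real.log 3 := Real.log_nonneg (by norm_num)
  have h3 : Λ / Real.log (4 / 3) * Real.log 3 ≤ 8 * Λ := by
    have : Λ / Real.log (4 / 3) ≤ 4 * Λ := by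
      rw [div_le_iff₀ (by linarith)]
      nlinarith
    calc Λ / Real.log (4 / 3) * Real.log 3 ≤ 4 * Λ * 2 := by gcongr
      _ = 8 * Λ := by ring
  have e3 : 2 * (Λ + Λ / Real.log (4 / 3) * Real.log 3 + 1) *
      (R / 2) / (3 / 4 * R - R / 2) / (R / 2 - R / 4) =
      16 * (Λ + Λ / Real.log (4 / 3) * Real.log 3 + 1) / R := by
    have a : 3 / 4 * R - R / 2 = R / 4 := by ring
    have b : R / 2 - R / 4 = R / 4 := by ring
    rw [a, b]
    field_simp
    ring
  rw [e3]
  apply div_le_div_of_nonneg_right _ hR.le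
  linarith

lemma card_le {R Λ δ : ℝ} (hR : 0 < R) (hΛ : 0 ≤ Λ) (hδ : 0 < δ) :
    Λ / Real.log (R / (3 / 4 * R)) / δ ≤ 4 * Λ / δ := by
  have e1 : R / (3 / 4 * R) = 4 / 3 := by field_simp
  rw [e1]
  have h1 : (1:ℝ) / 4 ≤ Real.log (4 / 3) := by
    have := Real.one_sub_inv_le_log_of_pos (show (0:ℝ) < 4 / 3 by norm_num)
    norm_num at this
    linarith
  apply div_le_div_of_nonneg_right _ hδ.le
  rw [div_le_iff₀ (by linarith)]
  nlinarith

end Pool.Agent.H555R4.DY.Z1
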