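import Mathlib
import Pool.Agent.H378R2.M1b
import Pool.Agent.H378R2.M1f

set_option autoImplicit false

/-! Arithmetic input (for Z1). -/

open Complex Filter Topology Set

namespace Pool.Agent.H555R4.DY.Z1

open Pool.Agent.Erdos456 (zeta_bound triv_bound)
open Pool.Agent.H378R2.M1
open DirichletCharacter
open ArithmeticFunction (vonMangoldt)

noncomputable section

/-- the sum of `Λ(n) n^{-c}` -/
def V (c : ℝ) : ℝ := ∑' n : ℕ, vonMangoldt n * (n : ℝ) ^ (-c)

lemma V_eq {c : ℝ} (hc : 1 < c) : ((V c : ℝ) : ℂ) = G (1 : DirichletCharacter ℂ 1) (c : ℂ) := by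
  rw [← G_eq _ (by simpa using hc)]
  unfold V LSeries
  rw [Complex.ofReal_tsum]
  congr 1
  funext n
  rcases Nat.eq_zero_or_pos n with h | h
  · subst h
    simp
  · have hn : (0 : ℝ) ≤ n := Nat.cast_nonneg n
    rw [LSeries.term_of_ne_zero h.ne']
    unfold aT
    have h1 : (1 : DirichletCharacter ℂ 1) (n : ZMod 1) = 1 := by
      rw [MulChar.one_apply]
      exact isUnit_of_subsingleton _
    rw [h1, one_mul, Complex.ofReal_mul, Real.rpow_neg hn, Complex.ofReal_inv,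
      Complex.ofReal_cpow hn, div_eq_mul_inv]
    simp

lemma V_le : ∃ K : ℝ, 0 ≤ K ∧ ∀ c : ℝ, 1 < c → c ≤ 2 → V c ≤ 1 / (c - 1) + K := by
  have hc : ContinuousOn (fun x : ℝ => -deriv (LFunctionTrivChar₁ 1) (x : ℂ) /
      LFunctionTrivChar₁ 1 (x : ℂ)) (Set.Icc 1 2) := by
    have h := continuousOn_neg_logDeriv_LFunctionTrivChar₁ 1
    refine h.comp Complex.continuous_ofReal.continuousOn ?_
    intro x hx
    rcases eq_or_lt_of_le hx.1 with h1 | h1
    · left
      rw [← h1]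
      norm_num
    · right
      exact LFunction_ne_zero_of_one_le_re _ (Or.inr (by
        intro h2
        have : x = 1 := by exact_mod_cast h2
        linarith)) (by simpa using h1.le)
  obtain ⟨K, hK⟩ := isCompact_Icc.exists_bound_of_continuousOn hc
  refine ⟨max K 0, le_max_right _ _, ?_⟩
  intro c hc1 hc2
  have h1 := hK c ⟨hc1.le, hc2⟩
  have hne : (c : ℂ) ≠ 1 := by
    intro h2
    have : c = 1 := by exact_mod_cast h2
    linarith
  have hL : LFunctionTrivChar 1 (c : ℂ) ≠ 0 :=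
    LFunction_ne_zero_of_one_le_re _ (Or.inr hne) (by simpa using hc1.le)
  have hne1 : (c : ℂ) - 1 ≠ 0 := sub_ne_zero.2 hne
  have e : -deriv (LFunctionTrivChar₁ 1) (c : ℂ) / LFunctionTrivChar₁ 1 (c : ℂ) =
      (((V c - 1 / (c - 1) : ℝ)) : ℂ) := by
    rw [deriv_LFunctionTrivChar₁_apply_of_ne_one _ hne]
    rw [LFunctionTrivChar₁, Function.update_of_ne hne]
    push_cast
    rw [V_eq hc1]
    unfold G
    field_simp
    ring
  rw [e, Complex.norm_real] at h1
  have := (le_abs_self _).trans h1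
  have := le_max_left K 0
  linarith

lemma term_summable {q : ℕ} (χ : DirichletCharacter ℂ q) {c : ℝ} (hc : 1 < c) (t : ℝ) :
    Summable (fun n : ℕ => LSeries.term (aT χ) ((c : ℂ) + t * Complex.I) n) := by
  apply Summable.of_norm
  refine (aT_summable χ hc).congr fun n => ?_
  rw [term_norm_eq]

/-- the logarithmic 3-4-1 inequality -/
theorem tfo {q : ℕ} [NeZero q] (χ : DirichletCharacter ℂ q) {c : ℝ} (hc : 1 < c) (t : ℝ) :
    0 ≤ 3 * V c + 4 * (G χ ((c : ℂ) + t * Complex.I)).re +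
      (G (χ ^ 2) ((c : ℂ) + (2 * t : ℝ) * Complex.I)).re := by
  rw [← G_eq χ (by simpa using hc), ← G_eq (χ ^ 2) (by simpa using hc)]
  unfold LSeries V
  rw [Complex.re_tsum (term_summable χ hc t), Complex.re_tsum (term_summable (χ ^ 2) hc (2 * t)),
    ← tsum_mul_left, ← tsum_mul_left]
  have s1 := (vM_summable hc).mul_left 3
  have s2 : Summable (fun n : ℕ => 4 * (LSeries.term (aT χ) ((c : ℂ) + t * Complex.I) n).re) :=
    (Complex.hasSum_re (term_summable χ hc t).hasSum).summable.mul_left 4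
  have s3 : Summable (fun n : ℕ =>
      (LSeries.term (aT (χ ^ 2)) ((c : ℂ) + (2 * t : ℝ) * Complex.I) n).re) :=
    (Complex.hasSum_re (term_summable (χ ^ 2) hc (2 * t)).hasSum).summable
  rw [← s1.tsum_add s2, ← (s1.add s2).tsum_add s3]
  apply tsum_nonneg
  intro n
  rcases Nat.eq_zero_or_pos n with h | h
  · subst h
    simp
  · have hn : (n : ℂ) ≠ 0 := by exact_mod_cast h.ne'
    have hn0 : (0 : ℝ) < n := by exact_mod_cast h
    set w : ℂ := χ (n : ZMod q) * ((n : ℂ) ^ ((t : ℂ) * Complex.I))⁻¹ with hw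
    have hnorm : ‖w‖ ≤ 1 := by
      rw [hw, norm_mul, norm_inv]
      have : ‖(n : ℂ) ^ ((t : ℂ) * Complex.I)‖ = 1 := by
        rw [← Complex.ofReal_natCast, Complex.norm_cpow_eq_rpow_re_of_pos hn0]
        simp
      rw [this, inv_one, mul_one]
      exact χ.norm_le_one _
    have hrp : ((((n : ℝ) ^ (-c) : ℝ)) : ℂ) = ((n : ℂ) ^ (c : ℂ))⁻¹ := by
      rw [Real.rpow_neg hn0.le, Complex.ofReal_inv, Complex.ofReal_cpow hn0.le]
      simp
    have e1 : LSeries.term (aT χ) ((c : ℂ) + t * Complex.I) n =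
        ((vonMangoldt n * (n : ℝ) ^ (-c) : ℝ) : ℂ) * w := by
      rw [LSeries.term_of_ne_zero h.ne', Complex.cpow_add _ _ hn, hw, Complex.ofReal_mul, hrp]
      unfold aT
      have : (n : ℂ) ^ (c : ℂ) ≠ 0 := by
        rw [Ne, Complex.cpow_eq_zero_iff]; tauto
      have : (n : ℂ) ^ ((t : ℂ) * Complex.I) ≠ 0 := by
        rw [Ne, Complex.cpow_eq_zero_iff]; tauto
      field_simp
    have e2 : LSeries.term (aT (χ ^ 2)) ((c : ℂ) + (2 * t : ℝ) * Complex.I) n =
        ((vonMangoldt n * (n : ℝ) ^ (-c) : ℝ) : ℂ) * w ^ 2 := by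
      have e3 : (n : ℂ) ^ (((2 * t : ℝ) : ℂ) * Complex.I) = ((n : ℂ) ^ ((t : ℂ) * Complex.I)) ^ 2 := by
        rw [← Complex.cpow_nat_mul]
        congr 1
        push_cast
        ring
      rw [LSeries.term_of_ne_zero h.ne', Complex.cpow_add _ _ hn, e3, hw, Complex.ofReal_mul, hrp]
      unfold aT
      have : (n : ℂ) ^ (c : ℂ) ≠ 0 := by
        rw [Ne, Complex.cpow_eq_zero_iff]; tauto
      have : (n : ℂ) ^ ((t : ℂ) * Complex.I) ≠ 0 := by
        rw [Ne, Complex.cpow_eq_zero_iff]; tauto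
      rw [MulChar.pow_apply' _ (by norm_num)]
      field_simp
    rw [e1, e2, Complex.re_ofReal_mul, Complex.re_ofReal_mul]
    have hV : 0 ≤ vonMangoldt n * (n : ℝ) ^ (-c) :=
      mul_nonneg ArithmeticFunction.vonMangoldt_nonneg (by positivity)
    have hw2 : w.re * w.re + w.im * w.im ≤ 1 := by
      have h1 : Complex.normSq w ≤ 1 := by
        rw [Complex.normSq_eq_norm_sq]
        exact pow_le_one₀ (norm_nonneg _) hnorm
      rwa [Complex.normSq_apply] at h1
    have e4 : (w ^ 2).re = w.re * w.re - w.im * w.im := by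
      rw [pow_two, Complex.mul_re]
    rw [e4]
    have e5 : 3 * (vonMangoldt n * (n : ℝ) ^ (-c)) + 4 * (vonMangoldt n * (n : ℝ) ^ (-c) * w.re) +
        vonMangoldt n * (n : ℝ) ^ (-c) * (w.re * w.re - w.im * w.im) =
        (vonMangoldt n * (n : ℝ) ^ (-c)) * (3 + 4 * w.re + (w.re * w.re - w.im * w.im)) := by ring
    rw [e5]
    apply mul_nonneg hV
    nlinarith [sq_nonneg (1 + w.re)]

/-- trivial upper bound -/
lemma L_le {Z : ℝ} (hz : ∀ s : ℝ, 1 < s → s ≤ 2 → ‖riemannZeta (s:ℂ)‖ ≤ Z / (s - 1))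
    {q : ℕ} [NeZero q] (χ : DirichletCharacter ℂ q) {s : ℂ} (hs : 1 < s.re) (hs2 : s.re ≤ 2) :
    ‖LFunction χ s‖ ≤ Z / (s.re - 1) := by
  rw [LFunction_eq_LSeries χ hs]
  unfold LSeries
  have hsum : Summable (fun n : ℕ => 1 / (n : ℝ) ^ s.re) :=
    Real.summable_one_div_nat_rpow.mpr hs
  have h1 : ‖∑' n : ℕ, LSeries.term (fun n : ℕ => χ (n : ZMod q)) s n‖ ≤
      ∑' n : ℕ, 1 / (n : ℝ) ^ s.re := by
    refine tsum_of_norm_bounded hsum.hasSum ?_
    intro n
    rcases Nat.eq_zero_or_pos n with h | h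
    · subst h
      simp
      positivity
    · rw [LSeries.norm_term_eq, if_neg h.ne']
      apply div_le_div_of_nonneg_right (χ.norm_le_one _) (by positivity)
  refine h1.trans ?_
  have h2 : riemannZeta ((s.re : ℝ) : ℂ) = ((∑' n : ℕ, 1 / (n : ℝ) ^ s.re : ℝ) : ℂ) := by
    rw [zeta_eq_tsum_one_div_nat_cpow (by simpa using hs)]
    rw [Complex.ofReal_tsum]
    congr 1
    funext n
    push_cast
    rw [Complex.ofReal_cpow (Nat.cast_nonneg n)]
    push_cast
    rfl
  have h3 := hz s.re hs hs2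
  rw [h2, Complex.norm_real] at h3
  exact (le_abs_self _).trans h3

/-- lower bound to the right of one -/
lemma L_ge {Z : ℝ} (hZ : 1 ≤ Z)
    (hz : ∀ s : ℝ, 1 < s → s ≤ 2 → ‖riemannZeta (s:ℂ)‖ ≤ Z / (s - 1))
    {q : ℕ} [NeZero q] (χ : DirichletCharacter ℂ q) {x y : ℝ} (hx : 0 < x) (hx1 : x ≤ 1) :
    x / Z ≤ ‖LFunction χ (1 + x + Complex.I * y)‖ := by
  have hZ0 : 0 < Z := by linarith
  apply three_four_one hZ hz χ hx hx1 (B := Z / x) (by positivity) (by positivity)
  · have := L_le hz (χ ^ 2) (s := 1 + x + 2 * Complex.I * y) (by simp; linarith)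
      (by simp; linarith)
    simpa using this
  · apply le_of_eq
    field_simp

end

end Pool.Agent.H555R4.DY.Z1
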