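import Mathlib
import Pool.Agent.H555R4.DY.Stmts
import Pool.Agent.H555R4.DY.Z1a
import Pool.Agent.H555R4.DY.Z1b

set_option autoImplicit false

/-! Landau zero-free region for complex characters. -/

open Complex Filter Topology Set Metric

namespace Pool.Agent.H555R4.DY.Z1

open Pool.Agent.Erdos456 (zeta_bound)
open Pool.Agent.H378R2.M1
open DirichletCharacter

noncomputable section

/-- the distance to the line -/
def dd (l : ℝ) : ℝ := 1 / (16384 * (l * Real.log l))

/-- the local data for `L(s,χ)` near `1 + d + iy` -/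
theorem local_data : ∃ l₁ : ℝ, 4 ≤ l₁ ∧ ∀ l : ℝ, l₁ ≤ l → ∀ (q : ℕ) [NeZero q]
    (χ : DirichletCharacter ℂ q), χ ≠ 1 → Real.log q ≤ l → ∀ y : ℝ, Real.log (|y| + 3) ≤ l →
      (G χ (((1 + dd l : ℝ) : ℂ) + y * Complex.I)).re ≤ 600 * (l * Real.log l) ∧
      (∀ b : ℝ, b < 1 → 1 + dd l - b ≤ 3 / 4 * (1 / l) →
        LFunction χ ((b : ℂ) + y * Complex.I) = 0 →
        (G χ (((1 + dd l : ℝ) : ℂ) + y * Complex.I)).re ≤ 600 * (l * Real.log l) -
          1 / (1 + dd l - b)) ∧
      (∀ z ∈ closedBall (((1 + dd l : ℝ) : ℂ) + y * Complex.I) ((1 / l) / 4), ∀ δ : ℝ, 0 < δ →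
        (∀ ρ ∈ closedBall (((1 + dd l : ℝ) : ℂ) + y * Complex.I) (3 / 4 * (1 / l)),
          LFunction χ ρ = 0 → δ ≤ ‖z - ρ‖) →
        LFunction χ z ≠ 0 ∧ ‖deriv (LFunction χ) z / LFunction χ z‖ ≤
          16 * Real.log l / δ + 600 * (l * Real.log l)) := by
  obtain ⟨C, hC, hCL⟩ := L_upper
  obtain ⟨Z, hZ, hz⟩ := zeta_bound
  have hC0 : 0 < C := by linarith
  have hZ0 : 0 < Z := by linarith
  refine ⟨max 4 (C * Z * 16384), le_max_left _ _, ?_⟩
  intro l hl q _ χ hχ hql y hy
  have hl4 : 4 ≤ l := (le_max_left _ _).trans hl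
  have hlC : C * Z * 16384 ≤ l := (le_max_right _ _).trans hl
  have hl0 : 0 < l := by linarith
  have hL1 : 1 ≤ Real.log l := by
    rw [Real.le_log_iff_exp_le hl0]
    have := Real.exp_one_lt_d9
    linarith
  have hLl : Real.log l ≤ l := (Real.log_le_sub_one_of_pos hl0).trans (by linarith)
  set d : ℝ := dd l with hd
  have hdd : d = 1 / (16384 * (l * Real.log l)) := by rw [hd, dd]
  have hlL : l ≤ l * Real.log l := le_mul_of_one_le_right hl0.le hL1
  have hd0 : 0 < d := by rw [hdd]; positivity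
  have hd16 : d ≤ 1 / (16 * l) := by
    rw [hdd]
    apply one_div_le_one_div_of_le (by positivity)
    nlinarith
  have hl16 : 1 / (16 * l) = (1 / l) / 16 := by field_simp
  have hl14 : 1 / l ≤ 1 / 4 := one_div_le_one_div_of_le (by norm_num) hl4
  have hl1p : 0 < 1 / l := by positivity
  set c0 : ℂ := ((1 + d : ℝ) : ℂ) + y * Complex.I with hc0
  have hc0re : c0.re = 1 + d := by rw [hc0]; simp
  have hc0im : c0.im = y := by rw [hc0]; simp
  set M : ℝ := C * l with hM
  have hM1 : 1 ≤ M := by rw [hM]; nlinarith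
  have hb : ∀ z ∈ closedBall c0 (1 / l), ‖LFunction χ z‖ ≤ M := by
    intro z hz
    rw [mem_closedBall, dist_eq_norm] at hz
    have hre : |z.re - c0.re| ≤ 1 / l := by
      rw [← Complex.sub_re]; exact (Complex.abs_re_le_norm _).trans hz
    have him : |z.im - c0.im| ≤ 1 / l := by
      rw [← Complex.sub_im]; exact (Complex.abs_im_le_norm _).trans hz
    rw [hc0re, abs_le] at hre
    rw [hc0im] at him
    apply hCL l hl4 q χ hχ hql z (by linarith [hre.1]) (by linarith [hre.2])
    refine (Real.log_le_log (by positivity) ?_).trans hy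
    have := abs_sub_abs_le_abs_sub z.im y
    linarith
  have hlow : d / Z ≤ ‖LFunction χ c0‖ := by
    have := L_ge hZ hz χ (x := d) (y := y) hd0 (by linarith)
    have e : (1 : ℂ) + (d : ℂ) + Complex.I * y = c0 := by
      rw [hc0]; push_cast; ring
    rwa [e] at this
  have hfc : 0 < ‖LFunction χ c0‖ := lt_of_lt_of_le (by positivity) hlow
  have hne : LFunction χ c0 ≠ 0 := norm_pos_iff.1 hfc
  have hMf : ‖LFunction χ c0‖ ≤ M := hb c0 (mem_closedBall_self hl1p.le)
  have hΛ0 : 0 ≤ Real.log (M / ‖LFunction χ c0‖) :=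
    Real.log_nonneg (by rw [le_div_iff₀ hfc]; linarith)
  have hΛ : Real.log (M / ‖LFunction χ c0‖) ≤ 4 * Real.log l := by
    have h1 : M / ‖LFunction χ c0‖ ≤ l ^ 4 := by
      rw [div_le_iff₀ hfc]
      have h2 : M ≤ l ^ 4 * (d / Z) := by
        rw [hdd, hM]
        have e : l ^ 4 * (1 / (16384 * (l * Real.log l)) / Z) =
            l ^ 3 / (16384 * Real.log l * Z) := by field_simp
        rw [e, le_div_iff₀ (by positivity)]
        calc C * l * (16384 * Real.log l * Z) = (C * Z * 16384) * (l * Real.log l) := by ring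
          _ ≤ l * (l * l) := by gcongr
          _ = l ^ 3 := by ring
      exact h2.trans (by gcongr)
    calc Real.log (M / ‖LFunction χ c0‖) ≤ Real.log (l ^ 4) := Real.log_le_log (by positivity) h1
      _ = 4 * Real.log l := by rw [Real.log_pow]; norm_num
  have hE : 16 * (9 * Real.log (M / ‖LFunction χ c0‖) + 1) / (1 / l) ≤ 600 * (l * Real.log l) := by
    calc 16 * (9 * Real.log (M / ‖LFunction χ c0‖) + 1) / (1 / l)
        ≤ 16 * (9 * (4 * Real.log l) + 1) / (1 / l) := by gcongr
      _ = l * (16 * (36 * Real.log l + 1)) := by field_simp; ring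
      _ ≤ l * (600 * Real.log l) := mul_le_mul_of_nonneg_left (by linarith) hl0.le
      _ = _ := by ring
  have han : AnalyticOnNhd ℂ (LFunction χ) (closedBall c0 (1 / l)) := fun z _ =>
    (DirichletCharacter.differentiable_LFunction hχ).analyticAt z
  have hre : ∀ ρ : ℂ, LFunction χ ρ = 0 → ρ.re < c0.re := by
    intro ρ h
    by_contra hcon
    push Not at hcon
    rw [hc0re] at hcon
    exact LFunction_ne_zero_of_one_le_re χ (Or.inl hχ) (by linarith) h
  have key := loc_gen (f := LFunction χ) (c := c0) (r := 3 / 4 * (1 / l)) (r1 := (1 / l) / 2)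
    (r2 := (1 / l) / 4) (R := 1 / l) (M := M) (by positivity) (by linarith) (by linarith)
    (by linarith) (by linarith) hM1 hMf han hne hb hre
  have herr := err_le (R := 1 / l) hl1p hΛ0
  obtain ⟨k1, k2⟩ := key
  have hG : (G χ c0).re = -(deriv (LFunction χ) c0 / LFunction χ c0).re := by
    unfold G
    rw [neg_div, Complex.neg_re]
  refine ⟨?_, ?_, ?_⟩
  · rw [hG]
    exact k1.trans (herr.trans hE)
  · intro b hb1 hbl hb0
    have e : c0 - ((b : ℂ) + y * Complex.I) = ((1 + d - b : ℝ) : ℂ) := by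
      rw [hc0]; push_cast; ring
    have hmem : ((b : ℂ) + y * Complex.I) ∈ closedBall c0 (3 / 4 * (1 / l)) := by
      rw [mem_closedBall, dist_comm, dist_eq_norm, e, Complex.norm_real, Real.norm_of_nonneg
        (by linarith)]
      exact hbl
    have := k2 _ hmem hb0
    rw [hG]
    rw [e] at this
    have e2 : (1 / ((1 + d - b : ℝ) : ℂ)).re = 1 / (1 + d - b) := by
      rw [← Complex.ofReal_one, ← Complex.ofReal_div, Complex.ofReal_re]
    rw [e2] at this
    linarith
  · intro z hz δ hδ hdist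
    have key2 := H370.Loc.landau (f := LFunction χ) (c := c0) (r := 3 / 4 * (1 / l))
      (r1 := (1 / l) / 2) (r2 := (1 / l) / 4) (R := 1 / l) (M := M) (by positivity)
      (by linarith) (by linarith)
      (by linarith) (by linarith) hM1 hMf han hne hb z hz δ hδ hdist
    refine ⟨key2.1, key2.2.trans ?_⟩
    refine add_le_add ?_ (herr.trans hE)
    refine (card_le hl1p hΛ0 hδ).trans ?_
    apply div_le_div_of_nonneg_right _ hδ.le
    linarith

/-- zero-free region -/
theorem zfr : ∃ l₂ : ℝ, 4 ≤ l₂ ∧ ∀ l : ℝ, l₂ ≤ l → ∀ (q : ℕ) [NeZero q]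
    (χ : DirichletCharacter ℂ q), χ ^ 2 ≠ 1 → Real.log q ≤ l → ∀ b y : ℝ,
      Real.log (2 * |y| + 3) ≤ l → LFunction χ ((b : ℂ) + y * Complex.I) = 0 →
        dd l / 8 ≤ 1 - b := by
  obtain ⟨l₁, hl₁, hloc⟩ := local_data
  obtain ⟨K, hK0, hK⟩ := V_le
  refine ⟨max l₁ K, hl₁.trans (le_max_left _ _), ?_⟩
  intro l hl q _ χ hχ2 hql b y hy hzero
  have hll : l₁ ≤ l := (le_max_left _ _).trans hl
  have hlK : K ≤ l := (le_max_right _ _).trans hl
  have hl4 : 4 ≤ l := hl₁.trans hll
  have hl0 : 0 < l := by linarith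
  have hL1 : 1 ≤ Real.log l := by
    rw [Real.le_log_iff_exp_le hl0]
    have := Real.exp_one_lt_d9
    linarith
  have hlL : l ≤ l * Real.log l := le_mul_of_one_le_right hl0.le hL1
  have hχ : χ ≠ 1 := by
    intro h
    exact hχ2 (by rw [h, one_pow])
  set d : ℝ := dd l with hd
  have hdd : d = 1 / (16384 * (l * Real.log l)) := by rw [hd, dd]
  have hd0 : 0 < d := by rw [hdd]; positivity
  have hd16 : d ≤ 1 / (16 * l) := by
    rw [hdd]
    apply one_div_le_one_div_of_le (by positivity)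
    nlinarith
  have hl16 : 1 / (16 * l) = (1 / l) / 16 := by field_simp
  have hl14 : 1 / l ≤ 1 / 4 := one_div_le_one_div_of_le (by norm_num) hl4
  have hl1p : 0 < 1 / l := by positivity
  have hb1 : b < 1 := by
    by_contra hcon
    push Not at hcon
    exact LFunction_ne_zero_of_one_le_re χ (Or.inl hχ) (s := (b : ℂ) + y * Complex.I)
      (by simpa using hcon) hzero
  by_contra hcon
  push Not at hcon
  have hy1 : Real.log (|y| + 3) ≤ l :=
    (Real.log_le_log (by positivity) (by have := abs_nonneg y; linarith)).trans hy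
  have hy2 : Real.log (|2 * y| + 3) ≤ l := by
    rw [abs_mul, abs_of_pos (by norm_num : (0:ℝ) < 2)]; exact hy
  obtain ⟨_, a2, _⟩ := hloc l hll q χ hχ hql y hy1
  obtain ⟨b1, _, _⟩ := hloc l hll q (χ ^ 2) hχ2 hql (2 * y) hy2
  have a3 := a2 b hb1 (by linarith) hzero
  have hV := hK (1 + d) (by linarith) (by linarith)
  have htf := tfo χ (c := 1 + d) (by linarith) y
  rw [add_sub_cancel_left] at hV
  have hEd : 3 * K + 5 * (600 * (l * Real.log l)) ≤ 1 / 4 * (1 / d) := by
    have e : 1 / d = 16384 * (l * Real.log l) := by rw [hdd]; field_simp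
    rw [e]
    linarith
  have hq : 32 / 9 * (1 / d) < 4 * (1 / (1 + d - b)) := by
    have h1 : 1 + d - b < 9 / 8 * d := by linarith
    have h2 : 0 < 1 + d - b := by linarith
    have h3 : 1 / (9 / 8 * d) < 1 / (1 + d - b) := one_div_lt_one_div_of_lt h2 h1
    have h4 : 1 / (9 / 8 * d) = 8 / 9 * (1 / d) := by field_simp
    linarith
  have hdp : 0 < 1 / d := by positivity
  linarith

theorem taskZ1 : Pool.Agent.H555R4.DY.TaskZ1 := by
  obtain ⟨l₁, hl₁, hloc⟩ := local_data
  obtain ⟨l₂, hl₂, hz⟩ := zfr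
  refine ⟨1 / 4194304, max (max l₁ l₂) (2 ^ 60), by norm_num, by norm_num,
    hl₁.trans ((le_max_left _ _).trans (le_max_left _ _)), ?_⟩
  intro l hl q _ χ hχ2 hql s hs hsim
  have hll₁ : l₁ ≤ l := ((le_max_left _ _).trans (le_max_left _ _)).trans hl
  have hll₂ : l₂ ≤ l := ((le_max_right _ _).trans (le_max_left _ _)).trans hl
  have hlbig : (2:ℝ) ^ 60 ≤ l := (le_max_right _ _).trans hl
  have hl4 : 4 ≤ l := hl₁.trans hll₁
  have hl0 : 0 < l := by linarith
  have hL1 : 1 ≤ Real.log l := by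
    rw [Real.le_log_iff_exp_le hl0]
    have := Real.exp_one_lt_d9
    linarith
  have hlL : l ≤ l * Real.log l := le_mul_of_one_le_right hl0.le hL1
  have hlLp : 0 < l * Real.log l := by positivity
  have hχ : χ ≠ 1 := by
    intro h
    exact hχ2 (by rw [h, one_pow])
  set d : ℝ := dd l with hd
  have hdd : d = 1 / (16384 * (l * Real.log l)) := by rw [hd, dd]
  have hd0 : 0 < d := by rw [hdd]; positivity
  have hd16 : d ≤ 1 / (16 * l) := by
    rw [hdd]
    apply one_div_le_one_div_of_le (by positivity)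
    nlinarith
  have hl16 : 1 / (16 * l) = (1 / l) / 16 := by field_simp
  have hl14 : 1 / l ≤ 1 / 4 := one_div_le_one_div_of_le (by norm_num) hl4
  have hl1p : 0 < 1 / l := by positivity
  have hcd : (1 / 4194304) / (l * Real.log l) = d / 256 := by
    rw [hdd]; field_simp; norm_num
  rw [hcd, abs_le] at hs
  -- the larger parameter
  have hd2 : d / 8 ≤ dd (2 * l) := by
    rw [hdd, dd]
    have hl2 : Real.log (2 * l) ≤ 2 * Real.log l := by
      rw [Real.log_mul (by norm_num) hl0.ne']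
      have := Real.log_two_lt_d9
      linarith
    have hl2p : 0 < Real.log (2 * l) := Real.log_pos (by linarith)
    rw [div_div]
    apply one_div_le_one_div_of_le (by positivity)
    nlinarith
  have hsim1 : Real.log (|s.im| + 3) ≤ l :=
    (Real.log_le_log (by positivity) (by have := abs_nonneg s.im; linarith)).trans hsim
  obtain ⟨_, _, a3⟩ := hloc l hll₁ q χ hχ hql s.im hsim1
  have hdist : ∀ ρ ∈ closedBall (((1 + d : ℝ) : ℂ) + s.im * Complex.I) (3 / 4 * (1 / l)),
      LFunction χ ρ = 0 → d / 128 ≤ ‖s - ρ‖ := by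
    intro ρ hρ hρ0
    rw [mem_closedBall, dist_eq_norm] at hρ
    have him : |ρ.im - s.im| ≤ 3 / 4 * (1 / l) := by
      have := (Complex.abs_im_le_norm (ρ - (((1 + d : ℝ) : ℂ) + s.im * Complex.I))).trans hρ
      simpa using this
    have h1 : Real.log (2 * |ρ.im| + 3) ≤ 2 * l := by
      have h2 := abs_sub_abs_le_abs_sub ρ.im s.im
      have h3 : 2 * |ρ.im| + 3 ≤ 2 * (2 * |s.im| + 3) := by
        have := abs_nonneg s.im
        linarith
      calc Real.log (2 * |ρ.im| + 3) ≤ Real.log (2 * (2 * |s.im| + 3)) :=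
            Real.log_le_log (by positivity) h3
        _ = Real.log 2 + Real.log (2 * |s.im| + 3) := Real.log_mul (by norm_num) (by positivity)
        _ ≤ 1 + l := add_le_add (by have := Real.log_two_lt_d9; linarith) hsim
        _ ≤ 2 * l := by linarith
    have h4 := hz (2 * l) (by linarith) q χ hχ2 (by linarith) ρ.re ρ.im h1
      (by rw [Complex.re_add_im]; exact hρ0)
    have h5 : s.re - ρ.re ≤ ‖s - ρ‖ := by
      have := Complex.re_le_norm (s - ρ)
      rwa [Complex.sub_re] at this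
    linarith [hs.1]
  have hsball : s ∈ closedBall (((1 + d : ℝ) : ℂ) + s.im * Complex.I) ((1 / l) / 4) := by
    rw [mem_closedBall, dist_eq_norm]
    have e : s - (((1 + d : ℝ) : ℂ) + s.im * Complex.I) = ((s.re - (1 + d) : ℝ) : ℂ) := by
      apply Complex.ext <;> simp
    rw [e, Complex.norm_real, Real.norm_eq_abs, abs_le]
    constructor <;> linarith [hs.1, hs.2]
  have hfin := a3 s hsball (d / 128) (by positivity) hdist
  refine ⟨hfin.1, hfin.2.trans ?_⟩
  have e1 : 16 * Real.log l / (d / 128) = 33554432 * (l * Real.log l ^ 2) := by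
    rw [hdd]; field_simp; norm_num
  rw [e1]
  have hLs : Real.log l ≤ 4 * l ^ (1 / 4 : ℝ) := by
    have := Real.log_le_rpow_div hl0.le (show (0:ℝ) < 1 / 4 by norm_num)
    linarith
  set u : ℝ := l ^ (1 / 4 : ℝ) with hu
  have hu4 : u ^ 4 = l := by
    rw [hu, ← Real.rpow_natCast, ← Real.rpow_mul hl0.le]
    norm_num
  have hu0 : 0 < u := by rw [hu]; positivity
  have hubig : (2:ℝ) ^ 15 ≤ u := by
    by_contra hcon
    push Not at hcon
    have : u ^ 4 < ((2:ℝ) ^ 15) ^ 4 := pow_lt_pow_left₀ hcon hu0.le (by norm_num)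
    rw [hu4] at this
    norm_num at this hlbig
    linarith
  have hu1 : 1 ≤ u := by norm_num at hubig; linarith
  have h2 : Real.log l ^ 2 ≤ 16 * u ^ 2 := by
    calc Real.log l ^ 2 ≤ (4 * u) ^ 2 := by gcongr
      _ = 16 * u ^ 2 := by ring
  have h3 : Real.log l ≤ Real.log l ^ 2 := by nlinarith
  calc 33554432 * (l * Real.log l ^ 2) + 600 * (l * Real.log l)
      ≤ 33554432 * (l * (16 * u ^ 2)) + 600 * (l * (16 * u ^ 2)) := by
        gcongr
        exact h3.trans h2
    _ = l * ((33555032 * 16) * u ^ 2) := by ring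
    _ ≤ l * (((2:ℝ) ^ 15) ^ 2 * u ^ 2) := by gcongr; norm_num
    _ ≤ l * (u ^ 2 * u ^ 2) := by gcongr
    _ = l * l := by rw [← hu4]; ring
    _ ≤ l ^ 3 := by nlinarith

end

end Pool.Agent.H555R4.DY.Z1
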