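import Pool.Agent.H555R4.DY.Stmts
import Pool.Agent.H378R2.LSBV1

/-! H555-LW DY-Z3: mean square over the characters modulo `2 ^ p` (helper142). -/

set_option autoImplicit false

open Finset Filter Topology

namespace Pool.Agent.H555R4.DY.Z3

open Pool.Agent.H378R2 (psiPhi)
open DirichletCharacter

theorem char_two (ψ : DirichletCharacter ℂ (2 ^ 1)) : ψ = 1 := by
  ext a
  have ha : a = 1 := by
    have h : ∀ a : (ZMod (2 ^ 1))ˣ, a = 1 := by decide
    exact h a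
  rw [ha]; simp

theorem exists_prim (p : ℕ) (hp : 1 ≤ p) (χ : DirichletCharacter ℂ (2 ^ p)) (hχ : χ ≠ 1) :
    ∃ a : ℕ, 2 ≤ a ∧ a ≤ p ∧ ∃ (h : 2 ^ a ∣ 2 ^ p) (ψ : DirichletCharacter ℂ (2 ^ a)),
      ψ.IsPrimitive ∧ χ = changeLevel h ψ := by
  have hd := χ.conductor_dvd_level
  obtain ⟨a, hap, ha⟩ := (Nat.dvd_prime_pow Nat.prime_two).1 hd
  have key : ∀ c : ℕ, ∀ (hc : c ∣ 2 ^ p) (ψ : DirichletCharacter ℂ c), ψ.IsPrimitive →
      χ = changeLevel hc ψ → c = 2 ^ a → ∃ a : ℕ, 2 ≤ a ∧ a ≤ p ∧ ∃ (h : 2 ^ a ∣ 2 ^ p)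
        (ψ : DirichletCharacter ℂ (2 ^ a)), ψ.IsPrimitive ∧ χ = changeLevel h ψ := by
    intro c hc ψ hψ hχψ hca
    subst hca
    refine ⟨a, ?_, hap, hc, ψ, hψ, hχψ⟩
    by_contra hlt
    have h01 : a = 0 ∨ a = 1 := by omega
    rcases h01 with rfl | rfl
    · apply hχ
      rw [hχψ]
      have : ψ = 1 := level_one' ψ (by norm_num)
      rw [this, map_one]
    · apply hχ
      rw [hχψ, char_two ψ, map_one]
  exact key _ hd χ.primitiveCharacter χ.primitiveCharacter_isPrimitive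
    χ.changeLevel_primitiveCharacter.symm ha

theorem psiPhi_changeLevel (p a : ℕ) (ha : 1 ≤ a) (hp : 1 ≤ p) (h : 2 ^ a ∣ 2 ^ p)
    (ψ : DirichletCharacter ℂ (2 ^ a)) (X : ℝ) : psiPhi (changeLevel h ψ) X = psiPhi ψ X := by
  unfold psiPhi
  apply sum_congr rfl
  intro n _
  congr 1
  by_cases hn : n.Coprime 2
  · have h1 : IsCoprime (n : ℤ) ((2 ^ p : ℕ) : ℤ) :=
      Nat.isCoprime_iff_coprime.2 (Nat.Coprime.pow_right p hn)
    have h2 := changeLevel_eq_cast_of_dvd' ψ h h1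
    simpa using h2
  · have h1 : ∀ k : ℕ, 1 ≤ k → ¬ IsUnit ((n : ℕ) : ZMod (2 ^ k)) := by
      intro k hk hu
      rw [ZMod.isUnit_iff_coprime] at hu
      exact hn (Nat.Coprime.coprime_dvd_right (dvd_pow_self 2 (by omega)) hu)
    rw [MulChar.map_nonunit _ (h1 p hp), MulChar.map_nonunit _ (h1 a ha)]

open Classical in
theorem sum_le (p : ℕ) (hp : 1 ≤ p) (X : ℝ) :
    ∑ χ ∈ (univ : Finset (DirichletCharacter ℂ (2 ^ p))).filter (fun χ => χ ≠ 1),
      ‖psiPhi χ X‖ ^ 2 ≤ ∑ a ∈ Icc 2 p,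
        ∑ ψ ∈ (univ : Finset (DirichletCharacter ℂ (2 ^ a))).filter (fun ψ => ψ.IsPrimitive),
          ‖psiPhi ψ X‖ ^ 2 := by
  rw [Finset.sum_sigma']
  set T := (Icc 2 p).sigma (fun a => (univ : Finset (DirichletCharacter ℂ (2 ^ a))).filter
    (fun ψ => ψ.IsPrimitive)) with hT
  let e : (Σ a : ℕ, DirichletCharacter ℂ (2 ^ a)) → DirichletCharacter ℂ (2 ^ p) :=
    fun t => if h : 2 ^ t.1 ∣ 2 ^ p then changeLevel h t.2 else 1
  have hsub : (univ : Finset (DirichletCharacter ℂ (2 ^ p))).filter (fun χ => χ ≠ 1) ⊆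
      T.image e := by
    intro χ hχ
    obtain ⟨a, h2, hap, h, ψ, hψ, hχψ⟩ := exists_prim p hp χ (mem_filter.1 hχ).2
    refine mem_image.2 ⟨⟨a, ψ⟩, ?_, ?_⟩
    · rw [hT, mem_sigma]
      exact ⟨mem_Icc.2 ⟨h2, hap⟩, mem_filter.2 ⟨mem_univ _, hψ⟩⟩
    · show (if h : 2 ^ a ∣ 2 ^ p then changeLevel h ψ else 1) = χ
      rw [dif_pos h, hχψ]
  calc _ ≤ ∑ χ ∈ T.image e, ‖psiPhi χ X‖ ^ 2 :=
        sum_le_sum_of_subset_of_nonneg hsub fun _ _ _ => by positivity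
    _ ≤ ∑ t ∈ T, ‖psiPhi (e t) X‖ ^ 2 :=
        sum_image_le_of_nonneg fun _ _ => by positivity
    _ = _ := by
        apply sum_congr rfl
        intro t ht
        rw [hT, mem_sigma, mem_Icc] at ht
        have hdvd : 2 ^ t.1 ∣ 2 ^ p := pow_dvd_pow 2 ht.1.2
        have he : e t = changeLevel hdvd t.2 := by
          show (if h : 2 ^ t.1 ∣ 2 ^ p then changeLevel h t.2 else 1) = _
          rw [dif_pos hdvd]
        rw [he, psiPhi_changeLevel p t.1 (by omega) hp hdvd]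

theorem taskZ3 : Pool.Agent.H555R4.DY.TaskZ3 := by
  classical
  intro hZ2 A
  obtain ⟨X₁, hX₁⟩ := hZ2 (A + 9)
  obtain ⟨C, X₂, hC⟩ := Pool.Agent.H378R2.ls_sum
  refine ⟨max (max X₁ X₂) (max (Real.exp (Real.exp 4)) (Real.exp C)), fun X hX p hp hpX => ?_⟩
  have hX1 : X₁ ≤ X := ((le_max_left _ _).trans (le_max_left _ _)).trans hX
  have hX2 : X₂ ≤ X := ((le_max_right _ _).trans (le_max_left _ _)).trans hX
  have hXe : Real.exp (Real.exp 4) ≤ X := ((le_max_left _ _).trans (le_max_right _ _)).trans hX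
  have hXC : Real.exp C ≤ X := ((le_max_right _ _).trans (le_max_right _ _)).trans hX
  have hX0 : 0 < X := (Real.exp_pos _).trans_le hXe
  set L := Real.log X with hL
  have hLe : Real.exp 4 ≤ L := (Real.le_log_iff_exp_le hX0).2 hXe
  have hLC : C ≤ L := (Real.le_log_iff_exp_le hX0).2 hXC
  have hL0 : 0 < L := (Real.exp_pos _).trans_le hLe
  have hl4 : 4 ≤ Real.log L := (Real.le_log_iff_exp_le hL0).2 hLe
  have hl3 : (64 : ℝ) ≤ (Real.log L) ^ 3 := by
    have : (4 : ℝ) ^ 3 ≤ (Real.log L) ^ 3 := pow_le_pow_left₀ (by norm_num) hl4 3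
    linarith
  have hp64 : (p : ℝ) * 64 ≤ L := le_trans (by gcongr) hpX
  have h2p : ((2 ^ p : ℕ) : ℝ) ≤ X ^ (1 / 50 : ℝ) := by
    push_cast
    rw [← Real.rpow_natCast 2 p, Real.rpow_def_of_pos (by norm_num : (0:ℝ) < 2),
      Real.rpow_def_of_pos hX0]
    apply Real.exp_le_exp.2
    have hlog2 : Real.log 2 ≤ 1 := by
      have := Real.log_two_lt_d9; linarith
    have hp0 : (0 : ℝ) ≤ p := Nat.cast_nonneg p
    have : Real.log 2 * p ≤ p := by nlinarith
    rw [← hL]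
    linarith
  set F := ⌊X ^ (1 / 50 : ℝ)⌋₊ with hF
  have h2pF : 2 ^ p ≤ F := Nat.le_floor h2p
  set M : ℝ := X / L ^ (A + 9) with hM
  have hM0 : 0 ≤ M := by positivity
  have hbd : ∀ a ∈ Icc 2 p, ∀ ψ ∈ (univ : Finset (DirichletCharacter ℂ (2 ^ a))).filter
      (fun ψ => ψ.IsPrimitive), ‖psiPhi ψ X‖ ≤ M := by
    intro a ha ψ hψ
    rw [mem_Icc] at ha
    refine hX₁ X hX1 a ha.1 ?_ ψ (mem_filter.1 hψ).2
    refine le_trans ?_ hpX
    have hap : (a : ℝ) ≤ p := by exact_mod_cast ha.2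
    gcongr
  have hLS := hC X hX2
  have hG0 : ∀ f : ℕ, 0 ≤ ∑ χ ∈ (univ : Finset (DirichletCharacter ℂ f)).filter
      (fun χ => χ.IsPrimitive), ‖psiPhi χ X‖ := fun f => sum_nonneg fun _ _ => norm_nonneg _
  calc _ ≤ _ := sum_le p hp X
    _ ≤ ∑ a ∈ Icc 2 p, M *
        ∑ ψ ∈ (univ : Finset (DirichletCharacter ℂ (2 ^ a))).filter (fun ψ => ψ.IsPrimitive),
          ‖psiPhi ψ X‖ := by
        apply sum_le_sum
        intro a ha
        rw [mul_sum]
        apply sum_le_sum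
        intro ψ hψ
        rw [pow_two]
        exact mul_le_mul_of_nonneg_right (hbd a ha ψ hψ) (norm_nonneg _)
    _ = M * ∑ a ∈ Icc 2 p,
        ∑ ψ ∈ (univ : Finset (DirichletCharacter ℂ (2 ^ a))).filter (fun ψ => ψ.IsPrimitive),
          ‖psiPhi ψ X‖ := by rw [mul_sum]
    _ ≤ M * (C * X * L ^ 8) := by
        apply mul_le_mul_of_nonneg_left _ hM0
        refine le_trans ?_ hLS
        have hinj : Set.InjOn (fun a : ℕ => 2 ^ a) (Icc 2 p : Finset ℕ) :=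
          fun a _ b _ hab => Nat.pow_right_injective le_rfl hab
        have himg : ∑ f ∈ (Icc 2 p).image (fun a : ℕ => 2 ^ a),
            ∑ χ ∈ (univ : Finset (DirichletCharacter ℂ f)).filter (fun χ => χ.IsPrimitive),
              ‖psiPhi χ X‖ = ∑ a ∈ Icc 2 p,
            ∑ ψ ∈ (univ : Finset (DirichletCharacter ℂ (2 ^ a))).filter
              (fun ψ => ψ.IsPrimitive), ‖psiPhi ψ X‖ := sum_image hinj
        rw [← himg]
        apply sum_le_sum_of_subset_of_nonneg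
        · intro f hf
          obtain ⟨a, ha, rfl⟩ := mem_image.1 hf
          rw [mem_Icc] at ha ⊢
          refine ⟨?_, (Nat.pow_le_pow_right (by norm_num) ha.2).trans h2pF⟩
          calc 2 = 2 ^ 1 := by norm_num
            _ ≤ 2 ^ a := Nat.pow_le_pow_right (by norm_num) (by omega)
        · intro f _ _
          exact hG0 f
    _ ≤ X ^ 2 / L ^ A := by
        rw [hM, div_mul_eq_mul_div, div_le_div_iff₀ (by positivity) (by positivity)]
        have h1 : X * (C * X * L ^ 8) * L ^ A = C * (X ^ 2 * L ^ (A + 8)) := by ring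
        have h2 : X ^ 2 * L ^ (A + 9) = L * (X ^ 2 * L ^ (A + 8)) := by ring
        rw [h1, h2]
        exact mul_le_mul_of_nonneg_right hLC (by positivity)

end Pool.Agent.H555R4.DY.Z3
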