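import Pool.Agent.H555R4.DY.Stmts

set_option autoImplicit false

/-! # Task Z4: variance of the von Mangoldt function in the odd classes modulo a power of two -/

open Finset Filter Topology

namespace Pool.Agent.H555R4.DY.Z4

open Pool.Agent.H555R4.DY

/-- Parseval for the characters modulo `f` (as in `Helper112.MLS.sum_all`) -/
lemma sum_all (f : ℕ) [NeZero f] (g : ZMod f → ℂ) :
    ∑ χ : DirichletCharacter ℂ f, ‖∑ a : ZMod f, χ⁻¹ a * g a‖ ^ 2 =
      Nat.totient f * ∑ a : (ZMod f)ˣ, ‖g a‖ ^ 2 := by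
  classical
  have hu : ∀ χ : DirichletCharacter ℂ f, ∑ a : ZMod f, χ⁻¹ a * g a =
      ∑ a : (ZMod f)ˣ, χ⁻¹ (a : ZMod f) * g a := by
    intro χ
    have := sum_filter_add_sum_filter_not (univ : Finset (ZMod f)) (fun a => IsUnit a)
      (fun a => χ⁻¹ a * g a)
    rw [← this]
    have h0 : ∑ a ∈ univ.filter (fun a : ZMod f => ¬ IsUnit a), χ⁻¹ a * g a = 0 := by
      apply sum_eq_zero
      intro a ha
      rw [mem_filter] at ha
      rw [MulChar.map_nonunit _ ha.2, zero_mul]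
    rw [h0, add_zero]
    symm
    apply sum_bij (fun (a : (ZMod f)ˣ) _ => (a : ZMod f))
    · intro a _; simp
    · intro a _ b _ hab; exact Units.ext hab
    · intro b hb
      rw [mem_filter] at hb
      exact ⟨hb.2.unit, mem_univ _, rfl⟩
    · intro a _; rfl
  simp_rw [hu]
  have key : ∑ χ : DirichletCharacter ℂ f, (∑ a : (ZMod f)ˣ, χ⁻¹ (a : ZMod f) * g a) *
      (starRingEnd ℂ) (∑ a : (ZMod f)ˣ, χ⁻¹ (a : ZMod f) * g a) =
      Nat.totient f * ∑ a : (ZMod f)ˣ, g a * (starRingEnd ℂ) (g a) := by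
    simp_rw [map_sum, sum_mul_sum]
    rw [sum_comm, mul_sum]
    apply sum_congr rfl
    intro a _
    rw [sum_comm]
    have h1 : ∀ b : (ZMod f)ˣ, ∑ χ : DirichletCharacter ℂ f, χ⁻¹ (a : ZMod f) * g a *
        (starRingEnd ℂ) (χ⁻¹ (b : ZMod f) * g b) =
        g a * (starRingEnd ℂ) (g b) * if a = b then (Nat.totient f : ℂ) else 0 := by
      intro b
      have h2 : ∀ χ : DirichletCharacter ℂ f, χ⁻¹ (a : ZMod f) * g a *
        (starRingEnd ℂ) (χ⁻¹ (b : ZMod f) * g b) =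
        g a * (starRingEnd ℂ) (g b) * (χ ((a : ZMod f)⁻¹) * χ (b : ZMod f)) := by
        intro χ
        have h3 : (starRingEnd ℂ) (χ⁻¹ (b : ZMod f)) = χ (b : ZMod f) := by
          rw [← RCLike.star_def, MulChar.star_apply', inv_inv]
        have h4 : χ⁻¹ (a : ZMod f) = χ ((a : ZMod f)⁻¹) := by
          rw [MulChar.inv_apply, ZMod.inv_coe_unit, Ring.inverse_unit]
        rw [map_mul, h3, h4]
        ring
      simp_rw [h2]
      rw [← mul_sum, DirichletCharacter.sum_char_inv_mul_char_eq ℂ a.isUnit]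
      simp only [Units.val_inj]
    simp_rw [h1]
    simp
    ring
  have e1 : ∀ z : ℂ, z * (starRingEnd ℂ) z = ((‖z‖ ^ 2 : ℝ) : ℂ) := by
    intro z
    rw [Complex.mul_conj, Complex.normSq_eq_norm_sq]
  simp_rw [e1] at key
  exact_mod_cast key

/-- discrepancy of a weight in the class `a` modulo `2 ^ p` -/
noncomputable def D (p : ℕ) (w : ℕ → ℝ) (S : Finset ℕ) (a : ℕ) : ℝ :=
  ∑ n ∈ S.filter (fun n => n % 2 ^ p = a), w n -
    (1 / 2 ^ (p - 1)) * ∑ n ∈ S.filter (fun n => Odd n), w n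

lemma unit_iff (p : ℕ) (hp : 1 ≤ p) (n : ℕ) : IsUnit (n : ZMod (2 ^ p)) ↔ Odd n := by
  rw [ZMod.isUnit_iff_coprime]
  rw [Nat.coprime_pow_right_iff (by omega), Nat.coprime_two_right]

open Classical in
lemma pars (p : ℕ) (hp : 1 ≤ p) (w : ℕ → ℝ) (N : ℕ) :
    ∑ a ∈ (range (2 ^ p)).filter (fun a => Odd a), (D p w (Icc 1 N) a) ^ 2 =
      (1 / 2 ^ (p - 1)) * ∑ χ ∈ (univ : Finset (DirichletCharacter ℂ (2 ^ p))).filter
        (fun χ => χ ≠ 1), ‖∑ n ∈ Icc 1 N, ((w n : ℝ) : ℂ) * χ (n : ZMod (2 ^ p))‖ ^ 2 := by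
  have : NeZero (2 ^ p) := ⟨by positivity⟩
  have htot : Nat.totient (2 ^ p) = 2 ^ (p - 1) := by
    rw [Nat.totient_prime_pow Nat.prime_two (by omega)]; simp
  set g : ZMod (2 ^ p) → ℂ := fun b => ((D p w (Icc 1 N) b.val : ℝ) : ℂ) with hg
  set T : ℝ := ∑ n ∈ (Icc 1 N).filter (fun n => Odd n), w n with hT
  have h1 : ∑ b : (ZMod (2 ^ p))ˣ, ‖g b‖ ^ 2 =
      ∑ a ∈ (range (2 ^ p)).filter (fun a => Odd a), (D p w (Icc 1 N) a) ^ 2 := by
    apply sum_bij (fun (b : (ZMod (2 ^ p))ˣ) _ => (b : ZMod (2 ^ p)).val)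
    · intro b _
      rw [mem_filter, mem_range]
      refine ⟨ZMod.val_lt _, ?_⟩
      rw [← unit_iff p hp, ZMod.natCast_zmod_val]
      exact b.isUnit
    · intro b _ b' _ h
      exact Units.ext (ZMod.val_injective _ h)
    · intro a ha
      rw [mem_filter, mem_range] at ha
      have hu := (unit_iff p hp a).mpr ha.2
      refine ⟨hu.unit, mem_univ _, ?_⟩
      rw [IsUnit.unit_spec, ZMod.val_natCast, Nat.mod_eq_of_lt ha.1]
    · intro b _
      simp only [hg]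
      rw [Complex.norm_real, Real.norm_eq_abs, sq_abs]
  have h2 : ∀ χ : DirichletCharacter ℂ (2 ^ p), ∑ a : ZMod (2 ^ p), χ⁻¹ a * g a =
      ∑ n ∈ Icc 1 N, ((w n : ℝ) : ℂ) * χ⁻¹ (n : ZMod (2 ^ p)) -
        (((1 / 2 ^ (p - 1)) * T : ℝ) : ℂ) * ∑ a : ZMod (2 ^ p), χ⁻¹ a := by
    intro χ
    have h3 : ∀ a : ZMod (2 ^ p), χ⁻¹ a * g a =
        (∑ n ∈ Icc 1 N, if (n : ZMod (2 ^ p)) = a then ((w n : ℝ) : ℂ) * χ⁻¹ a else 0) -
          (((1 / 2 ^ (p - 1)) * T : ℝ) : ℂ) * χ⁻¹ a := by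
      intro a
      simp only [hg, D]
      rw [← hT, Complex.ofReal_sub, mul_sub, mul_comm (χ⁻¹ a) ((((1 / 2 ^ (p - 1)) * T : ℝ) : ℂ))]
      congr 1
      rw [Complex.ofReal_sum, mul_sum, sum_filter]
      refine sum_congr rfl fun n _ => ?_
      have h4 : (n % 2 ^ p = a.val) ↔ ((n : ZMod (2 ^ p)) = a) := by
        rw [← ZMod.val_natCast]
        exact ⟨fun h => ZMod.val_injective _ h, fun h => by rw [h]⟩
      by_cases h5 : (n : ZMod (2 ^ p)) = a
      · rw [if_pos (h4.mpr h5), if_pos h5, mul_comm]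
      · rw [if_neg (fun h => h5 (h4.mp h)), if_neg h5]
    simp_rw [h3]
    rw [sum_sub_distrib, ← mul_sum, sum_comm]
    congr 1
    refine sum_congr rfl fun n _ => ?_
    rw [sum_ite_eq]
    simp
  have h5 := sum_all (2 ^ p) g
  rw [h1, htot] at h5
  have h6 : ∑ χ : DirichletCharacter ℂ (2 ^ p), ‖∑ a : ZMod (2 ^ p), χ⁻¹ a * g a‖ ^ 2 =
      ∑ χ ∈ (univ : Finset (DirichletCharacter ℂ (2 ^ p))).filter
        (fun χ => χ ≠ 1), ‖∑ n ∈ Icc 1 N, ((w n : ℝ) : ℂ) * χ (n : ZMod (2 ^ p))‖ ^ 2 := by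
    rw [← sum_filter_add_sum_filter_not (univ : Finset (DirichletCharacter ℂ (2 ^ p)))
      (fun χ => χ ≠ 1) (fun χ => ‖∑ a : ZMod (2 ^ p), χ⁻¹ a * g a‖ ^ 2)]
    have h7 : ∑ χ ∈ (univ : Finset (DirichletCharacter ℂ (2 ^ p))).filter (fun χ => ¬ χ ≠ 1),
        ‖∑ a : ZMod (2 ^ p), χ⁻¹ a * g a‖ ^ 2 = 0 := by
      apply sum_eq_zero
      intro χ hχ
      rw [mem_filter, not_not] at hχ
      rw [h2 χ, hχ.2, inv_one]
      have h8 : ∑ a : ZMod (2 ^ p), (1 : DirichletCharacter ℂ (2 ^ p)) a = ((2 ^ (p - 1) : ℕ) : ℂ) := by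
        rw [MulChar.sum_one_eq_card_units, ZMod.card_units_eq_totient, htot]
      have h9 : ∑ n ∈ Icc 1 N, ((w n : ℝ) : ℂ) *
          (1 : DirichletCharacter ℂ (2 ^ p)) (n : ZMod (2 ^ p)) = ((T : ℝ) : ℂ) := by
        rw [hT, Complex.ofReal_sum, sum_filter]
        refine sum_congr rfl fun n _ => ?_
        by_cases h10 : Odd n
        · rw [if_pos h10, MulChar.one_apply ((unit_iff p hp n).mpr h10), mul_one]
        · rw [if_neg h10, MulChar.map_nonunit _ (fun h => h10 ((unit_iff p hp n).mp h)), mul_zero]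
      rw [h8, h9]
      have h11 : ((2 ^ (p - 1) : ℕ) : ℂ) ≠ 0 := by
        exact_mod_cast (by positivity : (2 ^ (p - 1) : ℕ) ≠ 0)
      have h12 : (((1 / 2 ^ (p - 1)) * T : ℝ) : ℂ) * ((2 ^ (p - 1) : ℕ) : ℂ) = (T : ℂ) := by
        push_cast at h11 ⊢
        field_simp
      rw [h12, sub_self, norm_zero, zero_pow two_ne_zero]
    rw [h7, add_zero]
    apply sum_bij (fun (χ : DirichletCharacter ℂ (2 ^ p)) _ => χ⁻¹)
    · intro χ hχ
      rw [mem_filter] at hχ ⊢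
      exact ⟨mem_univ _, fun h => hχ.2 (inv_eq_one.mp h)⟩
    · intro χ _ χ' _ h
      exact inv_injective h
    · intro χ hχ
      rw [mem_filter] at hχ
      exact ⟨χ⁻¹, mem_filter.mpr ⟨mem_univ _, fun h => hχ.2 (inv_eq_one.mp h)⟩, inv_inv χ⟩
    · intro χ hχ
      rw [mem_filter] at hχ
      rw [h2 χ]
      have h8 : ∑ a : ZMod (2 ^ p), χ⁻¹ a = 0 :=
        MulChar.sum_eq_zero_of_ne_one (fun h => hχ.2 (inv_eq_one.mp h))
      rw [h8, mul_zero, sub_zero]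
  rw [← h6, h5]
  push_cast
  field_simp

/-- number of integers of a class in an interval -/
lemma card_class (q a x y : ℕ) (hq : 0 < q) (hxy : x ≤ y) :
    (((Ioc x y).filter (fun n => n % q = a)).card : ℝ) ≤ ((y : ℝ) - x) / q + 1 := by
  by_cases ha : a < q
  · have h0 : (Ioc x y).filter (fun n => n % q = a) = (Ioc x y).filter (fun n => n ≡ a [MOD q]) := by
      apply filter_congr
      intro n _
      unfold Nat.ModEq
      rw [Nat.mod_eq_of_lt ha]
    rw [h0]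
    have h1 := Nat.Ioc_filter_modEq_card x y hq a
    have h2 : ((((Ioc x y).filter (fun n => n ≡ a [MOD q])).card : ℤ) : ℝ) ≤ ((y : ℝ) - x) / q + 1 := by
      rw [h1]
      push_cast
      apply max_le
      · have h3 := Int.floor_le (((y : ℚ) - (a : ℚ)) / (q : ℚ))
        have h4 := Int.lt_floor_add_one (((x : ℚ) - (a : ℚ)) / (q : ℚ))
        have h5 : ((⌊((y : ℚ) - (a : ℚ)) / (q : ℚ)⌋ : ℤ) : ℚ) - ((⌊((x : ℚ) - (a : ℚ)) / (q : ℚ)⌋ : ℤ) : ℚ) ≤
            ((y : ℚ) - x) / q + 1 := by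
          have : ((y : ℚ) - x) / q = ((y : ℚ) - a) / q - ((x : ℚ) - a) / q := by ring
          rw [this]; linarith
        have h6 := (Rat.cast_le (K := ℝ)).mpr h5
        simp only [Rat.cast_sub, Rat.cast_add, Rat.cast_div, Rat.cast_intCast, Rat.cast_natCast,
          Rat.cast_one] at h6
        exact h6
      · have : (x : ℝ) ≤ y := by exact_mod_cast hxy
        have : 0 ≤ ((y : ℝ) - x) / q := div_nonneg (by linarith) (by positivity)
        linarith
    exact_mod_cast h2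
  · have h0 : (Ioc x y).filter (fun n => n % q = a) = ∅ := by
      apply filter_eq_empty_iff.mpr
      intro n _ h
      exact ha (h ▸ Nat.mod_lt n hq)
    rw [h0]
    have : (x : ℝ) ≤ y := by exact_mod_cast hxy
    have : 0 ≤ ((y : ℝ) - x) / q := div_nonneg (by linarith) (by positivity)
    simp; linarith

lemma card_odd (x y : ℕ) (hxy : x ≤ y) :
    (((Ioc x y).filter (fun n => Odd n)).card : ℝ) ≤ ((y : ℝ) - x) / 2 + 1 := by
  have h := card_class 2 1 x y (by norm_num) hxy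
  have h0 : (Ioc x y).filter (fun n => Odd n) = (Ioc x y).filter (fun n => n % 2 = 1) := by
    apply filter_congr
    intro n _
    exact Nat.odd_iff
  rw [h0]
  exact_mod_cast h

/-- bound for the discrepancy of a weight with values in `[0, H]` over an interval -/
lemma D_bound (p : ℕ) (hp : 1 ≤ p) (w : ℕ → ℝ) (x y a : ℕ) (hxy : x ≤ y) (H : ℝ)
    (h0 : ∀ n ∈ Ioc x y, 0 ≤ w n) (h1 : ∀ n ∈ Ioc x y, w n ≤ H) (hH : 0 ≤ H) :
    |D p w (Ioc x y) a| ≤ H * (((y : ℝ) - x) / 2 ^ p + 1) := by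
  have hxy' : (x : ℝ) ≤ y := by exact_mod_cast hxy
  have hA0 : 0 ≤ ∑ n ∈ (Ioc x y).filter (fun n => n % 2 ^ p = a), w n :=
    sum_nonneg fun n hn => h0 n (mem_filter.mp hn).1
  have hB0 : 0 ≤ ∑ n ∈ (Ioc x y).filter (fun n => Odd n), w n :=
    sum_nonneg fun n hn => h0 n (mem_filter.mp hn).1
  have hA1 : ∑ n ∈ (Ioc x y).filter (fun n => n % 2 ^ p = a), w n ≤
      H * (((y : ℝ) - x) / 2 ^ p + 1) := by
    calc ∑ n ∈ (Ioc x y).filter (fun n => n % 2 ^ p = a), w n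
        ≤ ∑ _n ∈ (Ioc x y).filter (fun n => n % 2 ^ p = a), H :=
          sum_le_sum fun n hn => h1 n (mem_filter.mp hn).1
      _ = H * (((Ioc x y).filter (fun n => n % 2 ^ p = a)).card : ℝ) := by
          rw [sum_const, nsmul_eq_mul, mul_comm]
      _ ≤ H * (((y : ℝ) - x) / 2 ^ p + 1) := by
          apply mul_le_mul_of_nonneg_left _ hH
          have := card_class (2 ^ p) a x y (by positivity) hxy
          push_cast at this
          exact this
  have hB1 : (1 / 2 ^ (p - 1)) * ∑ n ∈ (Ioc x y).filter (fun n => Odd n), w n ≤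
      H * (((y : ℝ) - x) / 2 ^ p + 1) := by
    have h2 : ∑ n ∈ (Ioc x y).filter (fun n => Odd n), w n ≤ H * (((y : ℝ) - x) / 2 + 1) := by
      calc ∑ n ∈ (Ioc x y).filter (fun n => Odd n), w n
          ≤ ∑ _n ∈ (Ioc x y).filter (fun n => Odd n), H :=
            sum_le_sum fun n hn => h1 n (mem_filter.mp hn).1
        _ = H * (((Ioc x y).filter (fun n => Odd n)).card : ℝ) := by
            rw [sum_const, nsmul_eq_mul, mul_comm]
        _ ≤ H * (((y : ℝ) - x) / 2 + 1) := mul_le_mul_of_nonneg_left (card_odd x y hxy) hH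
    obtain ⟨r, rfl⟩ : ∃ r, p = r + 1 := ⟨p - 1, by omega⟩
    rw [Nat.add_sub_cancel]
    have h3 : (1 : ℝ) ≤ 2 ^ r := one_le_pow₀ (by norm_num)
    have h4 : (1 / 2 ^ r : ℝ) * (H * (((y : ℝ) - x) / 2 + 1)) ≤
        H * (((y : ℝ) - x) / 2 ^ (r + 1) + 1) := by
      have h5 : (1 / 2 ^ r : ℝ) * (H * (((y : ℝ) - x) / 2 + 1)) =
        H * (((y : ℝ) - x) / 2 ^ (r + 1) + 1 / 2 ^ r) := by
        rw [pow_succ]; field_simp
      rw [h5]
      apply mul_le_mul_of_nonneg_left _ hH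
      have h6 : (1 / 2 ^ r : ℝ) ≤ 1 := by rw [div_le_one (by positivity)]; exact h3
      linarith
    exact (mul_le_mul_of_nonneg_left h2 (by positivity)).trans h4
  have hB2 : 0 ≤ (1 / 2 ^ (p - 1)) * ∑ n ∈ (Ioc x y).filter (fun n => Odd n), w n := by positivity
  unfold D
  rw [abs_le]
  constructor <;> linarith

lemma D_split (p : ℕ) (w : ℕ → ℝ) (x y a : ℕ) (hxy : x ≤ y) :
    D p w (Icc 1 y) a = D p w (Icc 1 x) a + D p w (Ioc x y) a := by
  have hu : Icc 1 y = Icc 1 x ∪ Ioc x y := by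
    ext n; simp only [mem_Icc, mem_union, mem_Ioc]; omega
  have hd : Disjoint (Icc 1 x) (Ioc x y) := by
    rw [disjoint_left]; intro n hn hn'
    rw [mem_Icc] at hn; rw [mem_Ioc] at hn'; omega
  unfold D
  rw [hu, filter_union, filter_union, sum_union (disjoint_filter_filter hd),
    sum_union (disjoint_filter_filter hd)]
  ring

lemma D_lin (p : ℕ) (w w' v : ℕ → ℝ) (h : ℝ) (S : Finset ℕ) (a : ℕ)
    (hw : ∀ n ∈ S, w' n = w n + h * v n) : D p w' S a = D p w S a + h * D p v S a := by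
  unfold D
  have h1 : ∀ P : ℕ → Prop, ∀ _ : DecidablePred P, ∑ n ∈ S.filter P, w' n =
      ∑ n ∈ S.filter P, w n + h * ∑ n ∈ S.filter P, v n := by
    intro P _
    rw [mul_sum, ← sum_add_distrib]
    exact sum_congr rfl fun n hn => hw n (mem_filter.mp hn).1
  rw [h1 _ _, h1 _ _]
  ring

open ArithmeticFunction in
/-- the unsmoothing step in one class -/
lemma unsmooth (p : ℕ) (hp : 1 ≤ p) (x a : ℕ) (hx : 1 ≤ x) (h : ℝ) (hh : 0 < h) (hh2 : h ≤ 1 / 2) :
    (D p (fun n => vonMangoldt n) (Icc 1 x) a) ^ 2 ≤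
      3 / h ^ 2 * (D p (fun n => Real.log (x * Real.exp h / n) * vonMangoldt n)
          (Icc 1 ⌊x * Real.exp h⌋₊) a) ^ 2 +
      3 / h ^ 2 * (D p (fun n => Real.log (x / n) * vonMangoldt n) (Icc 1 x) a) ^ 2 +
      3 * ((Real.log x + h) * (2 * h * x / 2 ^ p + 1)) ^ 2 := by
  have hx' : (1 : ℝ) ≤ x := by exact_mod_cast hx
  have hx0 : (0 : ℝ) < x := by linarith
  have hexp1 : 1 ≤ Real.exp h := Real.one_le_exp hh.le
  have hexp2 : Real.exp h ≤ 1 + 2 * h := by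
    have h1 := Real.add_one_le_exp (-h)
    have h2 : Real.exp h * Real.exp (-h) = 1 := by rw [← Real.exp_add]; simp
    have h3 : Real.exp h * (1 - h) ≤ 1 := by
      rw [← h2]; apply mul_le_mul_of_nonneg_left _ (Real.exp_pos h).le; linarith
    nlinarith
  set N := ⌊x * Real.exp h⌋₊ with hN
  have hxN : x ≤ N := by
    apply Nat.le_floor
    nlinarith
  have hNle : (N : ℝ) ≤ x * Real.exp h := Nat.floor_le (by positivity)
  have hlog : Real.log (x * Real.exp h) = Real.log x + h := by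
    rw [Real.log_mul hx0.ne' (Real.exp_pos h).ne', Real.log_exp]
  set w' : ℕ → ℝ := fun n => Real.log (x * Real.exp h / n) * vonMangoldt n with hw'
  set w : ℕ → ℝ := fun n => Real.log (x / n) * vonMangoldt n with hw
  have h1 : D p w' (Icc 1 x) a = D p w (Icc 1 x) a + h * D p (fun n => vonMangoldt n) (Icc 1 x) a := by
    apply D_lin
    intro n hn
    rw [mem_Icc] at hn
    have hn0 : (0 : ℝ) < n := by exact_mod_cast hn.1
    simp only [hw', hw]
    rw [Real.log_div (by positivity) hn0.ne', hlog, Real.log_div hx0.ne' hn0.ne']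
    ring
  have h2 := D_split p w' x N a hxN
  have h3 : |D p w' (Ioc x N) a| ≤ h * (Real.log x + h) * (((N : ℝ) - x) / 2 ^ p + 1) := by
    apply D_bound p hp w' x N a hxN
    · intro n hn
      rw [mem_Ioc] at hn
      simp only [hw']
      apply mul_nonneg _ vonMangoldt_nonneg
      apply Real.log_nonneg
      have hn0 : (0 : ℝ) < n := by exact_mod_cast (by omega : 0 < n)
      rw [le_div_iff₀ hn0, one_mul]
      have : (n : ℝ) ≤ N := by exact_mod_cast hn.2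
      linarith
    · intro n hn
      rw [mem_Ioc] at hn
      have hn0 : (0 : ℝ) < n := by exact_mod_cast (by omega : 0 < n)
      have hnx : (x : ℝ) ≤ n := by exact_mod_cast hn.1.le
      have hnN : (n : ℝ) ≤ N := by exact_mod_cast hn.2
      simp only [hw']
      have h4 : Real.log (x * Real.exp h / n) ≤ h := by
        rw [Real.log_div (by positivity) hn0.ne', hlog]
        have := Real.log_le_log hx0 hnx
        linarith
      have h5 : vonMangoldt n ≤ Real.log x + h := by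
        refine vonMangoldt_le_log.trans ?_
        rw [← hlog]
        exact Real.log_le_log hn0 (by linarith)
      exact mul_le_mul h4 h5 vonMangoldt_nonneg hh.le
    · have := Real.log_nonneg hx'
      positivity
  have h4 : |D p w' (Ioc x N) a| ≤ h * ((Real.log x + h) * (2 * h * x / 2 ^ p + 1)) := by
    refine h3.trans ?_
    rw [mul_assoc]
    apply mul_le_mul_of_nonneg_left _ hh.le
    apply mul_le_mul_of_nonneg_left _ (by have := Real.log_nonneg hx'; linarith)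
    have h5 : (N : ℝ) - x ≤ 2 * h * x := by nlinarith
    have h6 : ((N : ℝ) - x) / 2 ^ p ≤ 2 * h * x / 2 ^ p := by
      apply div_le_div_of_nonneg_right h5 (by positivity)
    linarith
  set K := (Real.log x + h) * (2 * h * x / 2 ^ p + 1) with hK
  set A := D p w' (Icc 1 N) a
  set B := D p w (Icc 1 x) a
  set R := D p w' (Ioc x N) a
  set Z := D p (fun n => vonMangoldt n) (Icc 1 x) a
  have h5 : h * Z = A - B - R := by linarith
  have h6 : R ^ 2 ≤ (h * K) ^ 2 := by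
    rw [← sq_abs R]
    exact pow_le_pow_left₀ (abs_nonneg _) h4 2
  have h7 : (h * Z) ^ 2 ≤ 3 * A ^ 2 + 3 * B ^ 2 + 3 * (h * K) ^ 2 := by
    rw [h5]
    nlinarith [sq_nonneg (A + B), sq_nonneg (A + R), sq_nonneg (B - R)]
  have h8 : Z ^ 2 = (h * Z) ^ 2 / h ^ 2 := by field_simp
  rw [h8, div_le_iff₀ (by positivity)]
  have h9 : (3 / h ^ 2 * A ^ 2 + 3 / h ^ 2 * B ^ 2 + 3 * K ^ 2) * h ^ 2 =
      3 * A ^ 2 + 3 * B ^ 2 + 3 * (h * K) ^ 2 := by field_simp
  rw [h9]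
  exact h7

/-- monotonicity of `(log t) ^ 4 / t` -/
lemma mono4 (t t' : ℝ) (ht : Real.exp 4 ≤ t) (htt : t ≤ t') (P : ℝ) (hP : 0 ≤ P)
    (h : P * (Real.log t) ^ 4 ≤ t) : P * (Real.log t') ^ 4 ≤ t' := by
  have he : (0 : ℝ) < Real.exp 4 := Real.exp_pos 4
  have ht0 : 0 < t := by linarith
  have ht0' : 0 < t' := by linarith
  have h1 := Real.log_div_self_rpow_antitoneOn (a := 1 / 4) (by norm_num)
  have hm : Real.exp ((1 / 4 : ℝ)⁻¹) = Real.exp 4 := by norm_num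
  have h2 : Real.log t' / t' ^ (1 / 4 : ℝ) ≤ Real.log t / t ^ (1 / 4 : ℝ) := by
    apply h1 _ _ htt
    · show Real.exp ((1 / 4 : ℝ)⁻¹) ≤ t
      rw [hm]; exact ht
    · show Real.exp ((1 / 4 : ℝ)⁻¹) ≤ t'
      rw [hm]; linarith
  have hl : 0 ≤ Real.log t := by
    apply Real.log_nonneg
    have := Real.one_le_exp (show (0 : ℝ) ≤ 4 by norm_num)
    linarith
  have hl' : 0 ≤ Real.log t' := hl.trans (Real.log_le_log ht0 htt)
  have h3 : (Real.log t' / t' ^ (1 / 4 : ℝ)) ^ 4 ≤ (Real.log t / t ^ (1 / 4 : ℝ)) ^ 4 :=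
    pow_le_pow_left₀ (by positivity) h2 4
  have h4 : ∀ s : ℝ, 0 < s → (s ^ (1 / 4 : ℝ)) ^ 4 = s := by
    intro s hs
    rw [← Real.rpow_natCast, ← Real.rpow_mul hs.le]
    norm_num
  rw [div_pow, div_pow, h4 t ht0, h4 t' ht0'] at h3
  have h5 : P * (Real.log t' ^ 4 / t') ≤ P * (Real.log t ^ 4 / t) :=
    mul_le_mul_of_nonneg_left h3 hP
  have h6 : P * (Real.log t ^ 4 / t) ≤ 1 := by
    rw [← mul_div_assoc, div_le_one ht0]; exact h
  have h7 := h5.trans h6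
  rw [← mul_div_assoc, div_le_one ht0'] at h7
  exact h7

lemma num1 (x φ L u v : ℝ) (hφ : 0 < φ) (hL : 0 < L) (hu : 0 < u) (hv : 0 < v) :
    3 / (1 / u) ^ 2 * ((1 / φ) * (4 * x ^ 2 / (u * u * (v * L)))) +
      3 / (1 / u) ^ 2 * ((1 / φ) * (x ^ 2 / (u * u * (v * L)))) =
      30 * x ^ 2 / (2 * φ * v) * (1 / L) := by
  field_simp
  ring

lemma num2 (x L h Q : ℝ) (hQ : 0 < Q) :
    Q * (3 * (4 * L ^ 2 * (2 * (4 * h ^ 2 * x ^ 2 / Q ^ 2) + 2))) =
      96 * L ^ 2 * h ^ 2 * x ^ 2 / Q + 24 * L ^ 2 * Q := by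
  field_simp
  ring

lemma num3 (x L v Q : ℝ) (hL : 0 < L) (hv : 0 < v) (hQ : 0 < Q) :
    96 * L ^ 2 * (1 / (v * L ^ 2)) ^ 2 * x ^ 2 / Q =
      96 * (1 / (v * L ^ 2)) * (x ^ 2 / (Q * v)) := by
  field_simp

lemma num4 (x L v Q : ℝ) (hL : 0 < L) (hv : 0 < v) (hQ : 0 < Q)
    (h : 96 * (v * L ^ 2) * (Q * Q) ≤ x ^ 2) :
    24 * L ^ 2 * Q ≤ 1 / 4 * (x ^ 2 / (Q * v)) := by
  rw [← mul_div_assoc, le_div_iff₀ (by positivity)]
  nlinarith

theorem taskZ4 : TaskZ4 := by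
  intro hZ A
  classical
  obtain ⟨X₁, hX₁⟩ := hZ (2 * (A + 2) + A + 1)
  have hE1 : ∀ᶠ x : ℝ in atTop, 96 * (Real.log x) ^ (A + 2) ≤ x := by
    have h1 := (Real.isLittleO_pow_log_id_atTop (n := A + 2)).def (show (0 : ℝ) < 1 / 96 by norm_num)
    filter_upwards [h1, eventually_ge_atTop 1] with x hx hx1
    have h2 : 0 ≤ (Real.log x) ^ (A + 2) := pow_nonneg (Real.log_nonneg hx1) _
    rw [Real.norm_of_nonneg h2, id, Real.norm_of_nonneg (by linarith)] at hx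
    linarith
  have hE2 : ∀ᶠ x : ℝ in atTop, 192 ≤ Real.log x := Real.tendsto_log_atTop.eventually_ge_atTop 192
  have hE := hE1.and (hE2.and ((eventually_ge_atTop X₁).and (eventually_ge_atTop (1 : ℝ))))
  obtain ⟨X₀, hX₀⟩ := eventually_atTop.mp hE
  refine ⟨X₀, fun x hx p hp hpx => ?_⟩
  obtain ⟨h1, h2, h3, h4⟩ := hX₀ (x : ℝ) hx
  set L := Real.log x with hL
  have hL0 : 0 < L := by linarith
  have hx1 : 1 ≤ x := by exact_mod_cast h4
  have hx0 : (0 : ℝ) < x := by linarith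
  set h : ℝ := 1 / L ^ (A + 2) with hh
  have hLA : 192 ≤ L ^ (A + 2) := by
    calc (192 : ℝ) ≤ L := h2
      _ = L ^ 1 := (pow_one L).symm
      _ ≤ L ^ (A + 2) := pow_le_pow_right₀ (by linarith) (by omega)
  have hLA0 : 0 < L ^ (A + 2) := by linarith
  have hhpos : 0 < h := by rw [hh]; positivity
  have hh2 : h ≤ 1 / 192 := by
    rw [hh]; exact one_div_le_one_div_of_le (by norm_num) hLA
  have hh3 : h ≤ 1 / 2 := by linarith
  have hexp1 : 1 ≤ Real.exp h := Real.one_le_exp hhpos.le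
  have hexp2 : Real.exp h ≤ 2 := by
    have h1 := Real.add_one_le_exp (-h)
    have h2 : Real.exp h * Real.exp (-h) = 1 := by rw [← Real.exp_add]; simp
    have h3 : Real.exp h * (1 - h) ≤ 1 := by
      rw [← h2]; apply mul_le_mul_of_nonneg_left _ (Real.exp_pos h).le; linarith
    nlinarith
  have hlog : Real.log (x * Real.exp h) = L + h := by
    rw [Real.log_mul hx0.ne' (Real.exp_pos h).ne', Real.log_exp]
  have hxX : (x : ℝ) ≤ x * Real.exp h := by nlinarith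
  -- the condition on `p` at the larger point
  have hexp4 : Real.exp 4 ≤ L := by
    have h5 : Real.exp 4 = (Real.exp 1) ^ 4 := by rw [← Real.exp_nat_mul]; norm_num
    have h6 := Real.exp_one_lt_d9
    have h7 : (Real.exp 1) ^ 4 ≤ (2.7182818286 : ℝ) ^ 4 :=
      pow_le_pow_left₀ (Real.exp_pos 1).le h6.le 4
    have h8 : (2.7182818286 : ℝ) ^ 4 ≤ 192 := by norm_num
    rw [h5]; linarith
  have hlogL : 4 ≤ Real.log L := by
    rw [Real.le_log_iff_exp_le hL0]; exact hexp4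
  have hpX : (p : ℝ) * (Real.log (Real.log (x * Real.exp h))) ^ 4 ≤ Real.log (x * Real.exp h) := by
    rw [hlog]
    exact mono4 L (L + h) hexp4 (by linarith) p (by positivity) hpx
  -- bounds for the smoothed sums
  have hS1 := hX₁ (x * Real.exp h) (by linarith) p hp hpX
  have hS0 := hX₁ (x : ℝ) h3 p hp hpx
  have hP1 := pars p hp (fun n => Real.log (x * Real.exp h / n) * ArithmeticFunction.vonMangoldt n)
    ⌊x * Real.exp h⌋₊
  have hP0 := pars p hp (fun n => Real.log (x / n) * ArithmeticFunction.vonMangoldt n) x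
  have hfl : ⌊(x : ℝ)⌋₊ = x := Nat.floor_natCast x
  unfold psi1 at hS1 hS0
  rw [hfl] at hS0
  have hq : (2 : ℝ) ^ p = 2 * 2 ^ (p - 1) := by
    rw [← pow_succ']; congr 1; omega
  set φ : ℝ := 2 ^ (p - 1) with hφ
  have hφ1 : 1 ≤ φ := one_le_pow₀ (by norm_num)
  have hφ0 : 0 < φ := by linarith
  set M := 2 * (A + 2) + A + 1 with hM
  have hB1 : ∑ a ∈ (range (2 ^ p)).filter (fun a => Odd a),
      (D p (fun n => Real.log (x * Real.exp h / n) * ArithmeticFunction.vonMangoldt n)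
        (Icc 1 ⌊x * Real.exp h⌋₊) a) ^ 2 ≤ (1 / φ) * (4 * x ^ 2 / L ^ M) := by
    rw [hP1]
    apply mul_le_mul_of_nonneg_left _ (by positivity)
    refine le_trans hS1 ?_
    rw [hlog]
    have h5 : (x * Real.exp h) ^ 2 ≤ 4 * (x : ℝ) ^ 2 := by
      rw [mul_pow]
      have : Real.exp h ^ 2 ≤ 4 := by nlinarith
      nlinarith [sq_nonneg (x : ℝ)]
    have h6 : L ^ M ≤ (L + h) ^ M := pow_le_pow_left₀ hL0.le (by linarith) M
    exact div_le_div₀ (by positivity) h5 (by positivity) h6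
  have hB0 : ∑ a ∈ (range (2 ^ p)).filter (fun a => Odd a),
      (D p (fun n => Real.log (x / n) * ArithmeticFunction.vonMangoldt n)
        (Icc 1 x) a) ^ 2 ≤ (1 / φ) * (x ^ 2 / L ^ M) := by
    rw [hP0]
    apply mul_le_mul_of_nonneg_left _ (by positivity)
    exact hS0
  have hcard : (((range (2 ^ p)).filter (fun a => Odd a)).card : ℝ) ≤ 2 ^ p := by
    have : ((range (2 ^ p)).filter (fun a => Odd a)).card ≤ 2 ^ p :=
      (card_filter_le _ _).trans (card_range _).le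
    exact_mod_cast this
  have hmain : ∑ a ∈ (range (2 ^ p)).filter (fun a => Odd a),
      (D p (fun n => ArithmeticFunction.vonMangoldt n) (Icc 1 x) a) ^ 2 ≤
      3 / h ^ 2 * ((1 / φ) * (4 * x ^ 2 / L ^ M)) + 3 / h ^ 2 * ((1 / φ) * (x ^ 2 / L ^ M)) +
        2 ^ p * (3 * ((L + h) * (2 * h * x / 2 ^ p + 1)) ^ 2) := by
    refine (sum_le_sum fun a _ => unsmooth p hp x a hx1 h hhpos hh3).trans ?_
    rw [sum_add_distrib, sum_add_distrib, ← mul_sum, ← mul_sum, sum_const, nsmul_eq_mul]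
    have h5 : (0 : ℝ) ≤ 3 / h ^ 2 := by positivity
    have h6 : (0 : ℝ) ≤ 3 * ((L + h) * (2 * h * x / 2 ^ p + 1)) ^ 2 := by positivity
    have h7 := mul_le_mul_of_nonneg_left hB1 h5
    have h8 := mul_le_mul_of_nonneg_left hB0 h5
    have h9 := mul_le_mul_of_nonneg_right hcard h6
    linarith
  have hgoal : ∑ a ∈ (range (2 ^ p)).filter (fun a => Odd a),
      (∑ n ∈ (Icc 1 x).filter (fun n => n % 2 ^ p = a), ArithmeticFunction.vonMangoldt n -
        (1 / 2 ^ (p - 1)) * ∑ n ∈ (Icc 1 x).filter (fun n => Odd n),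
          ArithmeticFunction.vonMangoldt n) ^ 2 =
      ∑ a ∈ (range (2 ^ p)).filter (fun a => Odd a),
      (D p (fun n => ArithmeticFunction.vonMangoldt n) (Icc 1 x) a) ^ 2 := rfl
  rw [hgoal]
  refine hmain.trans ?_
  -- numerical part
  have hq0 : (0 : ℝ) < 2 ^ p := by positivity
  have hLA' : L ^ M = L ^ (A + 2) * L ^ (A + 2) * (L ^ A * L) := by
    rw [hM]; ring
  have hT1 : 3 / h ^ 2 * ((1 / φ) * (4 * x ^ 2 / L ^ M)) + 3 / h ^ 2 * ((1 / φ) * (x ^ 2 / L ^ M)) =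
      30 * (x : ℝ) ^ 2 / (2 ^ p * L ^ A) * (1 / L) := by
    rw [hLA', hq, hh]
    exact num1 x φ L (L ^ (A + 2)) (L ^ A) hφ0 hL0 hLA0 (by positivity)
  have hT1' : 30 * (x : ℝ) ^ 2 / (2 ^ p * L ^ A) * (1 / L) ≤ 1 / 4 * (x ^ 2 / (2 ^ p * L ^ A)) := by
    have h5 : 1 / L ≤ 1 / 192 := one_div_le_one_div_of_le (by norm_num) h2
    have h6 : 0 ≤ 30 * (x : ℝ) ^ 2 / (2 ^ p * L ^ A) := by positivity
    have h7 := mul_le_mul_of_nonneg_left h5 h6
    have h8 : 30 * (x : ℝ) ^ 2 / (2 ^ p * L ^ A) * (1 / 192) = 30 / 192 * (x ^ 2 / (2 ^ p * L ^ A)) := by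
      ring
    have h9 : 0 ≤ (x : ℝ) ^ 2 / (2 ^ p * L ^ A) := by positivity
    rw [h8] at h7
    linarith
  have hT2 : (2 : ℝ) ^ p * (3 * ((L + h) * (2 * h * x / 2 ^ p + 1)) ^ 2) ≤
      96 * L ^ 2 * h ^ 2 * x ^ 2 / 2 ^ p + 24 * L ^ 2 * 2 ^ p := by
    have h5 : (L + h) ^ 2 ≤ 4 * L ^ 2 := by
      have : L + h ≤ 2 * L := by linarith
      nlinarith
    have h6 : (2 * h * x / 2 ^ p + 1) ^ 2 ≤ 2 * (4 * h ^ 2 * x ^ 2 / (2 ^ p) ^ 2) + 2 := by
      have h7 : 4 * h ^ 2 * (x : ℝ) ^ 2 / (2 ^ p) ^ 2 = (2 * h * x / 2 ^ p) ^ 2 := by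
        rw [div_pow]; ring
      rw [h7]
      nlinarith [sq_nonneg (2 * h * x / 2 ^ p - 1)]
    have h8 : ((L + h) * (2 * h * x / 2 ^ p + 1)) ^ 2 ≤
        4 * L ^ 2 * (2 * (4 * h ^ 2 * x ^ 2 / (2 ^ p) ^ 2) + 2) := by
      rw [mul_pow]
      exact mul_le_mul h5 h6 (by positivity) (by positivity)
    calc (2 : ℝ) ^ p * (3 * ((L + h) * (2 * h * x / 2 ^ p + 1)) ^ 2)
        ≤ 2 ^ p * (3 * (4 * L ^ 2 * (2 * (4 * h ^ 2 * x ^ 2 / (2 ^ p) ^ 2) + 2))) := by
          apply mul_le_mul_of_nonneg_left _ hq0.le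
          linarith
      _ = 96 * L ^ 2 * h ^ 2 * x ^ 2 / 2 ^ p + 24 * L ^ 2 * 2 ^ p :=
          num2 x L h (2 ^ p) hq0
  have hT3 : 96 * L ^ 2 * h ^ 2 * x ^ 2 / 2 ^ p ≤ 1 / 2 * (x ^ 2 / (2 ^ p * L ^ A)) := by
    have h5 : 96 * L ^ 2 * h ^ 2 * x ^ 2 / 2 ^ p =
        96 * (1 / L ^ (A + 2)) * (x ^ 2 / (2 ^ p * L ^ A)) := by
      rw [hh, pow_add]
      exact num3 x L (L ^ A) (2 ^ p) hL0 (by positivity) hq0
    rw [h5]
    apply mul_le_mul_of_nonneg_right _ (by positivity)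
    have : 1 / L ^ (A + 2) ≤ 1 / 192 := hh2
    linarith
  have hT4 : 24 * L ^ 2 * 2 ^ p ≤ 1 / 4 * ((x : ℝ) ^ 2 / (2 ^ p * L ^ A)) := by
    apply num4 x L (L ^ A) (2 ^ p) hL0 (by positivity) hq0
    have h5 : 96 * (L ^ A * L ^ 2) ≤ x := by rw [← pow_add]; exact h1
    have h6 : (2 : ℝ) ^ p * 2 ^ p ≤ x := by
      have h7 : (256 : ℝ) ≤ (Real.log L) ^ 4 := by
        calc (256 : ℝ) = 4 ^ 4 := by norm_num
          _ ≤ (Real.log L) ^ 4 := pow_le_pow_left₀ (by norm_num) hlogL 4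
      have h8 : (p : ℝ) * 2 ≤ L := by
        have hp0 : (0 : ℝ) ≤ p := by positivity
        nlinarith
      have h9 : (2 : ℝ) ≤ Real.exp 1 := by
        have := Real.add_one_le_exp (1 : ℝ)
        linarith
      calc (2 : ℝ) ^ p * 2 ^ p ≤ Real.exp 1 ^ p * Real.exp 1 ^ p := by gcongr
        _ = Real.exp (p * 2) := by
          rw [← Real.exp_nat_mul, ← Real.exp_add]; congr 1; ring
        _ ≤ Real.exp L := Real.exp_le_exp.mpr h8
        _ = x := Real.exp_log hx0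
    calc 96 * (L ^ A * L ^ 2) * (2 ^ p * 2 ^ p) ≤ x * x :=
          mul_le_mul h5 h6 (by positivity) hx0.le
      _ = (x : ℝ) ^ 2 := by ring
  rw [hT1]
  have h0 : 0 ≤ (x : ℝ) ^ 2 / (2 ^ p * L ^ A) := by positivity
  linarith

end Pool.Agent.H555R4.DY.Z4
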