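import Pool.Agent.H555R4.DY.Stmts

/-! Task Z4a of project H555-LW: mean square of the logarithmically weighted sum. -/

set_option autoImplicit false

open Finset Filter Topology

namespace Pool.Agent.H555R4.DY.Z4a

open Pool.Agent.H378R2 (psiPhi Phi)

theorem tent (w : ℝ) (K : ℕ) :
    (w ≤ (K : ℝ) / 2 → ∑ k ∈ range K, ((k : ℝ) + 1) * max 0 (1 / 2 - |w - ((k : ℝ) + 1) / 2|)
        = max 0 w) ∧
    ((K : ℝ) / 2 ≤ w → ∑ k ∈ range K, ((k : ℝ) + 1) * max 0 (1 / 2 - |w - ((k : ℝ) + 1) / 2|)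
        = max 0 ((K : ℝ) * (((K : ℝ) + 1) / 2 - w))) := by
  induction K with
  | zero =>
    constructor
    · intro h
      simp at h ⊢
      exact h
    · intro h
      simp
  | succ K ih =>
    obtain ⟨ih1, ih2⟩ := ih
    have hK : (0 : ℝ) ≤ K := Nat.cast_nonneg K
    constructor
    · intro h
      push_cast at h
      rw [Finset.sum_range_succ]
      by_cases h1 : w ≤ (K : ℝ) / 2
      · rw [ih1 h1]
        have h2 : 1 / 2 - |w - ((K : ℝ) + 1) / 2| ≤ 0 := by
          rw [abs_of_nonpos (by linarith)]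
          linarith
        rw [max_eq_left h2]
        ring
      · push Not at h1
        rw [ih2 h1.le]
        have h2 : 0 ≤ (K : ℝ) * (((K : ℝ) + 1) / 2 - w) := mul_nonneg hK (by linarith)
        rw [max_eq_right h2, abs_of_nonpos (by linarith), max_eq_right (by linarith),
          max_eq_right (by linarith)]
        ring
    · intro h
      push_cast at h
      rw [Finset.sum_range_succ, ih2 (by linarith)]
      have h2 : (K : ℝ) * (((K : ℝ) + 1) / 2 - w) ≤ 0 :=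
        mul_nonpos_of_nonneg_of_nonpos hK (by linarith)
      rw [max_eq_left h2, abs_of_nonneg (by linarith), zero_add, mul_max_of_nonneg _ _ (by linarith)]
      push_cast
      congr 1
      · ring
      · ring

/-- the scales -/
noncomputable def XX (x : ℝ) (k : ℕ) : ℝ := x * Real.exp (-(1 + (k : ℝ) / 2))

theorem XX_pos {x : ℝ} (hx : 0 < x) (k : ℕ) : 0 < XX x k := mul_pos hx (Real.exp_pos _)

theorem XX_le {x : ℝ} (hx : 0 < x) (k : ℕ) : XX x k ≤ x := by
  unfold XX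
  apply mul_le_of_le_one_right hx.le
  rw [Real.exp_le_one_iff]
  have : (0 : ℝ) ≤ k := Nat.cast_nonneg k
  linarith

theorem log_XX {x : ℝ} (hx : 0 < x) (k : ℕ) : Real.log (XX x k) = Real.log x - (1 + (k : ℝ) / 2) := by
  unfold XX
  rw [Real.log_mul hx.ne' (Real.exp_pos _).ne', Real.log_exp]
  ring

theorem Phi_XX {x : ℝ} (hx : 0 < x) {n : ℕ} (hn : 1 ≤ n) (k : ℕ) :
    Phi ((n : ℝ) / XX x k) = max 0 (1 / 2 - |Real.log (x / n) - ((k : ℝ) + 1) / 2|) := by
  have hn0 : (0 : ℝ) < n := by exact_mod_cast hn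
  unfold Phi
  rw [Real.log_div hn0.ne' (XX_pos hx k).ne', log_XX hx, Real.log_div hx.ne' hn0.ne', abs_sub_comm]
  congr 3
  ring

theorem Phi_zero {u : ℝ} (hu : 3 < u) : Phi u = 0 := by
  unfold Phi
  apply max_eq_left
  have h1 : 1 < Real.log u := by
    rw [Real.lt_log_iff_exp_lt (by linarith)]
    have := Real.exp_one_lt_d9
    linarith
  rw [abs_of_nonneg (by linarith)]
  linarith

theorem psiPhi_ext {f : ℕ} (χ : DirichletCharacter ℂ f) {X : ℝ} (hX : 0 < X) {N : ℕ}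
    (hN : ⌊3 * X⌋₊ ≤ N) : psiPhi χ X = ∑ n ∈ Icc 1 N,
      ((Phi (n / X) * ArithmeticFunction.vonMangoldt n : ℝ) : ℂ) * χ (n : ZMod f) := by
  unfold psiPhi
  apply Finset.sum_subset
  · exact Finset.Icc_subset_Icc le_rfl hN
  · intro n hn hn'
    rw [Finset.mem_Icc] at hn
    have h1 : ⌊3 * X⌋₊ < n := by
      by_contra hc
      exact hn' (Finset.mem_Icc.2 ⟨hn.1, not_lt.1 hc⟩)
    have h2 : 3 * X < n := (Nat.floor_lt (by positivity)).1 h1
    rw [Phi_zero]
    · simp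
    · rw [lt_div_iff₀ hX]
      exact h2

theorem psi1_eq {f : ℕ} (χ : DirichletCharacter ℂ f) {x : ℝ} (hx : 0 < x) {M : ℕ}
    (hM : 2 * Real.log x ≤ M) :
    psi1 χ x = ∑ k ∈ range M, (((k : ℝ) + 1 : ℝ) : ℂ) * psiPhi χ (XX x k) := by
  have h1 : ∀ k ∈ range M, (((k : ℝ) + 1 : ℝ) : ℂ) * psiPhi χ (XX x k)
      = ∑ n ∈ Icc 1 ⌊3 * x⌋₊, (((((k : ℝ) + 1) * Phi (n / XX x k)) *
        ArithmeticFunction.vonMangoldt n : ℝ) : ℂ) * χ (n : ZMod f) := by
    intro k _
    rw [psiPhi_ext χ (XX_pos hx k) (N := ⌊3 * x⌋₊) (Nat.floor_le_floor (by linarith [XX_le hx k])),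
      Finset.mul_sum]
    apply Finset.sum_congr rfl
    intro n _
    push_cast
    ring
  rw [Finset.sum_congr rfl h1, Finset.sum_comm]
  have h2 : ∀ n ∈ Icc 1 ⌊3 * x⌋₊, ∑ k ∈ range M, (((((k : ℝ) + 1) * Phi (n / XX x k)) *
        ArithmeticFunction.vonMangoldt n : ℝ) : ℂ) * χ (n : ZMod f)
      = ((max 0 (Real.log (x / n)) * ArithmeticFunction.vonMangoldt n : ℝ) : ℂ) * χ (n : ZMod f) := by
    intro n hn
    rw [Finset.mem_Icc] at hn
    rw [← Finset.sum_mul, ← Complex.ofReal_sum, ← Finset.sum_mul]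
    congr 3
    rw [Finset.sum_congr rfl (fun k _ => by rw [Phi_XX hx hn.1 k])]
    apply (tent (Real.log (x / n)) M).1
    have hn0 : (1 : ℝ) ≤ n := by exact_mod_cast hn.1
    rw [Real.log_div hx.ne' (by linarith)]
    have := Real.log_nonneg hn0
    linarith
  rw [Finset.sum_congr rfl h2]
  unfold psi1
  have h3 : ∀ n ∈ Icc 1 ⌊x⌋₊, ((Real.log (x / n) * ArithmeticFunction.vonMangoldt n : ℝ) : ℂ) *
      χ (n : ZMod f) = ((max 0 (Real.log (x / n)) * ArithmeticFunction.vonMangoldt n : ℝ) : ℂ) *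
      χ (n : ZMod f) := by
    intro n hn
    rw [Finset.mem_Icc] at hn
    have hn0 : (1 : ℝ) ≤ n := by exact_mod_cast hn.1
    have hnx : (n : ℝ) ≤ x := (Nat.le_floor_iff hx.le).1 hn.2
    rw [max_eq_right]
    apply Real.log_nonneg
    rw [le_div_iff₀ (by linarith)]
    linarith
  rw [Finset.sum_congr rfl h3]
  apply Finset.sum_subset
  · exact Finset.Icc_subset_Icc le_rfl (Nat.floor_le_floor (by linarith))
  · intro n hn hn'
    rw [Finset.mem_Icc] at hn
    have hn0 : (1 : ℝ) ≤ n := by exact_mod_cast hn.1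
    have h4 : ⌊x⌋₊ < n := by
      by_contra hc
      exact hn' (Finset.mem_Icc.2 ⟨hn.1, not_lt.1 hc⟩)
    have h5 : x < n := (Nat.floor_lt hx.le).1 h4
    rw [max_eq_left]
    · simp
    · apply Real.log_nonpos
      · positivity
      · rw [div_le_one (by linarith)]
        exact h5.le

theorem Phi_nonneg (u : ℝ) : 0 ≤ Phi u := le_max_left _ _

theorem Phi_le (u : ℝ) : Phi u ≤ 1 := by
  unfold Phi
  apply max_le (by norm_num)
  have := abs_nonneg (Real.log u - 1 / 2)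
  linarith

theorem psiPhi_trivial {f : ℕ} (χ : DirichletCharacter ℂ f) {X x : ℝ} (hX : 0 < X)
    (hXx : 3 * X ≤ 3 * x) (hx : 3 ≤ x) : ‖psiPhi χ X‖ ≤ 6 * X * Real.log x := by
  unfold psiPhi
  have hlog : 0 ≤ Real.log x := Real.log_nonneg (by linarith)
  have hl3 : Real.log (3 * x) ≤ 2 * Real.log x := by
    rw [Real.log_mul (by norm_num) (by linarith)]
    have := Real.log_le_log (by norm_num) hx
    linarith
  refine (norm_sum_le _ _).trans ?_
  calc ∑ n ∈ Icc 1 ⌊3 * X⌋₊,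
        ‖((Phi (n / X) * ArithmeticFunction.vonMangoldt n : ℝ) : ℂ) * χ (n : ZMod f)‖
      ≤ ∑ n ∈ Icc 1 ⌊3 * X⌋₊, 2 * Real.log x := by
        apply Finset.sum_le_sum
        intro n hn
        rw [Finset.mem_Icc] at hn
        have hn0 : (1 : ℝ) ≤ n := by exact_mod_cast hn.1
        have hnX : (n : ℝ) ≤ 3 * X := (Nat.le_floor_iff (by positivity)).1 hn.2
        rw [norm_mul, Complex.norm_real, Real.norm_eq_abs, abs_of_nonneg
          (mul_nonneg (Phi_nonneg _) ArithmeticFunction.vonMangoldt_nonneg)]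
        have h1 := χ.norm_le_one (n : ZMod f)
        have h2 : ArithmeticFunction.vonMangoldt n ≤ Real.log n :=
          ArithmeticFunction.vonMangoldt_le_log
        have h3 : Real.log n ≤ Real.log (3 * x) := Real.log_le_log (by linarith) (by linarith)
        have h4 : Phi (n / X) * ArithmeticFunction.vonMangoldt n ≤ 1 * (2 * Real.log x) :=
          mul_le_mul (Phi_le _) (by linarith) ArithmeticFunction.vonMangoldt_nonneg (by norm_num)
        calc Phi (n / X) * ArithmeticFunction.vonMangoldt n * ‖χ (n : ZMod f)‖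
            ≤ 1 * (2 * Real.log x) * 1 := mul_le_mul h4 h1 (norm_nonneg _) (by positivity)
          _ = 2 * Real.log x := by ring
    _ = ⌊3 * X⌋₊ * (2 * Real.log x) := by simp
    _ ≤ 3 * X * (2 * Real.log x) := by
        apply mul_le_mul_of_nonneg_right (Nat.floor_le (by positivity)) (by positivity)
    _ = 6 * X * Real.log x := by ring

theorem card_chars (p : ℕ) : ((univ : Finset (DirichletCharacter ℂ (2 ^ p))).card : ℝ) ≤ 2 ^ p := by
  have h1 : Nat.card (DirichletCharacter ℂ (2 ^ p)) = (2 ^ p).totient :=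
    DirichletCharacter.card_eq_totient_of_hasEnoughRootsOfUnity ℂ (2 ^ p)
  rw [Finset.card_univ, ← Nat.card_eq_fintype_card, h1]
  exact_mod_cast Nat.totient_le _

theorem psi1_sq {f : ℕ} (χ : DirichletCharacter ℂ f) {x : ℝ} (hx : 0 < x) {M : ℕ}
    (hM : 2 * Real.log x ≤ M) :
    ‖psi1 χ x‖ ^ 2 ≤ (M : ℝ) ^ 3 * ∑ k ∈ range M, ‖psiPhi χ (XX x k)‖ ^ 2 := by
  rw [psi1_eq χ hx hM]
  have h1 : ‖∑ k ∈ range M, (((k : ℝ) + 1 : ℝ) : ℂ) * psiPhi χ (XX x k)‖
      ≤ ∑ k ∈ range M, (M : ℝ) * ‖psiPhi χ (XX x k)‖ := by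
    refine (norm_sum_le _ _).trans (Finset.sum_le_sum ?_)
    intro k hk
    rw [Finset.mem_range] at hk
    rw [norm_mul, Complex.norm_real, Real.norm_eq_abs, abs_of_nonneg (by positivity)]
    apply mul_le_mul_of_nonneg_right _ (norm_nonneg _)
    exact_mod_cast hk
  have h2 : (∑ k ∈ range M, (M : ℝ) * ‖psiPhi χ (XX x k)‖) ^ 2
      ≤ (M : ℝ) * ∑ k ∈ range M, ((M : ℝ) * ‖psiPhi χ (XX x k)‖) ^ 2 := by
    have := sq_sum_le_card_mul_sum_sq (s := range M) (f := fun k => (M : ℝ) * ‖psiPhi χ (XX x k)‖)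
    simpa using this
  calc ‖∑ k ∈ range M, (((k : ℝ) + 1 : ℝ) : ℂ) * psiPhi χ (XX x k)‖ ^ 2
      ≤ (∑ k ∈ range M, (M : ℝ) * ‖psiPhi χ (XX x k)‖) ^ 2 :=
        pow_le_pow_left₀ (norm_nonneg _) h1 2
    _ ≤ (M : ℝ) * ∑ k ∈ range M, ((M : ℝ) * ‖psiPhi χ (XX x k)‖) ^ 2 := h2
    _ = (M : ℝ) ^ 3 * ∑ k ∈ range M, ‖psiPhi χ (XX x k)‖ ^ 2 := by
        rw [Finset.mul_sum, Finset.mul_sum]
        apply Finset.sum_congr rfl
        intro k _
        ring

theorem ev_cond (A : ℕ) (X₀ : ℝ) : ∀ᶠ x : ℝ in atTop, 3 ≤ x ∧ X₀ ≤ Real.exp (Real.log x / 2) ∧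
    2 ≤ Real.log (Real.log x) ∧ 81 * 2 ^ (A + 5) ≤ Real.log x ∧ 1 ≤ Real.log x ∧
    2916 * (Real.log x) ^ (A + 6) ≤ Real.exp (Real.log x / 2) := by
  have hl := Real.tendsto_log_atTop
  have h1 : Tendsto (fun x : ℝ => Real.exp (Real.log x / 2)) atTop atTop :=
    Real.tendsto_exp_atTop.comp (hl.atTop_div_const (by norm_num))
  have h2 := (isLittleO_pow_exp_pos_mul_atTop (A + 6) (b := 1 / 2) (by norm_num)).bound
    (c := 1 / 2916) (by norm_num)
  filter_upwards [eventually_ge_atTop 3, h1.eventually_ge_atTop X₀,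
    (hl.comp hl).eventually_ge_atTop 2, hl.eventually_ge_atTop (81 * 2 ^ (A + 5)),
    hl.eventually_ge_atTop 1, hl.eventually h2] with x a b c d e g
  refine ⟨a, b, c, d, e, ?_⟩
  rw [Real.norm_eq_abs, Real.norm_eq_abs, abs_of_nonneg (by positivity),
    abs_of_nonneg (Real.exp_pos _).le] at g
  rw [show Real.log x / 2 = 1 / 2 * Real.log x by ring]
  linarith

open Classical in
theorem scale_bound {A : ℕ} {X₀ : ℝ}
    (hZ : ∀ X : ℝ, X₀ ≤ X → ∀ p : ℕ, 1 ≤ p →
      (p : ℝ) * (Real.log (Real.log X)) ^ 3 ≤ Real.log X →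
        ∑ χ ∈ (univ : Finset (DirichletCharacter ℂ (2 ^ p))).filter (fun χ => χ ≠ 1),
          ‖psiPhi χ X‖ ^ 2 ≤ X ^ 2 / (Real.log X) ^ (A + 5))
    {x : ℝ} (h3 : 3 ≤ x) (hX : X₀ ≤ Real.exp (Real.log x / 2)) (hll : 2 ≤ Real.log (Real.log x))
    (hA : 81 * 2 ^ (A + 5) ≤ Real.log x) (h1 : 1 ≤ Real.log x)
    (hexp : 2916 * (Real.log x) ^ (A + 6) ≤ Real.exp (Real.log x / 2))
    {p : ℕ} (hp : 1 ≤ p) (hpx : (p : ℝ) * (Real.log (Real.log x)) ^ 4 ≤ Real.log x) (k : ℕ) :
    ∑ χ ∈ (univ : Finset (DirichletCharacter ℂ (2 ^ p))).filter (fun χ => χ ≠ 1),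
      ‖psiPhi χ (XX x k)‖ ^ 2 ≤ x ^ 2 / (81 * (Real.log x) ^ (A + 4)) := by
  have hx : 0 < x := by linarith
  set L := Real.log x with hL
  have hL0 : 0 < L := by linarith
  have hxL : x = Real.exp L := by rw [hL, Real.exp_log hx]
  have hX1 := XX_pos hx k
  have hX2 := XX_le hx k
  have hlX : Real.log (XX x k) ≤ L := Real.log_le_log hX1 hX2
  have hp0 : (0 : ℝ) ≤ p := Nat.cast_nonneg p
  by_cases hc : L / 2 ≤ Real.log (XX x k)
  · have hlpos : 0 < Real.log (XX x k) := by linarith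
    have hXge : X₀ ≤ XX x k := by
      refine hX.trans ?_
      calc Real.exp (L / 2) ≤ Real.exp (Real.log (XX x k)) := Real.exp_le_exp.2 hc
        _ = XX x k := Real.exp_log hX1
    have hpk : (p : ℝ) * (Real.log (Real.log (XX x k))) ^ 3 ≤ Real.log (XX x k) := by
      have h4 : Real.log (Real.log (XX x k)) ≤ Real.log L := Real.log_le_log hlpos hlX
      have h5 : (p : ℝ) * (Real.log L) ^ 3 ≤ L / 2 := by
        have h6 : 0 ≤ (p : ℝ) * (Real.log L) ^ 3 := by positivity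
        have h7 : (p : ℝ) * (Real.log L) ^ 4 = ((p : ℝ) * (Real.log L) ^ 3) * Real.log L := by ring
        nlinarith
      have h8 : (Real.log (Real.log (XX x k))) ^ 3 ≤ (Real.log L) ^ 3 :=
        (Odd.strictMono_pow (by decide : Odd 3)).monotone h4
      have h9 := mul_le_mul_of_nonneg_left h8 hp0
      linarith
    refine (hZ _ hXge p hp hpk).trans ?_
    have h10 : XX x k ^ 2 ≤ x ^ 2 := pow_le_pow_left₀ hX1.le hX2 2
    have h11 : 81 * L ^ (A + 4) ≤ (Real.log (XX x k)) ^ (A + 5) := by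
      calc 81 * L ^ (A + 4) ≤ (L / 2 ^ (A + 5)) * L ^ (A + 4) := by
            apply mul_le_mul_of_nonneg_right _ (by positivity)
            rw [le_div_iff₀ (by positivity)]
            exact hA
        _ = (L / 2) ^ (A + 5) := by
            rw [div_pow]
            rw [show L ^ (A + 5) = L ^ (A + 4) * L by ring]
            ring
        _ ≤ (Real.log (XX x k)) ^ (A + 5) := pow_le_pow_left₀ (by positivity) hc _
    exact div_le_div₀ (by positivity) h10 (by positivity) h11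
  · push Not at hc
    have hXs : XX x k ≤ Real.exp (L / 2) := by
      calc XX x k = Real.exp (Real.log (XX x k)) := (Real.exp_log hX1).symm
        _ ≤ Real.exp (L / 2) := Real.exp_le_exp.2 hc.le
    have hterm : ∀ χ : DirichletCharacter ℂ (2 ^ p), ‖psiPhi χ (XX x k)‖ ^ 2
        ≤ 36 * L ^ 2 * Real.exp L := by
      intro χ
      have h4 := psiPhi_trivial χ hX1 (by linarith : 3 * XX x k ≤ 3 * x) h3
      have h5 : ‖psiPhi χ (XX x k)‖ ≤ 6 * L * Real.exp (L / 2) := by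
        refine h4.trans ?_
        calc 6 * XX x k * Real.log x = 6 * L * XX x k := by rw [← hL]; ring
          _ ≤ 6 * L * Real.exp (L / 2) := mul_le_mul_of_nonneg_left hXs (by positivity)
      calc ‖psiPhi χ (XX x k)‖ ^ 2 ≤ (6 * L * Real.exp (L / 2)) ^ 2 :=
            pow_le_pow_left₀ (norm_nonneg _) h5 2
        _ = 36 * L ^ 2 * (Real.exp (L / 2) * Real.exp (L / 2)) := by ring
        _ = 36 * L ^ 2 * Real.exp L := by
            rw [← Real.exp_add]
            congr 2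
            ring
    have hcard : (((univ : Finset (DirichletCharacter ℂ (2 ^ p))).filter
        (fun χ => χ ≠ 1)).card : ℝ) ≤ Real.exp (L / 2) := by
      have h4 : (((univ : Finset (DirichletCharacter ℂ (2 ^ p))).filter
        (fun χ => χ ≠ 1)).card : ℝ) ≤ ((univ : Finset (DirichletCharacter ℂ (2 ^ p))).card : ℝ) := by
        exact_mod_cast Finset.card_filter_le _ _
      have h5 := card_chars p
      have h6 : (p : ℝ) ≤ L / 2 := by
        have h7 : (16 : ℝ) ≤ (Real.log L) ^ 4 := by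
          calc (16 : ℝ) = 2 ^ 4 := by norm_num
            _ ≤ (Real.log L) ^ 4 := pow_le_pow_left₀ (by norm_num) hll 4
        nlinarith
      have h8 : (2 : ℝ) ^ p ≤ Real.exp p := by
        calc (2 : ℝ) ^ p ≤ (Real.exp 1) ^ p := by
              apply pow_le_pow_left₀ (by norm_num)
              have := Real.exp_one_gt_d9
              linarith
          _ = Real.exp p := by rw [← Real.exp_nat_mul, mul_one]
      calc _ ≤ _ := h4
        _ ≤ (2 : ℝ) ^ p := h5
        _ ≤ Real.exp p := h8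
        _ ≤ Real.exp (L / 2) := Real.exp_le_exp.2 h6
    calc ∑ χ ∈ (univ : Finset (DirichletCharacter ℂ (2 ^ p))).filter (fun χ => χ ≠ 1),
          ‖psiPhi χ (XX x k)‖ ^ 2
        ≤ ∑ χ ∈ (univ : Finset (DirichletCharacter ℂ (2 ^ p))).filter (fun χ => χ ≠ 1),
          36 * L ^ 2 * Real.exp L := Finset.sum_le_sum (fun χ _ => hterm χ)
      _ = (((univ : Finset (DirichletCharacter ℂ (2 ^ p))).filter
          (fun χ => χ ≠ 1)).card : ℝ) * (36 * L ^ 2 * Real.exp L) := by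
          rw [Finset.sum_const, nsmul_eq_mul]
      _ ≤ Real.exp (L / 2) * (36 * L ^ 2 * Real.exp L) :=
          mul_le_mul_of_nonneg_right hcard (by positivity)
      _ ≤ x ^ 2 / (81 * L ^ (A + 4)) := by
          rw [le_div_iff₀ (by positivity)]
          have h4 : x ^ 2 = Real.exp (L / 2) * Real.exp L * Real.exp (L / 2) := by
            rw [hxL, ← Real.exp_add, ← Real.exp_add, ← Real.exp_nat_mul]
            congr 1
            push_cast
            ring
          rw [h4]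
          calc Real.exp (L / 2) * (36 * L ^ 2 * Real.exp L) * (81 * L ^ (A + 4))
              = Real.exp (L / 2) * Real.exp L * (2916 * L ^ (A + 6)) := by
                rw [show L ^ (A + 6) = L ^ (A + 4) * L ^ 2 by ring]
                ring
            _ ≤ Real.exp (L / 2) * Real.exp L * Real.exp (L / 2) :=
                mul_le_mul_of_nonneg_left hexp (by positivity)

theorem taskZ4a : TaskZ4a := by
  classical
  intro hZ3 A
  obtain ⟨X₀, hX₀⟩ := hZ3 (A + 5)
  obtain ⟨X₁, hX₁⟩ := eventually_atTop.1 (ev_cond A X₀)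
  refine ⟨X₁, ?_⟩
  intro x hxX p hp hpx
  obtain ⟨h3, hX, hll, hA, h1, hexp⟩ := hX₁ x hxX
  have hx : 0 < x := by linarith
  set L := Real.log x with hL
  set M : ℕ := ⌈2 * L⌉₊ with hM
  have hM1 : 2 * L ≤ M := Nat.le_ceil _
  have hM2 : (M : ℝ) ≤ 3 * L := by
    have := Nat.ceil_lt_add_one (by linarith : 0 ≤ 2 * L)
    linarith
  have hM0 : (0 : ℝ) ≤ M := Nat.cast_nonneg M
  calc ∑ χ ∈ (univ : Finset (DirichletCharacter ℂ (2 ^ p))).filter (fun χ => χ ≠ 1),
        ‖psi1 χ x‖ ^ 2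
      ≤ ∑ χ ∈ (univ : Finset (DirichletCharacter ℂ (2 ^ p))).filter (fun χ => χ ≠ 1),
        (M : ℝ) ^ 3 * ∑ k ∈ range M, ‖psiPhi χ (XX x k)‖ ^ 2 :=
        Finset.sum_le_sum (fun χ _ => psi1_sq χ hx hM1)
    _ = (M : ℝ) ^ 3 * ∑ k ∈ range M,
        ∑ χ ∈ (univ : Finset (DirichletCharacter ℂ (2 ^ p))).filter (fun χ => χ ≠ 1),
          ‖psiPhi χ (XX x k)‖ ^ 2 := by
        rw [← Finset.mul_sum, Finset.sum_comm]
    _ ≤ (M : ℝ) ^ 3 * ∑ k ∈ range M, x ^ 2 / (81 * L ^ (A + 4)) := by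
        apply mul_le_mul_of_nonneg_left _ (by positivity)
        exact Finset.sum_le_sum (fun k _ => scale_bound hX₀ h3 hX hll hA h1 hexp hp hpx k)
    _ = (M : ℝ) ^ 4 * (x ^ 2 / (81 * L ^ (A + 4))) := by
        rw [Finset.sum_const, nsmul_eq_mul, Finset.card_range]
        ring
    _ ≤ (3 * L) ^ 4 * (x ^ 2 / (81 * L ^ (A + 4))) := by
        apply mul_le_mul_of_nonneg_right _ (by positivity)
        exact pow_le_pow_left₀ hM0 hM2 4
    _ = x ^ 2 / L ^ A := by
        rw [show L ^ (A + 4) = L ^ A * L ^ 4 by ring]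
        field_simp
        norm_num

end Pool.Agent.H555R4.DY.Z4a
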