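import Pool.Agent.H555R4.DY.Stmts
import Pool.Agent.H555R4.DY.LLN
import Pool.Agent.H555R4.DY.Q
import Pool.Agent.H555R4.DY.Z1
import Pool.Agent.H201R3.DY.Z2
import Pool.Agent.H555R4.DY.Z3
import Pool.Agent.H555R4.DY.Z4a
import Pool.Agent.H555R4.DY.Z4
import Pool.Agent.H555R4.DY.Z5b
import Pool.Agent.H469R10.DYV.V3
import Pool.Agent.H555R4.DY.Cov
import Pool.Agent.H555R4.DY.B2
import Pool.Agent.H555R4.DY.U1
import Pool.Agent.H555R4.DY.U2
import Pool.Agent.H555R4.DY.SM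
import Pool.Agent.H555R4.DY.Mean
import Pool.Agent.H555R4.DY.MeanS60
import Pool.Agent.H403R5.DY.Var
import Pool.Agent.H555R4.DY.Meas170
import Pool.Agent.H555R4.LW.A
import Pool.Agent.H555R4.LW.B1
import Pool.Agent.H555R4.LW.Ch

set_option autoImplicit false

namespace Pool.Agent.H555R4.DY

theorem law : StLLN :=
  final Z1.taskZ1 Q.taskQ Pool.Agent.H201R3.DYZ2.taskZ2 Z3.taskZ3 Z4a.taskZ4a Z4.taskZ4
    Pool.Agent.H46R3.Z5.taskZ5 Pool.Agent.H469R10.DYV.taskV Cov.taskCov B2.taskB2 U1.taskU1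
    U2.taskU2 SM.taskSM Mean.taskMean Pool.Agent.Helper60.DY.taskMeanS Var403.taskVar Meas170.t
    LLN.taskLLN Pool.Agent.H555R4.LW.A.taskA Pool.Agent.H555R4.LW.B1.taskB1
    Pool.Agent.H555R4.LW.taskCh

end Pool.Agent.H555R4.DY
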