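import Pool.Agent.H555R4.DY.Stmts
import Pool.Agent.Erdos456.Mertens

/-! Task `TaskMeanS` of the project H555-LW (DY): asymptotics of the mean.  (helper676) -/

set_option autoImplicit false

open Finset Filter Topology

namespace Pool.Agent.H555R4.DY.MeanS

open Pool.Agent.H555R4.DY
open Pool.Agent.H555R4.LW (rp)

theorem count_mod (K M : ℕ) (φ : ℕ → Prop) [DecidablePred φ] :
    ((range (K * M)).filter (fun n => φ (n % M))).card = K * ((range M).filter φ).card := by
  rw [← Nat.count_eq_card_filter_range, ← Nat.count_eq_card_filter_range]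
  induction K with
  | zero => simp
  | succ K ih =>
    rw [Nat.succ_mul, Nat.count_add, ih, Nat.succ_mul]
    congr 1
    rw [Nat.count_eq_card_filter_range, Nat.count_eq_card_filter_range]
    congr 1
    apply Finset.filter_congr
    intro n hn
    have h : (K * M + n) % M = n := by
      rw [Nat.add_comm, Nat.add_mul_mod_self_right, Nat.mod_eq_of_lt (mem_range.mp hn)]
    rw [h]

theorem odd_mod (n p : ℕ) (hp : 1 ≤ p) : Odd (n % 2 ^ p) ↔ Odd n := by
  rw [Nat.odd_iff, Nat.odd_iff, Nat.mod_mod_of_dvd n (dvd_pow_self 2 (by omega))]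

theorem count_odd (P p : ℕ) (hp : 1 ≤ p) (hpP : p ≤ P) :
    ((range (2 ^ P)).filter (fun n => Odd n ∧ (rp p (n % 2 ^ p)).Prime)).card =
      2 ^ (P - p) * cB p := by
  have h : 2 ^ P = 2 ^ (P - p) * 2 ^ p := by
    rw [← pow_add]
    congr 1
    omega
  unfold cB
  rw [← count_mod (2 ^ (P - p)) (2 ^ p) (fun n => Odd n ∧ (rp p n).Prime), h]
  congr 1
  apply Finset.filter_congr
  intro n _
  rw [odd_mod n p hp]

theorem aS_eq (I : ℕ) : aS I = ∑ i ∈ range I,
    ∑ p ∈ (Ioc (2 ^ i) (2 ^ (i + 1))).filter Nat.Prime, (cB p : ℝ) / 2 ^ (p - 1) := by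
  unfold aS Sb Zb
  rw [div_eq_iff (by positivity)]
  push_cast
  rw [Finset.sum_comm, Finset.sum_mul]
  apply Finset.sum_congr rfl
  intro i hi
  rw [Finset.sum_mul]
  have h1 : ∀ n : ℕ, (((((Ioc (2 ^ i) (2 ^ (i + 1))).filter
      (fun p => p.Prime ∧ (rp p (n % 2 ^ p)).Prime)).card : ℕ)) : ℝ) =
      ∑ p ∈ (Ioc (2 ^ i) (2 ^ (i + 1))).filter Nat.Prime,
        if (rp p (n % 2 ^ p)).Prime then (1 : ℝ) else 0 := by
    intro n
    rw [Finset.sum_boole, Finset.filter_filter]
  simp only [h1]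
  rw [Finset.sum_comm]
  apply Finset.sum_congr rfl
  intro p hp
  rw [mem_filter, mem_Ioc] at hp
  have hp1 : 1 ≤ p := hp.2.one_lt.le
  have hpI : p ≤ 2 ^ I :=
    hp.1.2.trans (Nat.pow_le_pow_right (by norm_num) (by have := mem_range.mp hi; omega))
  rw [Finset.sum_boole, Finset.filter_filter, count_odd (2 ^ I) p hp1 hpI]
  push_cast
  have h2 : (2 : ℝ) ^ (2 ^ I - 1) = 2 ^ (p - 1) * 2 ^ (2 ^ I - p) := by
    rw [← pow_add]
    congr 1
    omega
  rw [h2]
  have h3 : (2 : ℝ) ^ (p - 1) ≠ 0 := by positivity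
  field_simp

/-- the Mertens weight of a block -/
noncomputable def w (i : ℕ) : ℝ :=
  ∑ p ∈ (Ioc (2 ^ i) (2 ^ (i + 1))).filter Nat.Prime, Real.log p / p

theorem w_nonneg (i : ℕ) : 0 ≤ w i := by
  unfold w
  apply Finset.sum_nonneg
  intro p _
  have : 0 ≤ Real.log (p : ℝ) := Real.log_natCast_nonneg p
  positivity

theorem w_sum (I : ℕ) : ∑ i ∈ range I, w i =
    ∑ p ∈ (Icc 1 (2 ^ I)).filter Nat.Prime, Real.log p / p := by
  induction I with
  | zero =>
    have h0 : (Icc 1 (2 ^ 0)).filter Nat.Prime = ∅ := by decide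
    rw [h0]
    simp
  | succ I ih =>
    rw [Finset.sum_range_succ, ih]
    unfold w
    have h : (Icc 1 (2 ^ (I + 1))).filter Nat.Prime =
        (Icc 1 (2 ^ I)).filter Nat.Prime ∪ (Ioc (2 ^ I) (2 ^ (I + 1))).filter Nat.Prime := by
      rw [← Finset.filter_union]
      congr 1
      ext x
      simp only [mem_union, mem_Icc, mem_Ioc]
      have h1 : 2 ^ I ≤ 2 ^ (I + 1) := Nat.pow_le_pow_right (by norm_num) (by omega)
      omega
    rw [h, Finset.sum_union]
    apply Finset.disjoint_filter_filter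
    rw [Finset.disjoint_left]
    intro x hx hx'
    rw [mem_Icc] at hx
    rw [mem_Ioc] at hx'
    omega

theorem w_tendsto : Tendsto (fun I : ℕ => (∑ i ∈ range I, w i) / I) atTop
    (𝓝 (Real.log 2)) := by
  obtain ⟨C, hC⟩ := Pool.Agent.Erdos456.Mert.mertens_log
  have h1 : ∀ I : ℕ, |∑ i ∈ range I, w i - I * Real.log 2| ≤ C := by
    intro I
    have h := hC (2 ^ I) Nat.one_le_two_pow
    rw [← w_sum] at h
    push_cast at h
    rwa [Real.log_pow] at h
  have h2 : Tendsto (fun I : ℕ => (∑ i ∈ range I, w i - I * Real.log 2) / I) atTop (𝓝 0) := by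
    rw [tendsto_zero_iff_abs_tendsto_zero]
    apply squeeze_zero (g := fun I : ℕ => C / I) (fun I => abs_nonneg _)
    · intro I
      rw [abs_div, Nat.abs_cast]
      exact div_le_div_of_nonneg_right (h1 I) (Nat.cast_nonneg _)
    · exact tendsto_const_div_atTop_nhds_zero_nat C
  have h3 := h2.add_const (Real.log 2)
  rw [zero_add] at h3
  refine h3.congr' ?_
  filter_upwards [eventually_ge_atTop 1] with I hI
  have : (I : ℝ) ≠ 0 := by positivity
  field_simp
  ring

theorem w_infty : Tendsto (fun I : ℕ => ∑ i ∈ range I, w i) atTop atTop := by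
  have h := w_tendsto.pos_mul_atTop (Real.log_pos (by norm_num : (1 : ℝ) < 2))
    (tendsto_natCast_atTop_atTop (R := ℝ))
  refine h.congr' ?_
  filter_upwards [eventually_ge_atTop 1] with I hI
  have : (I : ℝ) ≠ 0 := by positivity
  field_simp

theorem taskMeanS : TaskMeanS := by
  intro hM
  unfold StMeanS
  unfold StMean at hM
  set c : ℝ := Real.exp Real.eulerMascheroniConstant / Real.log 2 with hc
  have ho : (fun i => (∑ p ∈ (Ioc (2 ^ i) (2 ^ (i + 1))).filter Nat.Prime,
      (cB p : ℝ) / 2 ^ (p - 1)) - c * w i) =o[atTop] w := by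
    rw [Asymptotics.isLittleO_iff]
    intro ε hε
    obtain ⟨N, hN⟩ := (Metric.tendsto_atTop.1 hM) ε hε
    filter_upwards [eventually_ge_atTop N] with i hi
    rw [Real.norm_eq_abs, Real.norm_eq_abs, abs_of_nonneg (w_nonneg i)]
    unfold w
    rw [Finset.mul_sum, ← Finset.sum_sub_distrib, Finset.mul_sum]
    refine (Finset.abs_sum_le_sum_abs _ _).trans (Finset.sum_le_sum fun p hp => ?_)
    rw [mem_filter, mem_Ioc] at hp
    have hpN : N ≤ p := by
      have h1 : i < 2 ^ i := Nat.lt_two_pow_self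
      omega
    have h2 := hN p hpN
    rw [Real.dist_eq] at h2
    have hp0 : (0 : ℝ) < p := by exact_mod_cast hp.2.pos
    have hlp : 0 < Real.log (p : ℝ) := Real.log_pos (by exact_mod_cast hp.2.one_lt)
    have h3 : (cB p : ℝ) / 2 ^ (p - 1) - c * (Real.log p / p) =
        ((cB p : ℝ) / 2 ^ (p - 1) * (p / Real.log p) - c) * (Real.log p / p) := by
      field_simp
    rw [h3, abs_mul, abs_of_pos (div_pos hlp hp0)]
    exact mul_le_mul_of_nonneg_right h2.le (div_pos hlp hp0).le
  have hs := (ho.sum_range w_nonneg w_infty).tendsto_div_nhds_zero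
  have h4 := (hs.mul w_tendsto).add (w_tendsto.const_mul c)
  have h5 : 0 * Real.log 2 + c * Real.log 2 = Real.exp Real.eulerMascheroniConstant := by
    have : Real.log 2 ≠ 0 := (Real.log_pos (by norm_num)).ne'
    rw [hc]
    field_simp
    ring
  rw [h5] at h4
  refine h4.congr' ?_
  filter_upwards [eventually_ge_atTop 1, w_infty.eventually_gt_atTop 0] with I hI hI2
  have hI0 : (I : ℝ) ≠ 0 := by positivity
  rw [aS_eq, Finset.sum_sub_distrib, ← Finset.mul_sum]
  have hw0 : ∑ i ∈ range I, w i ≠ 0 := hI2.ne'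
  field_simp
  ring

end Pool.Agent.H555R4.DY.MeanS
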