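import Pool.Agent.H555R4.DY.Stmts

set_option autoImplicit false

open Finset Filter Topology

namespace Pool.Agent.H555R4.DY.Meas323

open Pool.Agent.H555R4.DY

lemma num_succ (ε : ℕ → Bool) (p : ℕ) :
    num ε (p + 1) = num ε p + if ε p then 2 ^ p else 0 := by
  unfold num
  rw [Finset.sum_range_succ]

lemma num_lt (ε : ℕ → Bool) (p : ℕ) : num ε p < 2 ^ p := by
  induction p with
  | zero => simp [num]
  | succ p ih =>
    rw [num_succ, pow_succ]
    split_ifs <;> omega

lemma num_inj (p : ℕ) (ε ε' : ℕ → Bool) (h : num ε p = num ε' p) : ∀ i < p, ε i = ε' i := by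
  induction p with
  | zero => intro i hi; omega
  | succ p ih =>
    rw [num_succ, num_succ] at h
    have h1 := num_lt ε p
    have h2 := num_lt ε' p
    have h3 : ε p = ε' p ∧ num ε p = num ε' p := by
      cases hb : ε p <;> cases hb' : ε' p <;> simp [hb, hb'] at h <;> first
        | exact ⟨rfl, h⟩
        | omega
    intro i hi
    rcases Nat.lt_succ_iff_lt_or_eq.1 hi with hi | hi
    · exact ih h3.2 i hi
    · rw [hi]; exact h3.1

theorem taskMeas : TaskMeas := by
  intro p n
  by_cases hne : ∃ ε0, num ε0 p = n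
  · obtain ⟨ε0, h0⟩ := hne
    have hsub : {ε : ℕ → Bool | num ε p = n} ⊆
        Set.pi ((Finset.range p : Finset ℕ) : Set ℕ) (fun i => ({ε0 i} : Set Bool)) := by
      intro ε hε i hi
      have hi' : i < p := by simpa using hi
      exact num_inj p ε ε0 (hε.trans h0.symm) i hi'
    refine (MeasureTheory.measure_mono hsub).trans (le_of_eq ?_)
    unfold coin
    rw [MeasureTheory.Measure.infinitePi_pi _ (fun i _ => MeasurableSet.singleton _)]
    have h1 : ∀ i, (PMF.uniformOfFintype Bool).toMeasure ({ε0 i} : Set Bool) = 2⁻¹ := by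
      intro i
      rw [PMF.toMeasure_apply_singleton _ _ (MeasurableSet.singleton _), PMF.uniformOfFintype_apply]
      simp
    rw [Finset.prod_congr rfl (fun i _ => h1 i), Finset.prod_const, Finset.card_range,
      one_div, ← inv_pow, ENNReal.ofReal_pow (by norm_num), ENNReal.ofReal_inv_of_pos (by norm_num)]
    simp
  · have : {ε : ℕ → Bool | num ε p = n} = ∅ := by
      ext ε
      simp only [Set.mem_setOf_eq, Set.mem_empty_iff_false, iff_false]
      exact fun h => hne ⟨ε, h⟩
    rw [this]
    simp

end Pool.Agent.H555R4.DY.Meas323
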