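import Pool.Agent.H555R4.DY.Stmts

/-!
# Task Meas: law of the first digits (second prover: helper154)
-/

set_option autoImplicit false
set_option maxHeartbeats 4000000

namespace Pool.Agent.H555R4.DY.MeasH154

open Finset

theorem num_bits (ε : ℕ → Bool) : ∀ p : ℕ, num ε p < 2 ^ p ∧ ∀ i < p, (num ε p).testBit i = ε i := by
  intro p
  induction p with
  | zero => exact ⟨by simp [num], fun i hi => absurd hi (Nat.not_lt_zero i)⟩
  | succ p ih =>
    obtain ⟨h1, h2⟩ := ih
    have hs : num ε (p + 1) = num ε p + if ε p then 2 ^ p else 0 := by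
      unfold num
      rw [sum_range_succ]
    by_cases he : ε p = true
    · rw [if_pos he, Nat.add_comm (num ε p)] at hs
      rw [hs]
      refine ⟨by rw [pow_succ]; omega, fun i hi => ?_⟩
      rcases Nat.lt_succ_iff_lt_or_eq.1 hi with h | h
      · rw [Nat.testBit_two_pow_add_gt h, h2 i h]
      · subst h
        rw [Nat.testBit_two_pow_add_eq, Nat.testBit_lt_two_pow h1, he]
        rfl
    · rw [if_neg he, Nat.add_zero (num ε p)] at hs
      rw [hs]
      refine ⟨by rw [pow_succ]; omega, fun i hi => ?_⟩
      rcases Nat.lt_succ_iff_lt_or_eq.1 hi with h | h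
      · exact h2 i h
      · subst h
        rw [Nat.testBit_lt_two_pow h1]
        exact (Bool.eq_false_iff.2 he).symm

theorem taskMeas : TaskMeas := by
  intro p n
  have hsub : {ε : ℕ → Bool | num ε p = n} ⊆ Set.pi (range p : Set ℕ) (fun i => {n.testBit i}) := by
    intro ε hε i hi
    have hε' : num ε p = n := hε
    rw [Set.mem_singleton_iff, ← hε']
    exact ((num_bits ε p).2 i (by simpa using hi)).symm
  refine (MeasureTheory.measure_mono hsub).trans ?_
  unfold coin
  rw [MeasureTheory.Measure.infinitePi_pi _ (fun i _ => MeasurableSet.singleton _)]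
  have hb : ∀ b : Bool, (PMF.uniformOfFintype Bool).toMeasure {b} = (2 : ENNReal)⁻¹ := by
    intro b
    rw [PMF.toMeasure_apply_singleton _ _ (MeasurableSet.singleton _), PMF.uniformOfFintype_apply]
    simp
  simp only [hb, prod_const, card_range]
  rw [ENNReal.ofReal_div_of_pos (by positivity), ENNReal.ofReal_one, ENNReal.ofReal_pow (by norm_num)]
  rw [one_div, ENNReal.inv_pow]
  simp

end Pool.Agent.H555R4.DY.MeasH154
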