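import Pool.Agent.H555R4.DY.Stmts

/-! Task `TaskSM` of the project H555-LW, stage 2: second moment of a block (adapted from the file
`LW/E1` of helper676).  (helper158) -/

set_option autoImplicit false

open Finset

namespace Pool.Agent.H555R4.DY.SM

open Pool.Agent.H555R4.DY
open Pool.Agent.H555R4.LW (rp sp StA StB1 StCh)

theorem count_mul (M N : ℕ) (φ : ℕ → Prop) [DecidablePred φ] :
    ((range (M * N)).filter (fun n => φ (n % M))).card = N * ((range M).filter φ).card := by
  induction N with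
  | zero => simp
  | succ N ih =>
    rw [card_filter] at ih ⊢
    rw [Nat.mul_succ, Finset.sum_range_add, ih, add_mul, one_mul]
    congr 1
    rw [card_filter]
    apply Finset.sum_congr rfl
    intro x hx
    rw [mem_range] at hx
    rw [Nat.mul_add_mod, Nat.mod_eq_of_lt hx]

theorem count_mod (q P : ℕ) (h : q ≤ P) (φ : ℕ → Prop) [DecidablePred φ] :
    ((range (2 ^ P)).filter (fun n => φ (n % 2 ^ q))).card =
      2 ^ (P - q) * ((range (2 ^ q)).filter φ).card := by
  have e : 2 ^ P = 2 ^ q * 2 ^ (P - q) := by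
    rw [← pow_add]
    congr 1
    omega
  rw [e, count_mul]

/-- the indicator of the success of `p` -/
noncomputable def X (p n : ℕ) : ℝ := if (rp p (n % 2 ^ p)).Prime then 1 else 0

theorem Zb_eq (i n : ℕ) :
    (Zb i n : ℝ) = ∑ p ∈ (Ioc (2 ^ i) (2 ^ (i + 1))).filter Nat.Prime, X p n := by
  unfold Zb X
  rw [Finset.sum_boole, Finset.filter_filter]

theorem sumX (S : Finset ℕ) (p : ℕ) :
    ∑ n ∈ S, X p n = ((S.filter (fun n => (rp p (n % 2 ^ p)).Prime)).card : ℝ) := by
  unfold X
  rw [Finset.sum_boole]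

theorem sumXX (S : Finset ℕ) (p q : ℕ) :
    ∑ n ∈ S, X p n * X q n = ((S.filter (fun n => (rp p (n % 2 ^ p)).Prime ∧
      (rp q (n % 2 ^ q)).Prime)).card : ℝ) := by
  have h : ∀ n, X p n * X q n = if ((rp p (n % 2 ^ p)).Prime ∧
      (rp q (n % 2 ^ q)).Prime) then 1 else 0 := by
    intro n
    unfold X
    by_cases h1 : (rp p (n % 2 ^ p)).Prime <;>
      by_cases h2 : (rp q (n % 2 ^ q)).Prime <;> simp [h1, h2]
  simp only [h]
  rw [Finset.sum_boole]

theorem odd_mod (n q : ℕ) (hq : 1 ≤ q) : Odd (n % 2 ^ q) ↔ Odd n := by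
  obtain ⟨r, rfl⟩ : ∃ r, q = r + 1 := ⟨q - 1, by omega⟩
  rw [Nat.odd_iff, Nat.odd_iff, Nat.mod_mod_of_dvd _ (Dvd.intro_left (2 ^ r) (pow_succ 2 r).symm)]

/-- the sum of `2 ^ (-|p - q|)` over `q` in a finite set is at most four -/
theorem sum_dist (S : Finset ℕ) (p : ℕ) :
    ∑ q ∈ S, (1 / 2 : ℝ) ^ ((p - q) + (q - p)) ≤ 4 := by
  have hs : Summable (fun j : ℕ => (1 / 2 : ℝ) ^ j) := summable_geometric_two
  have ht : ∑' j : ℕ, (1 / 2 : ℝ) ^ j = 2 := tsum_geometric_two
  have h1 : ∑ q ∈ S.filter (fun q => q ≤ p), (1 / 2 : ℝ) ^ ((p - q) + (q - p)) ≤ 2 := by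
    have h2 : ∑ q ∈ S.filter (fun q => q ≤ p), (1 / 2 : ℝ) ^ ((p - q) + (q - p)) =
        ∑ j ∈ (S.filter (fun q => q ≤ p)).image (fun q => p - q), (1 / 2 : ℝ) ^ j := by
      rw [Finset.sum_image]
      · apply Finset.sum_congr rfl
        intro q hq
        rw [mem_filter] at hq
        congr 1
        omega
      · intro q hq q' hq' h
        simp only [coe_filter, Set.mem_ofPred_eq] at hq hq'
        have h' : p - q = p - q' := h
        omega
    rw [h2]
    exact (hs.sum_le_tsum _ (fun _ _ => by positivity)).trans ht.le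
  have h3 : ∑ q ∈ S.filter (fun q => ¬ q ≤ p), (1 / 2 : ℝ) ^ ((p - q) + (q - p)) ≤ 2 := by
    have h2 : ∑ q ∈ S.filter (fun q => ¬ q ≤ p), (1 / 2 : ℝ) ^ ((p - q) + (q - p)) =
        ∑ j ∈ (S.filter (fun q => ¬ q ≤ p)).image (fun q => q - p), (1 / 2 : ℝ) ^ j := by
      rw [Finset.sum_image]
      · apply Finset.sum_congr rfl
        intro q hq
        rw [mem_filter] at hq
        congr 1
        omega
      · intro q hq q' hq' h
        simp only [coe_filter, Set.mem_ofPred_eq] at hq hq'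
        have h' : q - p = q' - p := h
        omega
    rw [h2]
    exact (hs.sum_le_tsum _ (fun _ _ => by positivity)).trans ht.le
  rw [← Finset.sum_filter_add_sum_filter_not S (fun q => q ≤ p)]
  linarith

theorem single_le (P p : ℕ) (hp : p ≤ P) :
    ((((range (2 ^ P)).filter (fun n => Odd n)).filter
      (fun n => (rp p (n % 2 ^ p)).Prime)).card : ℝ) ≤
      2 ^ (P - p) * (((range (2 ^ p)).filter (fun n => (rp p n).Prime)).card : ℝ) := by
  have h1 : ((((range (2 ^ P)).filter (fun n => Odd n)).filter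
      (fun n => (rp p (n % 2 ^ p)).Prime)).card) ≤
      ((range (2 ^ P)).filter (fun n => (rp p (n % 2 ^ p)).Prime)).card := by
    apply card_le_card
    intro n hn
    rw [mem_filter, mem_filter] at hn
    exact mem_filter.2 ⟨hn.1.1, hn.2⟩
  rw [count_mod p P hp (fun m => (rp p m).Prime)] at h1
  exact_mod_cast h1

theorem pair_eq (P p q : ℕ) (hpq : p < q) (hq : q ≤ P) :
    ((((range (2 ^ P)).filter (fun n => Odd n)).filter
      (fun n => (rp p (n % 2 ^ p)).Prime ∧ (rp q (n % 2 ^ q)).Prime)).card : ℝ) =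
      2 ^ (P - q) * (cBB p q : ℝ) := by
  have h1 : (((range (2 ^ P)).filter (fun n => Odd n)).filter
      (fun n => (rp p (n % 2 ^ p)).Prime ∧ (rp q (n % 2 ^ q)).Prime)) =
      (range (2 ^ P)).filter (fun n => (fun m => Odd m ∧ (rp q m).Prime ∧
        (rp p (m % 2 ^ p)).Prime) (n % 2 ^ q)) := by
    ext n
    simp only [mem_filter]
    rw [odd_mod n q (by omega), Nat.mod_mod_of_dvd _ (pow_dvd_pow 2 hpq.le)]
    tauto
  rw [h1, count_mod q P hq (fun m => Odd m ∧ (rp q m).Prime ∧ (rp p (m % 2 ^ p)).Prime)]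
  unfold cBB
  push_cast
  rfl

theorem taskSM : TaskSM := by
  rintro ⟨a, b, ha, hb, iC, hCh⟩ ⟨C1, hC1, p1, hU1⟩ ⟨C2, hC2, p2, hU2⟩
  obtain ⟨i0, hi0⟩ : ∃ i0, i0 = iC + p1 + p2 + 1 := ⟨_, rfl⟩
  refine ⟨(C1 + C2) * (4 * b ^ 2 + 8 * b) + ((2 : ℝ) ^ i0) ^ 2, by positivity, fun i => ?_⟩
  rcases Nat.lt_or_ge i i0 with hi | hi
  · -- small blocks
    have h1 : ∀ n ∈ (range (2 ^ (2 ^ (i + 1)))).filter (fun n => Odd n),
        (Zb i n : ℝ) ^ 2 ≤ ((2 : ℝ) ^ i0) ^ 2 := by
      intro n _
      apply pow_le_pow_left₀ (by positivity)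
      have h2 : Zb i n ≤ 2 ^ i := by
        unfold Zb
        refine (card_filter_le _ _).trans ?_
        rw [Nat.card_Ioc, pow_succ]
        omega
      calc (Zb i n : ℝ) ≤ 2 ^ i := by exact_mod_cast h2
        _ ≤ 2 ^ i0 := pow_le_pow_right₀ (by norm_num) hi.le
    have h3 : (((range (2 ^ (2 ^ (i + 1)))).filter (fun n => Odd n)).card : ℝ) ≤
        2 ^ (2 ^ (i + 1)) := by
      have := card_filter_le (range (2 ^ (2 ^ (i + 1)))) (fun n => Odd n)
      rw [card_range] at this
      exact_mod_cast this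
    calc _ ≤ ∑ n ∈ (range (2 ^ (2 ^ (i + 1)))).filter (fun n => Odd n), ((2 : ℝ) ^ i0) ^ 2 :=
          Finset.sum_le_sum h1
      _ = (((range (2 ^ (2 ^ (i + 1)))).filter (fun n => Odd n)).card : ℝ) * ((2 : ℝ) ^ i0) ^ 2 := by
          rw [Finset.sum_const, nsmul_eq_mul]
      _ ≤ 2 ^ (2 ^ (i + 1)) * ((2 : ℝ) ^ i0) ^ 2 := mul_le_mul_of_nonneg_right h3 (by positivity)
      _ ≤ _ := by
          rw [mul_comm]
          apply mul_le_mul_of_nonneg_right _ (by positivity)
          have : 0 ≤ (C1 + C2) * (4 * b ^ 2 + 8 * b) := by positivity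
          linarith
  · have hi1 : 1 ≤ i := by omega
    have hiR : (0 : ℝ) < i := by exact_mod_cast hi1
    obtain ⟨hChl, hChu⟩ := hCh i (by omega)
    have hii : i < 2 ^ i := Nat.lt_two_pow_self
    have hPd : 2 ^ (i + 1) = 2 ^ i + 2 ^ i := by ring
    simp only [Zb_eq]
    set P := 2 ^ (i + 1) with hP
    set PS := (Ioc (2 ^ i) P).filter Nat.Prime with hPS
    set cell := (range (2 ^ P)).filter (fun n => Odd n) with hcell
    have hmem : ∀ p ∈ PS, 2 ^ i < p ∧ p ≤ P ∧ p.Prime := by
      intro p hp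
      rw [hPS, mem_filter, mem_Ioc] at hp
      exact ⟨hp.1.1, hp.1.2, hp.2⟩
    have hup : ∀ p ∈ PS, Real.log p / p ≤ 2 * (i : ℝ) / 2 ^ i := by
      intro p hp
      obtain ⟨h1, h2, -⟩ := hmem p hp
      have hp0 : (0 : ℝ) < p := by
        have : 0 < p := by omega
        exact_mod_cast this
      have h3 : Real.log p ≤ 2 * (i : ℝ) := by
        have h4 : (p : ℝ) ≤ 2 ^ (i + 1) := by exact_mod_cast h2
        have h5 : Real.log p ≤ ((i + 1 : ℕ) : ℝ) * Real.log 2 := by
          rw [← Real.log_pow]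
          exact Real.log_le_log hp0 h4
        have h6 : Real.log 2 ≤ 1 := by
          have := Real.log_two_lt_d9
          linarith
        have h7 : ((i + 1 : ℕ) : ℝ) * Real.log 2 ≤ ((i + 1 : ℕ) : ℝ) * 1 :=
          mul_le_mul_of_nonneg_left h6 (by positivity)
        have h8 : ((i + 1 : ℕ) : ℝ) ≤ 2 * (i : ℝ) := by
          push_cast
          have : (1 : ℝ) ≤ i := by exact_mod_cast hi1
          linarith
        linarith
      have h4 : (2 : ℝ) ^ i ≤ p := by exact_mod_cast h1.le
      exact div_le_div₀ (by positivity) h3 (by positivity) h4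
    have hlognn : ∀ p ∈ PS, 0 ≤ Real.log p / p := by
      intro p _
      exact div_nonneg (Real.log_natCast_nonneg p) (Nat.cast_nonneg p)
    set Mx : ℝ := 2 * (i : ℝ) / 2 ^ i with hMx
    have hMx0 : 0 ≤ Mx := by positivity
    have hcard : (PS.card : ℝ) * Mx ≤ 2 * b := by
      calc (PS.card : ℝ) * Mx ≤ (b * 2 ^ i / i) * Mx := mul_le_mul_of_nonneg_right hChu hMx0
        _ = 2 * b := by
          rw [hMx]
          field_simp
    -- the pairs with `p < q`
    have hlt : ∀ p ∈ PS, ∀ q ∈ PS, p < q → ∑ n ∈ cell, X p n * X q n ≤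
        (C1 + C2) * 2 ^ P * (Mx ^ 2 + Mx * (1 / 2) ^ ((p - q) + (q - p))) := by
      intro p hp q hq hpq
      obtain ⟨h1, h2, -⟩ := hmem p hp
      obtain ⟨h3, h4, -⟩ := hmem q hq
      rw [sumXX, hcell, pair_eq P p q hpq h4]
      obtain ⟨k, rfl⟩ : ∃ k, q = p + k := ⟨q - p, by omega⟩
      have hk1 : 1 ≤ k := by omega
      have hk2 : k ≤ p := by omega
      have h5 := hU2 p (by omega) k hk1 hk2
      have h6 := hup p hp
      have h7 := hlognn p hp
      have e2 : (p - (p + k)) + ((p + k) - p) = k := by omega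
      have e3 : (2 : ℝ) ^ (P - (p + k)) * 2 ^ (p + k) = 2 ^ P := by
        rw [← pow_add]
        congr 1
        omega
      calc (2 : ℝ) ^ (P - (p + k)) * (cBB p (p + k) : ℝ) ≤ 2 ^ (P - (p + k)) *
              (C2 * 2 ^ (p + k) * ((Real.log p / p) ^ 2 + Real.log p / p / 2 ^ k)) :=
            mul_le_mul_of_nonneg_left h5 (by positivity)
        _ = C2 * 2 ^ P * ((Real.log p / p) ^ 2 + Real.log p / p / 2 ^ k) := by
            rw [← e3]
            ring
        _ ≤ C2 * 2 ^ P * (Mx ^ 2 + Mx / 2 ^ k) := by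
            apply mul_le_mul_of_nonneg_left _ (by positivity)
            apply add_le_add
            · exact pow_le_pow_left₀ h7 h6 2
            · exact div_le_div_of_nonneg_right h6 (by positivity)
        _ = C2 * 2 ^ P * (Mx ^ 2 + Mx * (1 / 2) ^ ((p - (p + k)) + ((p + k) - p))) := by
            rw [e2, one_div, inv_pow, div_eq_mul_inv]
        _ ≤ _ := by
            apply mul_le_mul_of_nonneg_right _ (by positivity)
            apply mul_le_mul_of_nonneg_right _ (by positivity)
            linarith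
    have hpair : ∀ p ∈ PS, ∀ q ∈ PS, ∑ n ∈ cell, X p n * X q n ≤
        (C1 + C2) * 2 ^ P * (Mx ^ 2 + Mx * (1 / 2) ^ ((p - q) + (q - p))) := by
      intro p hp q hq
      rcases lt_trichotomy p q with h | h | h
      · exact hlt p hp q hq h
      · subst h
        obtain ⟨h1, h2, -⟩ := hmem p hp
        have e0 : ∀ n, X p n * X p n = X p n := by
          intro n
          unfold X
          split_ifs <;> simp
        simp only [e0]
        rw [sumX, hcell]
        have h5 := hU1 p (by omega)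
        have e3 : (2 : ℝ) ^ (P - p) * 2 ^ p = 2 ^ P := by
          rw [← pow_add]
          congr 1
          omega
        calc _ ≤ (2 : ℝ) ^ (P - p) * (((range (2 ^ p)).filter (fun n => (rp p n).Prime)).card : ℝ) :=
              single_le P p h2
          _ ≤ 2 ^ (P - p) * (C1 * 2 ^ p * (Real.log p / p)) :=
              mul_le_mul_of_nonneg_left h5 (by positivity)
          _ = C1 * 2 ^ P * (Real.log p / p) := by
              rw [← e3]
              ring
          _ ≤ C1 * 2 ^ P * Mx :=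
              mul_le_mul_of_nonneg_left (hup p hp) (by positivity)
          _ ≤ (C1 + C2) * 2 ^ P * (Mx ^ 2 + Mx) := by
              have e3 : Mx ≤ Mx ^ 2 + Mx := by nlinarith [sq_nonneg Mx]
              apply mul_le_mul _ e3 hMx0 (by positivity)
              apply mul_le_mul_of_nonneg_right _ (by positivity)
              linarith
          _ = _ := by
              rw [Nat.sub_self, pow_zero, mul_one]
      · have := hlt q hq p hp h
        simp only [mul_comm (X q _)] at this
        rwa [add_comm (q - p) (p - q)] at this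
    have hsq : ∀ n, (∑ p ∈ PS, X p n) ^ 2 = ∑ p ∈ PS, ∑ q ∈ PS, X p n * X q n := by
      intro n
      rw [sq, Finset.sum_mul_sum]
    simp only [hsq]
    rw [Finset.sum_comm]
    calc ∑ p ∈ PS, ∑ n ∈ cell, ∑ q ∈ PS, X p n * X q n
        = ∑ p ∈ PS, ∑ q ∈ PS, ∑ n ∈ cell, X p n * X q n := by
          apply Finset.sum_congr rfl
          intro p _
          rw [Finset.sum_comm]
      _ ≤ ∑ p ∈ PS, ∑ q ∈ PS, (C1 + C2) * 2 ^ P *
            (Mx ^ 2 + Mx * (1 / 2) ^ ((p - q) + (q - p))) :=
          Finset.sum_le_sum fun p hp => Finset.sum_le_sum fun q hq => hpair p hp q hq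
      _ ≤ ∑ p ∈ PS, (C1 + C2) * 2 ^ P * ((PS.card : ℝ) * Mx ^ 2 + Mx * 4) := by
          apply Finset.sum_le_sum
          intro p _
          rw [← Finset.mul_sum]
          apply mul_le_mul_of_nonneg_left _ (by positivity)
          rw [Finset.sum_add_distrib, Finset.sum_const, nsmul_eq_mul, ← Finset.mul_sum]
          have := mul_le_mul_of_nonneg_left (sum_dist PS p) hMx0
          linarith
      _ = (C1 + C2) * 2 ^ P * (((PS.card : ℝ) * Mx) ^ 2 + ((PS.card : ℝ) * Mx) * 4) := by
          rw [Finset.sum_const, nsmul_eq_mul]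
          ring
      _ ≤ (C1 + C2) * 2 ^ P * ((2 * b) ^ 2 + (2 * b) * 4) := by
          apply mul_le_mul_of_nonneg_left _ (by positivity)
          have h0 : 0 ≤ (PS.card : ℝ) * Mx := by positivity
          have h1 := pow_le_pow_left₀ h0 hcard 2
          linarith
      _ = (C1 + C2) * (4 * b ^ 2 + 8 * b) * 2 ^ P := by ring
      _ ≤ _ := by
          apply mul_le_mul_of_nonneg_right _ (by positivity)
          have : 0 ≤ ((2 : ℝ) ^ i0) ^ 2 := by positivity
          linarith

end Pool.Agent.H555R4.DY.SM
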