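import Mathlib
import Pool.Agent.H555R4.DY.Stmts

set_option autoImplicit false

open Finset Filter Topology

namespace Pool.Agent.H555R4.DY.V

open Pool.Agent.H555R4.LW (rp sp StA)
open Pool.Agent.H555R4.DY

theorem filter_prod_mul (l : List ℕ) (p : ℕ) :
    (l.filter (fun r => r ≤ p)).prod * (l.filter (fun r => p < r)).prod = l.prod := by
  induction l with
  | nil => simp
  | cons a l ih =>
    by_cases h : a ≤ p
    · have h' : ¬ p < a := by omega
      rw [List.filter_cons_of_pos (by simpa using h), List.filter_cons_of_neg (by simpa using h'),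
        List.prod_cons, List.prod_cons, ← ih, mul_assoc]
    · have h' : p < a := by omega
      rw [List.filter_cons_of_neg (by simpa using h), List.filter_cons_of_pos (by simpa using h'),
        List.prod_cons, List.prod_cons, ← ih]
      ring

theorem sp_mul_rp (p m : ℕ) (hm : m ≠ 0) : sp p m * rp p m = m := by
  unfold sp rp
  rw [filter_prod_mul, Nat.prod_primeFactorsList hm]

theorem rp_mul {q s l : ℕ} (hs : s ≠ 0) (hsm : ∀ r ∈ s.primeFactorsList, r ≤ q) (hl : l.Prime)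
    (hql : q < l) : rp q (s * l) = l := by
  unfold rp
  have h1 := Nat.perm_primeFactorsList_mul (a := s) (b := l) hs hl.ne_zero
  have h2 := (h1.filter (fun r => decide (q < r))).prod_eq
  rw [h2, List.filter_append, Nat.primeFactorsList_prime hl]
  have h3 : List.filter (fun r => decide (q < r)) s.primeFactorsList = [] := by
    rw [List.filter_eq_nil_iff]
    intro r hr
    have := hsm r hr
    simp
    omega
  rw [h3]
  simp [hql]

theorem sp_mul {q s l : ℕ} (hs : s ≠ 0) (hsm : ∀ r ∈ s.primeFactorsList, r ≤ q) (hl : l.Prime)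
    (hql : q < l) : sp q (s * l) = s := by
  have h := sp_mul_rp q (s * l) (mul_ne_zero hs hl.ne_zero)
  rw [rp_mul hs hsm hl hql] at h
  exact Nat.eq_of_mul_eq_mul_right hl.pos h

theorem sp_smooth (q n : ℕ) : ∀ r ∈ (sp q n).primeFactorsList, r ≤ q := by
  intro r hr
  have hr' := Nat.prime_of_mem_primeFactorsList hr
  have hd := Nat.dvd_of_mem_primeFactorsList hr
  unfold sp at hd
  obtain ⟨a, ha, hra⟩ := (Prime.dvd_prod_iff (Nat.Prime.prime hr')).1 hd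
  rw [List.mem_filter] at ha
  have h2 := Nat.prime_of_mem_primeFactorsList ha.1
  have h3 : r = a := (Nat.prime_dvd_prime_iff_eq hr' h2).1 hra
  rw [h3]
  simpa using ha.2

theorem lt_rp (q n : ℕ) (h : (rp q n).Prime) : q < rp q n := by
  have hd : rp q n ∣ rp q n := dvd_rfl
  nth_rw 2 [rp] at hd
  obtain ⟨a, ha, hra⟩ := (Prime.dvd_prod_iff (Nat.Prime.prime h)).1 hd
  rw [List.mem_filter] at ha
  have h2 := Nat.prime_of_mem_primeFactorsList ha.1
  have h3 : rp q n = a := (Nat.prime_dvd_prime_iff_eq h h2).1 hra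
  rw [h3]
  simpa using ha.2

/-- the small smooth parts -/
def SS (q : ℕ) : Finset ℕ :=
  (Icc 1 (2 ^ (q / 2))).filter (fun s => Odd s ∧ ∀ r ∈ s.primeFactorsList, r ≤ q)

def g (q p m s : ℕ) : ℕ :=
  ((Icc 1 ((2 ^ q - 1) / s)).filter (fun l => l.Prime ∧ (s * l) % 2 ^ p = m)).card

def h (q p m s : ℕ) : ℕ :=
  ((Icc 1 ((2 ^ q - 1) / s)).filter (fun l => (l.Prime ∧ (s * l) % 2 ^ p = m) ∧ l ≤ q)).card

def W (q p m : ℕ) : ℕ :=
  ((range (2 ^ q)).filter (fun n => n % 2 ^ p = m ∧ (rp q n).Prime)).card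

def W2 (q p m : ℕ) : ℕ :=
  ((range (2 ^ q)).filter (fun n => (n % 2 ^ p = m ∧ (rp q n).Prime) ∧ ¬ sp q n ≤ 2 ^ (q / 2))).card

theorem fiber (q p m s : ℕ) (hs : s ∈ SS q) :
    ((range (2 ^ q)).filter (fun n => ((n % 2 ^ p = m ∧ (rp q n).Prime) ∧ sp q n ≤ 2 ^ (q / 2)) ∧
      sp q n = s)).card + h q p m s = g q p m s := by
  unfold SS at hs
  rw [mem_filter, mem_Icc] at hs
  obtain ⟨⟨hs1, hs2⟩, hso, hsm⟩ := hs
  have e1 : ((range (2 ^ q)).filter (fun n => ((n % 2 ^ p = m ∧ (rp q n).Prime) ∧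
      sp q n ≤ 2 ^ (q / 2)) ∧ sp q n = s)) =
     ((Icc 1 ((2 ^ q - 1) / s)).filter (fun l => (l.Prime ∧ (s * l) % 2 ^ p = m) ∧ ¬ l ≤ q)).image
      (fun l => s * l) := by
    ext n
    simp only [mem_filter, mem_range, mem_image, mem_Icc]
    constructor
    · rintro ⟨hn, ⟨⟨hnm, hr⟩, hsk⟩, hsn⟩
      have hn0 : n ≠ 0 := by
        rintro rfl
        simp [rp] at hr
        exact absurd hr (by norm_num)
      have h1 := sp_mul_rp q n hn0
      rw [hsn] at h1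
      refine ⟨rp q n, ⟨⟨hr.pos, ?_⟩, ⟨hr, ?_⟩, ?_⟩, h1⟩
      · rw [Nat.le_div_iff_mul_le hs1, mul_comm, h1]; omega
      · rw [h1]; exact hnm
      · have := lt_rp q n hr
        omega
    · rintro ⟨l, ⟨⟨hl1, hl2⟩, ⟨hlp, hlm⟩, hql⟩, rfl⟩
      rw [Nat.le_div_iff_mul_le hs1] at hl2
      have hpos : 0 < 2 ^ q := by positivity
      have hql' : q < l := by omega
      have e2 := rp_mul (by omega) hsm hlp hql'
      have e3 := sp_mul (by omega) hsm hlp hql'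
      refine ⟨?_, ⟨⟨hlm, ?_⟩, ?_⟩, e3⟩
      · rw [mul_comm]; omega
      · rw [e2]; exact hlp
      · rw [e3]; exact hs2
  rw [e1, card_image_of_injective _ (fun a b hab => Nat.eq_of_mul_eq_mul_left hs1 hab)]
  unfold h g
  have h3 := Finset.card_filter_add_card_filter_not (s := (Icc 1 ((2 ^ q - 1) / s)).filter (fun l => l.Prime ∧ (s * l) % 2 ^ p = m)) (fun l => l ≤ q)
  rw [filter_filter, filter_filter] at h3
  omega

theorem decomp (q p m : ℕ) (hp : 1 ≤ p) (hm : Odd m) :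
    W q p m + ∑ s ∈ SS q, h q p m s = ∑ s ∈ SS q, g q p m s + W2 q p m := by
  have h3 := Finset.card_filter_add_card_filter_not (s := (range (2 ^ q)).filter (fun n => n % 2 ^ p = m ∧ (rp q n).Prime)) (fun n => sp q n ≤ 2 ^ (q / 2))
  rw [filter_filter, filter_filter] at h3
  have h4 : ((range (2 ^ q)).filter (fun n => (n % 2 ^ p = m ∧ (rp q n).Prime) ∧
      sp q n ≤ 2 ^ (q / 2))).card = ∑ s ∈ SS q, ((range (2 ^ q)).filter (fun n =>
        ((n % 2 ^ p = m ∧ (rp q n).Prime) ∧ sp q n ≤ 2 ^ (q / 2)) ∧ sp q n = s)).card := by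
    rw [card_eq_sum_card_fiberwise (f := fun n => sp q n) (t := SS q)]
    · refine sum_congr rfl fun s hs => ?_
      rw [filter_filter]
    · intro n hn
      simp only [coe_filter, mem_range, Set.mem_ofPred_eq] at hn
      obtain ⟨hn1, ⟨hnm, hr⟩, hsk⟩ := hn
      have hn0 : n ≠ 0 := by
        rintro rfl
        simp [rp] at hr
        exact absurd hr (by norm_num)
      have h1 := sp_mul_rp q n hn0
      have hno : Odd n := by
        rw [← Nat.not_even_iff_odd, even_iff_two_dvd]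
        intro h2
        rw [← Nat.not_even_iff_odd, even_iff_two_dvd] at hm
        apply hm
        rw [← hnm]
        exact (Nat.dvd_mod_iff (dvd_pow_self 2 (by omega))).2 h2
      simp only [SS, coe_filter, mem_Icc, Set.mem_ofPred_eq]
      refine ⟨⟨?_, hsk⟩, ?_, sp_smooth q n⟩
      · rcases Nat.eq_zero_or_pos (sp q n) with h0 | h0
        · rw [h0] at h1; omega
        · exact h0
      · rw [← h1] at hno
        exact (Nat.odd_mul.1 hno).1
  have h5 : ∑ s ∈ SS q, ((range (2 ^ q)).filter (fun n =>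
        ((n % 2 ^ p = m ∧ (rp q n).Prime) ∧ sp q n ≤ 2 ^ (q / 2)) ∧ sp q n = s)).card +
        ∑ s ∈ SS q, h q p m s = ∑ s ∈ SS q, g q p m s := by
    rw [← sum_add_distrib]
    exact sum_congr rfl fun s hs => fiber q p m s hs
  unfold W W2
  omega

def D (p : ℕ) : Finset ℕ := (range (2 ^ p)).filter (fun m => Odd m)

/-- reindexing -/
theorem reindex (q p s : ℕ) (hp : 1 ≤ p) (hs : Odd s) (t : ℝ) :
    ∑ m ∈ D p, ((g q p m s : ℝ) - t) ^ 2 = ∑ a ∈ D p,
      ((((Icc 1 ((2 ^ q - 1) / s)).filter (fun n => n.Prime ∧ n % 2 ^ p = a)).card : ℝ) - t) ^ 2 := by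
  have hcop : Nat.Coprime (2 ^ p) s := by
    apply Nat.Coprime.pow_left
    exact (Nat.coprime_two_left).2 hs
  have hcan : ∀ a b : ℕ, (s * a) % 2 ^ p = (s * b) % 2 ^ p → a % 2 ^ p = b % 2 ^ p := by
    intro a b hab
    exact Nat.ModEq.cancel_left_of_coprime hcop hab
  have hinj : Set.InjOn (fun a => (s * a) % 2 ^ p) (D p : Set ℕ) := by
    intro a ha b hb hab
    simp only [D, coe_filter, mem_range, Set.mem_ofPred_eq] at ha hb
    have := hcan a b hab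
    rwa [Nat.mod_eq_of_lt ha.1, Nat.mod_eq_of_lt hb.1] at this
  have himg : (D p).image (fun a => (s * a) % 2 ^ p) = D p := by
    apply Finset.eq_of_subset_of_card_le
    · intro x hx
      rw [mem_image] at hx
      obtain ⟨a, ha, rfl⟩ := hx
      simp only [D, mem_filter, mem_range] at ha ⊢
      refine ⟨Nat.mod_lt _ (by positivity), ?_⟩
      rw [← Nat.not_even_iff_odd, even_iff_two_dvd, Nat.dvd_mod_iff (dvd_pow_self 2 (by omega)),
        ← even_iff_two_dvd, Nat.not_even_iff_odd]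
      exact hs.mul ha.2
    · rw [card_image_of_injOn hinj]
  rw [← himg, sum_image hinj, himg]
  refine sum_congr rfl fun a ha => ?_
  simp only [D, mem_filter, mem_range] at ha
  unfold g
  have hset : (Icc 1 ((2 ^ q - 1) / s)).filter (fun l => l.Prime ∧ (s * l) % 2 ^ p =
      (s * a) % 2 ^ p) = (Icc 1 ((2 ^ q - 1) / s)).filter (fun n => n.Prime ∧ n % 2 ^ p = a) := by
    ext l
    simp only [mem_filter, mem_Icc]
    constructor
    · rintro ⟨h0, h1, h2⟩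
      have := hcan l a h2
      rw [Nat.mod_eq_of_lt ha.1] at this
      exact ⟨h0, h1, this⟩
    · rintro ⟨h0, h1, h2⟩
      refine ⟨h0, h1, ?_⟩
      rw [← h2, Nat.mul_mod_mod]
  rw [hset]

/-- the mean minimises the square deviation -/
theorem mean_min (D : Finset ℕ) (f : ℕ → ℝ) (c t : ℝ) (hc : c * D.card = ∑ m ∈ D, f m) :
    ∑ m ∈ D, (f m - c) ^ 2 ≤ ∑ m ∈ D, (f m - t) ^ 2 := by
  have h1 : ∀ m ∈ D, (f m - t) ^ 2 = (f m - c) ^ 2 + (2 * (c - t) * (f m) + (t ^ 2 - c ^ 2)) := by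
    intro m _
    ring
  rw [sum_congr rfl h1, sum_add_distrib, sum_add_distrib, ← mul_sum, ← hc, sum_const, nsmul_eq_mul]
  have : 0 ≤ (D.card : ℝ) * (c - t) ^ 2 := by positivity
  nlinarith

theorem cs (D S : Finset ℕ) (a : ℕ → ℕ → ℝ) (B : ℝ) (hS : ∀ s ∈ S, 1 ≤ s)
    (hB : ∀ s ∈ S, ∑ m ∈ D, a s m ^ 2 ≤ B / (s : ℝ) ^ 2) :
    ∑ m ∈ D, (∑ s ∈ S, a s m) ^ 2 ≤ (∑ s ∈ S, 1 / (s : ℝ)) ^ 2 * B := by
  have h1 : ∀ m ∈ D, (∑ s ∈ S, a s m) ^ 2 ≤ (∑ s ∈ S, 1 / (s : ℝ)) * ∑ s ∈ S, (s : ℝ) * a s m ^ 2 := by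
    intro m _
    apply Finset.sum_sq_le_sum_mul_sum_of_sq_eq_mul
    · intro s hs; positivity
    · intro s hs; positivity
    · intro s hs
      have : (s : ℝ) ≠ 0 := by
        have := hS s hs
        positivity
      field_simp
  refine (sum_le_sum h1).trans ?_
  rw [← mul_sum, sum_comm, sq, mul_assoc]
  apply mul_le_mul_of_nonneg_left
  · rw [sum_mul]
    apply sum_le_sum
    intro s hs
    rw [← mul_sum]
    have h0 : (0 : ℝ) < s := by
      have := hS s hs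
      positivity
    calc (s : ℝ) * ∑ m ∈ D, a s m ^ 2 ≤ s * (B / (s : ℝ) ^ 2) :=
          mul_le_mul_of_nonneg_left (hB s hs) h0.le
      _ = 1 / (s : ℝ) * B := by field_simp
  · exact sum_nonneg fun s hs => by positivity

theorem card_D (p : ℕ) (hp : 1 ≤ p) : (D p).card = 2 ^ (p - 1) := by
  obtain ⟨k, rfl⟩ : ∃ k, p = k + 1 := ⟨p - 1, by omega⟩
  have : D (k + 1) = (range (2 ^ k)).image (fun i => 2 * i + 1) := by
    ext x
    simp only [D, mem_filter, mem_range, mem_image, pow_succ]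
    constructor
    · rintro ⟨h1, i, rfl⟩
      exact ⟨i, by omega, rfl⟩
    · rintro ⟨i, hi, rfl⟩
      exact ⟨by omega, ⟨i, rfl⟩⟩
  rw [this, card_image_of_injective _ (fun a b hab => by simpa using hab)]
  simp

theorem cB_eq (q p : ℕ) (hp : 1 ≤ p) : cB q = ∑ m ∈ D p, W q p m := by
  unfold cB
  rw [card_eq_sum_card_fiberwise (f := fun n => n % 2 ^ p) (t := D p)]
  · refine sum_congr rfl fun m hm => ?_
    unfold W
    rw [filter_filter]
    congr 1
    ext n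
    simp only [mem_filter, mem_range, D] at hm ⊢
    constructor
    · rintro ⟨h1, ⟨h2, h3⟩, h4⟩
      exact ⟨h1, h4, h3⟩
    · rintro ⟨h1, h4, h3⟩
      refine ⟨h1, ⟨?_, h3⟩, h4⟩
      have h5 := hm.2
      rw [← h4, ← Nat.not_even_iff_odd, even_iff_two_dvd, Nat.dvd_mod_iff (dvd_pow_self 2 (by omega)),
        ← even_iff_two_dvd, Nat.not_even_iff_odd] at h5
      exact h5
  · intro n hn
    simp only [coe_filter, mem_range, Set.mem_ofPred_eq, D] at hn ⊢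
    refine ⟨Nat.mod_lt _ (by positivity), ?_⟩
    rw [← Nat.not_even_iff_odd, even_iff_two_dvd, Nat.dvd_mod_iff (dvd_pow_self 2 (by omega)),
        ← even_iff_two_dvd, Nat.not_even_iff_odd]
    exact hn.2.1

theorem key (q p : ℕ) (hp : 1 ≤ p) (B : ℝ)
    (hvar : ∀ s ∈ SS q, ∃ t : ℝ, ∑ a ∈ D p, ((((Icc 1 ((2 ^ q - 1) / s)).filter
      (fun n => n.Prime ∧ n % 2 ^ p = a)).card : ℝ) - t) ^ 2 ≤ B / (s : ℝ) ^ 2) :
    ∑ m ∈ D p, ((W q p m : ℝ) - (1 / 2 ^ (p - 1)) * (cB q : ℝ)) ^ 2 ≤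
      2 * ((∑ s ∈ SS q, 1 / (s : ℝ)) ^ 2 * B) +
      2 * (∑ m ∈ D p, (W2 q p m : ℝ) ^ 2 + ∑ m ∈ D p, (∑ s ∈ SS q, (h q p m s : ℝ)) ^ 2) := by
  have hM : (0 : ℝ) < 2 ^ (p - 1) := by positivity
  have hcard : ((D p).card : ℝ) = 2 ^ (p - 1) := by rw [card_D p hp]; push_cast; rfl
  set c : ℝ := 1 / 2 ^ (p - 1) with hc
  set e : ℕ → ℝ := fun m => (W2 q p m : ℝ) - ∑ s ∈ SS q, (h q p m s : ℝ) with he
  have hW : ∀ m ∈ D p, (W q p m : ℝ) = ∑ s ∈ SS q, (g q p m s : ℝ) + e m := by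
    intro m hm
    simp only [D, mem_filter] at hm
    have h1 := decomp q p m hp hm.2
    have h2 : (W q p m : ℝ) + ∑ s ∈ SS q, (h q p m s : ℝ) = ∑ s ∈ SS q, (g q p m s : ℝ) +
        (W2 q p m : ℝ) := by exact_mod_cast h1
    simp only [he]
    linarith
  have hcB : (cB q : ℝ) = ∑ s ∈ SS q, ∑ m ∈ D p, (g q p m s : ℝ) + ∑ m ∈ D p, e m := by
    rw [cB_eq q p hp, Nat.cast_sum, sum_congr rfl hW, sum_add_distrib, sum_comm]
  set a : ℕ → ℕ → ℝ := fun s m => (g q p m s : ℝ) - c * ∑ m ∈ D p, (g q p m s : ℝ) with ha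
  set b : ℕ → ℝ := fun m => e m - c * ∑ m ∈ D p, e m with hb
  have h1 : ∀ m ∈ D p, ((W q p m : ℝ) - c * (cB q : ℝ)) ^ 2 ≤ 2 * (∑ s ∈ SS q, a s m) ^ 2 +
      2 * (b m) ^ 2 := by
    intro m hm
    have h2 : (W q p m : ℝ) - c * (cB q : ℝ) = ∑ s ∈ SS q, a s m + b m := by
      rw [hW m hm, hcB]
      simp only [ha, hb, sum_sub_distrib, ← mul_sum]
      ring
    rw [h2]
    nlinarith [sq_nonneg (∑ s ∈ SS q, a s m - b m)]
  refine (sum_le_sum h1).trans ?_
  rw [sum_add_distrib, ← mul_sum, ← mul_sum]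
  have h3 : ∑ m ∈ D p, (∑ s ∈ SS q, a s m) ^ 2 ≤ (∑ s ∈ SS q, 1 / (s : ℝ)) ^ 2 * B := by
    apply cs
    · intro s hs
      simp only [SS, mem_filter, mem_Icc] at hs
      exact hs.1.1
    · intro s hs
      obtain ⟨t, ht⟩ := hvar s hs
      refine le_trans ?_ ht
      have hso : Odd s := by
        simp only [SS, mem_filter, mem_Icc] at hs
        exact hs.2.1
      rw [← reindex q p s hp hso t]
      apply mean_min
      rw [hcard, hc]
      field_simp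
  have h4 : ∑ m ∈ D p, (b m) ^ 2 ≤ ∑ m ∈ D p, (W2 q p m : ℝ) ^ 2 +
      ∑ m ∈ D p, (∑ s ∈ SS q, (h q p m s : ℝ)) ^ 2 := by
    have h5 : ∑ m ∈ D p, (b m) ^ 2 ≤ ∑ m ∈ D p, (e m - 0) ^ 2 := by
      apply mean_min
      rw [hcard, hc]
      field_simp
    refine h5.trans ?_
    rw [← sum_add_distrib]
    apply sum_le_sum
    intro m _
    have h6 : (0 : ℝ) ≤ W2 q p m := by positivity
    have h7 : (0 : ℝ) ≤ ∑ s ∈ SS q, (h q p m s : ℝ) := sum_nonneg fun s _ => by positivity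
    simp only [he]
    nlinarith [mul_nonneg h6 h7]
  linarith

theorem h_le (q p m s : ℕ) : h q p m s ≤ q := by
  unfold h
  have h1 : (Icc 1 ((2 ^ q - 1) / s)).filter (fun l => (l.Prime ∧ (s * l) % 2 ^ p = m) ∧ l ≤ q) ⊆
      Icc 1 q := by
    intro l hl
    simp only [mem_filter, mem_Icc] at hl ⊢
    exact ⟨hl.1.1, hl.2.2⟩
  have h2 := card_le_card h1
  simpa using h2

theorem H_le (q p m : ℕ) : ∑ s ∈ SS q, h q p m s ≤ 2 ^ (q / 2) * q := by
  calc ∑ s ∈ SS q, h q p m s ≤ ∑ s ∈ SS q, q := sum_le_sum fun s _ => h_le q p m s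
    _ = (SS q).card * q := by simp
    _ ≤ 2 ^ (q / 2) * q := by
      apply Nat.mul_le_mul_right
      have : (SS q).card ≤ (Icc 1 (2 ^ (q / 2))).card := card_le_card (filter_subset _ _)
      simpa using this

theorem W2_le (q p m : ℕ) (hpq : p ≤ q) : W2 q p m ≤ 2 ^ (q - p) := by
  unfold W2
  rw [← card_range (2 ^ (q - p))]
  have hN : 2 ^ q = 2 ^ p * 2 ^ (q - p) := by rw [← pow_add]; congr 1; omega
  apply card_le_card_of_injOn (fun n => n / 2 ^ p)
  · intro n hn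
    simp only [coe_filter, mem_range, Set.mem_ofPred_eq, coe_range, Set.mem_Iio] at hn ⊢
    exact Nat.div_lt_of_lt_mul (by rw [← hN]; exact hn.1)
  · intro a ha b hb hab
    simp only [coe_filter, mem_range, Set.mem_ofPred_eq] at ha hb hab
    rw [← Nat.div_add_mod a (2 ^ p), ← Nat.div_add_mod b (2 ^ p), hab, ha.2.1.1, hb.2.1.1]

theorem sumW2 (q p : ℕ) : ∑ m ∈ D p, W2 q p m ≤
    ((Ico 0 (0 + 2 ^ q)).filter (fun n => 0 < n ∧ 2 ^ (q / 4) < sp q n)).card := by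
  calc ∑ m ∈ D p, W2 q p m ≤ ∑ m ∈ range (2 ^ p), W2 q p m :=
        sum_le_sum_of_subset (filter_subset _ _)
    _ ≤ ∑ m ∈ range (2 ^ p), (((Ico 0 (0 + 2 ^ q)).filter
          (fun n => 0 < n ∧ 2 ^ (q / 4) < sp q n)).filter (fun n => n % 2 ^ p = m)).card := by
        apply sum_le_sum
        intro m _
        unfold W2
        apply card_le_card
        intro n hn
        simp only [mem_filter, mem_range, mem_Ico] at hn ⊢
        obtain ⟨hn1, ⟨hnm, hr⟩, hsk⟩ := hn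
        have hn0 : n ≠ 0 := by
          rintro rfl
          simp [rp] at hr
          exact absurd hr (by norm_num)
        have h2 : 2 ^ (q / 4) ≤ 2 ^ (q / 2) := Nat.pow_le_pow_right (by norm_num) (by omega)
        exact ⟨⟨⟨by omega, by omega⟩, by omega, by omega⟩, hnm⟩
    _ = _ := by
        rw [← card_eq_sum_card_fiberwise]
        intro n hn
        simp only [coe_range, Set.mem_Iio]
        exact Nat.mod_lt _ (by positivity)

theorem sum_inv (q : ℕ) (hq : 8 ≤ q) : ∑ s ∈ SS q, 1 / (s : ℝ) ≤ q := by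
  have h1 : ∑ s ∈ SS q, 1 / (s : ℝ) ≤ ∑ s ∈ Icc (1 : ℕ) (2 ^ (q / 2)), 1 / (s : ℝ) :=
    sum_le_sum_of_subset_of_nonneg (filter_subset _ _) fun s _ _ => by positivity
  have h2 : ∑ s ∈ Icc (1 : ℕ) (2 ^ (q / 2)), 1 / (s : ℝ) = ((harmonic (2 ^ (q / 2)) : ℚ) : ℝ) := by
    rw [harmonic_eq_sum_Icc]
    push_cast
    exact sum_congr rfl fun s _ => by rw [one_div]
  have h3 := harmonic_le_one_add_log (2 ^ (q / 2))
  rw [h2] at h1
  refine h1.trans (h3.trans ?_)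
  push_cast
  rw [Real.log_pow]
  have h4 : Real.log 2 ≤ 1 := by linarith [Real.log_two_lt_d9]
  have h5 : ((q / 2 : ℕ) : ℝ) ≤ (q : ℝ) / 2 := Nat.cast_div_le
  have h6 : (8 : ℝ) ≤ q := by exact_mod_cast hq
  have h7 : ((q / 2 : ℕ) : ℝ) * Real.log 2 ≤ ((q / 2 : ℕ) : ℝ) * 1 :=
    mul_le_mul_of_nonneg_left h4 (by positivity)
  linarith

theorem xs_ge (q s : ℕ) (hq : 8 ≤ q) (hs1 : 1 ≤ s) (hs : s ≤ 2 ^ (q / 2)) :
    2 ^ (q / 2 - 1) ≤ (2 ^ q - 1) / s := by
  rw [Nat.le_div_iff_mul_le hs1]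
  have h1 : 2 ^ (q / 2 - 1) * s ≤ 2 ^ (q / 2 - 1) * 2 ^ (q / 2) := Nat.mul_le_mul_left _ hs
  have h2 : 2 ^ (q / 2 - 1) * 2 ^ (q / 2) ≤ 2 ^ (q - 1) := by
    rw [← pow_add]
    exact Nat.pow_le_pow_right (by norm_num) (by omega)
  have h3 : 2 ^ (q - 1) < 2 ^ q := Nat.pow_lt_pow_right (by norm_num) (by omega)
  omega

theorem growth (k : ℕ) : ∃ q₀ : ℕ, ∀ q : ℕ, q₀ ≤ q → 16 * (q : ℝ) ^ k ≤ 2 ^ (q / 16) := by
  have h := tendsto_pow_const_div_const_pow_of_one_lt k (one_lt_two (α := ℝ))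
  have h2 : ∀ᶠ n : ℕ in Filter.atTop, (n : ℝ) ^ k / 2 ^ n < 1 / (32 * 16 ^ k) :=
    h.eventually_lt_const (by positivity)
  obtain ⟨N, hN⟩ := Filter.eventually_atTop.mp h2
  refine ⟨16 * N, fun q hq => ?_⟩
  have h3 := hN (q / 16 + 1) (by omega)
  rw [div_lt_div_iff₀ (by positivity) (by positivity), one_mul, pow_succ] at h3
  have h4 : (q : ℝ) ≤ 16 * ((q / 16 + 1 : ℕ) : ℝ) := by
    have : q ≤ 16 * (q / 16 + 1) := by omega
    exact_mod_cast this
  have h5 : (q : ℝ) ^ k ≤ (16 * ((q / 16 + 1 : ℕ) : ℝ)) ^ k :=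
    pow_le_pow_left₀ (by positivity) h4 k
  rw [mul_pow] at h5
  nlinarith

theorem log_xs (q x : ℕ) (hq : 8 ≤ q) (h1 : 2 ^ (q / 2 - 1) ≤ x) : (q : ℝ) / 8 ≤ Real.log x := by
  have h2 : Real.log ((2 : ℝ) ^ (q / 2 - 1)) ≤ Real.log x := by
    apply Real.log_le_log (by positivity)
    exact_mod_cast h1
  rw [Real.log_pow] at h2
  have h3 : (q : ℝ) ≤ 2 * ((q / 2 - 1 : ℕ) : ℝ) + 3 := by
    have : q ≤ 2 * (q / 2 - 1) + 3 := by omega
    exact_mod_cast this
  have h4 : (0.69 : ℝ) ≤ Real.log 2 := by linarith [Real.log_two_gt_d9]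
  have h5 : ((q / 2 - 1 : ℕ) : ℝ) * 0.69 ≤ ((q / 2 - 1 : ℕ) : ℝ) * Real.log 2 :=
    mul_le_mul_of_nonneg_left h4 (by positivity)
  have h6 : (8 : ℝ) ≤ q := by exact_mod_cast hq
  linarith

theorem xs_le (q s : ℕ) : (((2 ^ q - 1) / s : ℕ) : ℝ) ≤ 2 ^ q / (s : ℝ) := by
  have h1 : (((2 ^ q - 1) / s : ℕ) : ℝ) ≤ ((2 ^ q - 1 : ℕ) : ℝ) / (s : ℝ) := Nat.cast_div_le
  refine h1.trans ?_
  apply div_le_div_of_nonneg_right _ (by positivity)
  have : 2 ^ q - 1 ≤ 2 ^ q := Nat.sub_le _ _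
  exact_mod_cast this

theorem taskV : TaskV := by
  intro hZ hA A
  obtain ⟨X₀, hX⟩ := hZ (A + 3)
  obtain ⟨q₁, hq1⟩ := hA
  obtain ⟨q₂, hq2⟩ := growth (A + 2)
  refine ⟨q₁ + q₂ + (⌈Real.exp 8⌉₊ + (4 * ⌈X₀⌉₊ + (4 * 8 ^ (A + 3) + 8))), fun q hq p hp hpq => ?_⟩
  have hq8 : 8 ≤ q := by omega
  have hqe : 4 * 8 ^ (A + 3) ≤ q := by omega
  have hlog : 8 ≤ Real.log q := by
    rw [Real.le_log_iff_exp_le (by positivity)]
    calc Real.exp 8 ≤ (⌈Real.exp 8⌉₊ : ℝ) := Nat.le_ceil _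
      _ ≤ q := by
        have : ⌈Real.exp 8⌉₊ ≤ q := by omega
        exact_mod_cast this
  have hqR : (8 : ℝ) ≤ q := by exact_mod_cast hq8
  have hpR : (1 : ℝ) ≤ p := by exact_mod_cast hp
  have hp5 : (p : ℝ) * Real.log q ^ 5 ≤ q / 8 := by
    have h1 : (p : ℝ) * Real.log q ^ 5 * 8 ≤ (p : ℝ) * Real.log q ^ 6 := by
      have : (p : ℝ) * Real.log q ^ 6 = (p : ℝ) * Real.log q ^ 5 * Real.log q := by ring
      rw [this]
      exact mul_le_mul_of_nonneg_left hlog (by positivity)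
    linarith
  have hpq4 : 4 * p ≤ q := by
    have h1 : (4 : ℝ) ≤ Real.log q ^ 6 := by
      calc (4 : ℝ) ≤ 8 ^ 6 := by norm_num
        _ ≤ _ := pow_le_pow_left₀ (by norm_num) hlog 6
    have h2 : (p : ℝ) * 4 ≤ p * Real.log q ^ 6 := mul_le_mul_of_nonneg_left h1 (by positivity)
    have h3 : (4 * p : ℝ) ≤ q := by linarith
    exact_mod_cast h3
  have hN : (0 : ℝ) < 2 ^ q := by positivity
  have hP : (0 : ℝ) < 2 ^ p := by positivity
  have hqA : (0 : ℝ) < (q : ℝ) ^ A := by positivity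
  set B : ℝ := (2 ^ q) ^ 2 / (2 ^ p * ((q : ℝ) / 8) ^ (A + 3)) with hB
  have hvar : ∀ s ∈ SS q, ∃ t : ℝ, ∑ a ∈ D p, ((((Icc 1 ((2 ^ q - 1) / s)).filter
      (fun n => n.Prime ∧ n % 2 ^ p = a)).card : ℝ) - t) ^ 2 ≤ B / (s : ℝ) ^ 2 := by
    intro s hs
    simp only [SS, mem_filter, mem_Icc] at hs
    obtain ⟨⟨hs1, hs2⟩, -⟩ := hs
    have hx := xs_ge q s hq8 hs1 hs2
    have hlx := log_xs q _ hq8 hx
    have hxl := xs_le q s
    set x := (2 ^ q - 1) / s with hxdef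
    have hs0 : (0 : ℝ) < s := by positivity
    have hs1R : (1 : ℝ) ≤ s := by exact_mod_cast hs1
    have hx0 : (0 : ℝ) < x := by
      have : 0 < x := lt_of_lt_of_le (by positivity) hx
      exact_mod_cast this
    have hxN : (x : ℝ) ≤ 2 ^ q := hxl.trans (div_le_self hN.le hs1R)
    have hlx2 : Real.log x ≤ q := by
      have h1 := Real.log_le_log hx0 hxN
      rw [Real.log_pow] at h1
      have h4 : Real.log 2 ≤ 1 := by linarith [Real.log_two_lt_d9]
      have h7 : (q : ℝ) * Real.log 2 ≤ q * 1 := mul_le_mul_of_nonneg_left h4 (by positivity)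
      linarith
    have hlx1 : 1 ≤ Real.log x := by linarith
    have hll : Real.log (Real.log x) ≤ Real.log q := Real.log_le_log (by linarith) hlx2
    have hll0 : 0 ≤ Real.log (Real.log x) := Real.log_nonneg hlx1
    have hcond : (p : ℝ) * Real.log (Real.log x) ^ 5 ≤ Real.log x := by
      have h1 : (p : ℝ) * Real.log (Real.log x) ^ 5 ≤ p * Real.log q ^ 5 :=
        mul_le_mul_of_nonneg_left (pow_le_pow_left₀ hll0 hll 5) (by positivity)
      linarith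
    have hXx : X₀ ≤ (x : ℝ) := by
      have h1 : ⌈X₀⌉₊ ≤ x := by
        refine le_trans ?_ hx
        have h2 : q / 2 - 1 < 2 ^ (q / 2 - 1) := Nat.lt_two_pow_self
        omega
      exact (Nat.le_ceil _).trans (by exact_mod_cast h1)
    refine ⟨_, (hX x hXx p hp hcond).trans ?_⟩
    have h1 : (x : ℝ) ^ 2 ≤ (2 ^ q / (s : ℝ)) ^ 2 := pow_le_pow_left₀ hx0.le hxl 2
    have h2 : ((q : ℝ) / 8) ^ (A + 3) ≤ Real.log x ^ (A + 3) :=
      pow_le_pow_left₀ (by positivity) hlx _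
    calc (x : ℝ) ^ 2 / (2 ^ p * Real.log x ^ (A + 3))
        ≤ (2 ^ q / (s : ℝ)) ^ 2 / (2 ^ p * ((q : ℝ) / 8) ^ (A + 3)) := by
          apply div_le_div₀ (by positivity) h1 (by positivity)
          exact mul_le_mul_of_nonneg_left h2 hP.le
      _ = B / (s : ℝ) ^ 2 := by
          rw [hB]
          field_simp
  have hkey := key q p hp B hvar
  have hB0 : 0 ≤ B := by positivity
  set T : ℝ := ((2 : ℝ) ^ q) ^ 2 / (2 ^ p * (q : ℝ) ^ A) with hT
  -- first term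
  have t1 : 2 * ((∑ s ∈ SS q, 1 / (s : ℝ)) ^ 2 * B) ≤ T / 2 := by
    have h1 : (∑ s ∈ SS q, 1 / (s : ℝ)) ^ 2 ≤ (q : ℝ) ^ 2 :=
      pow_le_pow_left₀ (sum_nonneg fun s _ => by positivity) (sum_inv q hq8) 2
    have h2 : (∑ s ∈ SS q, 1 / (s : ℝ)) ^ 2 * B ≤ (q : ℝ) ^ 2 * B :=
      mul_le_mul_of_nonneg_right h1 hB0
    have h3 : (q : ℝ) ^ 2 * B = T * (8 ^ (A + 3) / q) := by
      rw [hB, hT, div_pow]
      field_simp
      ring
    have h4 : (8 : ℝ) ^ (A + 3) / q ≤ 1 / 4 := by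
      rw [div_le_iff₀ (by positivity)]
      have : (4 * 8 ^ (A + 3) : ℝ) ≤ q := by exact_mod_cast hqe
      linarith
    have h5 : T * (8 ^ (A + 3) / q) ≤ T * (1 / 4) := mul_le_mul_of_nonneg_left h4 (by positivity)
    linarith
  have hg := hq2 q (by omega)
  -- second term
  have t2 : ∑ m ∈ D p, (W2 q p m : ℝ) ^ 2 ≤ T / 16 := by
    have h1 : ∀ m ∈ D p, (W2 q p m : ℝ) ^ 2 ≤ (2 ^ q / 2 ^ p) * (W2 q p m : ℝ) := by
      intro m _
      rw [sq]
      apply mul_le_mul_of_nonneg_right _ (by positivity)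
      have h2 : (W2 q p m : ℝ) ≤ 2 ^ (q - p) := by exact_mod_cast W2_le q p m (by omega)
      have h3 : (2 : ℝ) ^ (q - p) = 2 ^ q / 2 ^ p := by
        rw [eq_div_iff hP.ne', ← pow_add]
        congr 1
        omega
      rw [← h3]
      exact h2
    refine (sum_le_sum h1).trans ?_
    rw [← mul_sum]
    have h2 : ∑ m ∈ D p, (W2 q p m : ℝ) ≤ 2 ^ q / 2 ^ (q / 16) := by
      have h3 := hq1 q (by omega) 0 (2 ^ q) (Nat.pow_le_pow_right (by norm_num) (by omega))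
      have h4 : (∑ m ∈ D p, (W2 q p m : ℝ)) ≤ (((Ico 0 (0 + 2 ^ q)).filter
          (fun n => 0 < n ∧ 2 ^ (q / 4) < sp q n)).card : ℝ) := by exact_mod_cast sumW2 q p
      push_cast at h3
      exact h4.trans h3
    have h5 : (2 : ℝ) ^ q / 2 ^ (q / 16) ≤ 2 ^ q / (16 * (q : ℝ) ^ (A + 2)) :=
      div_le_div_of_nonneg_left hN.le (by positivity) hg
    have h6 : (2 : ℝ) ^ q / (16 * (q : ℝ) ^ (A + 2)) ≤ 2 ^ q / (16 * (q : ℝ) ^ A) := by
      apply div_le_div_of_nonneg_left hN.le (by positivity)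
      apply mul_le_mul_of_nonneg_left _ (by norm_num)
      exact pow_le_pow_right₀ (by linarith) (by omega)
    calc (2 : ℝ) ^ q / 2 ^ p * ∑ m ∈ D p, (W2 q p m : ℝ)
        ≤ 2 ^ q / 2 ^ p * (2 ^ q / (16 * (q : ℝ) ^ A)) :=
          mul_le_mul_of_nonneg_left (h2.trans (h5.trans h6)) (by positivity)
      _ = T / 16 := by
          rw [hT]
          field_simp
  -- third term
  have t3 : ∑ m ∈ D p, (∑ s ∈ SS q, (h q p m s : ℝ)) ^ 2 ≤ T / 16 := by
    have h1 : ∀ m ∈ D p, (∑ s ∈ SS q, (h q p m s : ℝ)) ^ 2 ≤ 2 ^ q * (q : ℝ) ^ 2 := by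
      intro m _
      have h2 : (∑ s ∈ SS q, (h q p m s : ℝ)) ≤ 2 ^ (q / 2) * q := by exact_mod_cast H_le q p m
      have h3 : (∑ s ∈ SS q, (h q p m s : ℝ)) ^ 2 ≤ (2 ^ (q / 2) * (q : ℝ)) ^ 2 :=
        pow_le_pow_left₀ (sum_nonneg fun s _ => by positivity) h2 2
      refine h3.trans ?_
      rw [mul_pow, ← pow_mul]
      apply mul_le_mul_of_nonneg_right _ (by positivity)
      exact pow_le_pow_right₀ (by norm_num) (by omega)
    refine (sum_le_sum h1).trans ?_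
    rw [sum_const, nsmul_eq_mul]
    have hc : ((D p).card : ℝ) ≤ 2 ^ p := by
      rw [card_D p hp]
      push_cast
      exact pow_le_pow_right₀ (by norm_num) (by omega)
    have h4 : ((D p).card : ℝ) * (2 ^ q * (q : ℝ) ^ 2) ≤ 2 ^ p * (2 ^ q * (q : ℝ) ^ 2) :=
      mul_le_mul_of_nonneg_right hc (by positivity)
    refine h4.trans ?_
    rw [hT, div_div, le_div_iff₀ (by positivity)]
    have h5 : (2 : ℝ) ^ p * (2 ^ q * (q : ℝ) ^ 2) * (2 ^ p * (q : ℝ) ^ A * 16) =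
        2 ^ q * ((2 ^ p * 2 ^ p) * (16 * (q : ℝ) ^ (A + 2))) := by ring
    rw [h5, sq]
    apply mul_le_mul_of_nonneg_left _ hN.le
    calc ((2 : ℝ) ^ p * 2 ^ p) * (16 * (q : ℝ) ^ (A + 2)) ≤ (2 ^ p * 2 ^ p) * 2 ^ (q / 16) :=
          mul_le_mul_of_nonneg_left hg (by positivity)
      _ = 2 ^ (p + p + q / 16) := by rw [pow_add, pow_add]
      _ ≤ 2 ^ q := pow_le_pow_right₀ (by norm_num) (by omega)
  have hgoal : ∑ m ∈ (range (2 ^ p)).filter (fun m => Odd m),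
      ((((range (2 ^ q)).filter (fun n => n % 2 ^ p = m ∧ (rp q n).Prime)).card : ℝ) -
        (1 / 2 ^ (p - 1)) * (cB q : ℝ)) ^ 2 ≤ T := by
    have hT0 : 0 ≤ T := by positivity
    refine le_trans hkey ?_
    linarith
  exact hgoal

end Pool.Agent.H555R4.DY.V
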