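import Pool.Agent.H555R4.DY.Stmts

set_option autoImplicit false

/-! Task DY-Var (helper128): variance of the number of successful primes. -/

open Finset Filter Topology

namespace Pool.Agent.H555R4.DY.Var

open Pool.Agent.H555R4.LW (rp sp StA StB1 StCh)

/-- odd numbers below `2 ^ N` -/
def Om (N : ℕ) : Finset ℕ := (range (2 ^ N)).filter (fun n => Odd n)

theorem sum_dbl (N : ℕ) (hN : 1 ≤ N) (F : ℕ → ℝ) (hF : ∀ n, F (n + 2 ^ N) = F n) :
    ∑ n ∈ Om (N + 1), F n = 2 * ∑ n ∈ Om N, F n := by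
  have h1 : Om (N + 1) = Om N ∪ (Om N).image (fun n => n + 2 ^ N) := by
    ext n
    simp only [Om, mem_union, Finset.mem_image, mem_filter, mem_range]
    have he : Even (2 ^ N) := (even_two).pow_of_ne_zero (by omega)
    constructor
    · rintro ⟨h1, h2⟩
      rw [pow_succ] at h1
      by_cases h3 : n < 2 ^ N
      · exact Or.inl ⟨h3, h2⟩
      · refine Or.inr ⟨n - 2 ^ N, ⟨by omega, ?_⟩, by omega⟩
        rw [Nat.odd_sub (by omega)]
        simp [h2, he]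
    · rintro (⟨h1, h2⟩ | ⟨m, ⟨h1, h2⟩, rfl⟩)
      · exact ⟨by rw [pow_succ]; omega, h2⟩
      · exact ⟨by rw [pow_succ]; omega, h2.add_even he⟩
  have hd : Disjoint (Om N) ((Om N).image (fun n => n + 2 ^ N)) := by
    rw [Finset.disjoint_left]
    intro n hn hn'
    simp only [Om, Finset.mem_image, mem_filter, mem_range] at hn hn'
    obtain ⟨m, _, rfl⟩ := hn'
    omega
  rw [h1, sum_union hd, sum_image (fun a _ b _ h => by simpa using h)]
  simp only [hF]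
  ring

theorem sum_per (M : ℕ) (hM : 1 ≤ M) (k : ℕ) (F : ℕ → ℝ) (hF : ∀ n, F (n % 2 ^ M) = F n) :
    ∑ n ∈ Om (M + k), F n = 2 ^ k * ∑ n ∈ Om M, F n := by
  induction k with
  | zero => simp
  | succ k ih =>
    rw [← add_assoc, sum_dbl (M + k) (by omega), ih]
    · ring
    · intro n
      rw [← hF, ← hF n, pow_add, Nat.add_mul_mod_self_left]

theorem sum_per' (M N : ℕ) (hM : 1 ≤ M) (hMN : M ≤ N) (F : ℕ → ℝ)
    (hF : ∀ n, F (n % 2 ^ M) = F n) :
    (∑ n ∈ Om N, F n) / 2 ^ (N - 1) = (∑ n ∈ Om M, F n) / 2 ^ (M - 1) := by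
  obtain ⟨k, rfl⟩ := Nat.exists_eq_add_of_le hMN
  rw [sum_per M hM k F hF, show M + k - 1 = k + (M - 1) by omega, pow_add]
  field_simp

theorem card_Om (N : ℕ) (hN : 1 ≤ N) : ((Om N).card : ℝ) = 2 ^ (N - 1) := by
  have h := sum_per' 1 N le_rfl hN (fun _ => (1 : ℝ)) (fun _ => rfl)
  have h1 : (∑ n ∈ Om 1, (1 : ℝ)) = 1 := by
    have : Om 1 = {1} := by decide
    rw [this, sum_singleton]
  rw [h1, sum_const, nsmul_eq_mul, mul_one] at h
  have h2 : (2 : ℝ) ^ (N - 1) ≠ 0 := by positivity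
  field_simp at h
  simpa using h

/-- indicator of success -/
noncomputable def ind (p n : ℕ) : ℝ := by
  classical exact if (rp p (n % 2 ^ p)).Prime then 1 else 0

/-- primes in the block -/
def Bl (i : ℕ) : Finset ℕ := (Ioc (2 ^ i) (2 ^ (i + 1))).filter Nat.Prime

theorem Zb_eq (i n : ℕ) : (Zb i n : ℝ) = ∑ p ∈ Bl i, ind p n := by
  classical
  unfold Zb Bl ind
  rw [← filter_filter, card_eq_sum_ones, Nat.cast_sum, sum_filter]
  simp

theorem ind_per (p q n : ℕ) (h : p ≤ q) : ind p (n % 2 ^ q) = ind p n := by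
  unfold ind
  rw [Nat.mod_mod_of_dvd _ (pow_dvd_pow 2 h)]

theorem Zb_per (i n : ℕ) : (Zb i (n % 2 ^ (2 ^ (i + 1))) : ℝ) = Zb i n := by
  rw [Zb_eq, Zb_eq]
  refine sum_congr rfl fun p hp => ?_
  rw [Bl, mem_filter, mem_Ioc] at hp
  exact ind_per _ _ _ hp.1.2

/-- expectation -/
noncomputable def ex (N : ℕ) (F : ℕ → ℝ) : ℝ := (∑ n ∈ Om N, F n) / 2 ^ (N - 1)

theorem ex_ind (q N : ℕ) (hq : 1 ≤ q) (hqN : q ≤ N) :
    ex N (ind q) = (cB q : ℝ) / 2 ^ (q - 1) := by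
  classical
  unfold ex
  rw [sum_per' q N hq hqN _ (fun n => ind_per q q n le_rfl)]
  congr 1
  have hc : cB q = ((Om q).filter (fun n => (rp q n).Prime)).card := by
    unfold cB Om
    rw [filter_filter]
  rw [hc, Finset.natCast_card_filter]
  refine sum_congr rfl fun n hn => ?_
  unfold Om at hn
  rw [mem_filter, mem_range] at hn
  unfold ind
  rw [Nat.mod_eq_of_lt hn.1]

theorem ex_ind2 (p q N : ℕ) (hq : 1 ≤ q) (hpq : p ≤ q) (hqN : q ≤ N) :
    ex N (fun n => ind p n * ind q n) = (cBB p q : ℝ) / 2 ^ (q - 1) := by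
  classical
  unfold ex
  rw [sum_per' q N hq hqN _ (fun n => by simp only [ind_per p q n hpq, ind_per q q n le_rfl])]
  congr 1
  have hc : cBB p q = ((Om q).filter (fun n => (rp q n).Prime ∧ (rp p (n % 2 ^ p)).Prime)).card := by
    unfold cBB Om
    rw [filter_filter]
  rw [hc, Finset.natCast_card_filter]
  refine sum_congr rfl fun n hn => ?_
  unfold Om at hn
  rw [mem_filter, mem_range] at hn
  unfold ind
  rw [Nat.mod_eq_of_lt hn.1]
  by_cases h1 : (rp p (n % 2 ^ p)).Prime <;> by_cases h2 : (rp q n).Prime <;> simp [h1, h2]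

/-- covariance -/
noncomputable def cv (N i j : ℕ) : ℝ :=
  ex N (fun n => (Zb i n : ℝ) * Zb j n) - ex N (fun n => (Zb i n : ℝ)) * ex N (fun n => (Zb j n : ℝ))

theorem cv_symm (N i j : ℕ) : cv N i j = cv N j i := by
  unfold cv
  rw [mul_comm (ex N fun n => (Zb i n : ℝ))]
  congr 2
  ext n
  ring

theorem cv_expand (N i j : ℕ) (hji : j ≤ i) (hiN : 2 ^ (i + 1) ≤ N) :
    cv N i j = ∑ q ∈ Bl i, ∑ p ∈ Bl j, if p ≤ q then
      ((cBB p q : ℝ) / 2 ^ (q - 1) - ((cB p : ℝ) / 2 ^ (p - 1)) * ((cB q : ℝ) / 2 ^ (q - 1)))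
      else (ex N (fun n => ind p n * ind q n) - ex N (ind p) * ex N (ind q)) := by
  have h1 : ∀ q ∈ Bl i, ∀ p ∈ Bl j, (if p ≤ q then
      ((cBB p q : ℝ) / 2 ^ (q - 1) - ((cB p : ℝ) / 2 ^ (p - 1)) * ((cB q : ℝ) / 2 ^ (q - 1)))
      else (ex N (fun n => ind p n * ind q n) - ex N (ind p) * ex N (ind q))) =
      ex N (fun n => ind p n * ind q n) - ex N (ind p) * ex N (ind q) := by
    intro q hq p hp
    rw [Bl, mem_filter, mem_Ioc] at hq hp
    split_ifs with h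
    · have hq1 : 1 ≤ q := hq.2.one_lt.le
      have hp1 : 1 ≤ p := hp.2.one_lt.le
      have hqN : q ≤ N := hq.1.2.trans hiN
      rw [ex_ind2 p q N hq1 h hqN, ex_ind p N hp1 (h.trans hqN), ex_ind q N hq1 hqN]
    · rfl
  rw [sum_congr rfl fun q hq => sum_congr rfl fun p hp => h1 q hq p hp]
  unfold cv ex
  simp only [Zb_eq, sum_sub_distrib]
  congr 1
  · simp only [← sum_div, sum_mul_sum]
    congr 1
    rw [sum_comm]
    refine sum_congr rfl fun q _ => ?_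
    rw [sum_comm]
    refine sum_congr rfl fun p _ => ?_
    refine sum_congr rfl fun n _ => ?_
    ring
  · rw [sum_comm, sum_comm (s := Om N) (t := Bl j), sum_div, sum_div, sum_mul_sum]
    refine sum_congr rfl fun q _ => sum_congr rfl fun p _ => ?_
    ring

theorem Zb_nonneg (i n : ℕ) : (0 : ℝ) ≤ Zb i n := Nat.cast_nonneg _

theorem ex_nonneg (N : ℕ) (F : ℕ → ℝ) (h : ∀ n, 0 ≤ F n) : 0 ≤ ex N F :=
  div_nonneg (sum_nonneg fun n _ => h n) (by positivity)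

theorem ex_mono (N : ℕ) (F G : ℕ → ℝ) (h : ∀ n, F n ≤ G n) : ex N F ≤ ex N G :=
  div_le_div_of_nonneg_right (sum_le_sum fun n _ => h n) (by positivity)

/-- second moments -/
theorem ex_sq (C : ℝ) (hC : ∀ i : ℕ, ∑ n ∈ (range (2 ^ (2 ^ (i + 1)))).filter (fun n => Odd n),
    (Zb i n : ℝ) ^ 2 ≤ C * 2 ^ (2 ^ (i + 1))) (i N : ℕ) (h : 2 ^ (i + 1) ≤ N) :
    ex N (fun n => (Zb i n : ℝ) ^ 2) ≤ 2 * C := by
  unfold ex
  have h1 : 1 ≤ 2 ^ (i + 1) := Nat.one_le_two_pow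
  rw [sum_per' (2 ^ (i + 1)) N h1 h _ (fun n => by simp only [Zb_per]), div_le_iff₀ (by positivity)]
  have h2 := hC i
  have h3 : (2 : ℝ) ^ (2 ^ (i + 1)) = 2 * 2 ^ (2 ^ (i + 1) - 1) := by
    rw [← pow_succ', Nat.sub_add_cancel h1]
  rw [h3] at h2
  unfold Om
  linarith

theorem ex_sq_le (N : ℕ) (hN : 1 ≤ N) (F : ℕ → ℝ) : ex N F ^ 2 ≤ ex N (fun n => F n ^ 2) := by
  unfold ex
  have h1 := sq_sum_le_card_mul_sum_sq (s := Om N) (f := F)
  rw [card_Om N hN] at h1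
  rw [div_pow, div_le_div_iff₀ (by positivity) (by positivity)]
  have h2 : (0 : ℝ) < 2 ^ (N - 1) := by positivity
  nlinarith [h1, h2]

theorem cv_abs (C : ℝ) (hC : ∀ i : ℕ, ∑ n ∈ (range (2 ^ (2 ^ (i + 1)))).filter (fun n => Odd n),
    (Zb i n : ℝ) ^ 2 ≤ C * 2 ^ (2 ^ (i + 1))) (i j N : ℕ) (hi : 2 ^ (i + 1) ≤ N)
    (hj : 2 ^ (j + 1) ≤ N) : |cv N i j| ≤ 2 * C := by
  have hN : 1 ≤ N := Nat.one_le_two_pow.trans hi
  have h1 := ex_sq C hC i N hi
  have h2 := ex_sq C hC j N hj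
  have h3 := ex_sq_le N hN (fun n => (Zb i n : ℝ))
  have h4 := ex_sq_le N hN (fun n => (Zb j n : ℝ))
  have h5 : ex N (fun n => (Zb i n : ℝ) * Zb j n) ≤ 2 * C := by
    have h6 : ex N (fun n => (Zb i n : ℝ) * Zb j n) ≤
        ex N (fun n => ((Zb i n : ℝ) ^ 2 + (Zb j n : ℝ) ^ 2) / 2) :=
      ex_mono _ _ _ fun n => by nlinarith [sq_nonneg ((Zb i n : ℝ) - Zb j n)]
    have h7 : ex N (fun n => ((Zb i n : ℝ) ^ 2 + (Zb j n : ℝ) ^ 2) / 2) =
        (ex N (fun n => (Zb i n : ℝ) ^ 2) + ex N (fun n => (Zb j n : ℝ) ^ 2)) / 2 := by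
      unfold ex
      rw [← sum_div, sum_add_distrib]
      ring
    linarith
  have h6 : 0 ≤ ex N (fun n => (Zb i n : ℝ) * Zb j n) :=
    ex_nonneg _ _ fun n => mul_nonneg (Zb_nonneg _ _) (Zb_nonneg _ _)
  have h7 : 0 ≤ ex N (fun n => (Zb i n : ℝ)) := ex_nonneg _ _ fun n => Zb_nonneg _ _
  have h8 : 0 ≤ ex N (fun n => (Zb j n : ℝ)) := ex_nonneg _ _ fun n => Zb_nonneg _ _
  unfold cv
  rw [abs_le]
  constructor
  · nlinarith [sq_nonneg (ex N (fun n => (Zb i n : ℝ)) - ex N (fun n => (Zb j n : ℝ)))]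
  · nlinarith [mul_nonneg h7 h8]

theorem Bl_card (i : ℕ) : (Bl i).card ≤ 2 ^ i := by
  unfold Bl
  refine (card_filter_le _ _).trans ?_
  rw [Nat.card_Ioc, pow_succ]
  omega

/-- far blocks -/
theorem cv_far (q₀ : ℕ) (hq₀ : ∀ q : ℕ, q₀ ≤ q → ∀ p : ℕ, 1 ≤ p →
    (p : ℝ) * (Real.log q) ^ 6 ≤ q →
    |(cBB p q : ℝ) / 2 ^ (q - 1) - ((cB p : ℝ) / 2 ^ (p - 1)) * ((cB q : ℝ) / 2 ^ (q - 1))| ≤
      1 / (q : ℝ) ^ 3) (i j N : ℕ) (hji : j ≤ i) (hiN : 2 ^ (i + 1) ≤ N) (hi : q₀ ≤ 2 ^ i)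
    (hfar : (i + 1) ^ 6 * 2 ^ (j + 1) ≤ 2 ^ i) : |cv N i j| ≤ 1 / 2 ^ i := by
  rw [cv_expand N i j hji hiN]
  have h2i : (0 : ℝ) < 2 ^ i := by positivity
  have hterm : ∀ q ∈ Bl i, ∀ p ∈ Bl j, |(if p ≤ q then
      ((cBB p q : ℝ) / 2 ^ (q - 1) - ((cB p : ℝ) / 2 ^ (p - 1)) * ((cB q : ℝ) / 2 ^ (q - 1)))
      else (ex N (fun n => ind p n * ind q n) - ex N (ind p) * ex N (ind q)))| ≤
      1 / (2 ^ i : ℝ) ^ 3 := by
    intro q hq p hp
    rw [Bl, mem_filter, mem_Ioc] at hq hp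
    have hqi : (2 : ℝ) ^ i ≤ q := by exact_mod_cast hq.1.1.le
    have hq0 : (0 : ℝ) < q := lt_of_lt_of_le h2i hqi
    have hqi' : (q : ℝ) ≤ 2 ^ (i + 1) := by exact_mod_cast hq.1.2
    have hlog : Real.log q ≤ (i + 1 : ℕ) := by
      have h1 : Real.log q ≤ Real.log (2 ^ (i + 1)) := Real.log_le_log hq0 hqi'
      rw [Real.log_pow] at h1
      have h2 := Real.log_two_lt_d9
      have h3 : ((i + 1 : ℕ) : ℝ) * Real.log 2 ≤ ((i + 1 : ℕ) : ℝ) * 1 :=
        mul_le_mul_of_nonneg_left (by linarith) (Nat.cast_nonneg _)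
      linarith
    have hlog0 : 0 ≤ Real.log q := Real.log_nonneg (by exact_mod_cast hq.2.one_lt.le)
    have hpj : (p : ℝ) ≤ 2 ^ (j + 1) := by exact_mod_cast hp.1.2
    have hcond : (p : ℝ) * (Real.log q) ^ 6 ≤ q := by
      have h1 : ((i + 1 : ℕ) : ℝ) ^ 6 * 2 ^ (j + 1) ≤ 2 ^ i := by exact_mod_cast hfar
      calc (p : ℝ) * (Real.log q) ^ 6 ≤ 2 ^ (j + 1) * ((i + 1 : ℕ) : ℝ) ^ 6 := by gcongr
        _ ≤ 2 ^ i := by linarith
        _ ≤ q := hqi
    have hpq : p ≤ q := by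
      have h1 : (1 : ℕ) ≤ (i + 1) ^ 6 := Nat.one_le_pow _ _ (by omega)
      have h2 : 2 ^ (j + 1) ≤ 2 ^ i := le_trans (Nat.le_mul_of_pos_left _ h1) hfar
      omega
    rw [if_pos hpq]
    refine (hq₀ q (by omega) p hp.2.one_lt.le hcond).trans ?_
    exact one_div_le_one_div_of_le (by positivity) (by gcongr)
  refine (abs_sum_le_sum_abs _ _).trans ((sum_le_sum fun q hq =>
    (abs_sum_le_sum_abs _ _).trans (sum_le_sum fun p hp => hterm q hq p hp)).trans ?_)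
  calc ∑ q ∈ Bl i, ∑ p ∈ Bl j, 1 / (2 ^ i : ℝ) ^ 3
      = ((Bl i).card : ℝ) * ((Bl j).card : ℝ) * (1 / (2 ^ i : ℝ) ^ 3) := by
        simp only [sum_const, nsmul_eq_mul]; ring
    _ ≤ 2 ^ i * 2 ^ i * (1 / (2 ^ i : ℝ) ^ 3) := by
        have h1 : ((Bl i).card : ℝ) ≤ 2 ^ i := by exact_mod_cast Bl_card i
        have h2 : ((Bl j).card : ℝ) ≤ 2 ^ i := by
          have h3 := (Bl_card j).trans (Nat.pow_le_pow_right (by norm_num) hji)
          exact_mod_cast h3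
        gcongr
    _ = 1 / 2 ^ i := by field_simp

theorem near_card (i0 i lam : ℕ) (h : i + 1 ≤ 2 ^ lam) :
    ((range (i + 1)).filter (fun j => ¬ (i0 ≤ i ∧ (i + 1) ^ 6 * 2 ^ (j + 1) ≤ 2 ^ i))).card ≤
      i0 + 6 * lam + 1 := by
  by_cases hi : i < i0
  · refine (card_filter_le _ _).trans ?_
    rw [card_range]; omega
  · have hsub : (range (i + 1)).filter
        (fun j => ¬ (i0 ≤ i ∧ (i + 1) ^ 6 * 2 ^ (j + 1) ≤ 2 ^ i)) ⊆
        Ico (i - 6 * lam) (i + 1) := by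
      intro j hj
      rw [mem_filter, mem_range] at hj
      rw [mem_Ico]
      refine ⟨?_, hj.1⟩
      by_contra hlt
      apply hj.2
      refine ⟨by omega, ?_⟩
      calc (i + 1) ^ 6 * 2 ^ (j + 1) ≤ (2 ^ lam) ^ 6 * 2 ^ (j + 1) := by gcongr
        _ = 2 ^ (lam * 6 + (j + 1)) := by rw [← pow_mul, ← pow_add]
        _ ≤ 2 ^ i := Nat.pow_le_pow_right (by norm_num) (by omega)
    refine (card_le_card hsub).trans ?_
    rw [Nat.card_Ico]; omega

theorem var_eq (I : ℕ) : ∑ n ∈ Om (2 ^ I), ((Sb I n : ℝ) - aS I) ^ 2 =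
    2 ^ (2 ^ I - 1) * ∑ i ∈ range I, ∑ j ∈ range I, cv (2 ^ I) i j := by
  set N := 2 ^ I with hN
  have hN1 : 1 ≤ N := Nat.one_le_two_pow
  have hcard := card_Om N hN1
  have hpos : (0 : ℝ) < 2 ^ (N - 1) := by positivity
  have haS : aS I = ∑ i ∈ range I, ex N (fun n => (Zb i n : ℝ)) := by
    unfold aS ex Sb Om
    simp only [Nat.cast_sum]
    rw [sum_comm, sum_div]
  have hS : ∀ n, ((Sb I n : ℝ) - aS I) =
      ∑ i ∈ range I, ((Zb i n : ℝ) - ex N (fun n => (Zb i n : ℝ))) := by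
    intro n
    rw [haS, sum_sub_distrib]
    unfold Sb
    simp only [Nat.cast_sum]
  have hcov : ∀ i j, ∑ n ∈ Om N, ((Zb i n : ℝ) - ex N (fun n => (Zb i n : ℝ))) *
      ((Zb j n : ℝ) - ex N (fun n => (Zb j n : ℝ))) = 2 ^ (N - 1) * cv N i j := by
    intro i j
    set u := ex N (fun n => (Zb i n : ℝ)) with hu
    set v := ex N (fun n => (Zb j n : ℝ)) with hv
    have h1 : ∑ n ∈ Om N, (Zb i n : ℝ) = 2 ^ (N - 1) * u := by
      rw [hu]; unfold ex; field_simp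
    have h2 : ∑ n ∈ Om N, (Zb j n : ℝ) = 2 ^ (N - 1) * v := by
      rw [hv]; unfold ex; field_simp
    have h3 : ∑ n ∈ Om N, (Zb i n : ℝ) * Zb j n =
        2 ^ (N - 1) * ex N (fun n => (Zb i n : ℝ) * Zb j n) := by
      unfold ex; field_simp
    have h4 : ∀ n, ((Zb i n : ℝ) - u) * ((Zb j n : ℝ) - v) =
        (Zb i n : ℝ) * Zb j n - v * (Zb i n : ℝ) - u * (Zb j n : ℝ) + u * v := fun n => by ring
    simp only [h4]
    rw [sum_add_distrib, sum_sub_distrib, sum_sub_distrib, ← mul_sum, ← mul_sum, sum_const,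
      nsmul_eq_mul, hcard, h1, h2, h3]
    unfold cv
    rw [← hu, ← hv]
    ring
  calc ∑ n ∈ Om N, ((Sb I n : ℝ) - aS I) ^ 2
      = ∑ n ∈ Om N, ∑ i ∈ range I, ∑ j ∈ range I,
        ((Zb i n : ℝ) - ex N (fun n => (Zb i n : ℝ))) *
          ((Zb j n : ℝ) - ex N (fun n => (Zb j n : ℝ))) := by
        refine sum_congr rfl fun n _ => ?_
        rw [hS n, sq, sum_mul_sum]
    _ = ∑ i ∈ range I, ∑ j ∈ range I, ∑ n ∈ Om N,
        ((Zb i n : ℝ) - ex N (fun n => (Zb i n : ℝ))) *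
          ((Zb j n : ℝ) - ex N (fun n => (Zb j n : ℝ))) := by
        rw [sum_comm]
        refine sum_congr rfl fun i _ => ?_
        rw [sum_comm]
    _ = _ := by
        simp only [hcov]
        rw [mul_sum]
        refine sum_congr rfl fun i _ => ?_
        rw [mul_sum]

theorem taskVar : TaskVar := by
  intro hSM hCov
  obtain ⟨C, hC0, hC⟩ := hSM
  obtain ⟨q₀, hq₀⟩ := hCov 3
  set K : ℝ := (2 * C * (q₀ + 13) + 1) / Real.log 2 with hK
  have hl2 : 0 < Real.log 2 := Real.log_pos (by norm_num)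
  refine ⟨K, by positivity, fun I hI => ?_⟩
  have hmain := var_eq I
  unfold Om at hmain
  rw [hmain]
  set N := 2 ^ I with hN
  have hN1 : 1 ≤ N := Nat.one_le_two_pow
  set lam := Nat.log 2 I + 1 with hlam
  have hIlam : I ≤ 2 ^ lam := (Nat.lt_pow_succ_log_self (by norm_num) I).le
  have hiN : ∀ i, i < I → 2 ^ (i + 1) ≤ N := fun i hi => Nat.pow_le_pow_right (by norm_num) hi
  -- one row
  have hrow : ∀ i ∈ range I, ∑ j ∈ range (i + 1), |cv N i j| ≤
      2 * C * (q₀ + 6 * lam + 1) + 1 := by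
    intro i hi
    rw [mem_range] at hi
    rw [← sum_filter_add_sum_filter_not (range (i + 1))
      (fun j => ¬ (q₀ ≤ i ∧ (i + 1) ^ 6 * 2 ^ (j + 1) ≤ 2 ^ i))]
    refine add_le_add ?_ ?_
    · have h1 : ∑ j ∈ (range (i + 1)).filter
          (fun j => ¬ (q₀ ≤ i ∧ (i + 1) ^ 6 * 2 ^ (j + 1) ≤ 2 ^ i)), |cv N i j| ≤
          ∑ j ∈ (range (i + 1)).filter
          (fun j => ¬ (q₀ ≤ i ∧ (i + 1) ^ 6 * 2 ^ (j + 1) ≤ 2 ^ i)), 2 * C := by
        refine sum_le_sum fun j hj => ?_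
        rw [mem_filter, mem_range] at hj
        exact cv_abs C hC i j N (hiN i hi) (hiN j (by omega))
      refine h1.trans ?_
      rw [sum_const, nsmul_eq_mul, mul_comm]
      have h2 := near_card q₀ i lam (by omega)
      have h3 : (((range (i + 1)).filter
          (fun j => ¬ (q₀ ≤ i ∧ (i + 1) ^ 6 * 2 ^ (j + 1) ≤ 2 ^ i))).card : ℝ) ≤
          q₀ + 6 * lam + 1 := by exact_mod_cast h2
      exact mul_le_mul_of_nonneg_left h3 (by positivity)
    · have h1 : ∑ j ∈ (range (i + 1)).filter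
          (fun j => ¬ ¬ (q₀ ≤ i ∧ (i + 1) ^ 6 * 2 ^ (j + 1) ≤ 2 ^ i)), |cv N i j| ≤
          ∑ j ∈ (range (i + 1)).filter
          (fun j => ¬ ¬ (q₀ ≤ i ∧ (i + 1) ^ 6 * 2 ^ (j + 1) ≤ 2 ^ i)), 1 / (2 : ℝ) ^ i := by
        refine sum_le_sum fun j hj => ?_
        rw [mem_filter, mem_range, not_not] at hj
        refine cv_far q₀ hq₀ i j N (by omega) (hiN i hi) ?_ hj.2.2
        exact hj.2.1.trans (Nat.lt_two_pow_self).le
      refine h1.trans ?_
      rw [sum_const, nsmul_eq_mul]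
      have h2 : (((range (i + 1)).filter
          (fun j => ¬ ¬ (q₀ ≤ i ∧ (i + 1) ^ 6 * 2 ^ (j + 1) ≤ 2 ^ i))).card : ℝ) ≤
          (2 : ℝ) ^ i := by
        have h3 := card_filter_le (range (i + 1))
          (fun j => ¬ ¬ (q₀ ≤ i ∧ (i + 1) ^ 6 * 2 ^ (j + 1) ≤ 2 ^ i))
        rw [card_range] at h3
        have h4 : i + 1 ≤ 2 ^ i := Nat.lt_two_pow_self
        exact_mod_cast h3.trans h4
      calc _ ≤ (2 : ℝ) ^ i * (1 / 2 ^ i) := mul_le_mul_of_nonneg_right h2 (by positivity)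
        _ = 1 := by field_simp
  have hsum : ∑ i ∈ range I, ∑ j ∈ range I, cv N i j ≤
      2 * (I * (2 * C * (q₀ + 6 * lam + 1) + 1)) := by
    have h1 : ∑ i ∈ range I, ∑ j ∈ range I, cv N i j ≤
        ∑ i ∈ range I, ∑ j ∈ range I, ((if j ≤ i then |cv N i j| else 0) +
          (if i ≤ j then |cv N j i| else 0)) := by
      refine sum_le_sum fun i _ => sum_le_sum fun j _ => ?_
      rcases le_total j i with h | h
      · rw [if_pos h]
        have : (0 : ℝ) ≤ if i ≤ j then |cv N j i| else 0 := by split_ifs <;> positivity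
        linarith [le_abs_self (cv N i j)]
      · rw [if_pos h]
        have : (0 : ℝ) ≤ if j ≤ i then |cv N i j| else 0 := by split_ifs <;> positivity
        rw [cv_symm N i j] at *
        linarith [le_abs_self (cv N j i)]
    have h2 : ∑ i ∈ range I, ∑ j ∈ range I, (if j ≤ i then |cv N i j| else 0) ≤
        I * (2 * C * (q₀ + 6 * lam + 1) + 1) := by
      have h3 : ∀ i ∈ range I, ∑ j ∈ range I, (if j ≤ i then |cv N i j| else 0) ≤
          2 * C * (q₀ + 6 * lam + 1) + 1 := by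
        intro i hi
        refine le_trans (le_of_eq ?_) (hrow i hi)
        rw [← sum_filter]
        refine sum_congr ?_ fun _ _ => rfl
        ext j
        rw [mem_range] at hi
        simp only [mem_filter, mem_range]
        omega
      refine (sum_le_sum h3).trans ?_
      rw [sum_const, card_range, nsmul_eq_mul]
    have h4 : ∑ i ∈ range I, ∑ j ∈ range I, (if i ≤ j then |cv N j i| else 0) =
        ∑ i ∈ range I, ∑ j ∈ range I, (if j ≤ i then |cv N i j| else 0) := sum_comm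
    simp only [sum_add_distrib] at h1
    linarith
  -- logarithms
  have hI2 : (2 : ℝ) ≤ I := by exact_mod_cast hI
  set ll := Real.log I / Real.log 2 with hll
  have hll1 : 1 ≤ ll := by
    rw [hll, le_div_iff₀ hl2, one_mul]
    exact Real.log_le_log (by norm_num) hI2
  have hlaml : (lam : ℝ) ≤ 2 * ll := by
    have h1 : ((2 ^ (Nat.log 2 I) : ℕ) : ℝ) ≤ I := by
      exact_mod_cast Nat.pow_log_le_self 2 (by omega)
    have h2 : (Nat.log 2 I : ℝ) * Real.log 2 ≤ Real.log I := by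
      rw [← Real.log_pow]
      refine Real.log_le_log (by positivity) ?_
      exact_mod_cast h1
    have h3 : (Nat.log 2 I : ℝ) ≤ ll := by rw [hll, le_div_iff₀ hl2]; exact h2
    rw [hlam]; push_cast; linarith
  have hq0 : (0 : ℝ) ≤ q₀ := Nat.cast_nonneg _
  have hfin : 2 * C * (q₀ + 6 * lam + 1) + 1 ≤ (2 * C * (q₀ + 13) + 1) * ll := by
    have h1 : (q₀ : ℝ) + 6 * lam + 1 ≤ (q₀ + 13) * ll := by nlinarith
    have h2 := mul_le_mul_of_nonneg_left h1 (show 0 ≤ 2 * C by positivity)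
    nlinarith
  have hpos : (0 : ℝ) < 2 ^ (N - 1) := by positivity
  have hI0 : (0 : ℝ) ≤ I := Nat.cast_nonneg _
  have h2N : (2 : ℝ) ^ N = 2 * 2 ^ (N - 1) := by
    rw [← pow_succ', Nat.sub_add_cancel hN1]
  calc (2 : ℝ) ^ (N - 1) * ∑ i ∈ range I, ∑ j ∈ range I, cv N i j
      ≤ 2 ^ (N - 1) * (2 * (I * ((2 * C * (q₀ + 13) + 1) * ll))) := by
        refine mul_le_mul_of_nonneg_left (hsum.trans ?_) hpos.le
        have := mul_le_mul_of_nonneg_left hfin hI0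
        linarith
    _ = K * (I * Real.log I) * 2 ^ N := by
        rw [hK, hll, h2N]
        field_simp

end Pool.Agent.H555R4.DY.Var
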