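import Pool.Agent.H555R4.DY.Stmts
import Pool.Agent.H378R2.M1

set_option autoImplicit false

/-! Pointwise bound of `psiPhi` for characters modulo powers of two. -/

open MeasureTheory Filter Topology Set

namespace Pool.Agent.H555R4.DY.Z2

open Pool.Agent.H378R2 (psiPhi)
open Pool.Agent.H378R2.M1 DirichletCharacter

theorem core {q : ℕ} [NeZero q] (χ : DirichletCharacter ℂ q) (hχ1 : χ ≠ 1) {X δ M C : ℝ} (A : ℕ)
    (hX : Real.exp (Real.exp 4) ≤ X)
    (hC : ∀ c : ℝ, 1 < c → c ≤ 2 →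
      ∑' n : ℕ, ArithmeticFunction.vonMangoldt n * (n : ℝ) ^ (-c) ≤ C / (c - 1) ^ 2)
    (hC48 : 48 * C ≤ Real.exp (Real.log (Real.log X)))
    (hδ0 : 0 < δ) (hδ4 : δ ≤ 1 / 4)
    (hδL : ((A : ℝ) + 7) * Real.log (Real.log X) ≤ δ * Real.log X) (hM0 : 0 ≤ M)
    (hM : M ≤ Real.exp (3 * Real.log (Real.log X)))
    (hL : ∀ s : ℂ, |s.re - 1| ≤ δ → |s.im| ≤ Real.exp (((A : ℝ) + 5) * Real.log (Real.log X)) →
      LFunction χ s ≠ 0 ∧ ‖deriv (LFunction χ) s / LFunction χ s‖ ≤ M) :
    ‖psiPhi χ X‖ ≤ X / (Real.log X) ^ A := by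
  set lam := Real.log (Real.log X) with hlam
  have hXpos : 0 < X := (Real.exp_pos _).trans_le hX
  have hLe : Real.exp 4 ≤ Real.log X := by
    rw [Real.le_log_iff_exp_le hXpos]; exact hX
  have hLpos : 0 < Real.log X := (Real.exp_pos _).trans_le hLe
  have hlam4 : 4 ≤ lam := by
    rw [hlam, Real.le_log_iff_exp_le hLpos]; exact hLe
  have hexplam : Real.exp lam = Real.log X := by rw [hlam, Real.exp_log hLpos]
  have hlam0 : 0 < lam := by linarith
  have hA0 : (0 : ℝ) ≤ A := Nat.cast_nonneg A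
  set T : ℝ := Real.exp (((A : ℝ) + 5) * lam) with hT
  have hT1 : 1 ≤ T := by
    rw [hT]; exact Real.one_le_exp (by positivity)
  have hδ1 : 1 ≤ δ * Real.log X := by nlinarith
  set c : ℝ := 1 + 1 / Real.log X with hc
  have hc1 : 1 < c := by
    rw [hc]
    have : 0 < 1 / Real.log X := by positivity
    linarith
  have hcδ : c ≤ 1 + δ := by
    rw [hc]
    have h2 : 1 / Real.log X ≤ δ := by
      rw [div_le_iff₀ hLpos]; exact hδ1
    linarith
  have hX1 : 1 ≤ X := (Real.one_le_exp (Real.exp_pos 4).le).trans hX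
  have hXc : X ^ c ≤ 3 * X := by
    rw [hc, Real.rpow_add hXpos, Real.rpow_one]
    have h1 : X ^ (1 / Real.log X) = Real.exp 1 := by
      rw [Real.rpow_def_of_pos hXpos, mul_one_div_cancel hLpos.ne']
    rw [h1]
    have := Real.exp_one_lt_d9
    nlinarith
  have hA : ∑' n : ℕ, ArithmeticFunction.vonMangoldt n * (n : ℝ) ^ (-c) ≤
      C * Real.exp (2 * lam) := by
    refine (hC c hc1 (by linarith)).trans (le_of_eq ?_)
    have h1 : c - 1 = 1 / Real.log X := by rw [hc]; ring
    have h2 : Real.exp (2 * lam) = (Real.log X) ^ 2 := by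
      rw [← hexplam, ← Real.exp_nat_mul]; norm_num
    rw [h1, h2]
    field_simp
  have hcont := contour χ hχ1 hX1 hc1 hδ0 hδ4 hcδ hXc hT1 hM0 hA hL
  refine hcont.trans ?_
  have hpowA : X / (Real.log X) ^ A = X * Real.exp (-((A : ℝ) * lam)) := by
    rw [← hexplam, ← Real.exp_nat_mul, Real.exp_neg]
    rfl
  rw [hpowA]
  have h48 : (48 : ℝ) ≤ Real.exp (4 * lam) := by
    have h1 := Real.add_one_le_exp lam
    have h2 : Real.exp (4 * lam) = Real.exp lam ^ 4 := by
      rw [← Real.exp_nat_mul]; norm_num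
    rw [h2]
    have h3 : (5 : ℝ) ≤ Real.exp lam := by linarith
    calc (48 : ℝ) ≤ 5 ^ 4 := by norm_num
      _ ≤ Real.exp lam ^ 4 := by gcongr
  have hXδ : X ^ (1 - δ) ≤ X * Real.exp (-(((A : ℝ) + 7) * lam)) := by
    rw [sub_eq_add_neg, Real.rpow_add hXpos, Real.rpow_one, Real.rpow_def_of_pos hXpos]
    have : Real.log X * -δ ≤ -(((A : ℝ) + 7) * lam) := by linarith
    gcongr
  have t1 : 48 * (X ^ (1 - δ) * M) ≤ X * Real.exp (-((A : ℝ) * lam)) := by
    calc 48 * (X ^ (1 - δ) * M)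
        ≤ Real.exp (4 * lam) * ((X * Real.exp (-(((A : ℝ) + 7) * lam))) * Real.exp (3 * lam)) := by
          gcongr
      _ = X * (Real.exp (4 * lam) * Real.exp (-(((A : ℝ) + 7) * lam)) * Real.exp (3 * lam)) := by ring
      _ = X * Real.exp (-((A : ℝ) * lam)) := by
          rw [← Real.exp_add, ← Real.exp_add]; congr 2; ring
  have hTT : 1 / T ^ 2 = Real.exp (-(2 * (((A : ℝ) + 5) * lam))) := by
    rw [hT, ← Real.exp_nat_mul, Real.exp_neg, one_div]; norm_num
  have t2 : 48 * (X * M / T ^ 2) ≤ X * Real.exp (-((A : ℝ) * lam)) := by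
    calc 48 * (X * M / T ^ 2) = X * (48 * M * (1 / T ^ 2)) := by ring
      _ ≤ X * (Real.exp (4 * lam) * Real.exp (3 * lam) *
          Real.exp (-(2 * (((A : ℝ) + 5) * lam)))) := by
          rw [hTT]
          gcongr
      _ = X * Real.exp (4 * lam + 3 * lam + -(2 * (((A : ℝ) + 5) * lam))) := by
          rw [Real.exp_add, Real.exp_add]
      _ ≤ X * Real.exp (-((A : ℝ) * lam)) := by
          gcongr
          nlinarith
  have hT1' : 1 / T = Real.exp (-(((A : ℝ) + 5) * lam)) := by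
    rw [hT, Real.exp_neg, one_div]
  have t3 : 48 * (X * (C * Real.exp (2 * lam)) / T) ≤ X * Real.exp (-((A : ℝ) * lam)) := by
    calc 48 * (X * (C * Real.exp (2 * lam)) / T) = X * ((48 * C) * Real.exp (2 * lam) * (1 / T)) := by
          ring
      _ ≤ X * (Real.exp lam * Real.exp (2 * lam) * Real.exp (-(((A : ℝ) + 5) * lam))) := by
          rw [hT1']
          gcongr
      _ = X * Real.exp (lam + 2 * lam + -(((A : ℝ) + 5) * lam)) := by
          rw [Real.exp_add, Real.exp_add]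
      _ ≤ X * Real.exp (-((A : ℝ) * lam)) := by
          gcongr
          nlinarith
  linarith

theorem im_bound {A : ℕ} {lam l : ℝ} (hlam : 4 ≤ lam) (hl : ((A : ℝ) + 6) * lam ≤ l) {s : ℂ}
    (hs : |s.im| ≤ Real.exp (((A : ℝ) + 5) * lam)) : Real.log (2 * |s.im| + 3) ≤ l := by
  rw [Real.log_le_iff_le_exp (by positivity)]
  refine le_trans ?_ (Real.exp_le_exp.2 hl)
  have hA0 : (0 : ℝ) ≤ A := Nat.cast_nonneg A
  have e : Real.exp (((A : ℝ) + 6) * lam) = Real.exp (((A : ℝ) + 5) * lam) * Real.exp lam := by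
    rw [← Real.exp_add]; congr 1; ring
  rw [e]
  have h1 := Real.add_one_le_exp lam
  have h2 := Real.add_one_le_exp (((A : ℝ) + 5) * lam)
  have h3 : (1 : ℝ) ≤ Real.exp (((A : ℝ) + 5) * lam) := Real.one_le_exp (by positivity)
  have h4 : (5 : ℝ) ≤ Real.exp lam := by linarith
  nlinarith

theorem taskZ2 : Pool.Agent.H555R4.DY.TaskZ2 := by
  intro hZ1 hQ A
  obtain ⟨c0, l₀, hc0, hc04, hl₀, hreg⟩ := hZ1
  obtain ⟨d, hd0, hd2, hnzr⟩ := nzr_exc
  obtain ⟨l1, hl1⟩ := hnzr 8
  obtain ⟨C, hC1, hC⟩ := vM_sum_bound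
  obtain ⟨a1, ha1⟩ := exp_dominates (48 * C) 1
  obtain ⟨a2, ha2⟩ := exp_dominates ((A : ℝ) + 6) 4
  obtain ⟨a3, ha3⟩ := exp_dominates (((A : ℝ) + 6) ^ 18 / d) 18
  obtain ⟨a4, ha4⟩ := exp_dominates (((A : ℝ) + 6) ^ 18 * ((A : ℝ) + 7) / d) 19
  have hA0 : (0 : ℝ) ≤ A := Nat.cast_nonneg A
  set B : ℝ := max (max (max a1 a2) (max a3 a4)) (max (max l₀ l1) (max 4 (((A : ℝ) + 7) / c0))) with hB
  refine ⟨Real.exp (Real.exp B), fun X hX a ha haX χ hχ => ?_⟩
  set lam := Real.log (Real.log X) with hlam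
  have hXpos : 0 < X := (Real.exp_pos _).trans_le hX
  have hLe : Real.exp B ≤ Real.log X := by
    rw [Real.le_log_iff_exp_le hXpos]; exact hX
  have hLpos : 0 < Real.log X := (Real.exp_pos _).trans_le hLe
  have hlamB : B ≤ lam := by
    rw [hlam, Real.le_log_iff_exp_le hLpos]; exact hLe
  have hexplam : Real.exp lam = Real.log X := by rw [hlam, Real.exp_log hLpos]
  have b1 : a1 ≤ lam := (((le_max_left _ _).trans (le_max_left _ _)).trans (le_max_left _ _)).trans hlamB
  have b2 : a2 ≤ lam := (((le_max_right _ _).trans (le_max_left _ _)).trans (le_max_left _ _)).trans hlamB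
  have b3 : a3 ≤ lam := (((le_max_left _ _).trans (le_max_right _ _)).trans (le_max_left _ _)).trans hlamB
  have b4 : a4 ≤ lam := (((le_max_right _ _).trans (le_max_right _ _)).trans (le_max_left _ _)).trans hlamB
  have b5 : l₀ ≤ lam := (((le_max_left _ _).trans (le_max_left _ _)).trans (le_max_right _ _)).trans hlamB
  have b6 : l1 ≤ lam := (((le_max_right _ _).trans (le_max_left _ _)).trans (le_max_right _ _)).trans hlamB
  have b7 : 4 ≤ lam := (((le_max_left _ _).trans (le_max_right _ _)).trans (le_max_right _ _)).trans hlamB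
  have b8 : ((A : ℝ) + 7) / c0 ≤ lam :=
    (((le_max_right _ _).trans (le_max_right _ _)).trans (le_max_right _ _)).trans hlamB
  have e1 := ha1 lam b1
  have e2 := ha2 lam b2
  have e3 := ha3 lam b3
  have e4 := ha4 lam b4
  have hlam0 : 0 < lam := by linarith
  have hX4 : Real.exp (Real.exp 4) ≤ X := by
    refine le_trans ?_ hX
    have : (4 : ℝ) ≤ B := (((le_max_left _ _).trans (le_max_right _ _)).trans (le_max_right _ _))
    exact Real.exp_le_exp.2 (Real.exp_le_exp.2 this)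
  have hC48 : 48 * C ≤ Real.exp lam := by
    refine le_trans ?_ e1
    nlinarith
  have h2a : 1 < 2 ^ a := Nat.one_lt_two_pow (by omega)
  have hne : NeZero (2 ^ a) := ⟨by positivity⟩
  have hχ1 : χ ≠ 1 := primitive_ne_one h2a hχ
  have hlogq : Real.log ((2 ^ a : ℕ) : ℝ) ≤ a := by
    push_cast
    rw [Real.log_pow]
    have : Real.log 2 ≤ 1 := by
      have := Real.log_two_lt_d9
      linarith
    nlinarith [Nat.cast_nonneg (α := ℝ) a]
  by_cases h4 : 4 ≤ a
  · -- complex characters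
    set l : ℝ := max (a : ℝ) (((A : ℝ) + 6) * lam) with hl
    have hl_lam : ((A : ℝ) + 6) * lam ≤ l := le_max_right _ _
    have hl_ge : lam ≤ l := le_trans (by nlinarith) hl_lam
    have hl0 : 0 < l := by linarith
    have hl_up : l * lam ^ 3 ≤ Real.exp lam := by
      rcases le_total (a : ℝ) (((A : ℝ) + 6) * lam) with h | h
      · rw [hl, max_eq_right h]
        calc _ = ((A : ℝ) + 6) * lam ^ 4 := by ring
          _ ≤ _ := e2
      · rw [hl, max_eq_left h, hexplam]
        exact haX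
    have hl_exp : l ≤ Real.exp lam := by
      have : 1 ≤ lam ^ 3 := one_le_pow₀ (by linarith)
      nlinarith
    have hlogl : Real.log l ≤ lam := by
      rw [Real.log_le_iff_le_exp hl0]; exact hl_exp
    have hlogl1 : 1 ≤ Real.log l := by
      rw [Real.le_log_iff_exp_le hl0]
      have := Real.exp_one_lt_d9
      linarith
    have hχ2 := hQ a h4 χ hχ
    have hden : 0 < l * Real.log l := by positivity
    have hden1 : 1 ≤ l * Real.log l := by nlinarith
    refine core χ hχ1 A hX4 hC hC48 (δ := c0 / (l * Real.log l)) (M := l ^ 3)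
      (by positivity) ?_ ?_ (by positivity) ?_ ?_
    · rw [div_le_iff₀ hden]
      nlinarith
    · rw [div_mul_eq_mul_div, le_div_iff₀ hden]
      show ((A : ℝ) + 7) * lam * (l * Real.log l) ≤ c0 * Real.log X
      rw [← hexplam]
      have k1 : ((A : ℝ) + 7) ≤ c0 * lam := by
        rw [div_le_iff₀ hc0] at b8
        linarith
      calc ((A : ℝ) + 7) * lam * (l * Real.log l)
          = ((A : ℝ) + 7) * lam * l * Real.log l := by ring
        _ ≤ (c0 * lam) * lam * l * lam := by gcongr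
        _ = c0 * (l * lam ^ 3) := by ring
        _ ≤ c0 * Real.exp lam := by gcongr
    · calc l ^ 3 ≤ Real.exp lam ^ 3 := by gcongr
        _ = Real.exp (3 * Real.log (Real.log X)) := by
          rw [← Real.exp_nat_mul, ← hlam]; norm_num
    · intro s hs1 hs2
      exact hreg l (b5.trans hl_ge) (2 ^ a) χ hχ2 (hlogq.trans (le_max_left _ _)) s hs1
        (im_bound b7 hl_lam hs2)
  · -- conductors 4 and 8
    push Not at h4
    set l : ℝ := ((A : ℝ) + 6) * lam with hl
    have hl_ge : lam ≤ l := by rw [hl]; nlinarith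
    have hl0 : 0 < l := by linarith
    obtain ⟨fs, hfs, hmain⟩ := hl1 l (b6.trans hl_ge)
    have hle8 : 2 ^ a ≤ 8 := by
      calc 2 ^ a ≤ 2 ^ 3 := Nat.pow_le_pow_right (by norm_num) (by omega)
        _ = 8 := by norm_num
    have hffs : 2 ^ a ≠ fs := by
      rcases hfs with h | h
      · rw [h]; positivity
      · omega
    have hl18 : l ^ 18 = ((A : ℝ) + 6) ^ 18 * lam ^ 18 := by rw [hl]; ring
    have hloga : Real.log ((2 ^ a : ℕ) : ℝ) ≤ l := by
      have : (a : ℝ) ≤ 3 := by exact_mod_cast (by omega : a ≤ 3)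
      linarith
    refine core χ hχ1 A hX4 hC hC48 (δ := d / l ^ 18) (M := l ^ 18 / d)
      (by positivity) ?_ ?_ (by positivity) ?_ ?_
    · rw [div_le_iff₀ (by positivity)]
      have h2 : (2 : ℝ) ≤ l := by linarith
      have h3 : (2 : ℝ) ^ 18 ≤ l ^ 18 := by gcongr
      norm_num at h3
      linarith
    · rw [div_mul_eq_mul_div, le_div_iff₀ (by positivity)]
      show ((A : ℝ) + 7) * lam * l ^ 18 ≤ d * Real.log X
      rw [← hexplam, hl18]
      have k1 : ((A : ℝ) + 6) ^ 18 * ((A : ℝ) + 7) / d * lam ^ 19 ≤ Real.exp lam := e4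
      rw [div_mul_eq_mul_div, div_le_iff₀ hd0] at k1
      calc _ = ((A : ℝ) + 6) ^ 18 * ((A : ℝ) + 7) * lam ^ 19 := by ring
        _ ≤ Real.exp lam * d := k1
        _ = _ := by ring
    · rw [hl18]
      calc ((A : ℝ) + 6) ^ 18 * lam ^ 18 / d = ((A : ℝ) + 6) ^ 18 / d * lam ^ 18 := by ring
        _ ≤ Real.exp lam := e3
        _ ≤ Real.exp (3 * Real.log (Real.log X)) := by
          rw [← hlam]
          exact Real.exp_le_exp.2 (by linarith)
    · intro s hs1 hs2
      exact hmain (2 ^ a) h2a hloga hffs χ hχ s hs1 (im_bound b7 le_rfl hs2)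

end Pool.Agent.H555R4.DY.Z2
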