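import Mathlib
import Pool.Agent.H555R4.DY.Stmts

set_option autoImplicit false

open Finset Filter Topology

namespace Pool.Agent.H555R4.DY.Z5

open Pool.Agent.H555R4.DY
open ArithmeticFunction (vonMangoldt)

/-- the balanced indicator function of a class -/
noncomputable def c (p a n : ℕ) : ℝ :=
  (if n % 2 ^ p = a then 1 else 0) - (1 / 2 ^ (p - 1)) * (if Odd n then 1 else 0)

/-- the weights of the partial summation -/
noncomputable def w (n : ℕ) : ℝ := 1 / Real.log n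

/-- the balanced sum of the von Mangoldt function -/
noncomputable def D (p a n : ℕ) : ℝ := ∑ m ∈ Icc 1 n, vonMangoldt m * c p a m

/-- the balanced sum over the primes -/
noncomputable def E (p a n : ℕ) : ℝ := ∑ m ∈ Icc 1 n, (if m.Prime then 1 else 0) * c p a m

theorem D_eq (p a x : ℕ) :
    D p a x = ∑ n ∈ (Icc 1 x).filter (fun n => n % 2 ^ p = a), vonMangoldt n -
      (1 / 2 ^ (p - 1)) * ∑ n ∈ (Icc 1 x).filter (fun n => Odd n), vonMangoldt n := by
  unfold D c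
  rw [sum_filter, sum_filter, mul_sum, ← sum_sub_distrib]
  refine sum_congr rfl fun n _ => ?_
  split_ifs <;> ring

theorem E_eq (p a x : ℕ) :
    E p a x = (((Icc 1 x).filter (fun n => n.Prime ∧ n % 2 ^ p = a)).card : ℝ) -
      (1 / 2 ^ (p - 1)) * (((Icc 1 x).filter (fun n => n.Prime ∧ Odd n)).card : ℝ) := by
  unfold E c
  rw [card_filter, card_filter, Nat.cast_sum, Nat.cast_sum, mul_sum, ← sum_sub_distrib]
  refine sum_congr rfl fun n _ => ?_
  by_cases h1 : n.Prime <;> by_cases h2 : n % 2 ^ p = a <;> by_cases h3 : Odd n <;>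
    simp [h1, h2, h3]

theorem split (f : ℕ → ℝ) {y x : ℕ} (h : y ≤ x) :
    ∑ n ∈ Icc 1 x, f n = ∑ n ∈ Icc 1 y, f n + ∑ n ∈ Ioc y x, f n := by
  induction x, h using Nat.le_induction with
  | base => simp
  | succ x hx ih => rw [sum_Icc_succ_top (by omega), ih, sum_Ioc_succ_top hx, add_assoc]

theorem abel (S w : ℕ → ℝ) {y x : ℕ} (h : y ≤ x) :
    ∑ n ∈ Ioc y x, (S n - S (n - 1)) * w n =
      S x * w (x + 1) - S y * w (y + 1) + ∑ n ∈ Ioc y x, (w n - w (n + 1)) * S n := by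
  induction x, h using Nat.le_induction with
  | base => simp
  | succ x hx ih =>
    rw [sum_Ioc_succ_top hx, ih, sum_Ioc_succ_top hx, Nat.add_sub_cancel]
    ring

theorem tele (w : ℕ → ℝ) {y x : ℕ} (h : y ≤ x) :
    ∑ n ∈ Ioc y x, (w n - w (n + 1)) = w (y + 1) - w (x + 1) := by
  induction x, h using Nat.le_induction with
  | base => simp
  | succ x hx ih =>
    rw [sum_Ioc_succ_top hx, ih]
    ring

theorem w_mono_to (w : ℕ → ℝ) {y : ℕ} (hw : ∀ n, y < n → w (n + 1) ≤ w n) {x : ℕ} (h : y ≤ x) :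
    w (x + 1) ≤ w (y + 1) := by
  induction x, h using Nat.le_induction with
  | base => exact le_rfl
  | succ x hx ih => exact (hw (x + 1) (by omega)).trans ih

theorem Msq (S w : ℕ → ℝ) {y x : ℕ} (h : y ≤ x) (hw : ∀ n, y < n → w (n + 1) ≤ w n)
    (hw0 : ∀ n, y < n → 0 ≤ w n) (hw1 : w (y + 1) ≤ 1) :
    (∑ n ∈ Ioc y x, (S n - S (n - 1)) * w n) ^ 2 ≤
      3 * (S x ^ 2 + S y ^ 2 + ∑ n ∈ Ioc y x, (w n - w (n + 1)) * S n ^ 2) := by
  rw [abel S w h]
  have hx0 : 0 ≤ w (x + 1) := hw0 _ (by omega)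
  have hy0 : 0 ≤ w (y + 1) := hw0 _ (by omega)
  have hx1 : w (x + 1) ≤ 1 := (w_mono_to w hw h).trans hw1
  have hu : ∀ n ∈ Ioc y x, 0 ≤ w n - w (n + 1) := by
    intro n hn
    rw [mem_Ioc] at hn
    have := hw n hn.1
    linarith
  have hT : (∑ n ∈ Ioc y x, (w n - w (n + 1)) * S n) ^ 2 ≤
      ∑ n ∈ Ioc y x, (w n - w (n + 1)) * S n ^ 2 := by
    have h1 := sum_sq_le_sum_mul_sum_of_sq_le_mul (Ioc y x)
      (r := fun n => (w n - w (n + 1)) * S n) (f := fun n => w n - w (n + 1))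
      (g := fun n => (w n - w (n + 1)) * S n ^ 2) hu
      (fun n hn => mul_nonneg (hu n hn) (sq_nonneg _)) (fun n hn => le_of_eq (by ring))
    refine h1.trans ?_
    have h2 : ∑ n ∈ Ioc y x, (w n - w (n + 1)) ≤ 1 := by
      rw [tele w h]
      linarith
    have h3 : 0 ≤ ∑ n ∈ Ioc y x, (w n - w (n + 1)) * S n ^ 2 :=
      sum_nonneg fun n hn => mul_nonneg (hu n hn) (sq_nonneg _)
    calc (∑ n ∈ Ioc y x, (w n - w (n + 1))) * ∑ n ∈ Ioc y x, (w n - w (n + 1)) * S n ^ 2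
        ≤ 1 * ∑ n ∈ Ioc y x, (w n - w (n + 1)) * S n ^ 2 := mul_le_mul_of_nonneg_right h2 h3
      _ = _ := one_mul _
  have h1 : (S x * w (x + 1)) ^ 2 ≤ S x ^ 2 := by
    rw [mul_pow]
    have : w (x + 1) ^ 2 ≤ 1 := by nlinarith
    nlinarith [sq_nonneg (S x)]
  have h2 : (S y * w (y + 1)) ^ 2 ≤ S y ^ 2 := by
    rw [mul_pow]
    have : w (y + 1) ^ 2 ≤ 1 := by nlinarith
    nlinarith [sq_nonneg (S y)]
  set α := S x * w (x + 1)
  set β := S y * w (y + 1)
  set T := ∑ n ∈ Ioc y x, (w n - w (n + 1)) * S n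
  nlinarith [sq_nonneg (α + β), sq_nonneg (α - T), sq_nonneg (β + T)]

theorem Msum {ι : Type*} (I : Finset ι) (S : ι → ℕ → ℝ) (w : ℕ → ℝ) {y x : ℕ} (h : y ≤ x)
    (hw : ∀ n, y < n → w (n + 1) ≤ w n) (hw0 : ∀ n, y < n → 0 ≤ w n) (hw1 : w (y + 1) ≤ 1)
    {B : ℝ} (hB0 : 0 ≤ B) (hB : ∀ n, y ≤ n → n ≤ x → ∑ a ∈ I, S a n ^ 2 ≤ B) :
    ∑ a ∈ I, (∑ n ∈ Ioc y x, (S a n - S a (n - 1)) * w n) ^ 2 ≤ 9 * B := by
  have h1 : ∑ a ∈ I, (∑ n ∈ Ioc y x, (S a n - S a (n - 1)) * w n) ^ 2 ≤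
      ∑ a ∈ I, 3 * (S a x ^ 2 + S a y ^ 2 + ∑ n ∈ Ioc y x, (w n - w (n + 1)) * S a n ^ 2) :=
    sum_le_sum fun a _ => Msq (S a) w h hw hw0 hw1
  refine h1.trans ?_
  rw [← mul_sum, sum_add_distrib, sum_add_distrib, sum_comm]
  have h2 := hB x h le_rfl
  have h3 := hB y le_rfl h
  have h4 : ∑ n ∈ Ioc y x, ∑ a ∈ I, (w n - w (n + 1)) * S a n ^ 2 ≤ B := by
    calc ∑ n ∈ Ioc y x, ∑ a ∈ I, (w n - w (n + 1)) * S a n ^ 2
        ≤ ∑ n ∈ Ioc y x, (w n - w (n + 1)) * B := by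
          refine sum_le_sum fun n hn => ?_
          rw [mem_Ioc] at hn
          rw [← mul_sum]
          have h5 := hw n hn.1
          exact mul_le_mul_of_nonneg_left (hB n hn.1.le hn.2) (by linarith)
      _ = (w (y + 1) - w (x + 1)) * B := by rw [← sum_mul, tele w h]
      _ ≤ 1 * B := by
          have h6 := hw0 (x + 1) (by omega)
          exact mul_le_mul_of_nonneg_right (by linarith) hB0
      _ = B := one_mul B
  linarith

theorem card_odd {p : ℕ} (hp : 1 ≤ p) :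
    (((range (2 ^ p)).filter (fun a => Odd a)).card : ℝ) ≤ 2 ^ (p - 1) := by
  have h : (range (2 ^ p)).filter (fun a => Odd a) ⊆
      (range (2 ^ (p - 1))).image (fun i => 2 * i + 1) := by
    intro a ha
    rw [mem_filter, mem_range] at ha
    obtain ⟨k, hk⟩ := ha.2
    rw [mem_image]
    refine ⟨k, ?_, hk.symm⟩
    rw [mem_range]
    obtain ⟨q, rfl⟩ : ∃ q, p = q + 1 := ⟨p - 1, by omega⟩
    rw [Nat.add_sub_cancel]
    have := ha.1
    rw [pow_succ] at this
    omega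
  have h2 := (card_le_card h).trans card_image_le
  rw [card_range] at h2
  exact_mod_cast h2

theorem sum_c {p : ℕ} (hp : 1 ≤ p) (n : ℕ) :
    ∑ a ∈ (range (2 ^ p)).filter (fun a => Odd a), |c p a n| ≤ 2 := by
  have h0 : (0 : ℝ) < 1 / 2 ^ (p - 1) := by positivity
  have h1 : ∀ a, |c p a n| ≤ (if n % 2 ^ p = a then 1 else 0) + 1 / 2 ^ (p - 1) := by
    intro a
    unfold c
    rw [abs_le]
    constructor <;> split_ifs <;> linarith
  calc ∑ a ∈ (range (2 ^ p)).filter (fun a => Odd a), |c p a n|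
      ≤ ∑ a ∈ (range (2 ^ p)).filter (fun a => Odd a),
          ((if n % 2 ^ p = a then (1 : ℝ) else 0) + 1 / 2 ^ (p - 1)) :=
        sum_le_sum fun a _ => h1 a
    _ ≤ 1 + 1 := by
        rw [sum_add_distrib, Finset.sum_ite_eq, sum_const, nsmul_eq_mul]
        refine add_le_add ?_ ?_
        · split_ifs <;> norm_num
        · have h2 := card_odd hp
          calc (((range (2 ^ p)).filter (fun a => Odd a)).card : ℝ) * (1 / 2 ^ (p - 1))
              ≤ 2 ^ (p - 1) * (1 / 2 ^ (p - 1)) := mul_le_mul_of_nonneg_right h2 h0.le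
            _ = 1 := by
              rw [mul_one_div, div_self (by positivity)]
    _ = 2 := by norm_num

theorem sum_r {p : ℕ} (hp : 1 ≤ p) {y x : ℕ} (hyx : y ≤ x) (hx : 1 ≤ x)
    (hw0 : ∀ n, y < n → 0 ≤ w n) (hw1 : ∀ n, y < n → w n ≤ 1)
    (hlog : ∀ n : ℕ, y < n → Real.log n ≠ 0) :
    ∑ a ∈ (range (2 ^ p)).filter (fun a => Odd a),
      |E p a x - ∑ n ∈ Ioc y x, (vonMangoldt n * c p a n) * w n| ≤
        2 * y + 4 * (√x * Real.log x) := by
  set g : ℕ → ℝ := fun n => if ¬ n.Prime then vonMangoldt n else 0 with hg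
  have hg0 : ∀ n, 0 ≤ g n := by
    intro n
    simp only [hg]
    split_ifs
    · exact le_rfl
    · exact ArithmeticFunction.vonMangoldt_nonneg
  have h1 : ∀ a, |E p a x - ∑ n ∈ Ioc y x, (vonMangoldt n * c p a n) * w n| ≤
      ∑ n ∈ Icc 1 y, |c p a n| + ∑ n ∈ Ioc y x, g n * |c p a n| := by
    intro a
    unfold E
    rw [split _ hyx, add_sub_assoc, ← sum_sub_distrib]
    refine (abs_add_le _ _).trans (add_le_add ?_ ?_)
    · refine (abs_sum_le_sum_abs _ _).trans (sum_le_sum fun n _ => ?_)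
      rw [abs_mul]
      have : |(if n.Prime then (1 : ℝ) else 0)| ≤ 1 := by split_ifs <;> norm_num
      calc |(if n.Prime then (1 : ℝ) else 0)| * |c p a n| ≤ 1 * |c p a n| :=
            mul_le_mul_of_nonneg_right this (abs_nonneg _)
        _ = _ := one_mul _
    · refine (abs_sum_le_sum_abs _ _).trans (sum_le_sum fun n hn => ?_)
      rw [mem_Ioc] at hn
      have e : (if n.Prime then (1 : ℝ) else 0) * c p a n - vonMangoldt n * c p a n * w n =
          ((if n.Prime then (1 : ℝ) else 0) - vonMangoldt n * w n) * c p a n := by ring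
      rw [e, abs_mul]
      refine mul_le_mul_of_nonneg_right ?_ (abs_nonneg _)
      simp only [hg]
      by_cases hpr : n.Prime
      · rw [if_pos hpr, if_neg (not_not.2 hpr), ArithmeticFunction.vonMangoldt_apply_prime hpr]
        unfold w
        rw [mul_one_div, div_self (hlog n hn.1), sub_self, abs_zero]
      · rw [if_neg hpr, if_pos hpr, zero_sub, abs_neg, abs_mul,
          abs_of_nonneg ArithmeticFunction.vonMangoldt_nonneg, abs_of_nonneg (hw0 n hn.1)]
        calc vonMangoldt n * w n ≤ vonMangoldt n * 1 :=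
              mul_le_mul_of_nonneg_left (hw1 n hn.1) ArithmeticFunction.vonMangoldt_nonneg
          _ = _ := mul_one _
  refine (sum_le_sum fun a _ => h1 a).trans ?_
  rw [sum_add_distrib, sum_comm, sum_comm (s := (range (2 ^ p)).filter (fun a => Odd a))
    (t := Ioc y x)]
  have h2 : ∑ n ∈ Icc 1 y, ∑ a ∈ (range (2 ^ p)).filter (fun a => Odd a), |c p a n| ≤ 2 * y := by
    calc ∑ n ∈ Icc 1 y, ∑ a ∈ (range (2 ^ p)).filter (fun a => Odd a), |c p a n|
        ≤ ∑ n ∈ Icc 1 y, (2 : ℝ) := sum_le_sum fun n _ => sum_c hp n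
      _ = 2 * y := by
        rw [sum_const, Nat.card_Icc, Nat.add_sub_cancel, nsmul_eq_mul, mul_comm]
  have h3 : ∑ n ∈ Ioc y x, ∑ a ∈ (range (2 ^ p)).filter (fun a => Odd a), g n * |c p a n| ≤
      4 * (√x * Real.log x) := by
    calc ∑ n ∈ Ioc y x, ∑ a ∈ (range (2 ^ p)).filter (fun a => Odd a), g n * |c p a n|
        ≤ ∑ n ∈ Ioc y x, g n * 2 := by
          refine sum_le_sum fun n _ => ?_
          rw [← mul_sum]
          exact mul_le_mul_of_nonneg_left (sum_c hp n) (hg0 n)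
      _ ≤ ∑ n ∈ Ioc 0 x, g n * 2 := by
          refine sum_le_sum_of_subset_of_nonneg ?_ fun n _ _ => mul_nonneg (hg0 n) (by norm_num)
          exact Ioc_subset_Ioc_left (Nat.zero_le _)
      _ = (Chebyshev.psi x - Chebyshev.theta x) * 2 := by
          rw [Chebyshev.psi_sub_theta_eq_sum_not_prime, Nat.floor_natCast, ← sum_mul, sum_filter]
      _ ≤ (2 * √x * Real.log x) * 2 := by
          have hx1 : (1 : ℝ) ≤ x := by exact_mod_cast hx
          exact mul_le_mul_of_nonneg_right (Chebyshev.psi_sub_theta_le hx1) (by norm_num)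
      _ = 4 * (√x * Real.log x) := by ring
  exact add_le_add h2 h3

/-- from the von Mangoldt function to the primes -/
theorem core {p A x : ℕ} (hp : 1 ≤ p) (h4 : ∀ n : ℕ, Nat.sqrt x + 1 ≤ n → n ≤ x →
      ∑ a ∈ (range (2 ^ p)).filter (fun a => Odd a), D p a n ^ 2 ≤
        (n : ℝ) ^ 2 / (2 ^ p * (Real.log n) ^ (A + 1)))
    (hL : 36 * 2 ^ (A + 1) ≤ Real.log x) (h2 : 2 ≤ Real.log (Real.log x))
    (hpx : (p : ℝ) * (Real.log (Real.log x)) ^ 5 ≤ Real.log x)
    (hbig : 256 * (Real.log x) ^ (A + 2) ≤ √x) (hx4 : 4 ≤ x) :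
    ∑ a ∈ (range (2 ^ p)).filter (fun a => Odd a), E p a x ^ 2 ≤
      (x : ℝ) ^ 2 / (2 ^ p * (Real.log x) ^ A) := by
  set L := Real.log x with hLdef
  set y := Nat.sqrt x + 1 with hy
  have hxr : (4 : ℝ) ≤ x := by exact_mod_cast hx4
  have hx0 : (0 : ℝ) < x := by linarith
  have hpow : (1 : ℝ) ≤ 2 ^ (A + 1) := one_le_pow₀ (by norm_num)
  have hL36 : 36 ≤ L := by nlinarith
  have hL0 : 0 < L := by linarith
  have hyx : y ≤ x := by
    have h := Nat.sqrt_le' x
    have h3 : 2 ≤ Nat.sqrt x := Nat.le_sqrt'.2 (by omega)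
    nlinarith
  have hsq : √x ≤ (y : ℝ) := by
    rw [Real.sqrt_le_left (by positivity)]
    have := Nat.lt_succ_sqrt' x
    exact_mod_cast this.le
  have hs1 : 1 ≤ √(x : ℝ) := by
    rw [Real.one_le_sqrt]
    linarith
  have hyle : (y : ℝ) ≤ 2 * √x := by
    have h3 : ((Nat.sqrt x : ℕ) : ℝ) ≤ √x := Real.nat_sqrt_le_real_sqrt
    rw [hy]
    push_cast
    linarith
  have hlogn : ∀ n : ℕ, y ≤ n → L / 2 ≤ Real.log n := by
    intro n hn
    have h3 : √(x : ℝ) ≤ n := hsq.trans (by exact_mod_cast hn)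
    have h5 := Real.log_le_log (by linarith) h3
    rwa [Real.log_sqrt hx0.le] at h5
  have hw0 : ∀ n, y < n → 0 ≤ w n := by
    intro n hn
    have := hlogn n hn.le
    exact div_nonneg zero_le_one (by linarith)
  have hw1 : ∀ n, y < n → w n ≤ 1 := by
    intro n hn
    have := hlogn n hn.le
    unfold w
    rw [div_le_one (by linarith)]
    linarith
  have hw : ∀ n, y < n → w (n + 1) ≤ w n := by
    intro n hn
    have h5 := hlogn n hn.le
    unfold w
    refine one_div_le_one_div_of_le (by linarith) ?_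
    refine Real.log_le_log ?_ (by push_cast; linarith)
    have : 0 < n := by omega
    exact_mod_cast this
  set B : ℝ := (x : ℝ) ^ 2 / (2 ^ p * (L / 2) ^ (A + 1)) with hB
  have hB0 : 0 ≤ B := by positivity
  have hV : ∀ n, y ≤ n → n ≤ x →
      ∑ a ∈ (range (2 ^ p)).filter (fun a => Odd a), D p a n ^ 2 ≤ B := by
    intro n hn hnx
    refine (h4 n hn hnx).trans ?_
    rw [hB]
    have h5 : (n : ℝ) ≤ x := by exact_mod_cast hnx
    have h6 := hlogn n hn
    gcongr
  have hM := Msum ((range (2 ^ p)).filter (fun a => Odd a)) (fun a n => D p a n) w hyx hw hw0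
    (hw1 (y + 1) (by omega)) hB0 hV
  have hMeq : ∀ a, ∑ n ∈ Ioc y x, (D p a n - D p a (n - 1)) * w n =
      ∑ n ∈ Ioc y x, (vonMangoldt n * c p a n) * w n := by
    intro a
    refine sum_congr rfl fun n hn => ?_
    rw [mem_Ioc] at hn
    obtain ⟨m, rfl⟩ : ∃ m, n = m + 1 := ⟨n - 1, by omega⟩
    rw [Nat.add_sub_cancel]
    unfold D
    rw [sum_Icc_succ_top (by omega), add_sub_cancel_left]
  simp only [hMeq] at hM
  have hR := sum_r hp hyx (by omega : 1 ≤ x) hw0 hw1 (fun n hn => by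
    have := hlogn n hn.le
    intro h
    linarith)
  have hR2 : ∑ a ∈ (range (2 ^ p)).filter (fun a => Odd a),
      (E p a x - ∑ n ∈ Ioc y x, (vonMangoldt n * c p a n) * w n) ^ 2 ≤ (8 * √x * L) ^ 2 := by
    have h5 : ∑ a ∈ (range (2 ^ p)).filter (fun a => Odd a),
        (E p a x - ∑ n ∈ Ioc y x, (vonMangoldt n * c p a n) * w n) ^ 2 ≤
        (∑ a ∈ (range (2 ^ p)).filter (fun a => Odd a),
        |E p a x - ∑ n ∈ Ioc y x, (vonMangoldt n * c p a n) * w n|) ^ 2 := by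
      have h6 := sum_sq_le_sq_sum_of_nonneg (s := (range (2 ^ p)).filter (fun a => Odd a))
        (f := fun a => |E p a x - ∑ n ∈ Ioc y x, (vonMangoldt n * c p a n) * w n|)
        (fun _ _ => abs_nonneg _)
      simpa only [sq_abs] using h6
    refine h5.trans ?_
    refine pow_le_pow_left₀ (sum_nonneg fun _ _ => abs_nonneg _) (hR.trans ?_) 2
    nlinarith [mul_nonneg (by linarith : 0 ≤ √(x : ℝ)) (by linarith : 0 ≤ L - 1)]
  have hsum : ∑ a ∈ (range (2 ^ p)).filter (fun a => Odd a), E p a x ^ 2 ≤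
      2 * (9 * B) + 2 * (8 * √x * L) ^ 2 := by
    have h5 : ∀ a, E p a x ^ 2 ≤ 2 * (∑ n ∈ Ioc y x, (vonMangoldt n * c p a n) * w n) ^ 2 +
        2 * (E p a x - ∑ n ∈ Ioc y x, (vonMangoldt n * c p a n) * w n) ^ 2 := by
      intro a
      nlinarith [sq_nonneg (E p a x - 2 * ∑ n ∈ Ioc y x, (vonMangoldt n * c p a n) * w n)]
    refine (sum_le_sum fun a _ => h5 a).trans ?_
    rw [sum_add_distrib, ← mul_sum, ← mul_sum]
    linarith
  refine hsum.trans ?_
  have hB2 : 2 * (9 * B) ≤ (x : ℝ) ^ 2 / (2 ^ p * L ^ A) / 2 := by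
    have e : 2 * (9 * B) = (x : ℝ) ^ 2 / (2 ^ p * L ^ A) / 2 * ((36 * 2 ^ (A + 1)) / L) := by
      rw [hB, div_pow]
      field_simp
      ring
    rw [e]
    have h5 : (36 * 2 ^ (A + 1)) / L ≤ 1 := (div_le_one hL0).2 hL
    have h6 : 0 ≤ (x : ℝ) ^ 2 / (2 ^ p * L ^ A) / 2 := by positivity
    calc _ ≤ (x : ℝ) ^ 2 / (2 ^ p * L ^ A) / 2 * 1 := mul_le_mul_of_nonneg_left h5 h6
      _ = _ := mul_one _
  have hC : 2 * (8 * √x * L) ^ 2 ≤ (x : ℝ) ^ 2 / (2 ^ p * L ^ A) / 2 := by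
    have h5 : (2 : ℝ) ^ p ≤ √x := by
      have h6 : (p : ℝ) * 2 ^ 5 ≤ L := by
        refine le_trans ?_ hpx
        have : (2 : ℝ) ^ 5 ≤ (Real.log L) ^ 5 := pow_le_pow_left₀ (by norm_num) h2 5
        exact mul_le_mul_of_nonneg_left this (Nat.cast_nonneg p)
      have h7 : Real.log ((2 : ℝ) ^ p) ≤ Real.log (√x) := by
        rw [Real.log_pow, Real.log_sqrt hx0.le]
        have h8 := Real.log_two_lt_d9
        have h9 : (0 : ℝ) ≤ p := Nat.cast_nonneg p
        nlinarith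
      exact (Real.log_le_log_iff (by positivity) (by positivity)).1 h7
    rw [div_div, le_div_iff₀ (by positivity)]
    have h6 : (8 * √x * L) ^ 2 = 64 * x * L ^ 2 := by
      rw [mul_pow, mul_pow, Real.sq_sqrt hx0.le]
      ring
    rw [h6]
    have h7 : (2 : ℝ) ^ p * (256 * L ^ (A + 2)) ≤ √x * √x :=
      mul_le_mul h5 hbig (by positivity) (by positivity)
    rw [Real.mul_self_sqrt hx0.le] at h7
    calc 2 * (64 * x * L ^ 2) * (2 ^ p * L ^ A * 2)
        = x * (2 ^ p * (256 * L ^ (A + 2))) := by ring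
      _ ≤ x * x := mul_le_mul_of_nonneg_left h7 hx0.le
      _ = (x : ℝ) ^ 2 := by ring
  linarith

theorem taskZ5 : Pool.Agent.H555R4.DY.TaskZ5 := by
  intro hZ4 A
  obtain ⟨X₀, hX⟩ := hZ4 (A + 1)
  have t1 : Tendsto (fun x : ℝ => Real.log x) atTop atTop := Real.tendsto_log_atTop
  have t2 : Tendsto (fun x : ℝ => Real.log (Real.log x)) atTop atTop := t1.comp t1
  have t3 : Tendsto (fun x : ℝ => √x) atTop atTop := Real.tendsto_sqrt_atTop
  have e4 : ∀ᶠ x : ℝ in atTop, 256 * (Real.log x) ^ (A + 2) ≤ √x := by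
    have h1 : (fun x : ℝ => Real.log x ^ (A + 2)) =o[atTop] fun x : ℝ => x ^ (1 / 2 : ℝ) := by
      have := isLittleO_log_rpow_rpow_atTop ((A + 2 : ℕ) : ℝ) (by norm_num : (0 : ℝ) < 1 / 2)
      simpa only [Real.rpow_natCast] using this
    have h2 := h1.bound (by norm_num : (0 : ℝ) < 1 / 256)
    filter_upwards [h2, eventually_ge_atTop 1] with x hx hx1
    rw [← Real.sqrt_eq_rpow, Real.norm_eq_abs, Real.norm_eq_abs, abs_of_nonneg (Real.sqrt_nonneg _),
      abs_of_nonneg (pow_nonneg (Real.log_nonneg hx1) _)] at hx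
    linarith
  obtain ⟨X₁, h1⟩ := eventually_atTop.1 ((t1.eventually_ge_atTop (36 * 2 ^ (A + 1))).and
    ((t2.eventually_ge_atTop 2).and ((t3.eventually_ge_atTop X₀).and
      (e4.and (eventually_ge_atTop (4 : ℝ))))))
  refine ⟨X₁, fun x hx p hp hpx => ?_⟩
  obtain ⟨hL, h2, hs, hbig, hx4⟩ := h1 x hx
  have hmain := core (A := A) (x := x) hp (fun n hn hnx => ?_) hL h2 hpx hbig (by exact_mod_cast hx4)
  · simpa only [E_eq] using hmain
  · have hsq : √(x : ℝ) ≤ (n : ℝ) := by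
      rw [Real.sqrt_le_left (by positivity)]
      have h3 := Nat.lt_succ_sqrt' x
      have h5 : x ≤ n ^ 2 := h3.le.trans (Nat.pow_le_pow_left hn 2)
      exact_mod_cast h5
    have hx0 : (0 : ℝ) < x := by linarith
    have hs1 : 1 ≤ √(x : ℝ) := by
      rw [Real.one_le_sqrt]
      linarith
    have hpow : (1 : ℝ) ≤ 2 ^ (A + 1) := one_le_pow₀ (by norm_num)
    have hlog : Real.log x / 2 ≤ Real.log n := by
      have h5 := Real.log_le_log (by linarith) hsq
      rwa [Real.log_sqrt hx0.le] at h5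
    have hnx' : (n : ℝ) ≤ x := by exact_mod_cast hnx
    have hlogx : Real.log n ≤ Real.log x := Real.log_le_log (by linarith) hnx'
    have hll : Real.log (Real.log n) ≤ Real.log (Real.log x) :=
      Real.log_le_log (by nlinarith) hlogx
    have hll0 : 0 ≤ Real.log (Real.log n) := Real.log_nonneg (by nlinarith)
    have hp0 : (0 : ℝ) ≤ p := Nat.cast_nonneg p
    have h6 : (p : ℝ) * (Real.log (Real.log n)) ^ 4 ≤ Real.log n := by
      have h7 : (p : ℝ) * (Real.log (Real.log n)) ^ 4 ≤ p * (Real.log (Real.log x)) ^ 4 := by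
        gcongr
      have h8 : 2 * (p * (Real.log (Real.log x)) ^ 4) ≤ p * (Real.log (Real.log x)) ^ 5 := by
        have h9 : 0 ≤ p * (Real.log (Real.log x)) ^ 4 := by positivity
        have e : (p : ℝ) * (Real.log (Real.log x)) ^ 5 =
          Real.log (Real.log x) * (p * (Real.log (Real.log x)) ^ 4) := by ring
        rw [e]
        exact mul_le_mul_of_nonneg_right h2 h9
      linarith
    have h10 := hX n (hs.trans hsq) p hp h6
    simpa only [D_eq] using h10

end Pool.Agent.H555R4.DY.Z5
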